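import Pool.Agent.Lib.MP_fabde4_an.SpecB
import Pool.Agent.Lib.MP_fabde4_an.M.Lop
import Pool.Agent.Lib.MP_fabde4_an.F.EllD
import Pool.Agent.Lib.MP_fabde4_an.SpecN

section
/-!
MP_fabde4_an, toolbox B: global integral curves of `C¹` fields of linear growth.
-/
set_option autoImplicit false
open MeasureTheory Set Filter Topology
open scoped NNReal Manifold

namespace MPfab.Glob

variable {V : Type} [NormedAddCommGroup V] [NormedSpace ℝ V] [FiniteDimensional ℝ V]

/-- local solutions on a time interval independent of the initial point -/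
lemma local_sol (X : V → V) (C : ℝ) (hC : 0 < C) (hX : ContDiff ℝ 1 X)
    (hg : ∀ v, ‖X v‖ ≤ C * (1 + ‖v‖)) (x : V) :
    ∃ γ : ℝ → V, γ 0 = x ∧ ∀ t ∈ Ioo (-(1 / (2 * C))) (1 / (2 * C)),
      HasDerivAt γ (X (γ t)) t := by
  have : CompleteSpace V := FiniteDimensional.complete ℝ V
  have : ProperSpace V := FiniteDimensional.proper ℝ V
  set a : ℝ≥0 := ⟨1 + ‖x‖, by positivity⟩ with ha
  set L : ℝ≥0 := ⟨C * (2 + 2 * ‖x‖), by positivity⟩ with hL
  set τ : ℝ := 1 / (2 * C) with hτ
  have hτ0 : 0 < τ := by positivity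
  obtain ⟨K, hK⟩ := (hX.contDiffOn (s := Metric.closedBall x (a : ℝ))).exists_lipschitzOnWith
    one_ne_zero (convex_closedBall x (a : ℝ)) (isCompact_closedBall x (a : ℝ))
  have hb : ∀ y ∈ Metric.closedBall x (a : ℝ), ‖X y‖ ≤ (L : ℝ) := by
    intro y hy
    rw [mem_closedBall_iff_norm] at hy
    have h1 : ‖y‖ ≤ ‖x‖ + (1 + ‖x‖) := by
      calc ‖y‖ = ‖x + (y - x)‖ := by simp
        _ ≤ ‖x‖ + ‖y - x‖ := norm_add_le _ _
        _ ≤ ‖x‖ + (1 + ‖x‖) := by
          have : (a : ℝ) = 1 + ‖x‖ := rfl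
          linarith
    have h2 : (L : ℝ) = C * (2 + 2 * ‖x‖) := rfl
    rw [h2]
    refine (hg y).trans ?_
    have : 1 + ‖y‖ ≤ 2 + 2 * ‖x‖ := by linarith
    nlinarith
  have hm : (L : ℝ) * max (τ - (0 : ℝ)) (0 - (-τ)) ≤ (a : ℝ) - ((0 : ℝ≥0) : ℝ) := by
    have h2 : (L : ℝ) = C * (2 + 2 * ‖x‖) := rfl
    have h3 : (a : ℝ) = 1 + ‖x‖ := rfl
    have h4 : max (τ - (0 : ℝ)) (0 - (-τ)) = τ := by simp
    rw [h4, h2, h3, hτ]
    simp only [NNReal.coe_zero, sub_zero]
    apply le_of_eq
    field_simp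
  have hpl : IsPicardLindelof (fun _ ↦ X) (tmin := -τ) (tmax := τ)
      ⟨0, by constructor <;> linarith⟩ x a 0 L K :=
    IsPicardLindelof.of_time_independent hb hK hm
  obtain ⟨γ, h0, hγ⟩ := hpl.exists_eq_forall_mem_Icc_hasDerivWithinAt₀
  refine ⟨γ, h0, fun t ht => ?_⟩
  exact (hγ t (Ioo_subset_Icc_self ht)).hasDerivAt (Icc_mem_nhds ht.1 ht.2)

lemma global_sol (X : V → V) (C : ℝ) (hX : ContDiff ℝ 1 X)
    (hg : ∀ v, ‖X v‖ ≤ C * (1 + ‖v‖)) (x : V) :
    ∃ γ : ℝ → V, γ 0 = x ∧ ∀ t, HasDerivAt γ (X (γ t)) t := by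
  have : CompleteSpace V := FiniteDimensional.complete ℝ V
  set C' : ℝ := |C| + 1 with hC'
  have hC0 : 0 < C' := by positivity
  have hg' : ∀ v, ‖X v‖ ≤ C' * (1 + ‖v‖) := by
    intro v
    refine (hg v).trans ?_
    have : C ≤ C' := by
      have := le_abs_self C
      linarith
    have h2 : 0 ≤ 1 + ‖v‖ := by positivity
    nlinarith
  have hv : ContMDiff 𝓘(ℝ, V) 𝓘(ℝ, V).tangent 1
      (fun y : V => (⟨y, X y⟩ : TangentBundle 𝓘(ℝ, V) V)) :=
    contMDiff_vectorSpace_iff_contDiff.2 hX
  have hε : (0 : ℝ) < 1 / (2 * C') := by positivity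
  obtain ⟨γ, h0, hγ⟩ := exists_isMIntegralCurve_of_isMIntegralCurveOn (I := 𝓘(ℝ, V)) (M := V)
    (v := X) hv hε (fun y => by
      obtain ⟨γ, h0, hγ⟩ := local_sol X C' hC0 hX hg' y
      refine ⟨γ, h0, fun t ht => ?_⟩
      have h1 : HasDerivAt γ (X (γ t)) t := hγ t ht
      exact (hasMFDerivAt_iff_hasFDerivAt.2 h1.hasFDerivAt).hasMFDerivWithinAt) x
  refine ⟨γ, h0, fun t => ?_⟩
  have h1 := hasMFDerivAt_iff_hasFDerivAt.1 (hγ t)
  have h2 : HasFDerivAt γ ((1 : ℝ →L[ℝ] ℝ).smulRight (X (γ t))) t := h1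
  have h3 := h2.hasDerivAt
  simpa using h3

end MPfab.Glob

namespace MPfab

theorem specGlob : SpecGlob := by
  intro V _ _ _ X C hX hg
  choose γ h0 hγ using Glob.global_sol X C hX hg
  exact ⟨fun p => γ p.2 p.1, fun x => h0 x, fun s x => hγ x s⟩

end MPfab
end

section
/-!
MP_fabde4_an, toolbox B: smoothness of parametric integrals over `[0,1]`.
-/
set_option autoImplicit false
open MeasureTheory Set Filter Topology

namespace MPfab.Pint

variable {V : Type} [NormedAddCommGroup V] [NormedSpace ℝ V] [FiniteDimensional ℝ V]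

/-- differentiation under the integral sign -/
lemma hasFDerivAt {W : Type} [NormedAddCommGroup W] [NormedSpace ℝ W]
    [FiniteDimensional ℝ W] {f : ℝ × V → W} {g : ℝ × V → V →L[ℝ] W} (hf : Continuous f)
    (hg : Continuous g) (hd : ∀ θ x, HasFDerivAt (fun y => f (θ, y)) (g (θ, x)) x) (x : V) :
    HasFDerivAt (fun x => ∫ θ in (0 : ℝ)..1, f (θ, x)) (∫ θ in (0 : ℝ)..1, g (θ, x)) x := by
  have : ProperSpace V := FiniteDimensional.proper ℝ V
  have hc : IsCompact (Icc (0 : ℝ) 1 ×ˢ Metric.closedBall x 1) :=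
    isCompact_Icc.prod (isCompact_closedBall x 1)
  obtain ⟨M, hM⟩ := hc.exists_bound_of_continuousOn hg.continuousOn
  refine (intervalIntegral.hasFDerivAt_integral_of_dominated_of_fderiv_le
    (μ := volume) (F := fun y θ => f (θ, y)) (F' := fun y θ => g (θ, y)) (x₀ := x) (a := 0)
    (b := 1) (bound := fun _ => M) (s := Metric.ball x 1) (Metric.ball_mem_nhds x one_pos)
    ?_ ?_ ?_ ?_ ?_ ?_)
  · refine Eventually.of_forall fun y => ?_
    exact (hf.comp (continuous_id.prodMk continuous_const)).aestronglyMeasurable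
  · exact (hf.comp (continuous_id.prodMk continuous_const)).intervalIntegrable _ _
  · exact (hg.comp (continuous_id.prodMk continuous_const)).aestronglyMeasurable
  · refine Eventually.of_forall fun θ hθ y hy => ?_
    rw [uIoc_of_le zero_le_one] at hθ
    exact hM (θ, y) ⟨Ioc_subset_Icc_self hθ, Metric.ball_subset_closedBall hy⟩
  · exact intervalIntegrable_const
  · exact Eventually.of_forall fun θ _ y _ => hd θ y

lemma contDiff_nat (n : ℕ) : ∀ (W : Type) [NormedAddCommGroup W] [NormedSpace ℝ W]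
    [FiniteDimensional ℝ W] (f : ℝ × V → W), Sm f →
    ContDiff ℝ n fun x => ∫ θ in (0 : ℝ)..1, f (θ, x) := by
  induction n with
  | zero =>
    intro W _ _ _ f hf
    refine contDiff_zero.2 ?_
    have hg : ∀ θ x, HasFDerivAt (fun y => f (θ, y))
        ((fderiv ℝ f (θ, x)).comp (ContinuousLinearMap.inr ℝ ℝ V)) x := fun θ x =>
      (hf.differentiable (θ, x)).hasFDerivAt.comp x (hasFDerivAt_prodMk_right θ x)
    refine continuous_iff_continuousAt.2 fun x =>
      (hasFDerivAt (g := fun p => (fderiv ℝ f p).comp (ContinuousLinearMap.inr ℝ ℝ V))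
        hf.continuous ?_ hg x).continuousAt
    exact (hf.continuous_fderiv (by simp)).clm_comp continuous_const
  | succ n ih =>
    intro W _ _ _ f hf
    set g : ℝ × V → V →L[ℝ] W := fun p => (fderiv ℝ f p).comp (ContinuousLinearMap.inr ℝ ℝ V)
      with hgd
    have hgs : Sm g := (hf.fderiv_right (m := ((⊤ : ENat) : WithTop ENat)) (by simp)).clm_comp
      contDiff_const
    have hg : ∀ θ x, HasFDerivAt (fun y => f (θ, y)) (g (θ, x)) x := fun θ x =>
      (hf.differentiable (θ, x)).hasFDerivAt.comp x (hasFDerivAt_prodMk_right θ x)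
    have h1 := contDiff_succ_iff_hasFDerivAt (𝕜 := ℝ) (n := n)
      (f := fun x => ∫ θ in (0 : ℝ)..1, f (θ, x))
    push_cast
    refine h1.2 ⟨fun x => ∫ θ in (0 : ℝ)..1, g (θ, x), ?_, fun x =>
      hasFDerivAt hf.continuous hgs.continuous hg x⟩
    exact ih (V →L[ℝ] W) g hgs

end MPfab.Pint

namespace MPfab

theorem specPint : SpecPint := by
  intro V W _ _ _ _ _ _ f hf
  rw [Sm, contDiff_iff_forall_nat_le]
  exact fun m _ => Pint.contDiff_nat m W f hf

end MPfab
end

section
/-!
MP_fabde4_an, part P: module LINA (the gauge `EqA`).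
-/
set_option autoImplicit false
open MeasureTheory Set

namespace MPfab

namespace LinA

/-- primitives in time of smooth functions are smooth -/
theorem prim_smooth {g : ℝ × E → ℝ} (hg : Sm g) :
    Sm (fun p : ℝ × E => ∫ s in (0 : ℝ)..p.1, g (s, p.2)) := by
  have e : (fun p : ℝ × E => ∫ s in (0 : ℝ)..p.1, g (s, p.2)) =
      fun p => p.1 * ∫ θ in (0 : ℝ)..1, g (θ * p.1, p.2) := by
    funext p
    have h := intervalIntegral.smul_integral_comp_mul_right (a := 0) (b := 1)
      (fun s => g (s, p.2)) p.1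
    rw [zero_mul, one_mul, smul_eq_mul] at h
    rw [h]
  rw [e]
  refine contDiff_fst.mul ?_
  have h1 : Sm fun q : ℝ × (ℝ × E) => g (q.1 * q.2.1, q.2.2) :=
    hg.comp ((contDiff_fst.mul (contDiff_fst.comp contDiff_snd)).prodMk
      (contDiff_snd.comp contDiff_snd))
  exact specPint (ℝ × E) ℝ (fun q : ℝ × (ℝ × E) => g (q.1 * q.2.1, q.2.2)) h1

theorem prim_deriv {g : ℝ × E → ℝ} (hg : Sm g) (t : ℝ) (x : E) :
    HasDerivAt (fun t => ∫ s in (0 : ℝ)..t, g (s, x)) (g (t, x)) t := by
  have hc : Continuous fun s => g (s, x) := hg.continuous.comp (by fun_prop)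
  exact hc.integral_hasStrictDerivAt 0 t |>.hasDerivAt

/-- `lie b m = curl m × b + ∇(b·m)` -/
theorem lie_eq {b m : E → E} (hb : Sm b) (hm : Sm m) (x : E) :
    lie b m x = cr (curl m x) (b x) + gr (fun y => ∑ k, b y k * m y k) x := by
  have h1 : ∀ i, pd i (fun y => ∑ k, b y k * m y k) x =
      ∑ k, (pd i b x k * m x k + b x k * pd i m x k) := by
    intro i
    have hbd : ∀ k, DifferentiableAt ℝ (fun y => b y k) x := fun k => Sm.differentiable (hb.comp_apply k) x
    have hmd : ∀ k, DifferentiableAt ℝ (fun y => m y k) x := fun k => Sm.differentiable (hm.comp_apply k) x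
    rw [PDC.pd_sum (f := fun k y => b y k * m y k) (fun k _ => (hbd k).mul (hmd k))]
    refine Finset.sum_congr rfl fun k _ => ?_
    rw [PDC.pd_mul (hbd k) (hmd k), PDC.pd_comp_apply hb i k, PDC.pd_comp_apply hm i k]
    ring
  ext i
  rw [lie_apply, PiLp.add_apply, gr_apply, h1]
  fin_cases i <;> simp [Fin.sum_univ_three] <;> ring

end LinA

open LinA INC in
/-- module LINA -/
theorem specLinA (hL : SpecLinT) : SpecLinA := by
  intro R hR b F m0 hb hF hm0
  obtain ⟨m1, hm1, h0, heq⟩ := hL R hR b F m0 hb hF hm0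
  set g : ℝ × E → ℝ := fun p => ∑ k, b p k * m1 p k with hg
  have hgs : Sm g := ContDiff.sum fun k _ =>
    (contDiff_euclidean.1 hb.smooth k).mul (contDiff_euclidean.1 hm1.smooth k)
  set φ : ℝ × E → ℝ := fun p => ∫ s in (0 : ℝ)..p.1, g (s, p.2) with hφ
  have hφs : Sm φ := prim_smooth hgs
  have hφd : ∀ t x, HasDerivAt (fun s => φ (s, x)) (g (t, x)) t := fun t x => prim_deriv hgs t x
  have hdtφ : dt φ = g := by
    funext p
    exact (hφd p.1 p.2).deriv
  have hφ0 : ∀ t x, R ≤ ‖x‖ → φ (t, x) = 0 := by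
    intro t x hx
    have : ∀ s, g (s, x) = 0 := by
      intro s
      simp only [hg]
      refine Finset.sum_eq_zero fun k _ => ?_
      rw [hb.supp s x hx]
      simp
    simp only [hφ, this, intervalIntegral.integral_zero]
  set m : ℝ × E → E := fun p => m1 p + gr (sl φ p.1) p.2 with hm
  have hgrs : Sm fun p : ℝ × E => gr (sl φ p.1) p.2 := by
    refine contDiff_euclidean.2 fun i => ?_
    exact PDC.pds_sl hφs [i]
  have hms : Sm m := hm1.smooth.add hgrs
  -- time derivative
  have hder : ∀ t x, HasDerivAt (fun s => m (s, x)) (dt m1 (t, x) + gr (sl g t) x) t := by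
    intro t x
    have h1 := PDC.hasDerivAt_dt hm1.smooth t x
    have h2 : HasDerivAt (fun s => gr (sl φ s) x) (gr (sl g t) x) t := by
      have h3 : ∀ i, HasDerivAt (fun s => gr (sl φ s) x i) (gr (sl g t) x i) t := by
        intro i
        have h4 := PDC.dt_pds hφs [i] t x
        rw [hdtφ] at h4
        exact h4
      rw [hasDerivAt_iff_hasFDerivAt]
      have h5 : HasDerivAt (fun s => (fun i => gr (sl φ s) x i : Fin 3 → ℝ))
          (fun i => gr (sl g t) x i) t := hasDerivAt_pi.2 h3
      have h6 := ((PiLp.continuousLinearEquiv 2 ℝ (fun _ : Fin 3 => ℝ)).symm :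
        (Fin 3 → ℝ) →L[ℝ] E).hasFDerivAt.comp_hasDerivAt t h5
      exact h6.hasFDerivAt
    exact h1.add h2
  refine ⟨m, ⟨hms, ?_⟩, ?_, ?_⟩
  · intro t x hx
    simp only [hm]
    rw [hm1.supp t x hx, zero_add]
    ext i
    have h1 := pd_supp hR (PDC.sl_smooth hφs t) (fun y hy => hφ0 t y hy) i x hx
    rw [gr_apply, h1]
    rfl
  · funext x
    show m1 (0, x) + gr (sl φ 0) x = m0 x
    have h1 : sl φ 0 = fun _ => 0 := by
      funext y
      show φ (0, y) = 0
      simp [hφ]
    have h2 : gr (sl φ 0) x = 0 := by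
      rw [h1]
      ext i
      simp [pd]
    rw [h2, add_zero]
    exact congrFun h0 x
  · intro t x
    have h1 : dt m (t, x) = dt m1 (t, x) + gr (sl g t) x := (hder t x).deriv
    have h2 : curl (sl m t) x = curl (sl m1 t) x := by
      have h3 : sl m t = fun y => sl m1 t y + gr (sl φ t) y := rfl
      have hs1 := (PDC.sl_smooth hm1.smooth t)
      have hs2 := (PDC.sl_smooth hφs t).gr
      have h4 : ∀ i, pd i (sl m t) x = pd i (sl m1 t) x + pd i (gr (sl φ t)) x := fun i => by
        rw [h3]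
        exact PDC.pd_add (hs1.differentiable x) (hs2.differentiable x) i
      have h5 := PDC.curl_gr (PDC.sl_smooth hφs t) x
      have h6 : ∀ i, curl (gr (sl φ t)) x i = 0 := fun i => by rw [h5]; rfl
      have h60 := h6 0
      have h61 := h6 1
      have h62 := h6 2
      rw [curl_apply0] at h60
      rw [curl_apply1] at h61
      rw [curl_apply2] at h62
      ext i
      fin_cases i
      · show curl (sl m t) x 0 = curl (sl m1 t) x 0
        rw [curl_apply0, curl_apply0, h4, h4, PiLp.add_apply, PiLp.add_apply]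
        linarith
      · show curl (sl m t) x 1 = curl (sl m1 t) x 1
        rw [curl_apply1, curl_apply1, h4, h4, PiLp.add_apply, PiLp.add_apply]
        linarith
      · show curl (sl m t) x 2 = curl (sl m1 t) x 2
        rw [curl_apply2, curl_apply2, h4, h4, PiLp.add_apply, PiLp.add_apply]
        linarith
    have h3 := heq t x
    rw [lie_eq (PDC.sl_smooth hb.smooth t) (PDC.sl_smooth hm1.smooth t) x] at h3
    have h4 : gr (fun y => ∑ k, sl b t y k * sl m1 t y k) x = gr (sl g t) x := rfl
    rw [h4] at h3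
    rw [h1, h2]
    rw [← h3]
    show dt m1 (t, x) + gr (sl g t) x + cr (curl (sl m1 t) x) (b (t, x)) =
      dt m1 (t, x) + (cr (curl (sl m1 t) x) (b (t, x)) + gr (sl g t) x)
    abel

end MPfab
end

section
/-!
MP_fabde4_an, part P: module AEN (energy inequality in the gauge `EqA`).
-/
set_option autoImplicit false
open MeasureTheory Set

namespace MPfab

namespace Aen

open INC Bil DHS

theorem curl_add {f g : E → E} (hf : Sm f) (hg : Sm g) (x : E) :
    curl (fun y => f y + g y) x = curl f x + curl g x := by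
  have h4 : ∀ i, pd i (fun y => f y + g y) x = pd i f x + pd i g x := fun i =>
    PDC.pd_add (hf.differentiable x) (hg.differentiable x) i
  ext i
  fin_cases i
  · show curl (fun y => f y + g y) x 0 = curl f x 0 + curl g x 0
    rw [curl_apply0, curl_apply0, curl_apply0, h4, h4, PiLp.add_apply, PiLp.add_apply]
    ring
  · show curl (fun y => f y + g y) x 1 = curl f x 1 + curl g x 1
    rw [curl_apply1, curl_apply1, curl_apply1, h4, h4, PiLp.add_apply, PiLp.add_apply]
    ring
  · show curl (fun y => f y + g y) x 2 = curl f x 2 + curl g x 2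
    rw [curl_apply2, curl_apply2, curl_apply2, h4, h4, PiLp.add_apply, PiLp.add_apply]
    ring

/-- `curl (curl m × b) = lie2 b (curl m)` -/
theorem curl_cr {b m : E → E} (hb : Sm b) (hm : Sm m) (x : E) :
    curl (fun y => cr (curl m y) (b y)) x = lie2 b (curl m) x := by
  have hφ : Sm (fun y => ∑ k, b y k * m y k) :=
    ContDiff.sum fun k _ => (hb.comp_apply k).mul (hm.comp_apply k)
  have h1 : lie b m = fun y => cr (curl m y) (b y) + gr (fun y => ∑ k, b y k * m y k) y :=
    funext fun y => LinA.lie_eq hb hm y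
  have h2 := PDC.curl_lie hb hm x
  rw [h1, curl_add (hm.curl.cr hb) hφ.gr, PDC.curl_gr hφ, add_zero] at h2
  exact h2

theorem in_curl {R : ℝ} (hR : 0 < R) {w : E → E} (hw : In R w) : In R (curl w) := by
  refine ⟨hw.smooth.curl, fun x hx => ?_⟩
  have h : ∀ i, pd i w x = 0 := fun i => pd_supp hR hw.smooth hw.supp i x hx
  ext i
  fin_cases i <;> simp [h, curl]

theorem inT_curl {R : ℝ} (hR : 0 < R) {w : ℝ × E → E} (hw : InT R w) :
    InT R (fun p => curl (sl w p.1) p.2) := by
  refine ⟨?_, fun t x hx => (in_curl hR (InT.sl hw t)).supp x hx⟩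
  have hc : ∀ i k, Sm fun p : ℝ × E => pd i (sl w p.1) p.2 k := fun i k =>
    contDiff_euclidean.1 (PDC.pds_sl hw.smooth [i]) k
  refine contDiff_euclidean.2 fun k => ?_
  fin_cases k
  · exact (hc 1 2).sub (hc 2 1)
  · exact (hc 2 0).sub (hc 0 2)
  · exact (hc 0 1).sub (hc 1 0)

/-- time derivative of the curl -/
theorem dt_curl {w : ℝ × E → E} (hw : Sm w) (t : ℝ) (x : E) :
    HasDerivAt (fun s => curl (sl w s) x) (curl (sl (dt w) t) x) t := by
  have hc : ∀ i k, HasDerivAt (fun s => pd i (sl w s) x k) (pd i (sl (dt w) t) x k) t := by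
    intro i k
    have h1 := PDC.dt_pds hw [i] t x
    exact (EuclideanSpace.proj k : E →L[ℝ] ℝ).hasFDerivAt.comp_hasDerivAt t h1
  have h3 : ∀ i, HasDerivAt (fun s => curl (sl w s) x i) (curl (sl (dt w) t) x i) t := by
    intro i
    fin_cases i
    · exact (hc 1 2).sub (hc 2 1)
    · exact (hc 2 0).sub (hc 0 2)
    · exact (hc 0 1).sub (hc 1 0)
  have h5 : HasDerivAt (fun s => (fun i => curl (sl w s) x i : Fin 3 → ℝ))
      (fun i => curl (sl (dt w) t) x i) t := hasDerivAt_pi.2 h3
  exact ((PiLp.continuousLinearEquiv 2 ℝ (fun _ : Fin 3 => ℝ)).symm :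
    (Fin 3 → ℝ) →L[ℝ] E).hasFDerivAt.comp_hasDerivAt t h5

theorem sqrt_hs_sub (hHSB : SpecHSB) {R : ℝ} {f g : E → E} (hf : In R f) (hg : In R g) :
    √(hs univ 0 (fun x => f x - g x)) ≤ 2 * √(hs univ 0 f) + 2 * √(hs univ 0 g) := by
  have hg' : In R (fun x => (-1 : ℝ) • g x) := IncOp.smul_in (-1) hg
  have h1 := hs_add hHSB 0 hf hg'
  rw [hHSB.smul E univ 0 (-1) g hg.smooth] at h1
  have e : (fun x => f x + (-1 : ℝ) • g x) = fun x => f x - g x := by
    funext x
    rw [neg_one_smul, sub_eq_add_neg]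
  rw [e] at h1
  have hn1 := hHSB.nonneg E univ 0 f
  have hn2 := hHSB.nonneg E univ 0 g
  have s1 := Real.sqrt_nonneg (hs univ 0 f)
  have s2 := Real.sqrt_nonneg (hs univ 0 g)
  apply Real.sqrt_le_iff.2
  refine ⟨by positivity, ?_⟩
  have q1 := Real.sq_sqrt hn1
  have q2 := Real.sq_sqrt hn2
  nlinarith [mul_nonneg s1 s2]

end Aen

open Aen INC Bil DHS in
/-- module AEN -/
theorem specAen (hEng : SpecEng) (hDhs : SpecDhs) (hCrb : SpecCrb) (hBall : SpecBall)
    (hHSB : SpecHSB) : SpecAen := by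
  intro R hR k hk
  obtain ⟨c2, hc2⟩ := PDC.lie2_trc
  obtain ⟨C1, hC1, hE⟩ := hEng (ballρ R) (hBall.dom R hR) c2 k hk
  obtain ⟨C2, hC2, hcr⟩ := hCrb.low R hR
  refine ⟨C1 + 4 + 4 * C2, by linarith, ?_⟩
  intro b m g hb hm hg t heq
  set κ := max (k - 1) 5 with hκ
  have hκ5 : 5 ≤ κ := le_max_right _ _
  have hbt := InT.sl hb t
  have hmt := InT.sl hm t
  have hgt := InT.sl hg t
  -- the vorticity
  set a : ℝ × E → E := fun p => curl (sl m p.1) p.2 with ha
  set g' : ℝ × E → E := fun p => curl (sl g p.1) p.2 with hg'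
  have haT : InT R a := inT_curl hR hm
  have hgT : InT R g' := inT_curl hR hg
  have heq' : ∀ x ∈ D (ballρ R), dt a (t, x) + trc c2 (sl b t) (sl a t) x = g' (t, x) := by
    intro x _
    have h1 : dt a (t, x) = curl (sl (dt m) t) x := (dt_curl hm.smooth t x).deriv
    have h2 : trc c2 (sl b t) (sl a t) x = curl (fun y => cr (curl (sl m t) y) (sl b t y)) x := by
      rw [← hc2, curl_cr hbt.smooth hmt.smooth]
      rfl
    have h3 : (fun y => sl (dt m) t y + cr (curl (sl m t) y) (sl b t y)) = sl g t :=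
      funext fun y => heq y
    have h4 : curl (fun y => sl (dt m) t y + cr (curl (sl m t) y) (sl b t y)) x =
        curl (sl g t) x := by rw [h3]
    rw [curl_add (PDC.sl_smooth (PDC.dt_smooth hm.smooth) t)
      (hmt.smooth.curl.cr hbt.smooth)] at h4
    rw [h1, h2]
    exact h4
  obtain ⟨y1, hy1, hb1⟩ := hE b a g' hb.smooth haT.smooth hgT.smooth t
    (hBall.tan R (sl b t) hR hbt) heq'
  -- the momentum
  obtain ⟨y2, hy2, hb2⟩ := hDhs R hR 0 m hm t
  have hsa : ∀ (j : ℕ) (f : ℝ × E → E), InT R f → ∀ s,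
      hs (D (ballρ R)) j (sl f s) = hs univ j (sl f s) := fun j f hf s =>
    (hBall.hs_eq R E j (sl f s) hR (InT.sl hf s)).symm
  simp only [hsa _ b hb, hsa _ a haT, hsa _ g' hgT] at hy1 hb1
  refine ⟨y1 + y2, hy1.add hy2, ?_⟩
  have nn : ∀ (j : ℕ) (f : E → E), 0 ≤ hs univ j f := fun j f => hHSB.nonneg E univ j f
  have hA : hs univ k (sl a t) ≤ nq univ k (sl m t) := by
    have := nn 0 (sl m t)
    show hs univ k (curl (sl m t)) ≤ hs univ k (curl (sl m t)) + hs univ 0 (sl m t)
    linarith
  have hM : hs univ 0 (sl m t) ≤ nq univ k (sl m t) := by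
    have := nn k (curl (sl m t))
    show hs univ 0 (sl m t) ≤ hs univ k (curl (sl m t)) + hs univ 0 (sl m t)
    linarith
  have hGc : hs univ k (sl g' t) ≤ nq univ k (sl g t) := by
    have := nn 0 (sl g t)
    show hs univ k (curl (sl g t)) ≤ hs univ k (curl (sl g t)) + hs univ 0 (sl g t)
    linarith
  have hG0 : hs univ 0 (sl g t) ≤ nq univ k (sl g t) := by
    have := nn k (curl (sl g t))
    show hs univ 0 (sl g t) ≤ hs univ k (curl (sl g t)) + hs univ 0 (sl g t)
    linarith
  -- abbreviations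
  set N := √(nq univ k (sl m t)) with hN
  set Gq := √(nq univ k (sl g t)) with hGq
  set β := √(hs univ (κ + 1) (sl b t)) with hβ
  set β' := √(hs univ (k + 1) (sl b t)) with hβ'
  set ω := √(hs univ κ (curl (sl m t))) with hω
  have hN0 : 0 ≤ N := Real.sqrt_nonneg _
  have hG0' : 0 ≤ Gq := Real.sqrt_nonneg _
  have hβ0 : 0 ≤ β := Real.sqrt_nonneg _
  have hβ'0 : 0 ≤ β' := Real.sqrt_nonneg _
  have hω0 : 0 ≤ ω := Real.sqrt_nonneg _
  have hnqnn : 0 ≤ nq univ k (sl m t) := (nn k (sl a t)).trans hA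
  have hNN : nq univ k (sl m t) = N * N := (Real.mul_self_sqrt hnqnn).symm
  have s1 : √(hs univ k (sl a t)) ≤ N := Real.sqrt_le_sqrt hA
  have s2 : √(hs univ 0 (sl m t)) ≤ N := Real.sqrt_le_sqrt hM
  have s3 : √(hs univ k (sl g' t)) ≤ Gq := Real.sqrt_le_sqrt hGc
  have s4 : √(hs univ 0 (sl g t)) ≤ Gq := Real.sqrt_le_sqrt hG0
  have s5 : √(hs univ 3 (sl b t)) ≤ β :=
    Real.sqrt_le_sqrt (hHSB.mono E univ 3 (κ + 1) _ (by omega))
  have s6 : √(hs univ 0 (curl (sl m t))) ≤ N :=
    Real.sqrt_le_sqrt ((hHSB.mono E univ 0 k _ (by omega)).trans hA)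
  -- the first part
  have hp1 : |y1| ≤ C1 * (β * (N * N) + β' * ω * N + N * Gq) := by
    refine hb1.trans (mul_le_mul_of_nonneg_left ?_ hC1)
    have t1 : β * hs univ k (sl a t) ≤ β * (N * N) :=
      mul_le_mul_of_nonneg_left (by rw [← hNN]; exact hA) hβ0
    have t2 : β' * √(hs univ κ (sl a t)) * √(hs univ k (sl a t)) ≤ β' * ω * N :=
      mul_le_mul_of_nonneg_left s1 (mul_nonneg hβ'0 (Real.sqrt_nonneg _))
    have t3 : √(hs univ k (sl a t)) * √(hs univ k (sl g' t)) ≤ N * Gq :=
      mul_le_mul s1 s3 (Real.sqrt_nonneg _) hN0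
    linarith
  -- the second part
  have hdt : √(hs univ 0 (sl (dt m) t)) ≤ 2 * Gq + 2 * (C2 * β * N) := by
    have hcrin : In R (fun x => cr (curl (sl m t) x) (sl b t x)) :=
      ⟨hmt.smooth.curl.cr hbt.smooth, fun x hx => by
        rw [hbt.supp x hx]
        ext i
        fin_cases i <;> simp⟩
    have h1 : sl (dt m) t = fun x => sl g t x - cr (curl (sl m t) x) (sl b t x) := by
      funext x
      have h2 := heq x
      show dt m (t, x) = g (t, x) - cr (curl (sl m t) x) (b (t, x))
      rw [← h2]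
      abel
    rw [h1]
    refine (sqrt_hs_sub hHSB hgt hcrin).trans ?_
    have h3 := (hcr (curl (sl m t)) (sl b t) (in_curl hR hmt) hbt).1
    have h4 : C2 * √(hs univ 3 (sl b t)) * √(hs univ 0 (curl (sl m t))) ≤ C2 * β * N :=
      mul_le_mul (mul_le_mul_of_nonneg_left s5 hC2) s6 (Real.sqrt_nonneg _) (by positivity)
    linarith
  have hp2 : |y2| ≤ 2 * N * (2 * Gq + 2 * (C2 * β * N)) := by
    refine hb2.trans ?_
    exact mul_le_mul (mul_le_mul_of_nonneg_left s2 (by norm_num)) hdt (Real.sqrt_nonneg _)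
      (by positivity)
  rw [hNN]
  have hfin : |y1 + y2| ≤ |y1| + |y2| := abs_add_le y1 y2
  have e1 : 0 ≤ β * (N * N) := by positivity
  have e2 : 0 ≤ β' * ω * N := by positivity
  have e3 : 0 ≤ N * Gq := by positivity
  have e4 : 0 ≤ C2 * (β' * ω * N) := by positivity
  have e5 : 0 ≤ C2 * (N * Gq) := by positivity
  nlinarith

end MPfab
end

section
/-!
MP_fabde4_an, module WEYL, first part: general lemmas.
-/
set_option autoImplicit false
open MeasureTheory Set Filter Topology Metric

namespace MPfab.Wl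

/-! ### parametric integrals over the unit ball -/

section par

variable {V : Type} [NormedAddCommGroup V] [NormedSpace ℝ V] [FiniteDimensional ℝ V]

lemma par_hasFDerivAt {W : Type} [NormedAddCommGroup W] [NormedSpace ℝ W]
    [FiniteDimensional ℝ W] {f : V × E → W} {g : V × E → V →L[ℝ] W} (hf : Continuous f)
    (hg : Continuous g) (hd : ∀ v y, HasFDerivAt (fun v => f (v, y)) (g (v, y)) v) (v : V) :
    HasFDerivAt (fun v => ∫ y in closedBall (0 : E) 1, f (v, y))
      (∫ y in closedBall (0 : E) 1, g (v, y)) v := by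
  have : ProperSpace V := FiniteDimensional.proper ℝ V
  have hc : IsCompact (closedBall v 1 ×ˢ closedBall (0 : E) 1) :=
    (isCompact_closedBall v 1).prod (isCompact_closedBall 0 1)
  obtain ⟨M, hM⟩ := hc.exists_bound_of_continuousOn hg.continuousOn
  have hcs : ∀ (X : Type) [NormedAddCommGroup X] (k : E → X), Continuous k →
      IntegrableOn k (closedBall (0 : E) 1) := fun X _ k hk =>
    hk.continuousOn.integrableOn_compact (isCompact_closedBall 0 1)
  refine (hasFDerivAt_integral_of_dominated_of_fderiv_le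
    (μ := volume.restrict (closedBall (0 : E) 1)) (F := fun w y => f (w, y))
    (F' := fun w y => g (w, y)) (x₀ := v)
    (bound := fun _ => M) (s := Metric.ball v 1) (Metric.ball_mem_nhds v one_pos)
    ?_ ?_ ?_ ?_ ?_ ?_)
  · refine Eventually.of_forall fun y => ?_
    exact (hf.comp (continuous_const.prodMk continuous_id)).aestronglyMeasurable
  · exact hcs _ _ (hf.comp (continuous_const.prodMk continuous_id))
  · exact (hg.comp (continuous_const.prodMk continuous_id)).aestronglyMeasurable
  · refine (ae_restrict_iff' measurableSet_closedBall).2 (Eventually.of_forall fun y hy w hw => ?_)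
    exact hM (w, y) ⟨Metric.ball_subset_closedBall hw, hy⟩
  · exact hcs _ _ continuous_const
  · exact Eventually.of_forall fun y w _ => hd w y

lemma par_contDiff_nat (n : ℕ) : ∀ (W : Type) [NormedAddCommGroup W] [NormedSpace ℝ W]
    [FiniteDimensional ℝ W] (f : V × E → W), Sm f →
    ContDiff ℝ n fun v => ∫ y in closedBall (0 : E) 1, f (v, y) := by
  induction n with
  | zero =>
    intro W _ _ _ f hf
    refine contDiff_zero.2 ?_
    have hg : ∀ v y, HasFDerivAt (fun v => f (v, y))
        ((fderiv ℝ f (v, y)).comp (ContinuousLinearMap.inl ℝ V E)) v := fun v y =>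
      (hf.differentiable (v, y)).hasFDerivAt.comp v (hasFDerivAt_prodMk_left v y)
    refine continuous_iff_continuousAt.2 fun x =>
      (par_hasFDerivAt (g := fun p => (fderiv ℝ f p).comp (ContinuousLinearMap.inl ℝ V E))
        hf.continuous ?_ hg x).continuousAt
    exact (hf.continuous_fderiv (by simp)).clm_comp continuous_const
  | succ n ih =>
    intro W _ _ _ f hf
    set g : V × E → V →L[ℝ] W := fun p => (fderiv ℝ f p).comp (ContinuousLinearMap.inl ℝ V E)
      with hgd
    have hgs : Sm g := (hf.fderiv_right (m := ((⊤ : ENat) : WithTop ENat)) (by simp)).clm_comp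
      contDiff_const
    have hg : ∀ v y, HasFDerivAt (fun v => f (v, y)) (g (v, y)) v := fun v y =>
      (hf.differentiable (v, y)).hasFDerivAt.comp v (hasFDerivAt_prodMk_left v y)
    have h1 := contDiff_succ_iff_hasFDerivAt (𝕜 := ℝ) (n := n)
      (f := fun v => ∫ y in closedBall (0 : E) 1, f (v, y))
    push_cast
    refine h1.2 ⟨fun v => ∫ y in closedBall (0 : E) 1, g (v, y), ?_, fun v =>
      par_hasFDerivAt hf.continuous hgs.continuous hg v⟩
    exact ih (V →L[ℝ] W) g hgs

lemma par_smooth {W : Type} [NormedAddCommGroup W] [NormedSpace ℝ W]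
    [FiniteDimensional ℝ W] {f : V × E → W} (hf : Sm f) :
    Sm fun v => ∫ y in closedBall (0 : E) 1, f (v, y) := by
  rw [Sm, contDiff_iff_forall_nat_le]
  exact fun m _ => par_contDiff_nat m W f hf

/-- integrals over the whole space of functions which vanish outside of the unit ball -/
lemma int_ball {W : Type} [NormedAddCommGroup W] [NormedSpace ℝ W] {f : E → W}
    (h : ∀ y, 1 ≤ ‖y‖ → f y = 0) : ∫ y, f y = ∫ y in closedBall (0 : E) 1, f y := by
  refine (setIntegral_eq_integral_of_forall_compl_eq_zero fun y hy => h y ?_).symm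
  rw [mem_closedBall_zero_iff, not_le] at hy
  exact hy.le

end par

/-! ### partial derivatives -/

section pds

variable {F : Type*} [NormedAddCommGroup F] [NormedSpace ℝ F]

lemma pds_off {f : E → F} {S : Set E} (hS : IsClosed S) (h : ∀ z, z ∉ S → f z = 0)
    (L : List (Fin 3)) {z : E} (hz : z ∉ S) : pds L f z = 0 := by
  have h1 : f =ᶠ[𝓝 z] fun _ => 0 := by
    filter_upwards [hS.isOpen_compl.mem_nhds hz] with y hy using h y hy
  rw [(Mvp.pds_congr h1 L).eq_of_nhds]
  have h2 : ∀ L : List (Fin 3), pds L (fun _ : E => (0 : F)) = fun _ => 0 := by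
    intro L
    induction L with
    | nil => rfl
    | cons i L ih =>
      show pd i (pds L _) = _
      rw [ih]
      funext x
      simp [pd_def]
  rw [h2]

lemma pds_trans (f : E → F) (x : E) (L : List (Fin 3)) :
    pds L (fun z => f (z - x)) = fun z => pds L f (z - x) := by
  induction L with
  | nil => rfl
  | cons i L ih =>
    show pd i (pds L _) = fun z => pd i (pds L f) (z - x)
    rw [ih]
    funext z
    simp only [pd_def, fderiv_comp_sub]

lemma pd_aff {v : E → ℝ} (hv : Differentiable ℝ v) (a : ℝ) (x : E) (i : Fin 3) (z : E) :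
    pd i (fun z => v (a • (z - x))) z = a * pd i v (a • (z - x)) := by
  have h1 : HasFDerivAt (fun z : E => a • (z - x)) (a • ContinuousLinearMap.id ℝ E) z :=
    ((hasFDerivAt_id z).sub_const x).const_smul a
  have h2 := (hv (a • (z - x))).hasFDerivAt.comp z h1
  rw [pd_def, show (fun z => v (a • (z - x))) = v ∘ fun z => a • (z - x) from rfl, h2.fderiv]
  simp [pd_def]

lemma pd_const_mul {v : E → ℝ} (hv : Differentiable ℝ v) (c : ℝ) (i : Fin 3) (z : E) :
    pd i (fun z => c * v z) z = c * pd i v z := by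
  rw [pd_def, fderiv_const_mul (hv z), pd_def]
  rfl

/-- the Laplacian under affine maps -/
lemma lap_aff {v : E → ℝ} (hv : Sm v) (c a : ℝ) (x : E) (z : E) :
    lap (fun z => c * v (a • (z - x))) z = c * a ^ 2 * lap v (a • (z - x)) := by
  unfold lap
  rw [Finset.mul_sum]
  refine Finset.sum_congr rfl fun i _ => ?_
  have hv1 : Differentiable ℝ v := fun z => hv.differentiable z
  have hv2 : Differentiable ℝ (pd i v) := fun z => (hv.pd i).differentiable z
  have ha : Differentiable ℝ fun z : E => a • (z - x) := by fun_prop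
  have e1 : pd i (fun z => c * v (a • (z - x))) = fun z => (c * a) * pd i v (a • (z - x)) := by
    funext z
    rw [pd_const_mul (v := fun z => v (a • (z - x))) (hv1.comp ha), pd_aff hv1]
    ring
  rw [e1, pd_const_mul (v := fun z => pd i v (a • (z - x))) (hv2.comp ha), pd_aff hv2]
  ring

end pds

/-! ### the families of test functions -/

/-- the scaled mollifier around `x` at the scale `exp τ` -/
noncomputable def Fm (x : E) (p : ℝ × E) : ℝ :=
  Real.exp (-3 * p.1) * Mvp.η (Real.exp (-p.1) • (p.2 - x))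

/-- the potential -/
noncomputable def Gm (x : E) (p : ℝ × E) : ℝ :=
  Real.exp (-p.1) * Mvp.ζ (Real.exp (-p.1) • (p.2 - x))

lemma sm_exp (c : ℝ) : Sm fun p : ℝ × E => Real.exp (c * p.1) :=
  Real.contDiff_exp.comp (contDiff_const.mul contDiff_fst)

lemma sm_arg (x : E) : Sm fun p : ℝ × E => Real.exp (-p.1) • (p.2 - x) :=
  (Real.contDiff_exp.comp contDiff_fst.neg).smul (contDiff_snd.sub contDiff_const)

lemma sm_Fm (x : E) : Sm (Fm x) := (sm_exp (-3)).mul (Mvp.sm_η.comp (sm_arg x))

lemma sm_Gm (x : E) : Sm (Gm x) :=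
  (Real.contDiff_exp.comp contDiff_fst.neg).mul (Mvp.sm_ζ.comp (sm_arg x))

lemma lap_ζ (y : E) : lap Mvp.ζ y = -(3 * Mvp.η y + fderiv ℝ Mvp.η y y) := by
  have h1 : ∀ i, pd i (pd i Mvp.ζ) y = -(Mvp.η y) - y i * pd i Mvp.η y := by
    intro i
    have e : pd i Mvp.ζ = fun y => -(Mvp.η y * y i) := by
      funext y
      rw [Mvp.pd_ζ]
      ring
    have hi : HasFDerivAt (fun y : E => y i) (EuclideanSpace.proj i : E →L[ℝ] ℝ) y :=
      (EuclideanSpace.proj i : E →L[ℝ] ℝ).hasFDerivAt
    have hη : HasFDerivAt Mvp.η (fderiv ℝ Mvp.η y) y := (Mvp.sm_η.differentiable y).hasFDerivAt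
    have h2 := (hη.fun_mul hi).fun_neg
    rw [e, pd_def, h2.fderiv]
    simp [pd_def]
    ring
  unfold lap
  simp only [h1]
  rw [fderiv_eq_sum, Fin.sum_univ_three, Fin.sum_univ_three]
  simp only [smul_eq_mul]
  ring

lemma dt_Fm (x : E) (τ : ℝ) (z : E) : dt (Fm x) (τ, z) = lap (sl (Gm x) τ) z := by
  have h1 : HasDerivAt (fun s : ℝ => Real.exp (-3 * s)) (Real.exp (-3 * τ) * (-3)) τ := by
    have := ((hasDerivAt_id τ).const_mul (-3)).exp
    simpa using this
  have h2 : HasDerivAt (fun s : ℝ => Real.exp (-s)) (-Real.exp (-τ)) τ := by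
    have := (hasDerivAt_id τ).neg.exp
    simpa using this
  have h3 : HasDerivAt (fun s : ℝ => Real.exp (-s) • (z - x)) (-Real.exp (-τ) • (z - x)) τ :=
    h2.smul_const _
  have h4 := (Mvp.sm_η.differentiable (Real.exp (-τ) • (z - x))).hasFDerivAt.comp_hasDerivAt τ h3
  have h5 := h1.mul h4
  have h6 : dt (Fm x) (τ, z) = _ := h5.deriv
  rw [h6]
  have h7 : sl (Gm x) τ = fun z => Real.exp (-τ) * Mvp.ζ (Real.exp (-τ) • (z - x)) := rfl
  rw [h7, lap_aff Mvp.sm_ζ, lap_ζ, map_smul, map_smul, smul_eq_mul, smul_eq_mul]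
  have h8 : Real.exp (-τ) * Real.exp (-τ) ^ 2 = Real.exp (-3 * τ) := by
    rw [← Real.exp_nat_mul, ← Real.exp_add]
    congr 1
    push_cast
    ring
  rw [h8]
  simp only [Function.comp]
  ring

lemma Fm_zero {x z : E} {τ : ℝ} (h : Real.exp τ ≤ ‖z - x‖) : Fm x (τ, z) = 0 := by
  unfold Fm
  rw [Mvp.η_zero, mul_zero]
  rw [norm_smul, Real.norm_of_nonneg (Real.exp_pos _).le, Real.exp_neg]
  rw [le_inv_mul_iff₀ (Real.exp_pos τ), mul_one]
  exact h

lemma Gm_zero {x z : E} {τ : ℝ} (h : Real.exp τ ≤ ‖z - x‖) : Gm x (τ, z) = 0 := by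
  unfold Gm
  rw [Mvp.ζ_zero, mul_zero]
  rw [norm_smul, Real.norm_of_nonneg (Real.exp_pos _).le, Real.exp_neg]
  rw [le_inv_mul_iff₀ (Real.exp_pos τ), mul_one]
  exact h

/-- change of variables -/
lemma int_scale (g : E → ℝ) (k : E → ℝ) (x : E) (τ : ℝ) :
    ∫ z, g z * (Real.exp (-3 * τ) * k (Real.exp (-τ) • (z - x))) =
      ∫ y, g (x + Real.exp τ • y) * k y := by
  have h1 := integral_sub_right_eq_self (μ := (volume : Measure E))
    (fun z => g (x + z) * (Real.exp (-3 * τ) * k (Real.exp (-τ) • z))) x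
  simp only [add_sub_cancel] at h1
  rw [h1]
  have h2 := Measure.integral_comp_smul (volume : Measure E)
    (fun z => g (x + z) * (Real.exp (-3 * τ) * k (Real.exp (-τ) • z))) (Real.exp τ)
  have h3 : Module.finrank ℝ E = 3 := by simp
  have h4 : |(Real.exp τ ^ 3)⁻¹| = Real.exp (-3 * τ) := by
    rw [abs_of_pos (by positivity), ← Real.exp_nat_mul, ← Real.exp_neg]
    congr 1
    push_cast
    ring
  rw [h3, h4] at h2
  have h5 : ∀ y : E, Real.exp (-τ) • Real.exp τ • y = y := by
    intro y
    rw [smul_smul, ← Real.exp_add, neg_add_cancel, Real.exp_zero, one_smul]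
  simp only [h5] at h2
  have h6 : (fun y => g (x + Real.exp τ • y) * (Real.exp (-3 * τ) * k y)) =
      fun y => Real.exp (-3 * τ) * (g (x + Real.exp τ • y) * k y) := by
    funext y
    ring
  rw [h6, integral_const_mul, smul_eq_mul] at h2
  exact (mul_left_cancel₀ (Real.exp_pos _).ne' h2).symm

end MPfab.Wl
end

section
/-!
MP_fabde4_an, module WEYL, second part: the functional and the function `l`.
-/
set_option autoImplicit false
open MeasureTheory Set Filter Topology Metric

namespace MPfab.Wl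

/-- the functional -/
noncomputable def lam {ι : Type} [Fintype ι] (U : Set E) (w : ι → E → ℝ) (α : ι → List (Fin 3))
    (φ : E → ℝ) : ℝ := ∑ i, ∫ x in U, w i x * pds (α i) φ x

section one

variable {U K : Set E} {w : E → ℝ}

lemma int_cut (hU : IsOpen U) (hK : IsCompact K) (hKU : K ⊆ U) (α : List (Fin 3)) {φ : E → ℝ}
    (h : ∀ z, z ∉ K → φ z = 0) :
    ∫ x in U, w x * pds α φ x = ∫ x, K.indicator w x * pds α φ x := by
  rw [← integral_indicator hU.measurableSet]
  refine integral_congr_ae (Eventually.of_forall fun x => ?_)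
  simp only
  by_cases hx : x ∈ K
  · rw [indicator_of_mem (hKU hx), indicator_of_mem hx]
  · rw [indicator_of_notMem hx, zero_mul]
    by_cases hxU : x ∈ U
    · rw [indicator_of_mem hxU, pds_off hK.isClosed h α hx, mul_zero]
    · rw [indicator_of_notMem hxU]

lemma integrable_cut (hw : LocallyIntegrableOn w U) (hK : IsCompact K) (hKU : K ⊆ U) :
    Integrable (K.indicator w) :=
  (integrable_indicator_iff hK.measurableSet).2 (hw.integrableOn_compact_subset hKU hK)

/-- differentiation of `∫ W(z) P(τ,z) dz` -/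
lemma hasDerivAt_pair {W : E → ℝ} (hW : Integrable W) (hK : IsCompact K)
    (h0 : ∀ z, z ∉ K → W z = 0) {P P' : ℝ × E → ℝ} (hP : Continuous P) (hP' : Continuous P')
    (hd : ∀ τ z, HasDerivAt (fun s => P (s, z)) (P' (τ, z)) τ) (τ : ℝ) :
    HasDerivAt (fun s => ∫ z, W z * P (s, z)) (∫ z, W z * P' (τ, z)) τ := by
  have hc : IsCompact (closedBall τ 1 ×ˢ K) := (isCompact_closedBall τ 1).prod hK
  obtain ⟨M, hM⟩ := hc.exists_bound_of_continuousOn hP'.continuousOn
  obtain ⟨M1, hM1⟩ := hc.exists_bound_of_continuousOn hP.continuousOn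
  have hcont : ∀ s, Continuous fun z => P (s, z) := fun s =>
    hP.comp (continuous_const.prodMk continuous_id)
  have hcont' : ∀ s, Continuous fun z => P' (s, z) := fun s =>
    hP'.comp (continuous_const.prodMk continuous_id)
  refine (hasDerivAt_integral_of_dominated_loc_of_deriv_le
    (μ := (volume : Measure E)) (F := fun s z => W z * P (s, z))
    (F' := fun s z => W z * P' (s, z)) (x₀ := τ) (s := ball τ 1) (bound := fun z => ‖W z‖ * M)
    (ball_mem_nhds τ one_pos) ?_ ?_ ?_ ?_ ?_ ?_).2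
  · exact Eventually.of_forall fun s =>
      hW.aestronglyMeasurable.mul (hcont s).aestronglyMeasurable
  · refine (hW.norm.mul_const M1).mono' (hW.aestronglyMeasurable.mul
      (hcont τ).aestronglyMeasurable) (Eventually.of_forall fun z => ?_)
    by_cases hz : z ∈ K
    · rw [norm_mul]
      exact mul_le_mul_of_nonneg_left (hM1 (τ, z) ⟨mem_closedBall_self zero_le_one, hz⟩)
        (norm_nonneg _)
    · rw [h0 z hz]
      simp
  · exact hW.aestronglyMeasurable.mul (hcont' τ).aestronglyMeasurable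
  · refine Eventually.of_forall fun z s hs => ?_
    by_cases hz : z ∈ K
    · rw [norm_mul]
      exact mul_le_mul_of_nonneg_left (hM (s, z) ⟨ball_subset_closedBall hs, hz⟩)
        (norm_nonneg _)
    · rw [h0 z hz]
      simp
  · exact hW.norm.mul_const M
  · exact Eventually.of_forall fun z s _ => (hd s z).const_mul _

end one

variable {ι : Type} [Fintype ι] {U : Set E} {w : ι → E → ℝ} {α : ι → List (Fin 3)}

lemma lam_cut {K : Set E} (hU : IsOpen U) (hK : IsCompact K) (hKU : K ⊆ U) {φ : E → ℝ}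
    (h : ∀ z, z ∉ K → φ z = 0) :
    lam U w α φ = ∑ i, ∫ x, K.indicator (w i) x * pds (α i) φ x :=
  Finset.sum_congr rfl fun i _ => int_cut hU hK hKU (α i) h

/-- differentiation of the functional along a smooth family -/
lemma lam_deriv {K : Set E} (hU : IsOpen U) (hw : ∀ i, LocallyIntegrableOn (w i) U)
    (hK : IsCompact K) (hKU : K ⊆ U) {Q : ℝ × E → ℝ} (hQ : Sm Q) {τ : ℝ}
    (h0 : ∀ᶠ s in 𝓝 τ, ∀ z, z ∉ K → Q (s, z) = 0) :
    HasDerivAt (fun s => lam U w α (sl Q s)) (lam U w α (sl (dt Q) τ)) τ := by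
  have h1 : ∀ z, z ∉ K → dt Q (τ, z) = 0 := by
    intro z hz
    have h2 : (fun s => Q (s, z)) =ᶠ[𝓝 τ] fun _ => 0 := by
      filter_upwards [h0] with s hs using hs z hz
    show deriv (fun s => Q (s, z)) τ = 0
    rw [h2.deriv_eq]
    simp
  rw [lam_cut (α := α) (w := w) hU hK hKU (φ := sl (dt Q) τ) h1]
  have h3 : (fun s => lam U w α (sl Q s)) =ᶠ[𝓝 τ]
      fun s => ∑ i, ∫ x, K.indicator (w i) x * pds (α i) (sl Q s) x := by
    filter_upwards [h0] with s hs
    exact lam_cut hU hK hKU hs
  refine HasDerivAt.congr_of_eventuallyEq ?_ h3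
  refine HasDerivAt.fun_sum fun i _ => ?_
  exact hasDerivAt_pair (integrable_cut (hw i) hK hKU) hK (fun z hz => indicator_of_notMem hz _)
    (P := fun p : ℝ × E => pds (α i) (sl Q p.1) p.2)
    (P' := fun p : ℝ × E => pds (α i) (sl (dt Q) p.1) p.2)
    (PDC.pds_sl hQ _).continuous (PDC.pds_sl (PDC.dt_smooth hQ) _).continuous
    (fun τ z => PDC.dt_pds hQ (α i) τ z) τ

/-! ### the second term -/

/-- `∫ f(x+sy) ζ(y) dy` -/
noncomputable def Vf (f : E → ℝ) (s : ℝ) (x : E) : ℝ := ∫ y, f (x + s • y) * Mvp.ζ y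

noncomputable def Th (f : E → ℝ) (x : E) (s : ℝ) : ℝ := ∫ t in (0 : ℝ)..s, t * Vf f t x

lemma sm_Vf {g : E → ℝ} (hg : Sm g) : Sm fun p : ℝ × E => Vf g p.1 p.2 := by
  have h1 : Sm fun q : (ℝ × E) × E => g (q.1.2 + q.1.1 • q.2) * Mvp.ζ q.2 := by
    refine ContDiff.mul (hg.comp ?_) (Mvp.sm_ζ.comp contDiff_snd)
    exact (contDiff_snd.comp contDiff_fst).add
      ((contDiff_fst.comp contDiff_fst).smul contDiff_snd)
  have h2 := par_smooth h1
  have e : (fun p : ℝ × E => Vf g p.1 p.2) = fun v : ℝ × E => ∫ y in closedBall (0 : E) 1,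
      g (v.2 + v.1 • y) * Mvp.ζ y := by
    funext p
    exact int_ball fun y hy => by rw [Mvp.ζ_zero hy, mul_zero]
  rw [e]
  exact h2

lemma sm_Th {g : E → ℝ} (hg : Sm g) : Sm fun p : ℝ × E => Th g p.2 p.1 := by
  have h1 : Sm fun q : ℝ × (ℝ × E) => q.2.1 * (q.2.1 * q.1 * Vf g (q.2.1 * q.1) q.2.2) := by
    have a1 : Sm fun q : ℝ × (ℝ × E) => q.2.1 := contDiff_fst.comp contDiff_snd
    have a2 : Sm fun q : ℝ × (ℝ × E) => q.1 := contDiff_fst
    have a3 : Sm fun q : ℝ × (ℝ × E) => q.2.2 := contDiff_snd.comp contDiff_snd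
    exact a1.mul ((a1.mul a2).mul ((sm_Vf hg).comp ((a1.mul a2).prodMk a3)))
  have h2 := specPint _ _ _ h1
  have e : (fun p : ℝ × E => Th g p.2 p.1) = fun p : ℝ × E => ∫ θ in (0 : ℝ)..1,
      p.1 * (p.1 * θ * Vf g (p.1 * θ) p.2) := by
    funext p
    show ∫ t in (0 : ℝ)..p.1, t * Vf g t p.2 = _
    have h3 := intervalIntegral.mul_integral_comp_mul_left (a := 0) (b := 1)
      (f := fun t => t * Vf g t p.2) p.1
    rw [mul_zero, mul_one] at h3
    rw [← h3, ← intervalIntegral.integral_const_mul]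
  rw [e]
  exact h2

/-- only the values on the ball count -/
lemma Vf_congr {f g : E → ℝ} {x : E} {r : ℝ} (h : ∀ z ∈ closedBall x r, f z = g z) {t : ℝ}
    (h0 : 0 ≤ t) (ht : t ≤ r) : Vf f t x = Vf g t x := by
  unfold Vf
  refine integral_congr_ae (Eventually.of_forall fun y => ?_)
  simp only
  rcases lt_or_ge ‖y‖ 1 with hy | hy
  · rw [h]
    rw [mem_closedBall, dist_eq_norm, add_sub_cancel_left, norm_smul, Real.norm_of_nonneg h0]
    nlinarith [norm_nonneg y]
  · rw [Mvp.ζ_zero hy, mul_zero, mul_zero]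

lemma Th_congr {f g : E → ℝ} {x : E} {r : ℝ} (h : ∀ z ∈ closedBall x r, f z = g z) {s : ℝ}
    (h0 : 0 ≤ s) (hs : s ≤ r) : Th f x s = Th g x s := by
  unfold Th
  refine intervalIntegral.integral_congr fun t ht => ?_
  rw [uIcc_of_le h0] at ht
  rw [Vf_congr h ht.1 (ht.2.trans hs)]

/-- a smooth function on an open set agrees near a compact set with a smooth function -/
lemma exists_ext {U K : Set E} (hU : IsOpen U) (hK : IsCompact K) (hKU : K ⊆ U) {f : E → ℝ}
    (hf : ContDiffOn ℝ ((⊤ : ENat) : WithTop ENat) f U) : ∃ g : E → ℝ, Sm g ∧ ∀ z ∈ K, f z = g z := by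
  obtain ⟨χ, hχ, -, hχ1⟩ := Mvp.exists_cut hU hK hKU
  refine ⟨fun z => χ z • f z, Mvp.cut_contDiff hU le_rfl hχ.smooth hχ.sub hf, fun z hz => ?_⟩
  show f z = χ z • f z
  rw [(hχ1 z hz).self_of_nhds, one_smul]

lemma hasDerivAt_Th {f : E → ℝ} (hU : IsOpen U)
    (hf : ContDiffOn ℝ ((⊤ : ENat) : WithTop ENat) f U) {x : E} {r : ℝ}
    (hball : closedBall x r ⊆ U) {s : ℝ} (h0 : 0 < s) (hs : s < r) :
    HasDerivAt (Th f x) (s * Vf f s x) s := by
  obtain ⟨g, hg, hfg⟩ := exists_ext hU (isCompact_closedBall x r) hball hf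
  have h1 : Th f x =ᶠ[𝓝 s] Th g x := by
    filter_upwards [Ioo_mem_nhds h0 hs] with t ht
    exact Th_congr hfg ht.1.le ht.2.le
  refine HasDerivAt.congr_of_eventuallyEq ?_ h1
  rw [Vf_congr hfg h0.le hs.le]
  have hc : Continuous fun t : ℝ => t * Vf g t x :=
    continuous_id.mul ((sm_Vf hg).continuous.comp (continuous_id.prodMk continuous_const))
  exact intervalIntegral.integral_hasDerivAt_right (hc.intervalIntegrable _ _)
    (hc.stronglyMeasurableAtFilter _ _) hc.continuousAt

end MPfab.Wl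
end

section
/-!
MP_fabde4_an, module WEYL, third part: independence of the radius and smoothness.
-/
set_option autoImplicit false
open MeasureTheory Set Filter Topology Metric

namespace MPfab.Wl

/-- the hypotheses of the theorem -/
structure Hyp {ι : Type} [Fintype ι] (U : Set E) (w : ι → E → ℝ) (α : ι → List (Fin 3))
    (f : E → ℝ) : Prop where
  hU : IsOpen U
  hw : ∀ i, LocallyIntegrableOn (w i) U
  hf : ContDiffOn ℝ ((⊤ : ENat) : WithTop ENat) f U
  eq : ∀ η : E → ℝ, Test U η → lam U w α (lap η) = ∫ x in U, f x * η x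

variable {ι : Type} [Fintype ι] {U : Set E} {w : ι → E → ℝ} {α : ι → List (Fin 3)} {f : E → ℝ}

lemma test_Gm (hU : IsOpen U) {x : E} {r τ : ℝ} (hball : closedBall x r ⊆ U)
    (hτ : Real.exp τ ≤ r) : Test U (sl (Gm x) τ) := by
  have h1 : tsupport (sl (Gm x) τ) ⊆ closedBall x r := by
    refine closure_minimal (fun z hz => ?_) isClosed_closedBall
    by_contra hc
    apply hz
    refine Gm_zero (x := x) (z := z) (τ := τ) ?_
    rw [mem_closedBall, dist_eq_norm, not_le] at hc
    exact hτ.trans hc.le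
  exact ⟨PDC.sl_smooth (sm_Gm x) τ, (isCompact_closedBall x r).of_isClosed_subset
    (isClosed_tsupport _) h1, h1.trans hball⟩

/-- the function of the radius -/
noncomputable def Am (U : Set E) (w : ι → E → ℝ) (α : ι → List (Fin 3)) (f : E → ℝ) (x : E)
    (τ : ℝ) : ℝ := lam U w α (sl (Fm x) τ) - Th f x (Real.exp τ)

lemma Am_deriv (H : Hyp U w α f) {x : E} {r τ : ℝ} (hball : closedBall x r ⊆ U)
    (hτ : Real.exp τ < r) : HasDerivAt (Am U w α f x) 0 τ := by
  have h1 : HasDerivAt (fun s => lam U w α (sl (Fm x) s)) (lam U w α (sl (dt (Fm x)) τ)) τ := by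
    refine lam_deriv H.hU H.hw (isCompact_closedBall x r) hball (sm_Fm x) ?_
    have h2 : ∀ᶠ s in 𝓝 τ, Real.exp s < r :=
      Real.continuous_exp.continuousAt.eventually (gt_mem_nhds hτ)
    filter_upwards [h2] with s hs z hz
    refine Fm_zero ?_
    rw [mem_closedBall, dist_eq_norm, not_le] at hz
    exact hs.le.trans hz.le
  have h3 : lam U w α (sl (dt (Fm x)) τ) = Real.exp τ * Vf f (Real.exp τ) x * Real.exp τ := by
    have e1 : sl (dt (Fm x)) τ = lap (sl (Gm x) τ) := funext fun z => dt_Fm x τ z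
    have hT := test_Gm H.hU hball hτ.le
    rw [e1, H.eq _ hT]
    have e2 : ∫ z in U, f z * sl (Gm x) τ z = ∫ z, f z * sl (Gm x) τ z := by
      refine setIntegral_eq_integral_of_forall_compl_eq_zero fun z hz => ?_
      rw [image_eq_zero_of_notMem_tsupport fun h => hz (hT.sub h), mul_zero]
    rw [e2]
    have e3 : (fun z => f z * sl (Gm x) τ z) = fun z => Real.exp τ ^ 2 *
        (f z * (Real.exp (-3 * τ) * Mvp.ζ (Real.exp (-τ) • (z - x)))) := by
      funext z
      have : Real.exp (-τ) = Real.exp τ ^ 2 * Real.exp (-3 * τ) := by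
        rw [← Real.exp_nat_mul, ← Real.exp_add]
        congr 1
        push_cast
        ring
      show f z * (Real.exp (-τ) * Mvp.ζ (Real.exp (-τ) • (z - x))) = _
      conv_lhs => rw [this]
      rw [this]
      ring
    rw [e3, integral_const_mul, int_scale]
    unfold Vf
    ring
  have h4 := (hasDerivAt_Th H.hU H.hf hball (Real.exp_pos τ) hτ).comp τ (Real.hasDerivAt_exp τ)
  have h5 := h1.sub h4
  rw [h3, sub_self] at h5
  exact h5

lemma Am_const (H : Hyp U w α f) {x : E} {r τ τ' : ℝ} (hball : closedBall x r ⊆ U)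
    (hτ : Real.exp τ < r) (hτ' : Real.exp τ' < r) : Am U w α f x τ = Am U w α f x τ' := by
  have hr : 0 < r := (Real.exp_pos τ).trans hτ
  have hs : ∀ {σ : ℝ}, Real.exp σ < r ↔ σ ∈ Iio (Real.log r) := fun {σ} => by
    rw [mem_Iio, Real.lt_log_iff_exp_lt hr]
  refine (convex_Iio (Real.log r)).is_const_of_fderivWithin_eq_zero (𝕜 := ℝ)
    (f := Am U w α f x) ?_ ?_ (hs.1 hτ) (hs.1 hτ')
  · exact fun σ hσ => (Am_deriv H hball (hs.2 hσ)).differentiableAt.differentiableWithinAt
  · intro σ hσ
    have h1 := (Am_deriv H hball (hs.2 hσ)).hasFDerivAt.hasFDerivWithinAt (s := Iio (Real.log r))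
    rw [h1.fderivWithin ((isOpen_Iio).uniqueDiffWithinAt hσ)]
    ext
    simp

open scoped Classical in
/-- the smooth function which represents the functional -/
noncomputable def lf (U : Set E) (w : ι → E → ℝ) (α : ι → List (Fin 3)) (f : E → ℝ) (x : E) : ℝ :=
  if h : ∃ r > 0, closedBall x r ⊆ U then Am U w α f x (Real.log (h.choose / 2)) else 0

lemma lf_eq (H : Hyp U w α f) {x : E} {r τ : ℝ} (hball : closedBall x r ⊆ U)
    (hτ : Real.exp τ < r) : lf U w α f x = Am U w α f x τ := by
  have hr : 0 < r := (Real.exp_pos τ).trans hτ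
  have h : ∃ r > 0, closedBall x r ⊆ U := ⟨r, hr, hball⟩
  rw [lf, dif_pos h]
  obtain ⟨h1, h2⟩ := h.choose_spec
  set r' := h.choose
  -- compare with a small radius
  set m := min r r' / 2 with hm
  have hm0 : 0 < m := by positivity
  have e1 : Am U w α f x (Real.log (r' / 2)) = Am U w α f x (Real.log m) := by
    refine Am_const H h2 ?_ ?_
    · rw [Real.exp_log (by positivity)]
      linarith
    · rw [Real.exp_log hm0, hm]
      have := min_le_right r r'
      linarith
  have e2 : Am U w α f x τ = Am U w α f x (Real.log m) := by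
    refine Am_const H hball hτ ?_
    rw [Real.exp_log hm0, hm]
    have := min_le_left r r'
    linarith
  rw [e1, e2]

/-- smoothness of the first term -/
lemma sm_lam (hU : IsOpen U) (hw : ∀ i, LocallyIntegrableOn (w i) U) {x0 : E} {r τ : ℝ}
    (hball : closedBall x0 (2 * r) ⊆ U) (hτ : Real.exp τ ≤ r) :
    ∃ L : E → ℝ, Sm L ∧ ∀ x ∈ closedBall x0 r, lam U w α (sl (Fm x) τ) = L x := by
  set K := closedBall x0 (2 * r) with hK
  have hKc : IsCompact K := isCompact_closedBall _ _
  set P : ι → E → ℝ := fun i u => pds (α i) (sl (Fm 0) τ) (-u) with hP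
  have hPs : ∀ i, Sm (P i) := fun i =>
    (PDC.pds_smooth (PDC.sl_smooth (sm_Fm 0) τ) (α i)).comp contDiff_neg
  have hPc : ∀ i, HasCompactSupport (P i) := by
    intro i
    refine HasCompactSupport.intro (isCompact_closedBall (0 : E) (Real.exp τ)) fun y hy => ?_
    refine pds_off (S := closedBall 0 (Real.exp τ)) isClosed_closedBall ?_ (α i) ?_
    · intro z hz
      refine Fm_zero ?_
      rw [mem_closedBall_zero_iff, not_le] at hz
      rw [sub_zero]
      exact hz.le
    · rwa [mem_closedBall_zero_iff, norm_neg, ← mem_closedBall_zero_iff]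
  refine ⟨fun x => ∑ i, (convolution (K.indicator (w i)) (P i)
    (ContinuousLinearMap.mul ℝ ℝ) volume) x, ?_, ?_⟩
  · refine ContDiff.sum fun i _ => ?_
    exact (hPc i).contDiff_convolution_right (ContinuousLinearMap.mul ℝ ℝ)
      (integrable_cut (hw i) hKc hball).locallyIntegrable (hPs i)
  · intro x hx
    rw [lam_cut (α := α) (w := w) hU hKc hball (φ := sl (Fm x) τ)]
    · refine Finset.sum_congr rfl fun i _ => ?_
      rw [convolution_def]
      refine integral_congr_ae (Eventually.of_forall fun z => ?_)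
      simp only [ContinuousLinearMap.mul_apply', hP, neg_sub]
      congr 1
      have e1 : sl (Fm x) τ = fun z => sl (Fm 0) τ (z - x) := by
        funext z
        simp [sl, Fm]
      rw [e1, pds_trans]
    · intro z hz
      refine Fm_zero ?_
      rw [hK, mem_closedBall, dist_eq_norm, not_le] at hz
      rw [mem_closedBall, dist_eq_norm] at hx
      have : z - x = (z - x0) - (x - x0) := by abel
      rw [this]
      have := norm_sub_norm_le (z - x0) (x - x0)
      linarith

theorem lf_smooth (H : Hyp U w α f) : ContDiffOn ℝ ((⊤ : ENat) : WithTop ENat) (lf U w α f) U := by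
  intro x0 hx0
  obtain ⟨ε, hε, hε2⟩ := Metric.isOpen_iff.1 H.hU x0 hx0
  set r := ε / 4 with hr
  have hr0 : 0 < r := by positivity
  have hball : closedBall x0 (3 * r) ⊆ U := by
    refine (closedBall_subset_ball ?_).trans hε2
    rw [hr]
    linarith
  have hball2 : closedBall x0 (2 * r) ⊆ U := (closedBall_subset_closedBall (by linarith)).trans hball
  obtain ⟨L, hL, hL2⟩ := sm_lam (α := α) H.hU H.hw (τ := Real.log r) hball2
    (by rw [Real.exp_log hr0])
  obtain ⟨g, hg, hfg⟩ := exists_ext H.hU (isCompact_closedBall x0 (2 * r)) hball2 H.hf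
  have h1 : lf U w α f =ᶠ[𝓝 x0] fun x => L x - Th g x r := by
    filter_upwards [ball_mem_nhds x0 hr0] with x hx
    have hx1 : closedBall x (2 * r) ⊆ U := by
      refine (closedBall_subset_closedBall' ?_).trans hball
      rw [mem_ball] at hx
      linarith
    have hx2 : ∀ z ∈ closedBall x r, f z = g z := by
      intro z hz
      refine hfg z (closedBall_subset_closedBall' ?_ hz)
      rw [mem_ball] at hx
      linarith
    rw [lf_eq H hx1 (τ := Real.log r) (by rw [Real.exp_log hr0]; linarith), Am,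
      hL2 x (ball_subset_closedBall hx), Real.exp_log hr0, Th_congr hx2 hr0.le le_rfl]
  have h2 : Sm fun x => L x - Th g x r :=
    hL.sub ((sm_Th hg).comp (contDiff_const.prodMk contDiff_id))
  exact (h2.contDiffAt.congr_of_eventuallyEq h1).contDiffWithinAt

end MPfab.Wl
end

section
/-!
MP_fabde4_an, module WEYL: functionals of finite order with smooth Laplacian are smooth functions.
-/
set_option autoImplicit false
open MeasureTheory Set Filter Topology Metric

namespace MPfab.Wl

/-! ### convolutions -/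

/-- derivatives of a convolution with a test function -/
lemma pds_conv {φ : E → ℝ} (hφ : LocallyIntegrable φ) {P : E → ℝ} (hP : Sm P)
    (hc : HasCompactSupport P) (L : List (Fin 3)) :
    pds L (fun z => ∫ x, φ x * P (z - x)) = fun z => ∫ x, φ x * pds L P (z - x) := by
  have key : ∀ (L : List (Fin 3)), HasCompactSupport (pds L P) := fun L =>
    HasCompactSupport.intro hc (fun y hy => pds_off hc.isClosed
      (fun z hz => image_eq_zero_of_notMem_tsupport hz) L hy)
  induction L with
  | nil => rfl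
  | cons i L ih =>
    show pd i (pds L _) = fun z => ∫ x, φ x * pd i (pds L P) (z - x)
    rw [ih]
    funext z
    have hs : Sm (pds L P) := PDC.pds_smooth hP L
    have h1 : ContDiff ℝ 1 (pds L P) := hs.of_le (by
      show ((1 : ℕ∞) : WithTop ℕ∞) ≤ ((⊤ : ℕ∞) : WithTop ℕ∞)
      exact WithTop.coe_le_coe.2 le_top)
    have h2 := (key L).hasFDerivAt_convolution_right (ContinuousLinearMap.mul ℝ ℝ) hφ h1 z
    have h3 : (fun z => ∫ x, φ x * pds L P (z - x)) =
        convolution φ (pds L P) (ContinuousLinearMap.mul ℝ ℝ) volume := by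
      funext z
      rw [convolution_def]
      rfl
    rw [pd_def, h3, h2.fderiv, convolution_precompR_apply _ hφ ((key L).fderiv ℝ)
      (h1.continuous_fderiv one_ne_zero), convolution_def]
    rfl

variable {ι : Type} [Fintype ι] {U : Set E} {w : ι → E → ℝ} {α : ι → List (Fin 3)} {f : E → ℝ}

/-- the mollified test function -/
noncomputable def Hm (φ : E → ℝ) (p : ℝ × E) : ℝ := ∫ y, φ (p.2 - p.1 • y) * Mvp.η y

lemma sm_Hm {φ : E → ℝ} (hφ : Sm φ) : Sm (Hm φ) := by
  have h1 : Sm fun q : (ℝ × E) × E => φ (q.1.2 - q.1.1 • q.2) * Mvp.η q.2 := by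
    refine ContDiff.mul (hφ.comp ?_) (Mvp.sm_η.comp contDiff_snd)
    exact (contDiff_snd.comp contDiff_fst).sub
      ((contDiff_fst.comp contDiff_fst).smul contDiff_snd)
  have h2 := par_smooth h1
  have e : Hm φ = fun v : ℝ × E => ∫ y in closedBall (0 : E) 1,
      φ (v.2 - v.1 • y) * Mvp.η y := by
    funext p
    exact int_ball fun y hy => by rw [Mvp.η_zero hy, mul_zero]
  rw [e]
  exact h2

lemma Hm_zero {φ : E → ℝ} {S : Set E} (h : ∀ z, z ∉ S → φ z = 0) {s r : ℝ} (hs : |s| ≤ r)
    {z : E} (hz : z ∉ cthickening r S) : Hm φ (s, z) = 0 := by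
  unfold Hm
  refine integral_eq_zero_of_ae (Eventually.of_forall fun y => ?_)
  show φ (z - s • y) * Mvp.η y = 0
  rcases lt_or_ge ‖y‖ 1 with hy | hy
  · rw [h _ fun hc => hz ?_, zero_mul]
    refine mem_cthickening_of_dist_le z (z - s • y) r S hc ?_
    rw [dist_eq_norm, sub_sub_cancel, norm_smul, Real.norm_eq_abs]
    nlinarith [norm_nonneg y, abs_nonneg s]
  · rw [Mvp.η_zero hy, mul_zero]

lemma Hm_eq (φ : E → ℝ) (τ : ℝ) (z : E) :
    Hm φ (Real.exp τ, z) = ∫ x, φ x * sl (Fm 0) τ (z - x) := by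
  have h1 := int_scale (fun y => φ (z - y)) Mvp.η 0 τ
  simp only [zero_add, sub_zero] at h1
  have h2 := integral_sub_left_eq_self (μ := (volume : Measure E))
    (fun x => φ (z - x) * (Real.exp (-3 * τ) * Mvp.η (Real.exp (-τ) • x))) z
  simp only [sub_sub_cancel] at h2
  unfold Hm
  rw [← h1, ← h2]
  refine integral_congr_ae (Eventually.of_forall fun x => ?_)
  simp [sl, Fm]

/-- Fubini for one term -/
lemma fub {W φ P : E → ℝ} (hW : Integrable W) (hφ : Integrable φ) (hP : Continuous P)
    (hc : HasCompactSupport P) :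
    Integrable (fun x => φ x * ∫ z, W z * P (z - x)) ∧
    ∫ z, W z * ∫ x, φ x * P (z - x) = ∫ x, φ x * ∫ z, W z * P (z - x) := by
  obtain ⟨M, hM⟩ := hP.bounded_above_of_compact_support hc
  have h1 : Integrable (fun q : E × E => W q.1 * φ q.2 * P (q.1 - q.2)) (volume.prod volume) := by
    refine (hW.mul_prod hφ).mul_bdd (c := M) ?_ (Eventually.of_forall fun q => hM _)
    exact (hP.comp (continuous_fst.sub continuous_snd)).aestronglyMeasurable
  have e1 : ∀ x, ∫ z, W z * φ x * P (z - x) = φ x * ∫ z, W z * P (z - x) := by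
    intro x
    rw [← integral_const_mul]
    refine integral_congr_ae (Eventually.of_forall fun z => ?_)
    simp only
    ring
  have e2 : ∀ z, ∫ x, W z * φ x * P (z - x) = W z * ∫ x, φ x * P (z - x) := by
    intro z
    rw [← integral_const_mul]
    refine integral_congr_ae (Eventually.of_forall fun x => ?_)
    simp only
    ring
  constructor
  · have := h1.integral_prod_right
    simpa only [e1] using this
  · have := integral_integral_swap (f := fun z x => W z * φ x * P (z - x)) h1
    simpa only [e1, e2] using this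

lemma repr_mollified (H : Hyp U w α f) {φ : E → ℝ} (hφ : Test U φ) {r : ℝ} (hr : 0 < r)
    (hK : cthickening r (tsupport φ) ⊆ U) {τ : ℝ} (hτ : Real.exp τ ≤ r) :
    Integrable (fun x => φ x * lam U w α (sl (Fm x) τ)) ∧
    lam U w α (sl (Hm φ) (Real.exp τ)) = ∫ x, φ x * lam U w α (sl (Fm x) τ) := by
  set K := cthickening r (tsupport φ) with hKd
  have hKc : IsCompact K := hφ.cpt.isCompact.cthickening
  have hP : ∀ i, Sm (pds (α i) (sl (Fm 0) τ)) := fun i =>
    PDC.pds_smooth (PDC.sl_smooth (sm_Fm 0) τ) (α i)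
  have hF0 : HasCompactSupport (sl (Fm 0) τ) := by
    refine HasCompactSupport.intro (isCompact_closedBall (0 : E) (Real.exp τ)) fun z hz => ?_
    refine Fm_zero ?_
    rw [mem_closedBall_zero_iff, not_le] at hz
    rw [sub_zero]
    exact hz.le
  have hPc : ∀ i, HasCompactSupport (pds (α i) (sl (Fm 0) τ)) := fun i =>
    HasCompactSupport.intro hF0 (fun y hy => pds_off hF0.isClosed
      (fun z hz => image_eq_zero_of_notMem_tsupport hz) (α i) hy)
  have hW : ∀ i, Integrable (K.indicator (w i)) := fun i => integrable_cut (H.hw i) hKc hK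
  have hφi : Integrable φ := hφ.smooth.continuous.integrable_of_hasCompactSupport hφ.cpt
  have hfub := fun i => fub (hW i) hφi (hP i).continuous (hPc i)
  have e1 : (fun x => φ x * lam U w α (sl (Fm x) τ)) = fun x =>
      ∑ i, φ x * ∫ z, K.indicator (w i) z * pds (α i) (sl (Fm 0) τ) (z - x) := by
    funext x
    by_cases hx : x ∈ tsupport φ
    · rw [lam_cut (α := α) (w := w) H.hU hKc hK (φ := sl (Fm x) τ), Finset.mul_sum]
      · refine Finset.sum_congr rfl fun i _ => ?_
        congr 1
        refine integral_congr_ae (Eventually.of_forall fun z => ?_)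
        simp only
        congr 1
        have e1 : sl (Fm x) τ = fun z => sl (Fm 0) τ (z - x) := by
          funext z
          simp [sl, Fm]
        rw [e1, pds_trans]
      · intro z hz
        refine Fm_zero ?_
        by_contra hc
        push Not at hc
        refine hz (mem_cthickening_of_dist_le z x r _ hx ?_)
        rw [dist_eq_norm]
        exact (hc.le).trans hτ
    · simp only [image_eq_zero_of_notMem_tsupport hx, zero_mul, Finset.sum_const_zero]
  constructor
  · rw [e1]
    exact integrable_finsetSum _ fun i _ => (hfub i).1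
  · rw [e1, integral_finsetSum _ fun i _ => (hfub i).1]
    rw [lam_cut (α := α) (w := w) H.hU hKc hK (φ := sl (Hm φ) (Real.exp τ))]
    · refine Finset.sum_congr rfl fun i _ => ?_
      rw [← (hfub i).2]
      refine integral_congr_ae (Eventually.of_forall fun z => ?_)
      simp only
      congr 1
      have e2 : sl (Hm φ) (Real.exp τ) = fun z => ∫ x, φ x * sl (Fm 0) τ (z - x) :=
        funext fun z => Hm_eq φ τ z
      rw [e2, pds_conv hφi.locallyIntegrable (PDC.sl_smooth (sm_Fm 0) τ) hF0]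
    · intro z hz
      exact Hm_zero (fun z hz => image_eq_zero_of_notMem_tsupport hz)
        (by rw [abs_of_pos (Real.exp_pos _)]; exact hτ) hz

theorem repr (H : Hyp U w α f) {φ : E → ℝ} (hφ : Test U φ) :
    lam U w α φ = ∫ x in U, lf U w α f x * φ x := by
  obtain ⟨r, hr, hK⟩ := hφ.cpt.isCompact.exists_cthickening_subset_open H.hU hφ.sub
  set K := cthickening r (tsupport φ) with hKd
  have hKc : IsCompact K := hφ.cpt.isCompact.cthickening
  obtain ⟨g, hg, hfg⟩ := exists_ext H.hU hKc hK H.hf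
  have hb : ∀ x ∈ tsupport φ, closedBall x r ⊆ K := fun x hx =>
    closedBall_subset_cthickening hx r
  -- the second term
  set B : ℝ → ℝ := fun s => ∫ x, φ x * Th g x s with hB
  have hBc : Continuous B := by
    have h1 : Continuous (Function.uncurry fun (s : ℝ) (x : E) => φ x * Th g x s) :=
      (hφ.smooth.continuous.comp continuous_snd).mul (sm_Th hg).continuous
    have h2 := continuous_parametric_integral_of_continuous (μ := (volume : Measure E)) h1
      hφ.cpt.isCompact
    have h3 : B = fun s => ∫ x in tsupport φ, φ x * Th g x s := by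
      funext s
      refine (setIntegral_eq_integral_of_forall_compl_eq_zero fun x hx => ?_).symm
      rw [image_eq_zero_of_notMem_tsupport hx, zero_mul]
    rw [h3]
    exact h2
  have hB0 : B 0 = 0 := by
    simp [hB, Th]
  -- the first term
  set A : ℝ → ℝ := fun s => lam U w α (sl (Hm φ) s) with hA
  have hAc : ContinuousAt A 0 := by
    refine (lam_deriv (K := K) H.hU H.hw hKc hK (sm_Hm hφ.smooth) (τ := 0) ?_).continuousAt
    have h1 : ∀ᶠ s : ℝ in 𝓝 0, |s| < r := by
      have h2 : Tendsto (fun s : ℝ => |s|) (𝓝 0) (𝓝 0) := by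
        have := (continuous_abs.continuousAt (x := (0 : ℝ))).tendsto
        simpa using this
      exact h2.eventually (gt_mem_nhds hr)
    filter_upwards [h1] with s hs z hz
    exact Hm_zero (fun z hz => image_eq_zero_of_notMem_tsupport hz) hs.le hz
  have hA0 : A 0 = lam U w α φ := by
    have : sl (Hm φ) 0 = φ := by
      funext z
      show ∫ y, φ (z - (0 : ℝ) • y) * Mvp.η y = φ z
      simp only [zero_smul, sub_zero]
      rw [integral_const_mul, Mvp.int_η, mul_one]
    rw [hA]
    simp only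
    rw [this]
  -- the identity for small s
  have key : ∀ s ∈ Ioo 0 r, ∫ x in U, lf U w α f x * φ x = A s - B s := by
    intro s hs
    have e1 : ∫ x in U, lf U w α f x * φ x = ∫ x, lf U w α f x * φ x := by
      refine setIntegral_eq_integral_of_forall_compl_eq_zero fun x hx => ?_
      rw [image_eq_zero_of_notMem_tsupport fun h => hx (hφ.sub h), mul_zero]
    have hes : Real.exp (Real.log s) = s := Real.exp_log hs.1
    have h1 := repr_mollified H hφ hr hK (τ := Real.log s) (by rw [hes]; exact hs.2.le)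
    rw [hes] at h1
    have e2 : (fun x => lf U w α f x * φ x) = fun x =>
        φ x * lam U w α (sl (Fm x) (Real.log s)) - φ x * Th g x s := by
      funext x
      by_cases hx : x ∈ tsupport φ
      · have hbx := hb x hx
        rw [lf_eq H (hbx.trans hK) (τ := Real.log s) (by rw [hes]; exact hs.2), Am, hes,
          Th_congr (fun z hz => hfg z (hbx hz)) hs.1.le hs.2.le]
        ring
      · rw [image_eq_zero_of_notMem_tsupport hx]
        ring
    have h2 : Integrable fun x => φ x * Th g x s := by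
      refine Continuous.integrable_of_hasCompactSupport ?_ hφ.cpt.mul_right
      exact hφ.smooth.continuous.mul
        ((sm_Th hg).continuous.comp (continuous_const.prodMk continuous_id))
    rw [e1, e2, integral_sub h1.1 h2, ← h1.2]
  have t1 : Tendsto (fun s => A s - B s) (𝓝[>] 0) (𝓝 (A 0 - B 0)) :=
    ((hAc.sub hBc.continuousAt).tendsto).mono_left nhdsWithin_le_nhds
  have t2 : Tendsto (fun s => A s - B s) (𝓝[>] 0) (𝓝 (∫ x in U, lf U w α f x * φ x)) := by
    refine tendsto_const_nhds.congr' ?_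
    filter_upwards [Ioo_mem_nhdsGT hr] with s hs using key s hs
  have := tendsto_nhds_unique t1 t2
  rw [hA0, hB0, sub_zero] at this
  exact this

/-! ### the Laplacian -/

lemma pd_on {F : Type*} [NormedAddCommGroup F] [NormedSpace ℝ F] {l : E → F} (hU : IsOpen U)
    (hl : ContDiffOn ℝ ((⊤ : ENat) : WithTop ENat) l U) (i : Fin 3) :
    ContDiffOn ℝ ((⊤ : ENat) : WithTop ENat) (pd i l) U :=
  (hl.fderiv_of_isOpen hU (by simp)).clm_apply contDiffOn_const

lemma lap_on {l : E → ℝ} (hU : IsOpen U)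
    (hl : ContDiffOn ℝ ((⊤ : ENat) : WithTop ENat) l U) :
    ContDiffOn ℝ ((⊤ : ENat) : WithTop ENat) (lap l) U := by
  unfold lap
  exact ContDiffOn.sum fun i _ => pd_on hU (pd_on hU hl i) i

lemma test_pd' {φ : E → ℝ} (hφ : Test U φ) (i : Fin 3) : Test U (pd i φ) := by
  have h1 : tsupport (pd i φ) ⊆ tsupport φ := by
    refine closure_minimal (fun z hz => ?_) (isClosed_tsupport φ)
    by_contra hc
    exact hz (pds_off (isClosed_tsupport φ) (fun z hz => image_eq_zero_of_notMem_tsupport hz)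
      [i] hc)
  exact ⟨hφ.smooth.pd i, hφ.cpt.mono' (subset_closure.trans h1), h1.trans hφ.sub⟩

lemma test_lap {φ : E → ℝ} (hφ : Test U φ) : Test U (lap φ) := by
  have h1 : tsupport (lap φ) ⊆ tsupport φ := by
    refine closure_minimal (fun z hz => ?_) (isClosed_tsupport φ)
    by_contra hc
    refine hz (Finset.sum_eq_zero fun i _ => ?_)
    exact pds_off (isClosed_tsupport φ) (fun z hz => image_eq_zero_of_notMem_tsupport hz)
      [i, i] hc
  exact ⟨hφ.smooth.lap, hφ.cpt.mono' (subset_closure.trans h1), h1.trans hφ.sub⟩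

/-- integration by parts for one derivative -/
lemma ibp {m φ : E → ℝ} (hm : Sm m) (hφ : Sm φ) (hc : HasCompactSupport φ) (i : Fin 3) :
    ∫ x, m x * pd i φ x = -∫ x, pd i m x * φ x := by
  have hc1 : HasCompactSupport (pd i φ) :=
    (hc.fderiv (𝕜 := ℝ)).comp_left (g := fun L : E →L[ℝ] ℝ => L (eb i)) (by simp)
  exact integral_mul_fderiv_eq_neg_fderiv_mul_of_integrable (μ := (volume : Measure E))
    (f := m) (g := φ) (v := eb i)
    (((hm.pd i).continuous.mul hφ.continuous).integrable_of_hasCompactSupport hc.mul_left)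
    ((hm.continuous.mul (hφ.pd i).continuous).integrable_of_hasCompactSupport hc1.mul_left)
    ((hm.continuous.mul hφ.continuous).integrable_of_hasCompactSupport hc.mul_left)
    (fun y _ => hm.differentiable y) (fun y _ => hφ.differentiable y)

lemma ibp_lap {m φ : E → ℝ} (hm : Sm m) (hφ : Sm φ) (hc : HasCompactSupport φ) :
    ∫ x, m x * lap φ x = ∫ x, lap m x * φ x := by
  have hc1 : ∀ i, HasCompactSupport (pd i φ) := fun i =>
    (hc.fderiv (𝕜 := ℝ)).comp_left (g := fun L : E →L[ℝ] ℝ => L (eb i)) (by simp)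
  have hc2 : ∀ i, HasCompactSupport (pd i (pd i φ)) := fun i =>
    ((hc1 i).fderiv (𝕜 := ℝ)).comp_left (g := fun L : E →L[ℝ] ℝ => L (eb i)) (by simp)
  unfold lap
  simp only [Finset.mul_sum, Finset.sum_mul]
  have i1 : ∀ i, Integrable fun x => m x * pd i (pd i φ) x := fun i => (hm.continuous.mul
      ((hφ.pd i).pd i).continuous).integrable_of_hasCompactSupport (hc2 i).mul_left
  have i2 : ∀ i, Integrable fun x => pd i (pd i m) x * φ x := fun i =>
    (((hm.pd i).pd i).continuous.mul
      hφ.continuous).integrable_of_hasCompactSupport hc.mul_left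
  rw [integral_finsetSum _ fun i _ => i1 i, integral_finsetSum _ fun i _ => i2 i]
  refine Finset.sum_congr rfl fun i _ => ?_
  rw [ibp hm (hφ.pd i) (hc1 i), ibp (hm.pd i) hφ hc, neg_neg]

/-- integration by parts for a function which is smooth on an open set -/
lemma ibp_on {l φ : E → ℝ} (hU : IsOpen U)
    (hl : ContDiffOn ℝ ((⊤ : ENat) : WithTop ENat) l U) (hφ : Test U φ) :
    ∫ x in U, l x * lap φ x = ∫ x in U, lap l x * φ x := by
  obtain ⟨χ, hχ, -, hχ1⟩ := Mvp.exists_cut hU hφ.cpt.isCompact hφ.sub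
  have hm : Sm fun z => χ z • l z := Mvp.cut_contDiff hU le_rfl hχ.smooth hχ.sub hl
  have h1 := ibp_lap hm hφ.smooth hφ.cpt
  have hlφ := test_lap hφ
  have e1 : ∫ x in U, l x * lap φ x = ∫ x, l x * lap φ x :=
    setIntegral_eq_integral_of_forall_compl_eq_zero fun x hx => by
      rw [image_eq_zero_of_notMem_tsupport fun h => hx (hlφ.sub h), mul_zero]
  have e2 : ∫ x in U, lap l x * φ x = ∫ x, lap l x * φ x :=
    setIntegral_eq_integral_of_forall_compl_eq_zero fun x hx => by
      rw [image_eq_zero_of_notMem_tsupport fun h => hx (hφ.sub h), mul_zero]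
  have heq : ∀ z ∈ tsupport φ, (fun z => χ z • l z) =ᶠ[𝓝 z] l := by
    intro z hz
    filter_upwards [hχ1 z hz] with w hw
    rw [hw, one_smul]
  rw [e1, e2]
  calc ∫ x, l x * lap φ x = ∫ x, (χ x • l x) * lap φ x := by
        refine integral_congr_ae (Eventually.of_forall fun x => ?_)
        simp only
        by_cases hx : x ∈ tsupport φ
        · rw [(heq x hx).eq_of_nhds]
        · have : lap φ x = 0 := Finset.sum_eq_zero fun i _ =>
            pds_off (isClosed_tsupport φ) (fun z hz => image_eq_zero_of_notMem_tsupport hz)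
              [i, i] hx
          rw [this, mul_zero, mul_zero]
    _ = ∫ x, lap (fun z => χ z • l z) x * φ x := h1
    _ = ∫ x, lap l x * φ x := by
        refine integral_congr_ae (Eventually.of_forall fun x => ?_)
        simp only
        by_cases hx : x ∈ tsupport φ
        · rw [(Mvp.lap_congr (heq x hx)).eq_of_nhds]
        · rw [image_eq_zero_of_notMem_tsupport hx, mul_zero, mul_zero]

/-- two continuous functions with the same integrals against test functions are equal -/
lemma eq_of_test {a b : E → ℝ} (hU : IsOpen U) (ha : ContinuousOn a U) (hb : ContinuousOn b U)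
    (h : ∀ φ : E → ℝ, Test U φ → ∫ x in U, a x * φ x = ∫ x in U, b x * φ x) :
    ∀ x ∈ U, a x = b x := by
  have hc : ContinuousOn (fun x => a x - b x) U := ha.sub hb
  have h1 : ∀ᵐ x, x ∈ U → a x - b x = 0 := by
    refine hU.ae_eq_zero_of_integral_contDiff_smul_eq_zero
      (hc.locallyIntegrableOn hU.measurableSet) ?_
    intro φ hφ1 hφ2 hφ3
    have hint : ∀ {k : E → ℝ}, ContinuousOn k U → Integrable fun x => k x * φ x := by
      intro k hk
      have h2 : IntegrableOn (fun x => k x * φ x) (tsupport φ) :=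
        ContinuousOn.integrableOn_compact hφ2 ((hk.mono hφ3).mul hφ1.continuous.continuousOn)
      exact (integrableOn_iff_integrable_of_support_subset fun x hx => by
        by_contra hc
        apply hx
        show k x * φ x = 0
        rw [image_eq_zero_of_notMem_tsupport hc, mul_zero]).1 h2
    have h3 : ∀ {k : E → ℝ}, ∫ x in U, k x * φ x = ∫ x, k x * φ x := fun {k} =>
      setIntegral_eq_integral_of_forall_compl_eq_zero fun x hx => by
        rw [image_eq_zero_of_notMem_tsupport fun h => hx (hφ3 h), mul_zero]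
    have h4 := h φ ⟨hφ1, hφ2, hφ3⟩
    rw [h3, h3] at h4
    have e : (fun x => φ x • (a x - b x)) = fun x => a x * φ x - b x * φ x := by
      funext x
      rw [smul_eq_mul]
      ring
    rw [e, integral_sub (hint ha) (hint hb), h4, sub_self]
  have h2 : a =ᵐ[volume.restrict U] b := by
    refine (ae_restrict_iff' hU.measurableSet).2 ?_
    filter_upwards [h1] with x hx hxU
    linarith [hx hxU]
  exact fun x hx => Measure.eqOn_open_of_ae_eq h2 hU ha hb hx

end MPfab.Wl

namespace MPfab

open Wl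

theorem specWeyl : SpecWeyl := by
  intro U ι _ w α f hU hw hf heq
  have H : Hyp U w α f := ⟨hU, hw, hf, heq⟩
  refine ⟨lf U w α f, lf_smooth H, ?_, fun φ hφ => repr H hφ⟩
  refine eq_of_test hU (lap_on hU (lf_smooth H)).continuousOn hf.continuousOn fun φ hφ => ?_
  rw [← ibp_on hU (lf_smooth H) hφ, ← repr H (test_lap hφ)]
  exact heq φ hφ

end MPfab
end

section
/-!
MP_fabde4_an, part P: module LINT (linear transport of 1-forms by the flow).
-/
set_option autoImplicit false
open MeasureTheory Set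

namespace MPfab

namespace LinT

/-- pairing with the Lie derivative -/
theorem inner_lie (b m : E → E) (y v : E) :
    inner ℝ (lie b m y) v = inner ℝ (fderiv ℝ m y (b y)) v + inner ℝ (m y) (fderiv ℝ b y v) := by
  rw [inner_eq, inner_eq, inner_eq, fderiv_eq_sum, fderiv_eq_sum]
  simp only [lie_apply, PiLp.smul_apply, Fin.sum_univ_three, PiLp.add_apply, smul_eq_mul]
  ring

/-- the pull back of the 1-form `w` by `φ` -/
noncomputable def pl (w φ : E → E) (x : E) : E :=
  WithLp.toLp 2 fun i => inner ℝ (w (φ x)) (pd i φ x)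

theorem inner_pl (w φ : E → E) (x v : E) :
    inner ℝ (pl w φ x) v = inner ℝ (w (φ x)) (fderiv ℝ φ x v) := by
  rw [inner_eq (pl w φ x) v, fderiv_eq_sum, inner_sum]
  refine Finset.sum_congr rfl fun i _ => ?_
  rw [inner_smul_right]
  show inner ℝ (w (φ x)) (pd i φ x) * v i = _
  ring

theorem pl_apply (w φ : E → E) (x : E) (i : Fin 3) :
    pl w φ x i = inner ℝ (w (φ x)) (pd i φ x) := rfl

theorem pl_comp {w ψ φ : E → E} (hψ : Sm ψ) (hφ : Sm φ) (x : E) :
    pl (pl w ψ) φ x = pl w (fun y => ψ (φ y)) x := by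
  ext i
  rw [pl_apply, pl_apply, inner_pl]
  congr 1
  have h1 : HasFDerivAt (fun y => ψ (φ y)) ((fderiv ℝ ψ (φ x)) ∘L (fderiv ℝ φ x)) x :=
    (hψ.differentiable (φ x)).hasFDerivAt.comp x (hφ.differentiable x).hasFDerivAt
  unfold pd
  rw [h1.fderiv]
  rfl

theorem pl_id (w : E → E) (x : E) : pl w (fun y => y) x = w x := by
  ext i
  rw [pl_apply]
  have h1 : pd i (fun y : E => y) x = eb i := by
    unfold pd
    rw [fderiv_fun_id]
    rfl
  rw [h1, eb, EuclideanSpace.inner_single_right]
  simp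

theorem pl_congr {w w' φ : E → E} (h : ∀ x, w x = w' x) (x : E) : pl w φ x = pl w' φ x := by
  rw [funext h]

theorem hasDerivAt_euclid {f : ℝ → E} {f' : E} {t : ℝ}
    (h : ∀ i, HasDerivAt (fun s => f s i) (f' i) t) : HasDerivAt f f' t := by
  have h5 : HasDerivAt (fun s => (fun i => f s i : Fin 3 → ℝ)) (fun i => f' i) t :=
    hasDerivAt_pi.2 h
  exact ((PiLp.continuousLinearEquiv 2 ℝ (fun _ : Fin 3 => ℝ)).symm :
    (Fin 3 → ℝ) →L[ℝ] E).hasFDerivAt.comp_hasDerivAt t h5

end LinT

open LinT in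
/-- module LINT -/
theorem specLinT (hFl : SpecFlowT) : SpecLinT := by
  intro R hR b F m0 hb hF hm0
  obtain ⟨Φ, hΦ, hΦR, _⟩ := hFl b R hb
  -- forward and backward flow
  set φ : ℝ × E → E := fun p => Φ (p.1, 0, p.2) with hφ
  set ψ : ℝ × E → E := fun p => Φ (0, p.1, p.2) with hψ
  have hφs : Sm φ := hΦ.smooth.comp (contDiff_fst.prodMk (contDiff_const.prodMk contDiff_snd))
  have hψs : Sm ψ := hΦ.smooth.comp (contDiff_const.prodMk (contDiff_fst.prodMk contDiff_snd))
  have hψφ : ∀ t x, ψ (t, φ (t, x)) = x := by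
    intro t x
    show Φ (0, t, Φ (t, 0, x)) = x
    rw [hΦ.group, hΦ.init]
  have hφψ : ∀ t x, φ (t, ψ (t, x)) = x := by
    intro t x
    show Φ (t, 0, Φ (0, t, x)) = x
    rw [hΦ.group, hΦ.init]
  have hdtφ : ∀ t x, dt φ (t, x) = b (t, φ (t, x)) := fun t x => (hΦ.deriv t 0 x).deriv
  -- the pulled back force
  set G : ℝ × E → E := fun p => pl (sl F p.1) (sl φ p.1) p.2 with hG
  have hGc : ∀ i, Sm fun p => G p i := by
    intro i
    have h1 : Sm fun p : ℝ × E => F (p.1, φ p) := hF.smooth.comp (contDiff_fst.prodMk hφs)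
    have h2 : Sm fun p : ℝ × E => pd i (sl φ p.1) p.2 := PDC.pds_sl hφs [i]
    exact h1.inner ℝ h2
  -- the pulled back solution
  set M : ℝ × E → E := fun p => WithLp.toLp 2 fun i =>
    m0 p.2 i + ∫ s in (0 : ℝ)..p.1, G (s, p.2) i with hM
  have hMs : Sm M := contDiff_euclidean.2 fun i =>
    ((hm0.smooth.comp_apply i).comp contDiff_snd).add (LinA.prim_smooth (hGc i))
  have hMd : ∀ t x, HasDerivAt (fun s => M (s, x)) (G (t, x)) t := by
    intro t x
    refine hasDerivAt_euclid fun i => ?_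
    exact (LinA.prim_deriv (hGc i) t x).const_add (m0 x i)
  have hM0 : ∀ x, M (0, x) = m0 x := by
    intro x
    ext i
    show m0 x i + ∫ s in (0 : ℝ)..0, G (s, x) i = m0 x i
    simp
  have hMR : ∀ t x, R ≤ ‖x‖ → M (t, x) = 0 := by
    intro t x hx
    have h1 : ∀ s, G (s, x) = 0 := by
      intro s
      ext i
      show inner ℝ (F (s, Φ (s, 0, x))) (pd i (sl φ s) x) = 0
      rw [hΦR s 0 x hx, hF.supp s x hx, inner_zero_left]
    ext i
    show m0 x i + ∫ s in (0 : ℝ)..t, G (s, x) i = 0
    simp only [h1, hm0.supp x hx]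
    simp
  -- the solution
  set m : ℝ × E → E := fun p => pl (sl M p.1) (sl ψ p.1) p.2 with hm
  have hms : Sm m := by
    refine contDiff_euclidean.2 fun i => ?_
    have h1 : Sm fun p : ℝ × E => M (p.1, ψ p) := hMs.comp (contDiff_fst.prodMk hψs)
    have h2 : Sm fun p : ℝ × E => pd i (sl ψ p.1) p.2 := PDC.pds_sl hψs [i]
    exact h1.inner ℝ h2
  have hpull : ∀ t x, pl (sl m t) (sl φ t) x = M (t, x) := by
    intro t x
    have h1 : pl (sl m t) (sl φ t) x = pl (sl M t) (fun y => sl ψ t (sl φ t y)) x :=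
      pl_comp (PDC.sl_smooth hψs t) (PDC.sl_smooth hφs t) x
    have h2 : (fun y => sl ψ t (sl φ t y)) = fun y => y := funext fun y => hψφ t y
    rw [h1, h2, pl_id]
    rfl
  refine ⟨m, ⟨hms, ?_⟩, ?_, ?_⟩
  · intro t x hx
    ext i
    show inner ℝ (M (t, Φ (0, t, x))) (pd i (sl ψ t) x) = 0
    rw [hΦR 0 t x hx, hMR t x hx, inner_zero_left]
  · funext x
    show pl (sl M 0) (sl ψ 0) x = m0 x
    have h1 : sl ψ 0 = fun y => y := funext fun y => hΦ.init 0 y
    rw [h1, pl_id]
    exact hM0 x
  · intro t y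
    -- the equation at the point `y = φ (t, x)`
    obtain ⟨x, rfl⟩ : ∃ x, φ (t, x) = y := ⟨ψ (t, y), hφψ t y⟩
    have hφt := PDC.sl_smooth hφs t
    have hbt := PDC.sl_smooth hb.smooth t
    have hmt := PDC.sl_smooth hms t
    set y := φ (t, x) with hy
    -- derivative of the pull back
    have hder : ∀ i, HasDerivAt (fun s => M (s, x) i)
        (inner ℝ (dt m (t, y) + lie (sl b t) (sl m t) y) (pd i (sl φ t) x)) t := by
      intro i
      have h1 : HasDerivAt (fun s => m (s, φ (s, x)))
          (dt m (t, y) + fderiv ℝ (sl m t) y (b (t, y))) t := by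
        have h2 : HasFDerivAt m (fderiv ℝ m (t, y)) (t, y) :=
          (hms.differentiable (t, y)).hasFDerivAt
        have h3 : HasDerivAt (fun s => (s, φ (s, x))) ((1 : ℝ), b (t, y)) t :=
          (hasDerivAt_id t).prodMk (by
            have := PDC.hasDerivAt_dt hφs t x
            rwa [hdtφ] at this)
        have h4 := h2.comp_hasDerivAt t h3
        have h5 : fderiv ℝ m (t, y) ((1 : ℝ), b (t, y)) =
            dt m (t, y) + fderiv ℝ (sl m t) y (b (t, y)) := by
          have e1 : ((1 : ℝ), b (t, y)) = ((1 : ℝ), (0 : E)) + ((0 : ℝ), b (t, y)) := by simp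
          rw [e1, map_add, PDC.dt_eq hms]
          congr 1
          have h6 : HasFDerivAt (fun z : E => (t, z))
              ((0 : E →L[ℝ] ℝ).prod (ContinuousLinearMap.id ℝ E)) y :=
            (hasFDerivAt_const t y).prodMk (hasFDerivAt_id y)
          have h7 : HasFDerivAt (sl m t) _ y := h2.comp y h6
          rw [h7.fderiv]
          simp
        rw [h5] at h4
        exact h4
      have h2 : HasDerivAt (fun s => pd i (sl φ s) x) (fderiv ℝ (sl b t) y (pd i (sl φ t) x)) t := by
        have h3 := PDC.dt_pds hφs [i] t x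
        have h4 : pds [i] (sl (dt φ) t) x = fderiv ℝ (sl b t) y (pd i (sl φ t) x) := by
          show fderiv ℝ (sl (dt φ) t) x (eb i) = _
          have e1 : sl (dt φ) t = fun z => sl b t (sl φ t z) := funext fun z => hdtφ t z
          rw [e1]
          have h5 : HasFDerivAt (fun z => sl b t (sl φ t z))
              ((fderiv ℝ (sl b t) (sl φ t x)) ∘L (fderiv ℝ (sl φ t) x)) x :=
            (hbt.differentiable _).hasFDerivAt.comp x (hφt.differentiable x).hasFDerivAt
          rw [h5.fderiv]
          rfl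
        rw [h4] at h3
        exact h3
      have h3 := h1.inner ℝ h2
      have e2 : (fun s => inner ℝ (m (s, φ (s, x))) (pd i (sl φ s) x)) = fun s => M (s, x) i := by
        funext s
        rw [← hpull s x]
        rfl
      rw [e2] at h3
      refine h3.congr_deriv ?_
      rw [inner_add_left, inner_add_left, inner_lie]
      show inner ℝ (m (t, y)) (fderiv ℝ (sl b t) y (pd i (sl φ t) x)) +
        (inner ℝ (dt m (t, y)) (pd i (sl φ t) x) +
          inner ℝ (fderiv ℝ (sl m t) y (b (t, y))) (pd i (sl φ t) x)) =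
        inner ℝ (dt m (t, y)) (pd i (sl φ t) x) +
          (inner ℝ (fderiv ℝ (sl m t) y (b (t, y))) (pd i (sl φ t) x) +
          inner ℝ (m (t, y)) (fderiv ℝ (sl b t) y (pd i (sl φ t) x)))
      ring
    -- compare
    have hcmp : ∀ i, inner ℝ (dt m (t, y) + lie (sl b t) (sl m t) y) (pd i (sl φ t) x) =
        inner ℝ (F (t, y)) (pd i (sl φ t) x) := by
      intro i
      have h1 : HasDerivAt (fun s => M (s, x) i) (G (t, x) i) t :=
        (EuclideanSpace.proj i : E →L[ℝ] ℝ).hasFDerivAt.comp_hasDerivAt t (hMd t x)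
      exact (hder i).unique h1
    -- the vectors `pd i (sl φ t) x` span the space
    have hcmp' : ∀ v, inner ℝ (dt m (t, y) + lie (sl b t) (sl m t) y) (fderiv ℝ (sl φ t) x v) =
        inner ℝ (F (t, y)) (fderiv ℝ (sl φ t) x v) := by
      intro v
      rw [fderiv_eq_sum, inner_sum, inner_sum]
      refine Finset.sum_congr rfl fun i _ => ?_
      rw [inner_smul_right, inner_smul_right, hcmp]
    have hsurj : ∀ w : E, ∃ v, fderiv ℝ (sl φ t) x v = w := by
      intro w
      refine ⟨fderiv ℝ (sl ψ t) y w, ?_⟩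
      have h1 : HasFDerivAt (fun z => sl φ t (sl ψ t z))
          ((fderiv ℝ (sl φ t) (sl ψ t y)) ∘L (fderiv ℝ (sl ψ t) y)) y :=
        (hφt.differentiable _).hasFDerivAt.comp y
          ((PDC.sl_smooth hψs t).differentiable y).hasFDerivAt
      have h2 : (fun z => sl φ t (sl ψ t z)) = fun z => z := funext fun z => hφψ t z
      rw [h2] at h1
      have h3 := h1.unique (hasFDerivAt_id y)
      have h4 : sl ψ t y = x := hψφ t x
      rw [h4] at h3
      have h5 := congrArg (fun A => A w) h3
      simpa using h5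
    have hfin : ∀ w, inner ℝ (dt m (t, y) + lie (sl b t) (sl m t) y - F (t, y)) w = 0 := by
      intro w
      obtain ⟨v, rfl⟩ := hsurj w
      rw [inner_sub_left, hcmp' v, sub_self]
    exact sub_eq_zero.1 (inner_self_eq_zero.1 (hfin _))

end MPfab
end

section
/-!
MP_fabde4_an, part N: module TINT (primitives in time).
-/
set_option autoImplicit false
open MeasureTheory Set

namespace MPfab

/-- module TINT -/
theorem specTint : SpecTint := by
  intro F _ _ _ R f hf
  have : CompleteSpace F := FiniteDimensional.complete ℝ F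
  refine ⟨fun p => ∫ s in (0 : ℝ)..p.1, f (s, p.2), ⟨?_, ?_⟩, ?_, ?_⟩
  · have e : (fun p : ℝ × E => ∫ s in (0 : ℝ)..p.1, f (s, p.2)) =
        fun p => p.1 • ∫ θ in (0 : ℝ)..1, f (θ * p.1, p.2) := by
      funext p
      have h := intervalIntegral.smul_integral_comp_mul_right (a := 0) (b := 1)
        (fun s => f (s, p.2)) p.1
      rw [zero_mul, one_mul] at h
      rw [h]
    show Sm (fun p : ℝ × E => ∫ s in (0 : ℝ)..p.1, f (s, p.2))
    rw [e]
    refine contDiff_fst.smul ?_
    have h1 : Sm fun q : ℝ × (ℝ × E) => f (q.1 * q.2.1, q.2.2) :=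
      hf.smooth.comp ((contDiff_fst.mul (contDiff_fst.comp contDiff_snd)).prodMk
        (contDiff_snd.comp contDiff_snd))
    exact specPint (ℝ × E) F (fun q : ℝ × (ℝ × E) => f (q.1 * q.2.1, q.2.2)) h1
  · intro t x hx
    show (∫ s in (0 : ℝ)..t, f (s, x)) = 0
    simp only [hf.supp _ x hx, intervalIntegral.integral_zero]
  · intro x
    show (∫ s in (0 : ℝ)..0, f (s, x)) = 0
    simp
  · intro t x
    have hc : Continuous fun s => f (s, x) := hf.smooth.continuous.comp (by fun_prop)
    exact hc.integral_hasStrictDerivAt 0 t |>.hasDerivAt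

end MPfab
end
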