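import Pool.Agent.Lib.MP_fabde4_an.SpecM
import Pool.Agent.Lib.MP_fabde4_an.M.Lop
import Pool.Agent.Lib.MP_fabde4_an.SpecN

section
/-!
MP_fabde4_an, module WFL: flows of words.
-/
set_option autoImplicit false
open MeasureTheory Set Filter Topology

namespace MPfab

namespace WflM

theorem sm_slice {F : Type} [NormedAddCommGroup F] [NormedSpace ℝ F] {Θ : ℝ × E → F} (h : Sm Θ)
    (s : ℝ) : Sm (fun x => Θ (s, x)) := h.comp (contDiff_const.prodMk contDiff_id)

theorem sm_deriv {γ : ℝ → ℝ} (h : Sm γ) : Sm (_root_.deriv γ) := by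
  have h1 : _root_.deriv γ = fun s => fderiv ℝ γ s 1 := by
    funext s
    exact (fderiv_apply_one_eq_deriv).symm
  rw [h1]
  exact (h.fderiv_right (m := ((⊤ : ENat) : WithTop ENat)) (by simp)).clm_apply contDiff_const

theorem sm_hasDeriv {γ : ℝ → ℝ} (h : Sm γ) (s : ℝ) : HasDerivAt γ (_root_.deriv γ s) s :=
  (h.differentiable s).hasDerivAt

/-- a curve with zero derivative is constant -/
theorem curve_const {f : ℝ → E} {g : ℝ → E} (hf : ∀ s, HasDerivAt f (g s) s) {a b : ℝ}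
    (hab : a ≤ b) (h0 : ∀ s, a ≤ s → s ≤ b → g s = 0) : f b = f a := by
  refine constant_of_has_deriv_right_zero (a := a) (b := b)
    (fun s _ => (hf s).continuousAt.continuousWithinAt) (fun s hs => ?_) b ⟨hab, le_rfl⟩
  have := hf s
  rw [h0 s hs.1 hs.2.le] at this
  exact this.hasDerivWithinAt

theorem wconst {R s0 s1 : ℝ} {c Θ Θi : ℝ × E → E} (h : WF R c Θ Θi) (hs : s0 ≤ s1)
    (h0 : ∀ s x, s0 ≤ s → s ≤ s1 → c (s, x) = 0) (x : E) : Θ (s1, x) = Θ (s0, x) :=
  curve_const (f := fun r => Θ (r, x)) (fun s => h.deriv s x) hs fun s h1 h2 => h0 s _ h1 h2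

/-- before the support of the field the flow is the identity -/
theorem wid {R s0 : ℝ} {c Θ Θi : ℝ × E → E} (h : WF R c Θ Θi) (hs : 0 ≤ s0)
    (h0 : ∀ s x, s ≤ s0 → c (s, x) = 0) {s : ℝ} (hss : s ≤ s0) (x : E) : Θ (s, x) = x := by
  rcases le_total 0 s with h1 | h1
  · rw [wconst h h1 (fun r y _ hr => h0 r y (hr.trans hss)) x, h.zero]
  · rw [← wconst h h1 (fun r y _ hr => h0 r y (hr.trans hs)) x, h.zero]

/-- values of the inverse -/
theorem inv_eq {R : ℝ} {c Θ Θi : ℝ × E → E} (h : WF R c Θ Θi) {s s' : ℝ}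
    (he : ∀ x, Θ (s, x) = Θ (s', x)) (x : E) : Θi (s, x) = Θi (s', x) := by
  have h1 := h.right s x
  rw [he] at h1
  have h2 := h.left s' (Θi (s, x))
  rw [h1] at h2
  exact h2.symm

theorem winvid {R s0 : ℝ} {c Θ Θi : ℝ × E → E} (h : WF R c Θ Θi) (hs : 0 ≤ s0)
    (h0 : ∀ s x, s ≤ s0 → c (s, x) = 0) {s : ℝ} (hss : s ≤ s0) (x : E) : Θi (s, x) = x := by
  have h1 := h.right s x
  rwa [wid h hs h0 hss] at h1

/-- the derivative of a composition of flows -/
theorem cat_deriv {R : ℝ} {c1 Θ1 Θ1i c2 Θ2 Θ2i : ℝ × E → E} (h1 : WF R c1 Θ1 Θ1i)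
    (h2 : WF R c2 Θ2 Θ2i) (s : ℝ) (x : E) :
    HasDerivAt (fun r => Θ2 (r, Θ1 (r, x))) (c2 (s, Θ2 (s, Θ1 (s, x))) +
      fderiv ℝ (fun y => Θ2 (s, y)) (Θ1 (s, x)) (c1 (s, Θ1 (s, x)))) s := by
  have hF : HasFDerivAt Θ2 (fderiv ℝ Θ2 (s, Θ1 (s, x))) (s, Θ1 (s, x)) :=
    (h2.smooth.differentiable _).hasFDerivAt
  have hc : HasDerivAt (fun r : ℝ => (r, Θ1 (r, x))) ((1 : ℝ), c1 (s, Θ1 (s, x))) s :=
    (hasDerivAt_id s).prodMk (h1.deriv s x)
  have h3 := hF.comp_hasDerivAt s hc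
  have h4 : HasDerivAt (fun r => Θ2 (r, Θ1 (s, x))) (fderiv ℝ Θ2 (s, Θ1 (s, x)) (1, 0)) s := by
    have hc' : HasDerivAt (fun r : ℝ => (r, Θ1 (s, x))) ((1 : ℝ), (0 : E)) s :=
      (hasDerivAt_id s).prodMk (hasDerivAt_const s _)
    exact hF.comp_hasDerivAt s hc'
  have h5 : fderiv ℝ Θ2 (s, Θ1 (s, x)) (1, 0) = c2 (s, Θ2 (s, Θ1 (s, x))) :=
    h4.unique (h2.deriv s _)
  have h6 : fderiv ℝ (fun y => Θ2 (s, y)) (Θ1 (s, x)) (c1 (s, Θ1 (s, x))) =
      fderiv ℝ Θ2 (s, Θ1 (s, x)) (0, c1 (s, Θ1 (s, x))) := by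
    have hg : HasFDerivAt (fun y : E => (s, y)) ((0 : E →L[ℝ] ℝ).prod (ContinuousLinearMap.id ℝ E))
        (Θ1 (s, x)) := (hasFDerivAt_const s _).prodMk (hasFDerivAt_id _)
    have := (hF.comp (Θ1 (s, x)) hg).fderiv
    have e : (fun y => Θ2 (s, y)) = Θ2 ∘ fun y : E => (s, y) := rfl
    rw [e, this]
    rfl
  have h7 : ((1 : ℝ), c1 (s, Θ1 (s, x))) = (1, 0) + (0, c1 (s, Θ1 (s, x))) := by simp
  rw [← h5, h6, ← map_add, ← h7]
  exact h3

end WflM

open WflM in
/-- WFL: flows of words -/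
theorem specWfl : SpecWfl where
  one := by
    intro R X F γ hX hF hout hγ h0
    refine ⟨⟨?_, ?_⟩, ?_, ?_, ?_, ?_, ?_, ?_, ?_⟩
    · exact ((sm_deriv hγ).comp contDiff_fst).smul (hX.smooth.comp contDiff_snd)
    · intro t x hx
      simp only
      rw [hX.supp x hx, smul_zero]
    · exact hF.smooth.comp ((hγ.comp contDiff_fst).prodMk contDiff_snd)
    · exact hF.smooth.comp ((hγ.comp contDiff_fst).neg.prodMk contDiff_snd)
    · intro x
      simp only [h0, hF.zero]
    · intro s x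
      exact (hF.deriv (γ s) x).scomp s (sm_hasDeriv hγ s)
    · intro s x
      simp only
      rw [hF.group, neg_add_cancel, hF.zero]
    · intro s x
      simp only
      rw [hF.group, add_neg_cancel, hF.zero]
    · intro s x hx
      exact hout _ x hx
  cat := by
    intro R s0 c1 Θ1 Θ1i c2 Θ2 Θ2i h1 h2 hs0 hc1 hc2
    refine ⟨⟨h1.field.smooth.add h2.field.smooth, ?_⟩, ?_, ?_, ?_, ?_, ?_, ?_, ?_⟩
    · intro t x hx
      change c1 (t, x) + c2 (t, x) = 0
      rw [h1.field.supp t x hx, h2.field.supp t x hx, add_zero]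
    · exact h2.smooth.comp (contDiff_fst.prodMk h1.smooth)
    · exact h1.smoothi.comp (contDiff_fst.prodMk h2.smoothi)
    · intro x
      simp only [h1.zero, h2.zero]
    · intro s x
      have h3 := cat_deriv h1 h2 s x
      simp only
      convert h3 using 1
      rcases le_total s0 s with hs | hs
      · rw [hc1 s _ hs, hc1 s _ hs, map_zero, zero_add, add_zero]
      · have h4 : ∀ y, Θ2 (s, y) = y := fun y => wid h2 hs0 hc2 hs y
        have h5 : (fun y => Θ2 (s, y)) = fun y => y := funext h4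
        rw [h5, fderiv_fun_id, hc2 s _ hs, h4, add_zero, zero_add]
        rfl
    · intro s x
      simp only
      rw [h2.left, h1.left]
    · intro s x
      simp only
      rw [h1.right, h2.right]
    · intro s x hx
      simp only
      rw [h1.out s x hx, h2.out s x hx]
  time := by
    intro R c Θ Θi σ h hσ h0
    refine ⟨⟨?_, ?_⟩, ?_, ?_, ?_, ?_, ?_, ?_, ?_⟩
    · exact ((sm_deriv hσ).comp contDiff_fst).smul
        (h.field.smooth.comp ((hσ.comp contDiff_fst).prodMk contDiff_snd))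
    · intro t x hx
      simp only
      rw [h.field.supp _ x hx, smul_zero]
    · exact h.smooth.comp ((hσ.comp contDiff_fst).prodMk contDiff_snd)
    · exact h.smoothi.comp ((hσ.comp contDiff_fst).prodMk contDiff_snd)
    · intro x
      simp only [h0, h.zero]
    · intro s x
      exact (h.deriv (σ s) x).scomp s (sm_hasDeriv hσ s)
    · intro s x
      exact h.left _ x
    · intro s x
      exact h.right _ x
    · intro s x hx
      exact h.out _ x hx
  const := by
    intro R s0 s1 c Θ Θi h hs h0 x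
    exact wconst h hs h0 x
  dif := by
    intro R c Θ Θi h s
    exact ⟨sm_slice h.smooth s, sm_slice h.smoothi s, h.left s, h.right s, h.out s⟩

end MPfab
end

section
/-!
MP_fabde4_an: second order jets in a parameter (used by COMM and AVG).
-/
set_option autoImplicit false
open MeasureTheory Set Filter Topology

namespace MPfab

namespace JetM

/-- derivative in the first variable -/
noncomputable def dr (h : ℝ × E → E) (p : ℝ × E) : E := fderiv ℝ h p (1, 0)

theorem dr_smooth {h : ℝ × E → E} (hs : Sm h) : Sm (dr h) := PDC.dd_smooth hs _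

theorem dr_hasDeriv {h : ℝ × E → E} (hs : Sm h) (r : ℝ) (x : E) :
    HasDerivAt (fun s => h (s, x)) (dr h (r, x)) r := by
  have hc : HasDerivAt (fun s : ℝ => (s, x)) ((1 : ℝ), (0 : E)) r :=
    (hasDerivAt_id r).prodMk (hasDerivAt_const r _)
  exact ((hs.differentiable (r, x)).hasFDerivAt).comp_hasDerivAt r hc

theorem dr_eq {h : ℝ × E → E} (hs : Sm h) {r : ℝ} {x v : E}
    (hv : HasDerivAt (fun s => h (s, x)) v r) : dr h (r, x) = v :=
  (dr_hasDeriv hs r x).unique hv

/-- Hadamard's lemma with a parameter -/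
theorem had (hP : SpecPint) (h : ℝ × E → E) (hs : Sm h) (h0 : ∀ x, h (0, x) = 0) :
    ∃ g : ℝ × E → E, Sm g ∧ (∀ r x, h (r, x) = r • g (r, x)) ∧ ∀ x, g (0, x) = dr h (0, x) := by
  have hf : Sm fun q : ℝ × (ℝ × E) => dr h (q.1 * q.2.1, q.2.2) :=
    (dr_smooth hs).comp ((contDiff_fst.mul (contDiff_fst.comp contDiff_snd)).prodMk
      (contDiff_snd.comp contDiff_snd))
  refine ⟨fun p => ∫ θ in (0 : ℝ)..1, dr h (θ * p.1, p.2), hP (ℝ × E) E _ hf, ?_, ?_⟩
  · intro r x
    have h1 : ∀ θ ∈ uIcc (0 : ℝ) 1, HasDerivAt (fun θ => h (θ * r, x)) (r • dr h (θ * r, x)) θ := by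
      intro θ _
      have := (dr_hasDeriv hs (θ * r) x).scomp θ ((hasDerivAt_id θ).mul_const r)
      rw [one_mul] at this
      exact this
    have hc : Continuous fun θ : ℝ => r • dr h (θ * r, x) := by
      have : Continuous (dr h) := (dr_smooth hs).continuous
      fun_prop
    have h2 := intervalIntegral.integral_eq_sub_of_hasDerivAt h1
      (hc.intervalIntegrable _ _)
    rw [intervalIntegral.integral_smul] at h2
    simp only [one_mul, zero_mul, h0, sub_zero] at h2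
    exact h2.symm
  · intro x
    simp

/-- second order jet `φ = x + r a + r² b(r,x)`, `b(0,·) = b₀` -/
structure JJ (φ : ℝ × E → E) (a b0 : E → E) : Prop where
  sm : Sm φ
  sma : Sm a
  ex : ∃ b : ℝ × E → E, Sm b ∧ (∀ r x, φ (r, x) = x + r • a x + r ^ 2 • b (r, x)) ∧
    ∀ x, b (0, x) = b0 x

theorem JJ.zero {φ : ℝ × E → E} {a b0 : E → E} (h : JJ φ a b0) (x : E) : φ (0, x) = x := by
  obtain ⟨b, _, h2, _⟩ := h.ex
  rw [h2]
  simp

theorem JJ.deriv0 {φ : ℝ × E → E} {a b0 : E → E} (h : JJ φ a b0) (x : E) :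
    HasDerivAt (fun r => φ (r, x)) (a x) 0 := by
  obtain ⟨b, hb, h2, _⟩ := h.ex
  have e : (fun r => φ (r, x)) = fun r => x + r • a x + r ^ 2 • b (r, x) := funext fun r => h2 r x
  rw [e]
  have h3 : HasDerivAt (fun r : ℝ => r • a x) ((1 : ℝ) • a x) 0 :=
    (hasDerivAt_id (0 : ℝ)).smul_const (a x)
  have h4 : HasDerivAt (fun r : ℝ => r ^ 2) (((2 : ℕ) : ℝ) * (0 : ℝ) ^ (2 - 1)) 0 :=
    hasDerivAt_pow 2 0
  have h5 := h4.smul (dr_hasDeriv hb 0 x)
  have h6 := (h3.const_add x).add h5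
  have h7 : (1 : ℝ) • a x + ((0 : ℝ) ^ 2 • dr b (0, x) + (((2 : ℕ) : ℝ) * (0 : ℝ) ^ (2 - 1)) •
      b (0, x)) = a x := by simp
  rw [h7] at h6
  exact h6

theorem JJ.congr {φ : ℝ × E → E} {a a' b0 b0' : E → E} (h : JJ φ a b0) (ha : ∀ x, a x = a' x)
    (hb : ∀ x, b0 x = b0' x) : JJ φ a' b0' := by
  have e1 : a = a' := funext ha
  have e2 : b0 = b0' := funext hb
  subst e1 e2
  exact h

/-- composition -/
theorem JJ.comp (hP : SpecPint) {φ ψ : ℝ × E → E} {a b0 a' b0' : E → E} (h : JJ φ a b0)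
    (h' : JJ ψ a' b0') : JJ (fun p => ψ (p.1, φ p)) (fun x => a x + a' x)
      fun x => b0 x + fderiv ℝ a' x (a x) + b0' x := by
  obtain ⟨b, hb, h2, h3⟩ := h.ex
  obtain ⟨b', hb', h2', h3'⟩ := h'.ex
  have hs1 : Sm (fun p : ℝ × E => a' (φ p) - a' p.2) :=
    (h'.sma.comp h.sm).sub (h'.sma.comp contDiff_snd)
  obtain ⟨G, hG, hG1, hG2⟩ := had hP (fun p => a' (φ p) - a' p.2) hs1
    (fun x => by simp only [h.zero, sub_self])
  refine ⟨h'.sm.comp (contDiff_fst.prodMk h.sm), h.sma.add h'.sma,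
    fun p => b p + G p + b' (p.1, φ p),
    (hb.add hG).add (hb'.comp (contDiff_fst.prodMk h.sm)), ?_, ?_⟩
  · intro r x
    have e1 : a' (φ (r, x)) = a' x + r • G (r, x) := by
      rw [← hG1 r x]
      simp
    simp only
    rw [h2', e1, h2 r x]
    simp only [smul_add, smul_smul, pow_two]
    abel
  · intro x
    have e1 : G (0, x) = fderiv ℝ a' x (a x) := by
      rw [hG2]
      refine dr_eq hs1 ?_
      have h5 : HasFDerivAt a' (fderiv ℝ a' (φ (0, x))) (φ (0, x)) :=
        (h'.sma.differentiable _).hasFDerivAt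
      have h6 := (h5.comp_hasDerivAt (0 : ℝ) (h.deriv0 x)).sub_const (a' x)
      rw [h.zero] at h6
      exact h6
    simp only
    rw [h3, e1, h.zero, h3']

theorem JJ.id : JJ (fun p => p.2) (fun _ => 0) fun _ => 0 :=
  ⟨contDiff_snd, contDiff_const, fun _ => 0, contDiff_const, fun r x => by simp, fun _ => rfl⟩

/-- the jet of a flow -/
theorem jj_flow1 (hP : SpecPint) {Z : E → E} {F : ℝ × E → E} (hZ : Sm Z) (hF : IsFlow Z F) :
    JJ F Z fun x => (1 / 2 : ℝ) • fderiv ℝ Z x (Z x) := by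
  have d1 : ∀ x, dr F (0, x) = Z x := by
    intro x
    have := dr_eq hF.smooth (hF.deriv 0 x)
    rwa [hF.zero] at this
  have s1 : Sm (fun p : ℝ × E => F p - p.2) := hF.smooth.sub contDiff_snd
  obtain ⟨g1, hg1, e1, z1⟩ := had hP _ s1 (fun x => by simp [hF.zero])
  have z1' : ∀ x, g1 (0, x) = Z x := by
    intro x
    rw [z1]
    refine dr_eq s1 ?_
    have := (hF.deriv 0 x).sub_const x
    rwa [hF.zero] at this
  have s2 : Sm (fun p : ℝ × E => g1 p - Z p.2) := hg1.sub (hZ.comp contDiff_snd)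
  obtain ⟨b, hb, e2, _⟩ := had hP _ s2 (fun x => by simp [z1'])
  have ex : ∀ r x, F (r, x) = x + r • Z x + r ^ 2 • b (r, x) := by
    intro r x
    have h1 := e1 r x
    have h2 := e2 r x
    simp only at h1 h2
    rw [sub_eq_iff_eq_add] at h1 h2
    rw [h1, h2]
    simp only [smul_add, smul_smul, pow_two]
    abel
  refine ⟨hF.smooth, hZ, b, hb, ex, ?_⟩
  have s3 : Sm (fun p : ℝ × E => Z (F p) - Z p.2) := (hZ.comp hF.smooth).sub (hZ.comp contDiff_snd)
  obtain ⟨G, hG, e3, z3⟩ := had hP _ s3 (fun x => by simp [hF.zero])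
  intro x
  have z3' : G (0, x) = fderiv ℝ Z x (Z x) := by
    rw [z3]
    refine dr_eq s3 ?_
    have h5 : HasFDerivAt Z (fderiv ℝ Z (F (0, x))) (F (0, x)) :=
      (hZ.differentiable _).hasFDerivAt
    have h6 := (h5.comp_hasDerivAt (0 : ℝ) (hF.deriv 0 x)).sub_const (Z x)
    rw [hF.zero] at h6
    exact h6
  have key : ∀ r : ℝ, r ≠ 0 → G (r, x) = (2 : ℝ) • b (r, x) + r • dr b (r, x) := by
    intro r hr
    have h1 := hF.deriv r x
    have e : (fun r => F (r, x)) = fun r => x + r • Z x + r ^ 2 • b (r, x) :=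
      funext fun r => ex r x
    rw [e] at h1
    have h3 : HasDerivAt (fun r : ℝ => r • Z x) ((1 : ℝ) • Z x) r :=
      (hasDerivAt_id r).smul_const (Z x)
    have h4 : HasDerivAt (fun r : ℝ => r ^ 2) (((2 : ℕ) : ℝ) * r ^ (2 - 1)) r := hasDerivAt_pow 2 r
    have h5 := h4.smul (dr_hasDeriv hb r x)
    have h6 := (h3.const_add x).add h5
    have h7 := h1.unique h6
    have h8 := e3 r x
    simp only at h8
    rw [h7] at h8
    have h9 : r • G (r, x) = r • ((2 : ℝ) • b (r, x) + r • dr b (r, x)) := by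
      rw [← h8]
      simp only [one_smul, smul_add, smul_smul]
      have : ((2 : ℕ) : ℝ) * r ^ (2 - 1) = r * 2 := by norm_num; ring
      rw [this, pow_two]
      abel
    exact smul_right_injective E hr h9
  have hc1 : Continuous fun r : ℝ => G (r, x) := by
    have := hG.continuous
    fun_prop
  have hc2 : Continuous fun r : ℝ => (2 : ℝ) • b (r, x) + r • dr b (r, x) := by
    have h1 := hb.continuous
    have h2 := (dr_smooth hb).continuous
    fun_prop
  have h0 := Continuous.ext_on (dense_compl_singleton (0 : ℝ)) hc1 hc2 (fun r hr => key r hr)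
  have h00 := congrFun h0 0
  simp only [zero_smul, add_zero] at h00
  rw [z3'] at h00
  rw [h00, smul_smul]
  norm_num

theorem jj_flow (hP : SpecPint) {Z : E → E} {F : ℝ × E → E} (hZ : Sm Z) (hF : IsFlow Z F) (σ : ℝ) :
    JJ (fun p => F (σ * p.1, p.2)) (fun x => σ • Z x) fun x =>
      σ ^ 2 • ((1 / 2 : ℝ) • fderiv ℝ Z x (Z x)) := by
  obtain ⟨b, hb, e, z⟩ := (jj_flow1 hP hZ hF).ex
  have hσ : Sm (fun p : ℝ × E => (σ * p.1, p.2)) :=
    (contDiff_const.mul contDiff_fst).prodMk contDiff_snd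
  have s1 : Sm (fun p : ℝ × E => b (σ * p.1, p.2)) := hb.comp hσ
  refine ⟨hF.smooth.comp hσ, hZ.const_smul σ, fun p => σ ^ 2 • b (σ * p.1, p.2),
    s1.const_smul (σ ^ 2), ?_, ?_⟩
  · intro r x
    simp only
    rw [e]
    simp only [smul_smul]
    congr 1
    · congr 2
      ring
    · congr 1
      ring
  · intro x
    simp only [mul_zero]
    rw [z]

theorem jj_flow2 (hP : SpecPint) {Z : E → E} {F : ℝ × E → E} (hZ : Sm Z) (hF : IsFlow Z F) (σ : ℝ) :
    JJ (fun p => F (σ * p.1 ^ 2, p.2)) (fun _ => 0) fun x => σ • Z x := by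
  obtain ⟨b, hb, e, z⟩ := (jj_flow1 hP hZ hF).ex
  have hσ : Sm (fun p : ℝ × E => (σ * p.1 ^ 2, p.2)) :=
    (contDiff_const.mul (contDiff_fst.pow 2)).prodMk contDiff_snd
  have s1 : Sm (fun p : ℝ × E => b (σ * p.1 ^ 2, p.2)) := hb.comp hσ
  have s2 : Sm (fun p : ℝ × E => Z p.2) := hZ.comp contDiff_snd
  have s3 : Sm (fun p : ℝ × E => (σ * p.1) ^ 2) := (contDiff_const.mul contDiff_fst).pow 2
  refine ⟨hF.smooth.comp hσ, contDiff_const, fun p => σ • Z p.2 + (σ * p.1) ^ 2 •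
    b (σ * p.1 ^ 2, p.2), (s2.const_smul σ).add (s3.smul s1), ?_, ?_⟩
  · intro r x
    simp only
    rw [e]
    simp only [smul_smul, smul_add, smul_zero, add_zero]
    rw [add_assoc]
    congr 1
    congr 1
    · congr 1
      ring
    · congr 1
      ring
  · intro x
    simp

end JetM

end MPfab
end

section
/-!
MP_fabde4_an, module COMM: commutators of flows.
-/
set_option autoImplicit false
open MeasureTheory Set Filter Topology

namespace MPfab

namespace CommM

open WflM JetM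

/-! ### time profiles -/

/-- the time profile of a step -/
noncomputable def gam (t0 t1 s : ℝ) : ℝ := Real.smoothTransition ((s - t0) / (t1 - t0))

theorem gam_smooth (t0 t1 : ℝ) : Sm (gam t0 t1) :=
  Real.smoothTransition.contDiff.comp ((contDiff_id.sub contDiff_const).div_const _)

theorem gam_left {t0 t1 s : ℝ} (h : t0 < t1) (hs : s ≤ t0) : gam t0 t1 s = 0 := by
  unfold gam
  apply Real.smoothTransition.zero_of_nonpos
  exact div_nonpos_of_nonpos_of_nonneg (by linarith) (by linarith)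

theorem gam_right {t0 t1 s : ℝ} (h : t0 < t1) (hs : t1 ≤ s) : gam t0 t1 s = 1 := by
  unfold gam
  apply Real.smoothTransition.one_of_one_le
  rw [le_div_iff₀ (by linarith)]
  linarith

theorem deriv_left {f : ℝ → ℝ} {s c : ℝ} (hf : Sm f) (h : ∀ r ≤ s, f r = c) :
    _root_.deriv f s = 0 := by
  have h1 := (sm_hasDeriv hf s).hasDerivWithinAt (s := Iic s)
  have h2 : HasDerivWithinAt f 0 (Iic s) s :=
    (hasDerivWithinAt_const s (Iic s) c).congr (fun r hr => h r hr) (h s le_rfl)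
  exact (uniqueDiffOn_Iic s s self_mem_Iic).eq_deriv _ h1 h2

theorem deriv_right {f : ℝ → ℝ} {s c : ℝ} (hf : Sm f) (h : ∀ r, s ≤ r → f r = c) :
    _root_.deriv f s = 0 := by
  have h1 := (sm_hasDeriv hf s).hasDerivWithinAt (s := Ici s)
  have h2 : HasDerivWithinAt f 0 (Ici s) s :=
    (hasDerivWithinAt_const s (Ici s) c).congr (fun r hr => h r hr) (h s le_rfl)
  exact (uniqueDiffOn_Ici s s self_mem_Ici).eq_deriv _ h1 h2

/-! ### words with a parameter -/

theorem word_zero (Cl : (E → E) → Prop) : Word Cl fun _ => 0 :=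
  ⟨0, fun i => i.elim0, fun i => i.elim0, fun i => i.elim0, fun i => i.elim0, fun p => by simp⟩

theorem word_one {Cl : (E → E) → Prop} {Z : E → E} (hZ : Cl Z) {l : ℝ → ℝ} (hl : Sm l) :
    Word Cl fun p => l p.1 • Z p.2 :=
  ⟨1, fun _ => l, fun _ => Z, fun _ => hl, fun _ => hZ, fun p => by simp⟩

theorem word_add {Cl : (E → E) → Prop} {c c' : ℝ × E → E} (h : Word Cl c) (h' : Word Cl c') :
    Word Cl fun p => c p + c' p := by
  obtain ⟨N, lam, X, h1, h2, h3⟩ := h
  obtain ⟨N', lam', X', h1', h2', h3'⟩ := h'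
  refine ⟨N + N', Fin.append lam lam', Fin.append X X', ?_, ?_, ?_⟩
  · intro i
    refine Fin.addCases (fun j => ?_) (fun j => ?_) i
    · rw [Fin.append_left]
      exact h1 j
    · rw [Fin.append_right]
      exact h1' j
  · intro i
    refine Fin.addCases (fun j => ?_) (fun j => ?_) i
    · rw [Fin.append_left]
      exact h2 j
    · rw [Fin.append_right]
      exact h2' j
  · intro p
    change c p + c' p = _
    rw [h3, h3', Fin.sum_univ_add]
    simp only [Fin.append_left, Fin.append_right]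

/-- words on the time interval `[t0,t1]` with the flow `φ` -/
structure Gen (Cl : (E → E) → Prop) (R t0 t1 : ℝ) (w : ℝ → ℝ × E → E) (φ φi : ℝ × E → E) :
    Prop where
  word : ∀ r, Word Cl (w r)
  supp : ∀ r s x, (s ≤ t0 ∨ t1 ≤ s) → w r (s, x) = 0
  flow : ∀ r, ∃ Θ Θi : ℝ × E → E, WF R (w r) Θ Θi ∧
    ∀ s x, t1 ≤ s → Θ (s, x) = φ (r, x) ∧ Θi (s, x) = φi (r, x)

/-- `φ` is the flow of words on every time interval -/
def Rz (Cl : (E → E) → Prop) (R : ℝ) (φ φi : ℝ × E → E) : Prop :=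
  ∀ t0 t1 : ℝ, 0 ≤ t0 → t0 < t1 → ∃ w, Gen Cl R t0 t1 w φ φi

theorem rz_id (Cl : (E → E) → Prop) (R : ℝ) : Rz Cl R (fun p => p.2) fun p => p.2 := by
  intro t0 t1 _ _
  refine ⟨fun _ _ => 0, fun _ => word_zero Cl, fun _ _ _ _ => rfl, fun r => ?_⟩
  refine ⟨fun p => p.2, fun p => p.2, ?_, fun s x _ => ⟨rfl, rfl⟩⟩
  exact ⟨⟨contDiff_const, fun _ _ _ => rfl⟩, contDiff_snd, contDiff_snd, fun x => rfl,
    fun s x => hasDerivAt_const s x, fun s x => rfl, fun s x => rfl, fun s x _ => rfl⟩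

theorem rz_step {Cl : (E → E) → Prop} {R : ℝ} {Z : E → E} {F : ℝ × E → E} (hC : Cl Z)
    (hZ : In R Z) (hF : IsFlow Z F) (hout : ∀ s x, R ≤ ‖x‖ → F (s, x) = x) (e : ℝ → ℝ) :
    Rz Cl R (fun p => F (e p.1, p.2)) fun p => F (-e p.1, p.2) := by
  intro t0 t1 h0 h1
  have hg : ∀ r, Sm (fun s => e r * gam t0 t1 s) := fun r => contDiff_const.mul (gam_smooth t0 t1)
  refine ⟨fun r p => _root_.deriv (fun s => e r * gam t0 t1 s) p.1 • Z p.2, fun r => ?_,
    fun r s x hs => ?_, fun r => ?_⟩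
  · exact word_one hC (sm_deriv (hg r))
  · have hd : _root_.deriv (fun s => e r * gam t0 t1 s) s = 0 := by
      rcases hs with hs | hs
      · exact deriv_left (c := 0) (hg r) fun q hq => by
          rw [gam_left h1 (hq.trans hs), mul_zero]
      · exact deriv_right (c := e r) (hg r) fun q hq => by
          rw [gam_right h1 (hs.trans hq), mul_one]
    simp only
    rw [hd, zero_smul]
  · refine ⟨_, _, specWfl.one R Z F (fun s => e r * gam t0 t1 s) hZ hF hout (hg r) ?_, ?_⟩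
    · rw [gam_left h1 h0, mul_zero]
    · intro s x hs
      simp only
      rw [gam_right h1 hs, mul_one]
      exact ⟨rfl, rfl⟩

theorem rz_cat {Cl : (E → E) → Prop} {R : ℝ} {φ φi ψ ψi : ℝ × E → E} (h : Rz Cl R φ φi)
    (h' : Rz Cl R ψ ψi) : Rz Cl R (fun p => ψ (p.1, φ p)) fun p => φi (p.1, ψi p) := by
  intro t0 t1 h0 h1
  obtain ⟨w, hw⟩ := h t0 ((t0 + t1) / 2) h0 (by linarith)
  obtain ⟨w', hw'⟩ := h' ((t0 + t1) / 2) t1 (by linarith) (by linarith)
  refine ⟨fun r p => w r p + w' r p, fun r => word_add (hw.word r) (hw'.word r),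
    fun r s x hs => ?_, fun r => ?_⟩
  · have e1 : w r (s, x) = 0 := by
      refine hw.supp r s x ?_
      rcases hs with hs | hs
      · exact Or.inl hs
      · exact Or.inr (by linarith)
    have e2 : w' r (s, x) = 0 := by
      refine hw'.supp r s x ?_
      rcases hs with hs | hs
      · exact Or.inl (by linarith)
      · exact Or.inr hs
    change w r (s, x) + w' r (s, x) = 0
    rw [e1, e2, add_zero]
  · obtain ⟨Θ, Θi, h2, h3⟩ := hw.flow r
    obtain ⟨Θ', Θi', h2', h3'⟩ := hw'.flow r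
    refine ⟨_, _, specWfl.cat R ((t0 + t1) / 2) (w r) Θ Θi (w' r) Θ' Θi' h2 h2' (by linarith)
      (fun s x hs => hw.supp r s x (Or.inr hs)) (fun s x hs => hw'.supp r s x (Or.inl hs)), ?_⟩
    intro s x hs
    have hs2 : (t0 + t1) / 2 ≤ s := by linarith
    have g1 : Θ' (s, Θ (s, x)) = ψ (r, φ (r, x)) := by rw [(h3 s x hs2).1, (h3' s _ hs).1]
    have g2 : Θi (s, Θi' (s, x)) = φi (r, ψi (r, x)) := by
      rw [(h3' s x hs).2, (h3 s _ hs2).2]
    exact ⟨g1, g2⟩

/-! ### the bracket -/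

theorem brk_eq (X Y : E → E) (x : E) : brk X Y x = fderiv ℝ Y x (X x) - fderiv ℝ X x (Y x) := by
  ext i
  rw [brk_apply, fderiv_eq_sum, fderiv_eq_sum, Finset.sum_sub_distrib]
  simp

theorem fderiv_neg_fun (Y : E → E) (σ : ℝ) (x v : E) (hY : Sm Y) :
    fderiv ℝ (fun x => σ • Y x) x v = σ • fderiv ℝ Y x v := by
  have h1 := ((hY.differentiable x).hasFDerivAt.const_smul σ).fderiv
  have e : (fun x => σ • Y x) = σ • Y := rfl
  rw [e, h1]
  rfl

/-- the jet of a commutator -/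
theorem jj_comm (hP : SpecPint) {X Y : E → E} {F G : ℝ × E → E} (hX : Sm X) (hY : Sm Y)
    (hF : IsFlow X F) (hG : IsFlow Y G) :
    JJ (fun p => G (-p.1, F (-p.1, G (p.1, F p)))) (fun _ => 0) (brk X Y) := by
  have h1 := jj_flow hP hX hF 1
  have h2 := jj_flow hP hY hG 1
  have h3 := jj_flow hP hX hF (-1)
  have h4 := jj_flow hP hY hG (-1)
  have h := ((h1.comp hP h2).comp hP h3).comp hP h4
  have e : (fun p : ℝ × E => G (-p.1, F (-p.1, G (p.1, F p)))) = fun p : ℝ × E =>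
      G (-1 * p.1, F (-1 * p.1, G (1 * p.1, F (1 * p.1, p.2)))) := by
    funext p
    simp
  rw [e]
  refine JJ.congr h ?_ ?_
  · intro x
    simp
  · intro x
    rw [fderiv_neg_fun Y 1 x _ hY, fderiv_neg_fun X (-1) x _ hX, fderiv_neg_fun Y (-1) x _ hY,
      brk_eq]
    simp only [map_add, map_smul]
    module

/-- one commutator -/
theorem block (hP : SpecPint) (hA : SpecFlowA) {Cl : (E → E) → Prop} {R : ℝ}
    (hIn : ∀ Z, Cl Z → In R Z) {X Y : E → E} (hX : Cl X) (hY : Cl Y) :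
    ∃ φ φi : ℝ × E → E, Rz Cl R φ φi ∧ JJ φ (fun _ => 0) (brk X Y) ∧
      JJ φi (fun _ => 0) (brk Y X) := by
  obtain ⟨F, hF, hFo⟩ := hA X R (hIn X hX)
  obtain ⟨G, hG, hGo⟩ := hA Y R (hIn Y hY)
  have s1 := rz_step hX (hIn X hX) hF hFo fun r => r
  have s2 := rz_step hY (hIn Y hY) hG hGo fun r => r
  have s3 := rz_step hX (hIn X hX) hF hFo fun r => -r
  have s4 := rz_step hY (hIn Y hY) hG hGo fun r => -r
  have h := rz_cat (rz_cat (rz_cat s1 s2) s3) s4
  refine ⟨_, _, h, jj_comm hP (hIn X hX).smooth (hIn Y hY).smooth hF hG, ?_⟩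
  have := jj_comm hP (hIn Y hY).smooth (hIn X hX).smooth hG hF
  have e : (fun p : ℝ × E => F (-p.1, G (-p.1, F (p.1, G p)))) = fun p : ℝ × E =>
      F (-p.1, G (-p.1, F (- -p.1, G (- -p.1, p.2)))) := by
    funext p
    simp
  rw [e] at this
  exact this

theorem blocks (hP : SpecPint) (hA : SpecFlowA) {Cl : (E → E) → Prop} {R : ℝ}
    (hIn : ∀ Z, Cl Z → In R Z) (N : ℕ) : ∀ X Y : Fin N → E → E, (∀ i, Cl (X i)) →
    (∀ i, Cl (Y i)) → ∃ φ φi : ℝ × E → E, Rz Cl R φ φi ∧
      JJ φ (fun _ => 0) (fun x => ∑ i, brk (X i) (Y i) x) ∧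
      JJ φi (fun _ => 0) (fun x => ∑ i, brk (Y i) (X i) x) := by
  induction N with
  | zero =>
    intro X Y _ _
    refine ⟨_, _, rz_id Cl R, ?_, ?_⟩
    · exact JJ.id.congr (fun _ => rfl) fun x => by simp
    · exact JJ.id.congr (fun _ => rfl) fun x => by simp
  | succ N ih =>
    intro X Y hX hY
    obtain ⟨φ, φi, h1, h2, h3⟩ := ih (fun i => X i.succ) (fun i => Y i.succ)
      (fun i => hX i.succ) fun i => hY i.succ
    obtain ⟨ψ, ψi, h1', h2', h3'⟩ := block hP hA hIn (hX 0) (hY 0)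
    refine ⟨_, _, rz_cat h1 h1', ?_, ?_⟩
    · refine (h2.comp hP h2').congr (fun _ => by simp) fun x => ?_
      rw [Fin.sum_univ_succ]
      simp only [fderiv_fun_const, Pi.zero_apply, map_zero, add_zero]
      exact add_comm _ _
    · refine (h3'.comp hP h3).congr (fun _ => by simp) fun x => ?_
      rw [Fin.sum_univ_succ]
      simp only [fderiv_fun_const, Pi.zero_apply, map_zero, add_zero]

theorem cont_zero {b : ℝ × E → E} (hb : Sm b) {x : E} (h : ∀ r : ℝ, r ≠ 0 → b (r, x) = 0)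
    (r : ℝ) : b (r, x) = 0 := by
  have hc1 : Continuous fun r : ℝ => b (r, x) := by
    have := hb.continuous
    fun_prop
  exact congrFun (Continuous.ext_on (dense_compl_singleton (0 : ℝ)) hc1 continuous_const
    (fun r hr => h r hr)) r

end CommM

open WflM JetM CommM in
/-- COMM: commutators of flows -/
theorem specComm (hP : SpecPint) (hA : SpecFlowA) : SpecComm := by
  intro R Cl N X Y H hR hIn hX hY hH
  obtain ⟨φ1, φ1i, h1, h2, h3⟩ := blocks hP hA hIn N X Y hX hY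
  obtain ⟨F, hF, hFo⟩ := hA H R (hIn H hH)
  have s1 := rz_step hH (hIn H hH) hF hFo fun r => r ^ 2
  have j1 := jj_flow2 hP (hIn H hH).smooth hF 1
  have j2 := jj_flow2 hP (hIn H hH).smooth hF (-1)
  have e1 : (fun p : ℝ × E => F (1 * p.1 ^ 2, p.2)) = fun p => F (p.1 ^ 2, p.2) := by
    funext p
    rw [one_mul]
  have e2 : (fun p : ℝ × E => F (-1 * p.1 ^ 2, p.2)) = fun p => F (-p.1 ^ 2, p.2) := by
    funext p
    rw [neg_one_mul]
  rw [e1] at j1
  rw [e2] at j2
  have hr := rz_cat h1 s1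
  have j3 := (h2.comp hP j1).congr (a' := fun _ => 0)
    (b0' := fun x => H x + ∑ i, brk (X i) (Y i) x) (fun _ => by simp) (fun x => by
      simp only [fderiv_fun_const, Pi.zero_apply, map_zero, add_zero, one_smul]
      exact add_comm _ _)
  have j4 := (j2.comp hP h3).congr (a' := fun _ => 0)
    (b0' := fun x => -(H x + ∑ i, brk (X i) (Y i) x)) (fun _ => by simp) (fun x => by
      simp only [fderiv_fun_const, Pi.zero_apply, map_zero, add_zero, neg_smul, one_smul]
      rw [neg_add, ← Finset.sum_neg_distrib]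
      congr 1
      refine Finset.sum_congr rfl fun i _ => ?_
      rw [brk_eq, brk_eq, neg_sub])
  obtain ⟨w, hw⟩ := hr 0 (1 / 2) le_rfl (by norm_num)
  obtain ⟨b, hb, eb, zb⟩ := j3.ex
  obtain ⟨bi, hbi, ebi, zbi⟩ := j4.ex
  refine ⟨w, fun p => F (p.1 ^ 2, φ1 p), fun p => φ1i (p.1, F (-p.1 ^ 2, p.2)), b, bi, hw.word,
    hw.supp, hw.flow, hb, hbi, ?_, ?_, ?_, zb, zbi⟩
  · intro r x hx
    have hout : ∀ r : ℝ, b (r, x) = 0 ∨ r = 0 := by
      intro r
      by_cases hr : r = 0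
      · exact Or.inr hr
      left
      obtain ⟨Θ, Θi, hW, hv⟩ := hw.flow r
      have g1 := (hv (1 / 2) x le_rfl).1
      rw [hW.out _ x hx] at g1
      have g2 := eb r x
      rw [← g1, smul_zero, add_zero, left_eq_add] at g2
      exact (smul_eq_zero.1 g2).resolve_left (pow_ne_zero 2 hr)
    have houti : ∀ r : ℝ, bi (r, x) = 0 ∨ r = 0 := by
      intro r
      by_cases hr : r = 0
      · exact Or.inr hr
      left
      obtain ⟨Θ, Θi, hW, hv⟩ := hw.flow r
      have g1 := (hv (1 / 2) x le_rfl).2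
      have g0 := hW.left (1 / 2) x
      rw [hW.out _ x hx] at g0
      rw [g0] at g1
      have g2 := ebi r x
      rw [← g1, smul_zero, add_zero, left_eq_add] at g2
      exact (smul_eq_zero.1 g2).resolve_left (pow_ne_zero 2 hr)
    exact ⟨cont_zero hb (fun r hr => (hout r).resolve_right hr) r,
      cont_zero hbi (fun r hr => (houti r).resolve_right hr) r⟩
  · intro r x
    have := eb r x
    rw [smul_zero, add_zero] at this
    exact this
  · intro r x
    have := ebi r x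
    rw [smul_zero, add_zero] at this
    exact this

end MPfab
end

section
/-!
MP_fabde4_an, module AVG: iterates of `x + r² β(r,x)` converge to the flow of `β(0,·)`.
-/
set_option autoImplicit false
open MeasureTheory Set Filter Topology

namespace MPfab

namespace AvgM

open WflM JetM CommM

section Calc

variable {F : Type*} [NormedAddCommGroup F] [NormedSpace ℝ F]

theorem pds_add {f g : E → F} (hf : Sm f) (hg : Sm g) (L : List (Fin 3)) (x : E) :
    pds L (fun y => f y + g y) x = pds L f x + pds L g x := by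
  induction L generalizing x with
  | nil => rfl
  | cons i L ih =>
    have e : pds L (fun y => f y + g y) = fun y => pds L f y + pds L g y := funext fun y => ih y
    change pd i (pds L fun y => f y + g y) x = _
    rw [e]
    exact PDC.pd_add ((PDC.pds_smooth hf L).differentiable x)
      ((PDC.pds_smooth hg L).differentiable x) i

theorem pds_smul {f : E → F} (hf : Sm f) (c : ℝ) (L : List (Fin 3)) (x : E) :
    pds L (fun y => c • f y) x = c • pds L f x := by
  induction L generalizing x with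
  | nil => rfl
  | cons i L ih =>
    have e : pds L (fun y => c • f y) = fun y => c • pds L f y := funext fun y => ih y
    change pd i (pds L fun y => c • f y) x = _
    rw [e]
    exact PDC.pd_const_smul c ((PDC.pds_smooth hf L).differentiable x) i

theorem sm_csmul {f : E → F} (hf : Sm f) (c : ℝ) : Sm fun y => c • f y := hf.const_smul c

theorem bd_add {f g : E → F} {k : ℕ} {c c' : ℝ} (hf : Sm f) (hg : Sm g) (h : Bd univ k f c)
    (h' : Bd univ k g c') : Bd univ k (fun x => f x + g x) (c + c') := by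
  intro α hα x hx
  rw [pds_add hf hg]
  exact (norm_add_le _ _).trans (add_le_add (h α hα x hx) (h' α hα x hx))

theorem bd_smul {f : E → F} {k : ℕ} {c : ℝ} (r : ℝ) (hf : Sm f) (h : Bd univ k f c) :
    Bd univ k (fun x => r • f x) (|r| * c) := by
  intro α hα x hx
  rw [pds_smul hf, norm_smul, Real.norm_eq_abs]
  exact mul_le_mul_of_nonneg_left (h α hα x hx) (abs_nonneg r)

theorem bd_mono {f : E → F} {k : ℕ} {c c' : ℝ} (h : Bd univ k f c) (hc : c ≤ c') :
    Bd univ k f c' := fun α hα x hx => (h α hα x hx).trans hc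

theorem bd_nonneg {f : E → F} {k : ℕ} {c : ℝ} (h : Bd univ k f c) : 0 ≤ c :=
  (norm_nonneg _).trans (h [] (Nat.zero_le _) 0 (mem_univ _))

theorem bd_zero (k : ℕ) : Bd univ k (fun _ : E => (0 : F)) 0 := by
  intro α _ x _
  have : pds α (fun _ : E => (0 : F)) x = 0 := by
    have h := pds_smul (f := fun _ : E => (0 : F)) contDiff_const 0 α x
    simpa using h
  rw [this, norm_zero]

end Calc

theorem db_mono {Φ : E → E} {k : ℕ} {K K' : ℝ} (h : DB k K Φ) (hK : K ≤ K') : DB k K' Φ :=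
  fun L h1 h2 x => (h L h1 h2 x).trans hK

/-- the step -/
noncomputable def stp (β : ℝ × E → E) (r : ℝ) (y : E) : E := y + r ^ 2 • β (r, y)

theorem stp_smooth {β : ℝ × E → E} (hβ : Sm β) (r : ℝ) : Sm (stp β r) := by
  have h1 : Sm fun y => β (r, y) := sm_slice hβ r
  exact contDiff_id.add (h1.const_smul (r ^ 2))

theorem iter_smooth {f : E → E} (hf : Sm f) (n : ℕ) : Sm f^[n] := by
  induction n with
  | zero => exact contDiff_id
  | succ n ih => exact ih.comp hf

end AvgM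

open WflM JetM CommM AvgM in
/-- AVG -/
theorem specAvg (hP : SpecPint) (hCpt : SpecCpt) (hComp : SpecCcomp) (hDiff : SpecCdiff) :
    SpecAvg := by
  intro R β FB hR hβ hβo hFB hFo k T η hT hη
  have hZ : Sm fun x => β (0, x) := sm_slice hβ 0
  obtain ⟨κ, hκ, eκ, -⟩ := (jj_flow1 hP hZ hFB).ex
  have hκo : ∀ s x, R ≤ ‖x‖ → κ (s, x) = 0 := by
    intro s x hx
    refine cont_zero hκ (fun r hr => ?_) s
    have h1 := eκ r x
    simp only [hβo 0 x hx] at h1
    rw [hFo r x hx, smul_zero, add_zero, left_eq_add] at h1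
    exact (smul_eq_zero.1 h1).resolve_left (pow_ne_zero 2 hr)
  have s1 : Sm fun p : ℝ × E => β p - β (0, p.2) := hβ.sub (hZ.comp contDiff_snd)
  obtain ⟨β1, hβ1, e1, -⟩ := had hP _ s1 (fun x => sub_self _)
  have hβ1o : ∀ s x, R ≤ ‖x‖ → β1 (s, x) = 0 := by
    intro s x hx
    refine cont_zero hβ1 (fun r hr => ?_) s
    have h1 := e1 r x
    simp only [hβo _ x hx] at h1
    rw [sub_self] at h1
    exact (smul_eq_zero.1 h1.symm).resolve_left hr
  obtain ⟨K0, hK0⟩ := hCpt.db ℝ R FB hFB.smooth hFo (Icc 0 T) isCompact_Icc k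
  obtain ⟨cβ, hcβ⟩ := hCpt.bd ℝ E R β hβ hβo (Icc 0 1) isCompact_Icc (k + 1)
  obtain ⟨c1, hc1⟩ := hCpt.bd ℝ E R β1 hβ1 hβ1o (Icc 0 1) isCompact_Icc k
  obtain ⟨cκ, hcκ⟩ := hCpt.bd ℝ E R κ hκ hκo (Icc 0 1) isCompact_Icc k
  obtain ⟨C1, hC1, HC1⟩ := hComp k (K0 + 1)
  obtain ⟨C2, hC2, HC2⟩ := hDiff k (K0 + 1)
  have cβ0 : 0 ≤ cβ := bd_nonneg (hcβ 0 (by simp))
  have c10 : 0 ≤ c1 := bd_nonneg (hc1 0 (by simp))
  have cκ0 : 0 ≤ cκ := bd_nonneg (hcκ 0 (by simp))
  set A : ℝ := 1 + C2 * cβ + C1 * c1 + C1 * cκ with hA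
  have p1 : 0 ≤ C2 * cβ := mul_nonneg hC2 cβ0
  have p2 : 0 ≤ C1 * c1 := mul_nonneg hC1 c10
  have p3 : 0 ≤ C1 * cκ := mul_nonneg hC1 cκ0
  have hA0 : 0 < A := by linarith
  refine ⟨min 1 (min 1 η / Real.exp (A * T)), ?_, ?_⟩
  · have : 0 < min 1 η := lt_min one_pos hη
    positivity
  intro r hr0 hr1
  have hr1' : r ≤ 1 := (hr1.trans_le (min_le_left _ _)).le
  have hrη : r * Real.exp (A * T) ≤ min 1 η := by
    have h1 := (hr1.trans_le (min_le_right _ _)).le
    rwa [le_div_iff₀ (Real.exp_pos _)] at h1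
  have hr01 : r ∈ Icc (0 : ℝ) 1 := ⟨hr0.le, hr1'⟩
  have hr2 : r ^ 2 ∈ Icc (0 : ℝ) 1 := ⟨by positivity, pow_le_one₀ hr0.le hr1'⟩
  -- the bound `a n`
  have han : ∀ n : ℕ, (n : ℝ) * r ^ 2 ≤ T → r * ((1 + A * r ^ 2) ^ n - 1) ≤ min 1 η := by
    intro n hn
    have h1 : (1 + A * r ^ 2) ^ n ≤ Real.exp (A * T) := by
      calc (1 + A * r ^ 2) ^ n ≤ (Real.exp (A * r ^ 2)) ^ n := by
            refine pow_le_pow_left₀ (by positivity) ?_ n
            have := Real.add_one_le_exp (A * r ^ 2)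
            linarith
        _ = Real.exp (A * (n * r ^ 2)) := by
            rw [← Real.exp_nat_mul]
            congr 1
            ring
        _ ≤ Real.exp (A * T) := Real.exp_le_exp.2 (mul_le_mul_of_nonneg_left hn hA0.le)
    have h2 : r * ((1 + A * r ^ 2) ^ n - 1) ≤ r * Real.exp (A * T) :=
      mul_le_mul_of_nonneg_left (by linarith) hr0.le
    exact h2.trans hrη
  have key : ∀ n : ℕ, (n : ℝ) * r ^ 2 ≤ T →
      Bd univ k (fun x => (stp β r)^[n] x - FB ((n : ℝ) * r ^ 2, x))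
        (r * ((1 + A * r ^ 2) ^ n - 1)) := by
    intro n
    induction n with
    | zero =>
      intro _
      have e : (fun x => (stp β r)^[0] x - FB (((0 : ℕ) : ℝ) * r ^ 2, x)) = fun _ => 0 := by
        funext x
        simp [hFB.zero]
      rw [e]
      simpa using bd_zero (F := E) k
    | succ n ih =>
      intro hn
      have hn' : (n : ℝ) * r ^ 2 ≤ T := by
        push_cast at hn
        nlinarith [sq_nonneg r]
      have hB := ih hn'
      set t : ℝ := (n : ℝ) * r ^ 2 with ht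
      have htm : t ∈ Icc (0 : ℝ) T := ⟨by positivity, hn'⟩
      have hS := iter_smooth (stp_smooth hβ r) n
      have hFt : Sm fun x => FB (t, x) := sm_slice hFB.smooth t
      have hE : Sm fun x => (stp β r)^[n] x - FB (t, x) := hS.sub hFt
      have ha1 : r * ((1 + A * r ^ 2) ^ n - 1) ≤ 1 := (han n hn').trans (min_le_left _ _)
      have ha0 : 0 ≤ r * ((1 + A * r ^ 2) ^ n - 1) := bd_nonneg hB
      have hDF : DB k (K0 + 1) fun x => FB (t, x) := db_mono (hK0 t htm) (by linarith)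
      have hDS : DB k (K0 + 1) (stp β r)^[n] := by
        intro L h1 h2 x
        have e : (stp β r)^[n] = fun x => ((stp β r)^[n] x - FB (t, x)) + FB (t, x) := by
          funext x
          rw [sub_add_cancel]
        rw [e, pds_add hE hFt]
        have b1 := hB L h2 x (mem_univ _)
        have b2 := hK0 t htm L h1 h2 x
        exact (norm_add_le _ _).trans (by linarith)
      have hβr : Sm fun x => β (r, x) := sm_slice hβ r
      have hβ1r : Sm fun x => β1 (r, x) := sm_slice hβ1 r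
      have hκr : Sm fun x => κ (r ^ 2, x) := sm_slice hκ (r ^ 2)
      have t1 := HC2 E (fun x => β (r, x)) ((stp β r)^[n]) (fun x => FB (t, x)) cβ _ hβr hS hFt
        hDS hDF (hcβ r hr01) hB
      have t2 := HC1 E (fun x => β1 (r, x)) (fun x => FB (t, x)) c1 hβ1r hFt hDF (hc1 r hr01)
      have t3 := HC1 E (fun x => κ (r ^ 2, x)) (fun x => FB (t, x)) cκ hκr hFt hDF
        (hcκ (r ^ 2) hr2)
      have u1 : Sm fun x => β (r, (stp β r)^[n] x) - β (r, FB (t, x)) :=
        (hβr.comp hS).sub (hβr.comp hFt)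
      have u2 : Sm fun x => β1 (r, FB (t, x)) := hβ1r.comp hFt
      have u3 : Sm fun x => κ (r ^ 2, FB (t, x)) := hκr.comp hFt
      have v1 := bd_smul (r ^ 2) u1 t1
      have v2 := bd_smul (r ^ 3) u2 t2
      have v3 := bd_smul (-(r ^ 4)) u3 t3
      have w1 := bd_add hE (sm_csmul u1 _) hB v1
      have w2 := bd_add (hE.add (sm_csmul u1 (r ^ 2))) (sm_csmul u2 _) w1 v2
      have w3 := bd_add ((hE.add (sm_csmul u1 (r ^ 2))).add (sm_csmul u2 (r ^ 3)))
        (sm_csmul u3 _) w2 v3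
      have e : (fun x => (stp β r)^[n + 1] x - FB (((n + 1 : ℕ) : ℝ) * r ^ 2, x)) = fun x =>
          (stp β r)^[n] x - FB (t, x) + r ^ 2 • (β (r, (stp β r)^[n] x) - β (r, FB (t, x))) +
            r ^ 3 • β1 (r, FB (t, x)) + -(r ^ 4) • κ (r ^ 2, FB (t, x)) := by
        funext x
        have g1 : (stp β r)^[n + 1] x = (stp β r)^[n] x + r ^ 2 • β (r, (stp β r)^[n] x) := by
          rw [Function.iterate_succ_apply']
          rfl
        have g2 : ((n + 1 : ℕ) : ℝ) * r ^ 2 = r ^ 2 + t := by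
          push_cast
          rw [ht]
          ring
        have g3 : FB (((n + 1 : ℕ) : ℝ) * r ^ 2, x) = FB (t, x) + r ^ 2 • β (0, FB (t, x)) +
            (r ^ 2) ^ 2 • κ (r ^ 2, FB (t, x)) := by
          rw [g2, ← hFB.group, eκ]
        have g4 : β (r, FB (t, x)) = β (0, FB (t, x)) + r • β1 (r, FB (t, x)) := by
          have := e1 r (FB (t, x))
          simp only at this
          rw [← this]
          abel
        rw [g1, g3, g4]
        module
      rw [e]
      refine bd_mono w3 ?_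
      rw [abs_of_nonneg (by positivity : (0 : ℝ) ≤ r ^ 2),
        abs_of_nonneg (by positivity : (0 : ℝ) ≤ r ^ 3), abs_neg,
        abs_of_nonneg (by positivity : (0 : ℝ) ≤ r ^ 4)]
      set a : ℝ := r * ((1 + A * r ^ 2) ^ n - 1) with hadef
      have q1 : r * ((1 + A * r ^ 2) ^ (n + 1) - 1) = a + A * r ^ 2 * a + A * r ^ 3 := by
        rw [hadef]
        ring
      rw [q1]
      have q2 : r ^ 2 * (C2 * cβ * a) ≤ A * r ^ 2 * a := by
        have : C2 * cβ ≤ A := by linarith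
        have h5 : C2 * cβ * (r ^ 2 * a) ≤ A * (r ^ 2 * a) :=
          mul_le_mul_of_nonneg_right this (by positivity)
        nlinarith [h5]
      have q3 : r ^ 3 * (C1 * c1) + r ^ 4 * (C1 * cκ) ≤ A * r ^ 3 := by
        have h5 : r ^ 4 ≤ r ^ 3 := by
          have : r ^ 4 = r ^ 3 * r := by ring
          rw [this]
          exact mul_le_of_le_one_right (by positivity) hr1'
        have h6 : r ^ 4 * (C1 * cκ) ≤ r ^ 3 * (C1 * cκ) := mul_le_mul_of_nonneg_right h5 p3
        have h7 : C1 * c1 + C1 * cκ ≤ A := by linarith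
        have h8 : r ^ 3 * (C1 * c1 + C1 * cκ) ≤ r ^ 3 * A :=
          mul_le_mul_of_nonneg_left h7 (by positivity)
        nlinarith [h6, h8]
      linarith
  intro n hn
  exact bd_mono (key n hn) ((han n hn).trans (min_le_right _ _))

end MPfab
end

section
/-!
MP_fabde4_an, modules CMUL, CCOMP, CDIFF: calculus of sup norms of derivatives.
-/
set_option autoImplicit false
open MeasureTheory Set

namespace MPfab

namespace BdM

variable {F : Type*} [NormedAddCommGroup F] [NormedSpace ℝ F]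

theorem nonneg {k : ℕ} {f : E → F} {c : ℝ} (h : Bd univ k f c) : 0 ≤ c :=
  (norm_nonneg _).trans (h [] (Nat.zero_le _) 0 (mem_univ _))

theorem mono {j k : ℕ} {f : E → F} {c : ℝ} (hjk : j ≤ k) (h : Bd univ k f c) : Bd univ j f c :=
  fun α hα x hx => h α (hα.trans hjk) x hx

theorem le {k : ℕ} {f : E → F} {c c' : ℝ} (hc : c ≤ c') (h : Bd univ k f c) : Bd univ k f c' :=
  fun α hα x hx => (h α hα x hx).trans hc

/-- composition of smooth maps -/
theorem smc {X Y Z : Type*} [NormedAddCommGroup X] [NormedSpace ℝ X]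
    [NormedAddCommGroup Y] [NormedSpace ℝ Y] [NormedAddCommGroup Z] [NormedSpace ℝ Z] {f : Y → Z}
    {g : X → Y} (hf : Sm f) (hg : Sm g) : Sm fun x => f (g x) := ContDiff.comp hf hg

theorem val {k : ℕ} {f : E → F} {c : ℝ} (h : Bd univ k f c) (x : E) : ‖f x‖ ≤ c :=
  h [] (Nat.zero_le _) x (mem_univ _)

theorem bpd {k : ℕ} {f : E → F} {c : ℝ} (hf : Sm f) (h : Bd univ (k + 1) f c) (i : Fin 3) :
    Bd univ k (pd i f) c := by
  intro α hα x hx
  rw [PDC.pds_comm hf]
  exact h (i :: α) (by simpa using hα) x hx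

theorem succ {k : ℕ} {f : E → F} {c : ℝ} (hf : Sm f) (h0 : ∀ x, ‖f x‖ ≤ c)
    (h : ∀ i, Bd univ k (pd i f) c) : Bd univ (k + 1) f c := by
  intro α hα x hx
  cases α with
  | nil => exact h0 x
  | cons i L =>
    have := h i L (by simpa using hα) x hx
    rw [PDC.pds_comm hf] at this
    exact this

theorem zero {f : E → F} {c : ℝ} (h0 : ∀ x, ‖f x‖ ≤ c) : Bd univ 0 f c := by
  intro α hα x hx
  have : α = [] := List.length_eq_zero_iff.mp (by omega)
  rw [this]
  exact h0 x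

theorem pds_add {f g : E → F} (hf : Sm f) (hg : Sm g) (L : List (Fin 3)) (x : E) :
    pds L (fun y => f y + g y) x = pds L f x + pds L g x := by
  induction L generalizing x with
  | nil => rfl
  | cons i L ih =>
    show pd i (pds L fun y => f y + g y) x = _
    rw [funext ih]
    exact PDC.pd_add ((PDC.pds_smooth hf L).differentiable x)
      ((PDC.pds_smooth hg L).differentiable x) i

theorem pds_sub {f g : E → F} (hf : Sm f) (hg : Sm g) (L : List (Fin 3)) (x : E) :
    pds L (fun y => f y - g y) x = pds L f x - pds L g x := by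
  induction L generalizing x with
  | nil => rfl
  | cons i L ih =>
    show pd i (pds L fun y => f y - g y) x = _
    rw [funext ih]
    exact PDC.pd_sub ((PDC.pds_smooth hf L).differentiable x)
      ((PDC.pds_smooth hg L).differentiable x) i

theorem pds_comp {w : E → E} (hw : Sm w) (j : Fin 3) (L : List (Fin 3)) (x : E) :
    pds L (fun y => w y j) x = pds L w x j := by
  induction L generalizing x with
  | nil => rfl
  | cons i L ih =>
    show pd i (pds L fun y => w y j) x = _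
    rw [funext ih]
    exact (PDC.pd_comp_apply (PDC.pds_smooth hw L) i j x).symm

theorem pds_const_smul {f : E → F} (hf : Sm f) (a : ℝ) (L : List (Fin 3)) (x : E) :
    pds L (fun y => a • f y) x = a • pds L f x := by
  induction L generalizing x with
  | nil => rfl
  | cons i L ih =>
    show pd i (pds L fun y => a • f y) x = _
    rw [funext ih]
    exact PDC.pd_const_smul a ((PDC.pds_smooth hf L).differentiable x) i

theorem add {k : ℕ} {f g : E → F} {c c' : ℝ} (hf : Sm f) (hg : Sm g) (h : Bd univ k f c)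
    (h' : Bd univ k g c') : Bd univ k (fun x => f x + g x) (c + c') := by
  intro α hα x hx
  rw [pds_add hf hg]
  exact (norm_add_le _ _).trans (add_le_add (h α hα x hx) (h' α hα x hx))

theorem sub {k : ℕ} {f g : E → F} {c c' : ℝ} (hf : Sm f) (hg : Sm g) (h : Bd univ k f c)
    (h' : Bd univ k g c') : Bd univ k (fun x => f x - g x) (c + c') := by
  intro α hα x hx
  rw [pds_sub hf hg]
  exact (norm_sub_le _ _).trans (add_le_add (h α hα x hx) (h' α hα x hx))

theorem const_smul {k : ℕ} {f : E → F} {c : ℝ} (hf : Sm f) (a : ℝ) (h : Bd univ k f c) :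
    Bd univ k (fun x => a • f x) (|a| * c) := by
  intro α hα x hx
  rw [pds_const_smul hf, norm_smul, Real.norm_eq_abs]
  exact mul_le_mul_of_nonneg_left (h α hα x hx) (abs_nonneg _)

theorem sum3 {k : ℕ} {f : Fin 3 → E → F} {c : ℝ} (hf : ∀ i, Sm (f i))
    (h : ∀ i, Bd univ k (f i) c) : Bd univ k (fun x => ∑ i, f i x) (3 * c) := by
  have h1 := add ((hf 0).add (hf 1)) (hf 2) (add (hf 0) (hf 1) (h 0) (h 1)) (h 2)
  have h2 : (fun x => ∑ i, f i x) = fun x => f 0 x + f 1 x + f 2 x := by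
    funext x
    rw [Fin.sum_univ_three]
  rw [h2]
  exact le (by linarith) h1

theorem comp {k : ℕ} {w : E → E} {c : ℝ} (hw : Sm w) (h : Bd univ k w c) (j : Fin 3) :
    Bd univ k (fun x => w x j) c := by
  intro α hα x hx
  rw [pds_comp hw]
  exact (PiLp.norm_apply_le (pds α w x) j).trans (h α hα x hx)

theorem norm_le_sum (v : E) : ‖v‖ ≤ ∑ i, ‖v i‖ := by
  have h : v = ∑ i, v i • eb i := by
    conv_lhs => rw [← (EuclideanSpace.basisFun (Fin 3) ℝ).sum_repr v]
    simp [eb]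
  calc ‖v‖ = ‖∑ i, v i • eb i‖ := by rw [← h]
    _ ≤ ∑ i, ‖v i • eb i‖ := norm_sum_le _ _
    _ = ∑ i, ‖v i‖ := by
      refine Finset.sum_congr rfl fun i _ => ?_
      rw [norm_smul]
      simp [eb]

theorem of_comp {k : ℕ} {w : E → E} {c : ℝ} (hw : Sm w)
    (h : ∀ j, Bd univ k (fun x => w x j) c) : Bd univ k w (3 * c) := by
  intro α hα x hx
  refine (norm_le_sum _).trans ?_
  rw [Fin.sum_univ_three]
  have h0 := h 0 α hα x hx
  have h1 := h 1 α hα x hx
  have h2 := h 2 α hα x hx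
  rw [pds_comp hw] at h0 h1 h2
  linarith

/-! ### CMUL -/

theorem mul (k : ℕ) : ∀ (a : E → ℝ) (f : E → F) (c c' : ℝ), Sm a → Sm f → Bd univ k a c →
    Bd univ k f c' → Bd univ k (fun x => a x • f x) (2 ^ k * c * c') := by
  induction k with
  | zero =>
    intro a f c c' _ _ h h'
    refine zero fun x => ?_
    rw [norm_smul, pow_zero, one_mul]
    exact mul_le_mul (val h x) (val h' x) (norm_nonneg _) (nonneg h)
  | succ k ih =>
    intro a f c c' ha hf h h'
    have hc := nonneg h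
    have hc' := nonneg h'
    have hcc : 0 ≤ c * c' := mul_nonneg hc hc'
    have h2k : (1 : ℝ) ≤ 2 ^ (k + 1) := one_le_pow₀ (by norm_num)
    refine succ (ha.smul hf) (fun x => ?_) (fun i => ?_)
    · rw [norm_smul]
      have h1 := mul_le_mul (val h x) (val h' x) (norm_nonneg _) hc
      nlinarith
    · have h1 := ih a (pd i f) c c' ha (hf.pd i) (mono (Nat.le_succ k) h) (bpd hf h' i)
      have h2 := ih (pd i a) f c c' (ha.pd i) hf (bpd ha h i) (mono (Nat.le_succ k) h')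
      have h3 := add (ha.smul (hf.pd i)) ((ha.pd i).smul hf) h1 h2
      have h4 : (pd i fun x => a x • f x) =
          fun x => a x • pd i f x + pd i a x • f x := by
        funext x
        exact PDC.pd_smul (ha.differentiable x) (hf.differentiable x) i
      rw [h4]
      refine le (le_of_eq ?_) h3
      ring

/-! ### composition -/

theorem db_bd {k : ℕ} {K : ℝ} {Φ : E → E} (hΦ : Sm Φ) (h : DB (k + 1) K Φ) (i : Fin 3) :
    Bd univ k (pd i Φ) K := by
  intro α hα x _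
  rw [PDC.pds_comm hΦ]
  exact h (i :: α) (by simp) (by simpa using hα) x

theorem db_mono {j k : ℕ} {K : ℝ} {Φ : E → E} (hjk : j ≤ k) (h : DB k K Φ) : DB j K Φ :=
  fun L h1 h2 x => h L h1 (h2.trans hjk) x

/-- chain rule -/
theorem pd_comp' {f : E → F} {Φ : E → E} (hf : Sm f) (hΦ : Sm Φ) (i : Fin 3) (x : E) :
    pd i (fun y => f (Φ y)) x = ∑ j, (pd i Φ x j) • pd j f (Φ x) := by
  have h1 : HasFDerivAt (fun y => f (Φ y)) ((fderiv ℝ f (Φ x)).comp (fderiv ℝ Φ x)) x :=
    (hf.differentiable (Φ x)).hasFDerivAt.comp x (hΦ.differentiable x).hasFDerivAt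
  unfold pd
  rw [h1.fderiv]
  simp only [ContinuousLinearMap.comp_apply]
  rw [fderiv_eq_sum]
  rfl

/-- the constant of CCOMP -/
noncomputable def cC (K : ℝ) : ℕ → ℝ
  | 0 => 1
  | k + 1 => 1 + 3 * (2 ^ k * |K| * cC K k)

theorem cC_nonneg (K : ℝ) (k : ℕ) : 0 ≤ cC K k := by
  induction k with
  | zero => exact zero_le_one
  | succ k ih =>
    unfold cC
    positivity

theorem comp_bd (K : ℝ) (k : ℕ) : ∀ (f : E → F) (Φ : E → E) (c : ℝ), Sm f → Sm Φ → DB k K Φ →
    Bd univ k f c → Bd univ k (fun x => f (Φ x)) (cC K k * c) := by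
  induction k with
  | zero =>
    intro f Φ c _ _ _ h
    refine zero fun x => ?_
    rw [cC, one_mul]
    exact val h (Φ x)
  | succ k ih =>
    intro f Φ c hf hΦ hDB h
    have hc := nonneg h
    have hCk := cC_nonneg K k
    refine succ (hf.comp hΦ) (fun x => ?_) (fun i => ?_)
    · have h1 := val h (Φ x)
      have h2 : (1 : ℝ) ≤ cC K (k + 1) := by
        rw [cC]
        have : 0 ≤ 3 * (2 ^ k * |K| * cC K k) := by positivity
        linarith
      nlinarith
    · have h4 : (pd i fun x => f (Φ x)) =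
          fun x => ∑ j, (pd i Φ x j) • pd j f (Φ x) := by
        funext x
        exact pd_comp' hf hΦ i x
      rw [h4]
      have h5 : ∀ j, Bd univ k (fun x => (pd i Φ x j) • pd j f (Φ x))
          (2 ^ k * |K| * (cC K k * c)) := by
        intro j
        refine mul k _ _ |K| (cC K k * c) ((hΦ.pd i).comp_apply j) ((hf.pd j).comp hΦ) ?_ ?_
        · exact le (le_abs_self K) (comp (hΦ.pd i) (db_bd hΦ hDB i) j)
        · exact ih _ Φ c (hf.pd j) hΦ (db_mono (Nat.le_succ k) hDB) (bpd hf h j)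
      refine le ?_ (sum3 (fun j => ((hΦ.pd i).comp_apply j).smul ((hf.pd j).comp hΦ)) h5)
      rw [cC]
      nlinarith

/-! ### differences -/

theorem norm_fderiv_le {f : E → F} {c : ℝ} (h : ∀ i x, ‖pd i f x‖ ≤ c) (x : E) :
    ‖fderiv ℝ f x‖ ≤ 3 * c := by
  have hc : 0 ≤ c := (norm_nonneg _).trans (h 0 x)
  refine ContinuousLinearMap.opNorm_le_bound _ (by positivity) fun v => ?_
  rw [fderiv_eq_sum]
  refine (norm_sum_le _ _).trans ?_
  have h1 : ∀ i : Fin 3, ‖v i • pd i f x‖ ≤ c * ‖v‖ := by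
    intro i
    rw [norm_smul, mul_comm]
    exact mul_le_mul (h i x) (PiLp.norm_apply_le v i) (norm_nonneg _) hc
  refine (Finset.sum_le_sum fun i _ => h1 i).trans (le_of_eq ?_)
  simp
  ring

theorem diff_val {f : E → F} {c : ℝ} (hf : Sm f) (h : ∀ i x, ‖pd i f x‖ ≤ c) (x y : E) :
    ‖f x - f y‖ ≤ 3 * c * ‖x - y‖ :=
  Convex.norm_image_sub_le_of_norm_fderiv_le (fun z _ => hf.differentiable z)
    (fun z _ => norm_fderiv_le h z) convex_univ (mem_univ y) (mem_univ x)

/-- the constant of CDIFF -/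
noncomputable def cD (K : ℝ) : ℕ → ℝ
  | 0 => 3
  | k + 1 => 3 + 3 * (2 ^ k * |K| * cD K k + 2 ^ k * cC K k)

theorem cD_nonneg (K : ℝ) (k : ℕ) : 0 ≤ cD K k := by
  induction k with
  | zero => rw [cD]; norm_num
  | succ k ih =>
    have := cC_nonneg K k
    unfold cD
    positivity

theorem diff_bd (K : ℝ) (k : ℕ) : ∀ (f : E → F) (Φ Φ' : E → E) (c η : ℝ), Sm f → Sm Φ → Sm Φ' →
    DB k K Φ → DB k K Φ' → Bd univ (k + 1) f c → Bd univ k (fun x => Φ x - Φ' x) η →
    Bd univ k (fun x => f (Φ x) - f (Φ' x)) (cD K k * c * η) := by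
  induction k with
  | zero =>
    intro f Φ Φ' c η hf _ _ _ _ h hη
    have hc := nonneg h
    refine zero fun x => ?_
    rw [cD]
    refine (diff_val hf (fun i x => val (bpd hf h i) x) (Φ x) (Φ' x)).trans ?_
    exact mul_le_mul_of_nonneg_left (val hη x) (by positivity)
  | succ k ih =>
    intro f Φ Φ' c η hf hΦ hΦ' hDB hDB' h hη
    have hc := nonneg h
    have hη0 := nonneg hη
    have hCk := cC_nonneg K k
    have hDk := cD_nonneg K k
    have hsm : ∀ {Φ : E → E}, Sm Φ → Sm fun x => f (Φ x) := fun h => hf.comp h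
    refine succ ((hsm hΦ).sub (hsm hΦ')) (fun x => ?_) (fun i => ?_)
    · refine (diff_val hf (fun i x => val (bpd hf h i) x) (Φ x) (Φ' x)).trans ?_
      have h1 : 3 * c * ‖Φ x - Φ' x‖ ≤ 3 * c * η :=
        mul_le_mul_of_nonneg_left (val hη x) (by positivity)
      refine h1.trans ?_
      have h2 : (3 : ℝ) ≤ cD K (k + 1) := by
        rw [cD]
        have : 0 ≤ 3 * (2 ^ k * |K| * cD K k + 2 ^ k * cC K k) := by positivity
        linarith
      exact mul_le_mul_of_nonneg_right (mul_le_mul_of_nonneg_right h2 hc) hη0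
    · have h4 : (pd i fun x => f (Φ x) - f (Φ' x)) = fun x =>
          ∑ j, ((pd i Φ x j) • (pd j f (Φ x) - pd j f (Φ' x)) +
            (pd i (fun y => Φ y - Φ' y) x j) • pd j f (Φ' x)) := by
        funext x
        rw [PDC.pd_sub ((hsm hΦ).differentiable x) ((hsm hΦ').differentiable x),
          pd_comp' hf hΦ, pd_comp' hf hΦ', ← Finset.sum_sub_distrib]
        refine Finset.sum_congr rfl fun j _ => ?_
        rw [PDC.pd_sub (hΦ.differentiable x) (hΦ'.differentiable x)]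
        simp only [PiLp.sub_apply, sub_smul, smul_sub]
        abel
      rw [h4]
      have hsd : Sm (fun x => Φ x - Φ' x) := hΦ.sub hΦ'
      have h5 : ∀ j, Bd univ k (fun x =>
          (pd i Φ x j) • (pd j f (Φ x) - pd j f (Φ' x)))
          (2 ^ k * |K| * (cD K k * c * η)) := by
        intro j
        refine mul k _ _ |K| (cD K k * c * η) ((hΦ.pd i).comp_apply j)
          (((hf.pd j).comp hΦ).sub ((hf.pd j).comp hΦ')) ?_ ?_
        · exact le (le_abs_self K) (comp (hΦ.pd i) (db_bd hΦ hDB i) j)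
        · exact ih _ Φ Φ' c η (hf.pd j) hΦ hΦ' (db_mono (Nat.le_succ k) hDB)
            (db_mono (Nat.le_succ k) hDB') (bpd hf h j) (mono (Nat.le_succ k) hη)
      have h6 : ∀ j, Bd univ k (fun x =>
          (pd i (fun y => Φ y - Φ' y) x j) • pd j f (Φ' x))
          (2 ^ k * η * (cC K k * c)) := by
        intro j
        refine mul k _ _ η (cC K k * c) ((hsd.pd i).comp_apply j) ((hf.pd j).comp hΦ') ?_ ?_
        · exact comp (hsd.pd i) (bpd hsd hη i) j
        · exact comp_bd K k _ Φ' c (hf.pd j) hΦ' (db_mono (Nat.le_succ k) hDB')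
            (mono (Nat.le_succ k) (bpd hf h j))
      have s1 : ∀ j, Sm fun x =>
          (pd i Φ x j) • (pd j f (Φ x) - pd j f (Φ' x)) := fun j =>
        ((hΦ.pd i).comp_apply j).smul (((hf.pd j).comp hΦ).sub ((hf.pd j).comp hΦ'))
      have s2 : ∀ j, Sm fun x =>
          (pd i (fun y => Φ y - Φ' y) x j) • pd j f (Φ' x) := fun j =>
        ((hsd.pd i).comp_apply j).smul ((hf.pd j).comp hΦ')
      refine le ?_ (sum3 (fun j => (s1 j).add (s2 j)) fun j => add (s1 j) (s2 j) (h5 j) (h6 j))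
      rw [cD]
      have : 0 ≤ c * η := mul_nonneg hc hη0
      nlinarith

end BdM

theorem specCmul : SpecCmul := by
  intro k
  exact ⟨2 ^ k, by positivity, fun F _ _ a f c c' ha hf h h' => BdM.mul k a f c c' ha hf h h'⟩

theorem specCcomp : SpecCcomp := by
  intro k K
  exact ⟨BdM.cC K k, BdM.cC_nonneg K k, fun F _ _ f Φ c hf hΦ hDB h =>
    BdM.comp_bd K k f Φ c hf hΦ hDB h⟩

theorem specCdiff : SpecCdiff := by
  intro k K
  exact ⟨BdM.cD K k, BdM.cD_nonneg K k, fun F _ _ f Φ Φ' c η hf hΦ hΦ' hDB hDB' h hη =>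
    BdM.diff_bd K k f Φ Φ' c η hf hΦ hΦ' hDB hDB' h hη⟩

end MPfab
end

section
/-!
MP_fabde4_an, part M, module HMUL: multiplication by coefficients with bounded derivatives, explicit
dependence on the bound.
-/
set_option autoImplicit false
open MeasureTheory Set Filter Topology

namespace MPfab

namespace HmulM

variable {F : Type*} [NormedAddCommGroup F] [NormedSpace ℝ F]

theorem bd_nonneg {S : Set E} {k : ℕ} {f : E → F} {c : ℝ} (h : Bd S k f c) (hS : S.Nonempty) :
    0 ≤ c := by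
  obtain ⟨x, hx⟩ := hS
  exact (norm_nonneg _).trans (h [] (by simp) x hx)

theorem bd_pd {S : Set E} {k : ℕ} {f : E → F} {c : ℝ} (h : Bd S (k + 1) f c) (i : Fin 3) :
    Bd S k (pd i f) c := by
  intro L hL x hx
  rw [← HSB.pds_append_singleton]
  exact h (L ++ [i]) (by simp only [List.length_append, List.length_singleton]; omega) x hx

theorem bd_mono {S : Set E} {j k : ℕ} {f : E → F} {c : ℝ} (h : Bd S k f c) (hj : j ≤ k) :
    Bd S j f c := fun L hL x hx => h L (hL.trans hj) x hx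

theorem bd_le {S : Set E} {k : ℕ} {f : E → F} {c c' : ℝ} (h : Bd S k f c) (hc : c ≤ c') :
    Bd S k f c' := fun L hL x hx => (h L hL x hx).trans hc

omit [NormedSpace ℝ F] in
theorem hcs_of_supp {R : ℝ} {f : E → F} (h : ∀ x, R ≤ ‖x‖ → f x = 0) : HasCompactSupport f := by
  refine HasCompactSupport.of_support_subset_isCompact (isCompact_closedBall (0 : E) R) ?_
  intro x hx
  by_contra hc
  refine hx (h x ?_)
  have : ¬ ‖x‖ ≤ R := fun h' => hc (by simpa using h')
  exact (not_le.mp this).le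

theorem hcs_of_in {R : ℝ} {f : E → F} (h : In R f) : HasCompactSupport f := hcs_of_supp h.supp

theorem hcs_smul {f : E → F} (a : E → ℝ) (h : HasCompactSupport f) :
    HasCompactSupport (fun x => a x • f x) := h.smul_left

/-- the squared version, for compactly supported functions -/
theorem mul_le (k : ℕ) : ∃ C : ℝ, 0 ≤ C ∧
    ∀ (F : Type) [NormedAddCommGroup F] [NormedSpace ℝ F] (a : E → ℝ) (f : E → F) (c : ℝ),
      Sm a → Bd univ k a c → Sm f → HasCompactSupport f →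
      hs univ k (fun x => a x • f x) ≤ C * c ^ 2 * hs univ k f := by
  have h0 : ∀ (F : Type) [NormedAddCommGroup F] [NormedSpace ℝ F] (a : E → ℝ) (f : E → F) (c : ℝ),
      Sm a → (∀ x, ‖a x‖ ≤ c) → Sm f → HasCompactSupport f →
      ∫ x in univ, ‖a x • f x‖ ^ 2 ≤ c ^ 2 * ∫ x in univ, ‖f x‖ ^ 2 := by
    intro F _ _ a f c ha hac hf hcf
    rw [← integral_const_mul]
    refine setIntegral_mono_on (HSB.int_sq (ha.smul hf) (Or.inr (hcs_smul a hcf)))
      ((HSB.int_sq hf (Or.inr hcf)).const_mul _) MeasurableSet.univ fun x _ => ?_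
    rw [norm_smul, mul_pow]
    have h2 : ‖a x‖ ^ 2 ≤ c ^ 2 := pow_le_pow_left₀ (norm_nonneg _) (hac x) 2
    exact mul_le_mul_of_nonneg_right h2 (by positivity)
  induction k with
  | zero =>
    refine ⟨1, by norm_num, ?_⟩
    intro F _ _ a f c ha hb hf hcf
    rw [one_mul]
    exact h0 F a f c ha (fun x => hb [] (by simp) x (mem_univ x)) hf hcf
  | succ k ih =>
    obtain ⟨C, hC, H⟩ := ih
    refine ⟨8 * C + 1, by positivity, ?_⟩
    intro F _ _ a f c ha hb hf hcf
    have k1 : ∀ i : Fin 3, hs univ k (pd i fun x => a x • f x) ≤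
        2 * (C * c ^ 2 * hs univ k (pd i f)) + 2 * (C * c ^ 2 * hs univ k f) := by
      intro i
      have e : (pd i fun x => a x • f x) = fun x => a x • pd i f x + pd i a x • f x := by
        funext x
        exact PDC.pd_smul (ha.differentiable x) (hf.differentiable x) i
      rw [e]
      have h3 := HSB.add_le (S := univ) k (fun x => a x • pd i f x) (fun x => pd i a x • f x)
        (Or.inr ⟨hcs_smul a (HSB.hcs_pd hcf i), hcs_smul _ hcf⟩)
        (ha.smul (hf.pd i)) ((ha.pd i).smul hf)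
      have h4 := H F a (pd i f) c ha (bd_mono hb (Nat.le_succ k)) (hf.pd i) (HSB.hcs_pd hcf i)
      have h5 := H F (pd i a) f c (ha.pd i) (bd_pd hb i) hf hcf
      linarith
    have k2 := h0 F a f c ha (fun x => hb [] (by simp) x (mem_univ x)) hf hcf
    have k3 := Finset.sum_le_sum fun i (_ : i ∈ Finset.univ) => k1 i
    rw [Finset.sum_add_distrib, ← Finset.mul_sum, ← Finset.mul_sum, Finset.sum_const,
      Finset.card_univ, Fintype.card_fin, nsmul_eq_mul] at k3
    have k4 := HSB.mono_succ univ k f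
    rw [HSB.succ_eq univ k f] at k4
    have k5 : 0 ≤ ∫ x in univ, ‖f x‖ ^ 2 := integral_nonneg fun x => by positivity
    have k6 : 0 ≤ ∑ i, hs univ k (pd i f) := Finset.sum_nonneg fun i _ => HSB.nonneg univ k _
    rw [HSB.succ_eq, HSB.succ_eq]
    set A := ∫ x in univ, ‖f x‖ ^ 2
    set B := ∑ i, hs univ k (pd i f)
    set H' := hs univ k f
    have hK : 0 ≤ C * c ^ 2 := by positivity
    have m1 : C * c ^ 2 * H' ≤ C * c ^ 2 * (A + B) := mul_le_mul_of_nonneg_left k4 hK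
    have m2 : 0 ≤ C * c ^ 2 * A := mul_nonneg hK k5
    have m3 : 0 ≤ c ^ 2 * B := mul_nonneg (sq_nonneg c) k6
    push_cast at k3
    nlinarith

theorem sqrt_le {C c h h' : ℝ} (hc : 0 ≤ c) (hC : 0 ≤ C) (hh : h ≤ C * c ^ 2 * h') :
    √h ≤ √C * c * √h' := by
  calc √h ≤ √(C * c ^ 2 * h') := Real.sqrt_le_sqrt hh
    _ = √C * c * √h' := by
      rw [Real.sqrt_mul (by positivity), Real.sqrt_mul hC, Real.sqrt_sq hc]

end HmulM

/-- module HMUL -/
theorem specHmul : SpecHmul := by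
  intro k
  obtain ⟨C, hC, H⟩ := HmulM.mul_le k
  refine ⟨√C, Real.sqrt_nonneg C, ?_⟩
  intro F _ _ R a f c ha hb hf
  exact HmulM.sqrt_le (HmulM.bd_nonneg hb univ_nonempty) hC
    (H F a f c ha hb hf.smooth (HmulM.hcs_of_in hf))

end MPfab
end

section
/-!
MP_fabde4_an, part M, module HCOMP: composition with a diffeomorphism in `H^k`.
-/
set_option autoImplicit false
open MeasureTheory Set Filter Topology

namespace MPfab

namespace HcompM

variable {F : Type*} [NormedAddCommGroup F] [NormedSpace ℝ F]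

theorem in_pd {R : ℝ} {f : E → F} (h : In R f) (i : Fin 3) : In R (pd i f) := by
  rcases lt_or_ge 0 R with hR | hR
  · exact INC.In.pd hR h i
  · refine ⟨h.smooth.pd i, fun x _ => ?_⟩
    have h0 : f = fun _ => (0 : F) := funext fun y => h.supp y (hR.trans (norm_nonneg y))
    rw [h0]
    unfold pd
    simp

theorem in_pds {R : ℝ} {f : E → F} (h : In R f) (L : List (Fin 3)) : In R (pds L f) := by
  induction L with
  | nil => exact h
  | cons i L ih => exact in_pd ih i

theorem in_add {R : ℝ} {f g : E → F} (hf : In R f) (hg : In R g) : In R (fun x => f x + g x) :=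
  ⟨hf.smooth.add hg.smooth, fun x hx => by rw [hf.supp x hx, hg.supp x hx, add_zero]⟩

theorem in_smul {R : ℝ} {f : E → F} {a : E → ℝ} (ha : Sm a) (hf : In R f) :
    In R (fun x => a x • f x) :=
  ⟨ha.smul hf.smooth, fun x hx => by rw [hf.supp x hx, smul_zero]⟩

theorem in_comp {R : ℝ} {Φ Ψ : E → E} {f : E → F} (h : Dif R Φ Ψ) (hf : In R f) :
    In R (fun x => f (Φ x)) :=
  ⟨hf.smooth.comp h.smooth, fun x hx => by
    show f (Φ x) = 0
    rw [h.out x hx]; exact hf.supp x hx⟩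

theorem hs_sum3 (k : ℕ) {g : Fin 3 → E → F} (hg : ∀ j, Sm (g j))
    (hc : ∀ j, HasCompactSupport (g j)) :
    hs univ k (fun x => ∑ j, g j x) ≤ 4 * ∑ j, hs univ k (g j) := by
  have e : (fun x => ∑ j, g j x) = fun x => (g 0 x + g 1 x) + g 2 x := by
    funext x
    rw [Fin.sum_univ_three]
  rw [e, Fin.sum_univ_three]
  have h1 := HSB.add_le (S := univ) k (fun x => g 0 x + g 1 x) (g 2)
    (Or.inr ⟨(hc 0).add (hc 1), hc 2⟩) ((hg 0).add (hg 1)) (hg 2)
  have h2 := HSB.add_le (S := univ) k (g 0) (g 1) (Or.inr ⟨hc 0, hc 1⟩) (hg 0) (hg 1)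
  have h3 := HSB.nonneg univ k (g 2)
  linarith

theorem db_mono {j k : ℕ} {K : ℝ} {Φ : E → E} (h : DB k K Φ) (hj : j ≤ k) : DB j K Φ :=
  fun L h1 h2 x => h L h1 (h2.trans hj) x

theorem db_nonneg {k : ℕ} {K : ℝ} {Φ : E → E} (h : DB k K Φ) (hk : 1 ≤ k) : 0 ≤ K :=
  (norm_nonneg _).trans (h [0] (by simp) (by simpa using hk) 0)

theorem pds_apply {w : E → E} (hw : Sm w) (L : List (Fin 3)) (x : E) (j : Fin 3) :
    pds L (fun y => w y j) x = pds L w x j := by
  induction L generalizing x with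
  | nil => rfl
  | cons i L ih =>
    show pd i (pds L fun y => w y j) x = pd i (pds L w) x j
    rw [PDC.pd_comp_apply (PDC.pds_smooth hw L)]
    congr 1
    funext y
    exact ih y

/-- the components of the derivatives are bounded coefficients -/
theorem bd_coef {k : ℕ} {K : ℝ} {Φ : E → E} (hΦ : Sm Φ) (h : DB (k + 1) K Φ) (i j : Fin 3) :
    Bd univ k (fun x => pd i Φ x j) K := by
  intro L hL x _
  rw [pds_apply (hΦ.pd i), ← HSB.pds_append_singleton]
  refine (PiLp.norm_apply_le _ j).trans (h _ ?_ ?_ x)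
  · simp
  · simp only [List.length_append, List.length_singleton]; omega

/-- the chain rule -/
theorem pd_compΦ {Φ : E → E} (hΦ : Sm Φ) {f : E → F} (hf : Sm f) (i : Fin 3) (x : E) :
    pd i (fun y => f (Φ y)) x = ∑ j, pd i Φ x j • pd j f (Φ x) := by
  have h1 : HasFDerivAt (fun y => f (Φ y)) ((fderiv ℝ f (Φ x)).comp (fderiv ℝ Φ x)) x :=
    (hf.differentiable (Φ x)).hasFDerivAt.comp x (hΦ.differentiable x).hasFDerivAt
  unfold pd
  rw [h1.fderiv]
  show fderiv ℝ f (Φ x) (fderiv ℝ Φ x (eb i)) = _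
  rw [fderiv_eq_sum]
  rfl

theorem det_le {A : E →L[ℝ] E} {K : ℝ} (h : ∀ j, ‖A (eb j)‖ ≤ K) : |A.det| ≤ 6 * K ^ 3 := by
  have h1 : A.det = Matrix.det (LinearMap.toMatrix (EuclideanSpace.basisFun (Fin 3) ℝ).toBasis
      (EuclideanSpace.basisFun (Fin 3) ℝ).toBasis (A : E →ₗ[ℝ] E)) := by
    rw [LinearMap.det_toMatrix]
  rw [h1]
  have h2 := Matrix.det_le (A := LinearMap.toMatrix (EuclideanSpace.basisFun (Fin 3) ℝ).toBasis
      (EuclideanSpace.basisFun (Fin 3) ℝ).toBasis (A : E →ₗ[ℝ] E)) (abv := AbsoluteValue.abs)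
      (x := K) (by
        intro i j
        rw [LinearMap.toMatrix_apply]
        have h3 := PiLp.norm_apply_le (A (eb j)) i
        rw [Real.norm_eq_abs] at h3
        refine le_trans (le_of_eq ?_) (h3.trans (h j))
        simp [eb])
  have h4 : (Nat.factorial (Fintype.card (Fin 3))) • K ^ Fintype.card (Fin 3) = 6 * K ^ 3 := by
    simp [Nat.factorial]
  rw [h4] at h2
  exact h2

/-- order zero: change of variables -/
theorem int_comp_le {R K : ℝ} {Φ Ψ : E → E} (h : Dif R Φ Ψ) (hΨ : DB 1 K Ψ) {f : E → F}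
    (hf : In R f) : ∫ x in univ, ‖f (Φ x)‖ ^ 2 ≤ 6 * |K| ^ 3 * ∫ x in univ, ‖f x‖ ^ 2 := by
  have hK : 0 ≤ K := db_nonneg hΨ le_rfl
  rw [abs_of_nonneg hK]
  have hinj : InjOn Ψ univ := by
    intro x _ y _ hxy
    rw [← h.right x, ← h.right y, hxy]
  have him : Ψ '' univ = univ := by
    rw [image_univ]
    exact Function.Surjective.range_eq fun x => ⟨Φ x, h.left x⟩
  have h1 := integral_image_eq_integral_abs_det_fderiv_smul volume MeasurableSet.univ
    (fun x _ => ((h.smoothi.differentiable x).hasFDerivAt).hasFDerivWithinAt (s := univ)) hinj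
    (fun x => ‖f (Φ x)‖ ^ 2)
  rw [him] at h1
  rw [h1]
  simp only [h.right, smul_eq_mul]
  rw [← integral_const_mul]
  have hc : Continuous fun x => |(fderiv ℝ Ψ x).det| * ‖f x‖ ^ 2 := by
    refine Continuous.mul ?_ (HSB.sq_cont hf.smooth)
    refine Continuous.abs ?_
    have : Continuous (fun A : E →L[ℝ] E => A.det) := ContinuousLinearMap.continuous_det
    exact this.comp (h.smoothi.continuous_fderiv (by simp))
  refine setIntegral_mono_on (HSB.integrableOn hc (Or.inr ?_))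
      ((HSB.int_sq hf.smooth (Or.inr (HmulM.hcs_of_in hf))).const_mul _) MeasurableSet.univ
      fun x _ => ?_
  · refine HmulM.hcs_of_supp (R := R) fun x hx => ?_
    rw [hf.supp x hx]
    simp
  · refine mul_le_mul_of_nonneg_right (det_le fun j => ?_) (by positivity)
    exact hΨ [j] (by simp) (by simp) x

/-- the squared version -/
theorem comp_le (R : ℝ) (k : ℕ) (K : ℝ) : ∃ C : ℝ, 0 ≤ C ∧
    ∀ Φ Ψ : E → E, Dif R Φ Ψ → DB (max k 1) K Φ → DB 1 K Ψ →
    ∀ (F : Type) [NormedAddCommGroup F] [NormedSpace ℝ F] (f : E → F), In R f →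
      hs univ k (fun x => f (Φ x)) ≤ C * hs univ k f := by
  induction k with
  | zero =>
    refine ⟨6 * |K| ^ 3, by positivity, ?_⟩
    intro Φ Ψ h _ hΨ F _ _ f hf
    exact int_comp_le h hΨ hf
  | succ k ih =>
    obtain ⟨C, hC, H⟩ := ih
    obtain ⟨C1, hC1, H1⟩ := HmulM.mul_le k
    refine ⟨6 * |K| ^ 3 + 12 * (C1 * K ^ 2) * C, by positivity, ?_⟩
    intro Φ Ψ h hΦ hΨ F _ _ f hf
    have hΦ' : DB (k + 1) K Φ := db_mono hΦ (le_max_left _ _)
    have hΦ'' : DB (max k 1) K Φ := db_mono hΦ (max_le_max (Nat.le_succ k) le_rfl)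
    rw [HSB.succ_eq, HSB.succ_eq]
    have a0 := int_comp_le h hΨ hf
    have a1 : ∀ i : Fin 3, hs univ k (pd i fun x => f (Φ x)) ≤
        4 * ((C1 * K ^ 2) * C) * ∑ j, hs univ k (pd j f) := by
      intro i
      have e : (pd i fun x => f (Φ x)) = fun x => ∑ j, pd i Φ x j • pd j f (Φ x) := by
        funext x
        exact pd_compΦ h.smooth hf.smooth i x
      rw [e]
      have hin : ∀ j, In R (fun x => pd i Φ x j • pd j f (Φ x)) := fun j =>
        in_smul ((h.smooth.pd i).comp_apply j) (in_comp h (in_pd hf j))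
      refine (hs_sum3 k (g := fun j x => pd i Φ x j • pd j f (Φ x)) (fun j => (hin j).smooth)
        (fun j => HmulM.hcs_of_in (hin j))).trans ?_
      rw [mul_assoc, Finset.mul_sum (f := fun j => hs univ k (pd j f))]
      refine mul_le_mul_of_nonneg_left (Finset.sum_le_sum fun j _ => ?_) (by norm_num)
      have b1 := H1 F (fun x => pd i Φ x j) (fun x => pd j f (Φ x)) K
        ((h.smooth.pd i).comp_apply j) (bd_coef h.smooth hΦ' i j) (in_comp h (in_pd hf j)).smooth
        (HmulM.hcs_of_in (in_comp h (in_pd hf j)))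
      have b2 := H Φ Ψ h hΦ'' hΨ F (pd j f) (in_pd hf j)
      calc hs univ k (fun x => pd i Φ x j • pd j f (Φ x)) ≤
          C1 * K ^ 2 * hs univ k (fun x => pd j f (Φ x)) := b1
        _ ≤ C1 * K ^ 2 * (C * hs univ k (pd j f)) :=
          mul_le_mul_of_nonneg_left b2 (by positivity)
        _ = C1 * K ^ 2 * C * hs univ k (pd j f) := by ring
    have a2 := Finset.sum_le_sum fun i (_ : i ∈ Finset.univ) => a1 i
    rw [Finset.sum_const, Finset.card_univ, Fintype.card_fin, nsmul_eq_mul] at a2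
    push_cast at a2
    have k5 : 0 ≤ ∫ x in univ, ‖f x‖ ^ 2 := integral_nonneg fun x => by positivity
    have k6 : 0 ≤ ∑ i, hs univ k (pd i f) := Finset.sum_nonneg fun i _ => HSB.nonneg univ k _
    set A := ∫ x in univ, ‖f x‖ ^ 2
    set B := ∑ i, hs univ k (pd i f)
    have m1 : 0 ≤ 6 * |K| ^ 3 * B := by positivity
    have m2 : 0 ≤ 12 * (C1 * K ^ 2) * C * A := by positivity
    nlinarith

end HcompM

/-- module HCOMP -/
theorem specHcomp : SpecHcomp := by
  intro R k K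
  obtain ⟨C, hC, H⟩ := HcompM.comp_le R k K
  refine ⟨√C, Real.sqrt_nonneg C, ?_⟩
  intro Φ Ψ h hΦ hΨ F _ _ f hf
  rw [← Real.sqrt_mul hC]
  exact Real.sqrt_le_sqrt (H Φ Ψ h hΦ hΨ F f hf)

end MPfab
end

section
/-!
MP_fabde4_an, part M, modules CPT and PBSM: smooth families over a compact parameter set, joint
smoothness of pull-backs.
-/
set_option autoImplicit false
open MeasureTheory Set Filter Topology

namespace MPfab

namespace CptM

variable {W F : Type*} [NormedAddCommGroup W] [NormedSpace ℝ W] [NormedAddCommGroup F]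
  [NormedSpace ℝ F]

theorem slice_smooth {f : W × E → F} (h : Sm f) (w : W) : Sm (fun x => f (w, x)) :=
  h.comp (contDiff_const.prodMk contDiff_id)

/-- the partial derivative of a slice as a directional derivative -/
theorem pd_slice {f : W × E → F} (h : Sm f) (i : Fin 3) (w : W) (x : E) :
    pd i (fun y => f (w, y)) x = PDC.dd ((0 : W), eb i) f (w, x) := by
  have h1 : HasFDerivAt f (fderiv ℝ f (w, x)) (w, x) := (h.differentiable (w, x)).hasFDerivAt
  have h2 : HasFDerivAt (fun y : E => (w, y))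
      ((0 : E →L[ℝ] W).prod (ContinuousLinearMap.id ℝ E)) x :=
    (hasFDerivAt_const w x).prodMk (hasFDerivAt_id x)
  have h3 : HasFDerivAt (fun y => f (w, y)) _ x := h1.comp x h2
  unfold pd PDC.dd
  rw [h3.fderiv]
  simp

theorem pd_slice_smooth {f : W × E → F} (h : Sm f) (i : Fin 3) :
    Sm (fun p : W × E => pd i (fun x => f (p.1, x)) p.2) := by
  have h1 : (fun p : W × E => pd i (fun x => f (p.1, x)) p.2) = PDC.dd ((0 : W), eb i) f := by
    funext p
    exact pd_slice h i p.1 p.2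
  rw [h1]
  exact PDC.dd_smooth h _

theorem pds_slice {f : W × E → F} (h : Sm f) (L : List (Fin 3)) :
    Sm (fun p : W × E => pds L (fun x => f (p.1, x)) p.2) := by
  induction L with
  | nil => exact h
  | cons i L ih => exact pd_slice_smooth ih i

theorem pds_sub {f g : E → F} (hf : Sm f) (hg : Sm g) (L : List (Fin 3)) :
    pds L (fun x => f x - g x) = fun x => pds L f x - pds L g x := by
  induction L with
  | nil => rfl
  | cons i L ih =>
    funext x
    show pd i (pds L (fun x => f x - g x)) x = pd i (pds L f) x - pd i (pds L g) x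
    rw [ih]
    exact PDC.pd_sub ((PDC.pds_smooth hf L).differentiable x)
      ((PDC.pds_smooth hg L).differentiable x) i

theorem norm_pds_const (v : F) (L : List (Fin 3)) (x : E) :
    ‖pds L (fun _ => v) x‖ ≤ ‖v‖ := by
  induction L using List.reverseRecOn with
  | nil => exact le_rfl
  | append_singleton L i ih =>
    rw [HSB.pds_append_singleton]
    have h1 : (pd i fun _ : E => v) = fun _ => (0 : F) := by
      funext y
      unfold pd
      simp
    have h2 : ∀ L : List (Fin 3), pds L (fun _ : E => (0 : F)) = fun _ => (0 : F) := by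
      intro L
      induction L with
      | nil => rfl
      | cons j L ih' =>
        funext y
        show pd j (pds L fun _ : E => (0 : F)) y = 0
        rw [ih']
        unfold pd
        simp
    rw [h1, h2]
    simp

theorem norm_pds_id (L : List (Fin 3)) (hL : 1 ≤ L.length) (x : E) :
    ‖pds L (fun y : E => y) x‖ ≤ 1 := by
  induction L using List.reverseRecOn with
  | nil => simp at hL
  | append_singleton L i _ =>
    rw [HSB.pds_append_singleton]
    have h1 : (pd i fun y : E => y) = fun _ => eb i := by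
      funext y
      unfold pd
      simp
    rw [h1]
    refine (norm_pds_const (eb i) L x).trans ?_
    simp [eb]

theorem in_slice {R : ℝ} {f : W × E → F} (h : Sm f) (h0 : ∀ w x, R ≤ ‖x‖ → f (w, x) = 0) (w : W) :
    In R (fun x => f (w, x)) := ⟨slice_smooth h w, fun x hx => h0 w x hx⟩

theorem bd {R : ℝ} {f : W × E → F} (h : Sm f) (h0 : ∀ w x, R ≤ ‖x‖ → f (w, x) = 0) {K : Set W}
    (hK : IsCompact K) (k : ℕ) : ∃ c : ℝ, 0 ≤ c ∧ ∀ w ∈ K, Bd univ k (fun x => f (w, x)) c := by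
  have h1 : ∀ L : List (Fin 3), ∃ c : ℝ, 0 ≤ c ∧ ∀ w ∈ K, ∀ x,
      ‖pds L (fun x => f (w, x)) x‖ ≤ c := by
    intro L
    obtain ⟨c, hc⟩ := (hK.prod (isCompact_closedBall (0 : E) R)).exists_bound_of_continuousOn
      (pds_slice h L).continuous.continuousOn
    refine ⟨max c 0, le_max_right _ _, fun w hw x => ?_⟩
    rcases le_or_gt ‖x‖ R with hx | hx
    · exact (hc (w, x) ⟨hw, by simpa using hx⟩).trans (le_max_left _ _)
    · rw [(HcompM.in_pds (in_slice h h0 w) L).supp x hx.le, norm_zero]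
      exact le_max_right _ _
  choose c hc0 hc using h1
  have hfin := List.finite_length_le (Fin 3) k
  refine ⟨∑ L ∈ hfin.toFinset, c L, Finset.sum_nonneg fun L _ => hc0 L, fun w hw L hL x _ => ?_⟩
  refine (hc L w hw x).trans ?_
  exact Finset.single_le_sum (f := c) (fun L _ => hc0 L) (hfin.mem_toFinset.mpr hL)

theorem uc {R : ℝ} {f : W × E → F} (h : Sm f) (h0 : ∀ w x, R ≤ ‖x‖ → f (w, x) = 0) {K : Set W}
    (hK : IsCompact K) (k : ℕ) {η : ℝ} (hη : 0 < η) : ∃ δ : ℝ, 0 < δ ∧ ∀ w ∈ K, ∀ w' ∈ K,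
      ‖w - w'‖ < δ → Bd univ k (fun x => f (w, x) - f (w', x)) η := by
  have h1 : ∀ L : List (Fin 3), ∀ᶠ δ : ℝ in 𝓝[>] 0, ∀ w ∈ K, ∀ w' ∈ K, ‖w - w'‖ < δ → ∀ x,
      ‖pds L (fun x => f (w, x)) x - pds L (fun x => f (w', x)) x‖ ≤ η := by
    intro L
    have hu := (hK.prod (isCompact_closedBall (0 : E) R)).uniformContinuousOn_of_continuous
      (pds_slice h L).continuous.continuousOn
    obtain ⟨δ, hδ, H⟩ := Metric.uniformContinuousOn_iff.mp hu η hη
    filter_upwards [Ioo_mem_nhdsGT hδ] with d hd w hw w' hw' hww x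
    rcases le_or_gt ‖x‖ R with hx | hx
    · have h2 := H (w, x) ⟨hw, by simpa using hx⟩ (w', x) ⟨hw', by simpa using hx⟩ (by
        rw [Prod.dist_eq, dist_self, dist_eq_norm]
        exact max_lt (hww.trans hd.2) hδ)
      rw [dist_eq_norm] at h2
      exact h2.le
    · rw [(HcompM.in_pds (in_slice h h0 w) L).supp x hx.le,
        (HcompM.in_pds (in_slice h h0 w') L).supp x hx.le, sub_zero, norm_zero]
      exact hη.le
  have h2 := (eventually_all_finite (List.finite_length_le (Fin 3) k)).mpr fun L _ => h1 L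
  obtain ⟨δ, hδ, hδ0⟩ := (h2.and self_mem_nhdsWithin).exists
  refine ⟨δ, hδ0, fun w hw w' hw' hww L hL x _ => ?_⟩
  rw [pds_sub (slice_smooth h w) (slice_smooth h w')]
  exact hδ L hL w hw w' hw' hww x

theorem db {R : ℝ} {Φ : W × E → E} (h : Sm Φ) (h0 : ∀ w x, R ≤ ‖x‖ → Φ (w, x) = x) {K : Set W}
    (hK : IsCompact K) (k : ℕ) : ∃ c : ℝ, 0 ≤ c ∧ ∀ w ∈ K, DB k c (fun x => Φ (w, x)) := by
  have hs : Sm (fun p : W × E => Φ p - p.2) := h.sub contDiff_snd
  obtain ⟨c, hc0, hc⟩ := bd (f := fun p : W × E => Φ p - p.2) hs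
    (fun w x hx => by
      show Φ (w, x) - x = 0
      rw [h0 w x hx, sub_self]) hK k
  refine ⟨c + 1, by positivity, fun w hw L hL1 hL2 x => ?_⟩
  have e : (fun x => Φ (w, x)) = fun x => (Φ (w, x) - x) + x := by
    funext y
    simp
  rw [e]
  have h1 : pds L (fun x => (Φ (w, x) - x) + x) x =
      pds L (fun x => Φ (w, x) - x) x + pds L (fun x : E => x) x :=
    congrFun (INC.pds_add (f := fun x => Φ (w, x) - x) (g := fun x : E => x)
      (slice_smooth hs w) contDiff_id L) x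
  rw [h1]
  exact (norm_add_le _ _).trans (add_le_add (hc w hw L hL2 x (mem_univ x)) (norm_pds_id L hL1 x))

end CptM

/-- module CPT -/
theorem specCpt : SpecCpt where
  bd _ _ _ _ _ _ _ _ _ h h0 _ hK k := by
    obtain ⟨c, _, hc⟩ := CptM.bd h h0 hK k
    exact ⟨c, hc⟩
  uc _ _ _ _ _ _ _ _ _ h h0 _ hK k _ hη := CptM.uc h h0 hK k hη
  db _ _ _ _ _ _ h h0 _ hK k := by
    obtain ⟨c, _, hc⟩ := CptM.db h h0 hK k
    exact ⟨c, hc⟩

/-! ### module PBSM -/

namespace PbsmM

variable {W : Type*} [NormedAddCommGroup W] [NormedSpace ℝ W]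

theorem pb_smooth {Φ m : W × E → E} (hΦ : Sm Φ) (hm : Sm m) :
    Sm fun p : W × E => pb (fun x => Φ (p.1, x)) (fun x => m (p.1, x)) p.2 := by
  refine contDiff_euclidean.mpr fun i => ?_
  show Sm fun p : W × E => ∑ j, pd i (fun x => Φ (p.1, x)) p.2 j * m (p.1, Φ (p.1, p.2)) j
  refine ContDiff.sum fun j _ => ?_
  refine ContDiff.mul ?_ ?_
  · exact contDiff_euclidean.mp (CptM.pd_slice_smooth hΦ i) j
  · exact contDiff_euclidean.mp (hm.comp (contDiff_fst.prodMk hΦ)) j

theorem pv_smooth {Φ Ψ b : W × E → E} (hΦ : Sm Φ) (hΨ : Sm Ψ) (hb : Sm b) :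
    Sm fun p : W × E => pv (fun x => Φ (p.1, x)) (fun x => Ψ (p.1, x)) (fun x => b (p.1, x)) p.2 := by
  have e : (fun p : W × E => pv (fun x => Φ (p.1, x)) (fun x => Ψ (p.1, x))
      (fun x => b (p.1, x)) p.2) =
      fun p : W × E => ∑ j, b (p.1, Φ (p.1, p.2)) j • pd j (fun x => Ψ (p.1, x)) (Φ (p.1, p.2)) := by
    funext p
    unfold pv
    rw [fderiv_eq_sum]
  rw [e]
  refine ContDiff.sum fun j _ => ?_
  have h1 : Sm fun p : W × E => b (p.1, Φ (p.1, p.2)) j :=
    contDiff_euclidean.mp (hb.comp (contDiff_fst.prodMk hΦ)) j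
  have h2 : Sm fun p : W × E => pd j (fun x => Ψ (p.1, x)) (Φ (p.1, p.2)) :=
    (CptM.pd_slice_smooth hΨ j).comp (contDiff_fst.prodMk hΦ)
  exact h1.smul h2

end PbsmM

/-- module PBSM -/
theorem specPbSm : SpecPbSm where
  pb _ _ _ _ _ _ hΦ hm := PbsmM.pb_smooth hΦ hm
  pv _ _ _ _ _ _ _ hΦ hΨ hb := PbsmM.pv_smooth hΦ hΨ hb

end MPfab
end

section
/-!
MP_fabde4_an, modules PBC and CHS: the pull-backs depend continuously on the map; bound of the Sobolev
norms by the sup norms.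
-/
set_option autoImplicit false
open MeasureTheory Set

namespace MPfab

namespace BdM

/-! ### pull-backs -/

theorem pb_apply (Φ m : E → E) (x : E) (i : Fin 3) :
    pb Φ m x i = ∑ j, pd i Φ x j * m (Φ x) j := rfl

theorem pb_smooth {Φ m : E → E} (hΦ : Sm Φ) (hm : Sm m) : Sm (pb Φ m) := by
  rw [sm_iff]
  intro i
  simp only [pb_apply]
  exact ContDiff.sum fun j _ => ((hΦ.pd i).comp_apply j).mul ((smc hm hΦ).comp_apply j)

theorem pv_eq (Φ Ψ b : E → E) (x : E) :
    pv Φ Ψ b x = ∑ j, (b (Φ x) j) • pd j Ψ (Φ x) := by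
  unfold pv
  rw [fderiv_eq_sum]

theorem pv_smooth {Φ Ψ b : E → E} (hΦ : Sm Φ) (hΨ : Sm Ψ) (hb : Sm b) : Sm (pv Φ Ψ b) := by
  rw [funext (pv_eq Φ Ψ b)]
  exact ContDiff.sum fun j _ => ((smc hb hΦ).comp_apply j).smul ((hΨ.pd j).comp hΦ)

theorem smul3 {f g : E → ℝ} {k : ℕ} {c c' : ℝ} (hf : Sm f) (hg : Sm g) (h : Bd univ k f c)
    (h' : Bd univ k g c') : Bd univ k (fun x => f x * g x) (2 ^ k * c * c') :=
  mul k f g c c' hf hg h h'

theorem pb_diff (K : ℝ) (k : ℕ) {Φ Φ' : E → E} {η : ℝ} (hΦ : Sm Φ) (hΦ' : Sm Φ')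
    (h1 : DB (k + 1) K Φ) (h2 : DB (k + 1) K Φ')
    (hη : Bd univ (k + 1) (fun x => Φ x - Φ' x) η) {m : E → E} {c : ℝ} (hm : Sm m)
    (hc : Bd univ (k + 1) m c) :
    Bd univ k (fun x => pb Φ m x - pb Φ' m x)
      (3 * (3 * (2 ^ k * cC K k + 2 ^ k * |K| * cD K k)) * c * η) := by
  have hsd : Sm (fun x => Φ x - Φ' x) := hΦ.sub hΦ'
  have hc0 := nonneg hc
  have hη0 := nonneg hη
  have e : ∀ i, (fun x => (pb Φ m x - pb Φ' m x) i) = fun x =>
      ∑ j, (pd i (fun y => Φ y - Φ' y) x j * m (Φ x) j +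
        pd i Φ' x j * (m (Φ x) j - m (Φ' x) j)) := by
    intro i
    funext x
    rw [PiLp.sub_apply, pb_apply, pb_apply, ← Finset.sum_sub_distrib]
    refine Finset.sum_congr rfl fun j _ => ?_
    rw [PDC.pd_sub (hΦ.differentiable x) (hΦ'.differentiable x), PiLp.sub_apply]
    ring
  have s1 : ∀ i j, Sm fun x => pd i (fun y => Φ y - Φ' y) x j * m (Φ x) j := fun i j =>
    ((hsd.pd i).comp_apply j).mul ((smc hm hΦ).comp_apply j)
  have s2 : ∀ i j, Sm fun x => pd i Φ' x j * (m (Φ x) j - m (Φ' x) j) := fun i j =>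
    ((hΦ'.pd i).comp_apply j).mul (((smc hm hΦ).comp_apply j).sub ((smc hm hΦ').comp_apply j))
  have b1 : ∀ i j, Bd univ k (fun x => pd i (fun y => Φ y - Φ' y) x j * m (Φ x) j)
      (2 ^ k * η * (cC K k * c)) := by
    intro i j
    refine smul3 ((hsd.pd i).comp_apply j) ((smc hm hΦ).comp_apply j) ?_ ?_
    · exact comp (hsd.pd i) (bpd hsd hη i) j
    · exact comp_bd K k (fun x => m x j) Φ c (hm.comp_apply j) hΦ (db_mono (Nat.le_succ k) h1)
        (mono (Nat.le_succ k) (comp hm hc j))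
  have b2 : ∀ i j, Bd univ k (fun x => pd i Φ' x j * (m (Φ x) j - m (Φ' x) j))
      (2 ^ k * |K| * (cD K k * c * η)) := by
    intro i j
    refine smul3 ((hΦ'.pd i).comp_apply j)
      (((smc hm hΦ).comp_apply j).sub ((smc hm hΦ').comp_apply j)) ?_ ?_
    · exact le (le_abs_self K) (comp (hΦ'.pd i) (db_bd hΦ' h2 i) j)
    · exact diff_bd K k (fun x => m x j) Φ Φ' c η (hm.comp_apply j) hΦ hΦ'
        (db_mono (Nat.le_succ k) h1) (db_mono (Nat.le_succ k) h2) (comp hm hc j)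
        (mono (Nat.le_succ k) hη)
  have b3 : ∀ i, Bd univ k (fun x => (pb Φ m x - pb Φ' m x) i)
      (3 * (2 ^ k * η * (cC K k * c) + 2 ^ k * |K| * (cD K k * c * η))) := by
    intro i
    rw [e i]
    exact sum3 (fun j => (s1 i j).add (s2 i j)) fun j => add (s1 i j) (s2 i j) (b1 i j) (b2 i j)
  refine le (le_of_eq ?_) (of_comp ((pb_smooth hΦ hm).sub (pb_smooth hΦ' hm)) b3)
  ring

theorem pv_diff (K : ℝ) (k : ℕ) {Φ Ψ Φ' Ψ' : E → E} {η : ℝ} (hΦ : Sm Φ) (hΦ' : Sm Φ')
    (hΨ : Sm Ψ) (hΨ' : Sm Ψ')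
    (h1 : DB k K Φ) (h2 : DB k K Φ') (h3 : DB (k + 2) K Ψ')
    (hη : Bd univ k (fun x => Φ x - Φ' x) η)
    (hη' : Bd univ (k + 1) (fun x => Ψ x - Ψ' x) η) {b : E → E} {c : ℝ} (hb : Sm b)
    (hc : Bd univ (k + 1) b c) :
    Bd univ k (fun x => pv Φ Ψ b x - pv Φ' Ψ' b x)
      (3 * (2 ^ k * cC K k + 2 ^ (k + 1) * |K| * cD K k) * c * η) := by
  have hsd : Sm (fun x => Ψ x - Ψ' x) := hΨ.sub hΨ'
  have hc0 := nonneg hc
  have hη0 := nonneg hη
  have e : (fun x => pv Φ Ψ b x - pv Φ' Ψ' b x) = fun x =>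
      ∑ j, ((fun y => (b y j) • pd j (fun z => Ψ z - Ψ' z) y) (Φ x) +
        ((fun y => (b y j) • pd j Ψ' y) (Φ x) - (fun y => (b y j) • pd j Ψ' y) (Φ' x))) := by
    funext x
    rw [pv_eq, pv_eq, ← Finset.sum_sub_distrib]
    refine Finset.sum_congr rfl fun j _ => ?_
    simp only
    rw [PDC.pd_sub (hΨ.differentiable _) (hΨ'.differentiable _), smul_sub]
    abel
  have sA : ∀ j, Sm fun y => (b y j) • pd j (fun z => Ψ z - Ψ' z) y := fun j =>
    (hb.comp_apply j).smul (hsd.pd j)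
  have sB : ∀ j, Sm fun y => (b y j) • pd j Ψ' y := fun j => (hb.comp_apply j).smul (hΨ'.pd j)
  have b1 : ∀ j, Bd univ k (fun x => (fun y => (b y j) • pd j (fun z => Ψ z - Ψ' z) y) (Φ x))
      (cC K k * (2 ^ k * c * η)) := by
    intro j
    refine comp_bd K k _ Φ _ (sA j) hΦ h1 ?_
    exact mul k _ _ c η (hb.comp_apply j) (hsd.pd j) (mono (Nat.le_succ k) (comp hb hc j))
      (bpd hsd hη' j)
  have b2 : ∀ j, Bd univ k (fun x => (fun y => (b y j) • pd j Ψ' y) (Φ x) -
      (fun y => (b y j) • pd j Ψ' y) (Φ' x)) (cD K k * (2 ^ (k + 1) * c * |K|) * η) := by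
    intro j
    refine diff_bd K k _ Φ Φ' _ η (sB j) hΦ hΦ' h1 h2 ?_ hη
    exact mul (k + 1) _ _ c |K| (hb.comp_apply j) (hΨ'.pd j) (comp hb hc j)
      (le (le_abs_self K) (db_bd hΨ' h3 j))
  rw [e]
  refine le (le_of_eq ?_) (sum3 (fun j => ((sA j).comp hΦ).add (((sB j).comp hΦ).sub
    ((sB j).comp hΦ'))) fun j => add ((sA j).comp hΦ) (((sB j).comp hΦ).sub ((sB j).comp hΦ'))
      (b1 j) (b2 j))
  ring

/-! ### CHS -/

variable {F : Type*} [NormedAddCommGroup F] [NormedSpace ℝ F]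

theorem pd_zero_out {R : ℝ} {f : E → F} (h : ∀ x, R < ‖x‖ → f x = 0) (i : Fin 3) (x : E)
    (hx : R < ‖x‖) : pd i f x = 0 := by
  unfold pd
  have h1 : f =ᶠ[nhds x] fun _ => 0 := by
    have h2 : {y : E | R < ‖y‖} ∈ nhds x := (isOpen_lt continuous_const continuous_norm).mem_nhds hx
    filter_upwards [h2] with y hy using h y hy
  rw [h1.fderiv_eq]
  simp

theorem hs_le (R : ℝ) (k : ℕ) : ∀ (f : E → F) (c : ℝ), Sm f → (∀ x, R < ‖x‖ → f x = 0) →
    Bd univ k f c →
    hs univ k f ≤ 4 ^ k * ((volume (Metric.closedBall (0 : E) R)).toReal * c ^ 2) := by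
  have hV : volume (Metric.closedBall (0 : E) R) < ⊤ := measure_closedBall_lt_top
  have h0 : ∀ (f : E → F) (c : ℝ), (∀ x, R < ‖x‖ → f x = 0) → (∀ x, ‖f x‖ ≤ c) →
      ∫ x in univ, ‖f x‖ ^ 2 ≤ (volume (Metric.closedBall (0 : E) R)).toReal * c ^ 2 := by
    intro f c hf hc
    have h1 : ∫ x in Metric.closedBall (0 : E) R, ‖f x‖ ^ 2 = ∫ x, ‖f x‖ ^ 2 := by
      apply setIntegral_eq_integral_of_forall_compl_eq_zero
      intro x hx
      have : R < ‖x‖ := by
        rw [Metric.mem_closedBall, dist_zero_right] at hx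
        exact not_le.mp hx
      rw [hf x this]
      simp
    rw [setIntegral_univ, ← h1]
    have h2 : ‖∫ x in Metric.closedBall (0 : E) R, ‖f x‖ ^ 2‖ ≤
        c ^ 2 * (volume (Metric.closedBall (0 : E) R)).toReal := by
      apply norm_setIntegral_le_of_norm_le_const hV
      intro x _
      rw [norm_pow, norm_norm]
      exact pow_le_pow_left₀ (norm_nonneg _) (hc x) 2
    rw [mul_comm]
    exact (le_abs_self _).trans h2
  induction k with
  | zero =>
    intro f c _ hs h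
    rw [pow_zero, one_mul]
    exact h0 f c hs (val h)
  | succ k ih =>
    intro f c hf hs h
    have h1 := h0 f c hs (val h)
    have h2 : ∀ i, MPfab.hs univ k (pd i f) ≤
        4 ^ k * ((volume (Metric.closedBall (0 : E) R)).toReal * c ^ 2) := fun i =>
      ih (pd i f) c (hf.pd i) (fun x hx => pd_zero_out hs i x hx) (bpd hf h i)
    show (∫ x in univ, ‖f x‖ ^ 2) + ∑ i, MPfab.hs univ k (pd i f) ≤ _
    rw [Fin.sum_univ_three]
    have h3 : (1 : ℝ) ≤ 4 ^ k := one_le_pow₀ (by norm_num)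
    have h4 : 0 ≤ (volume (Metric.closedBall (0 : E) R)).toReal * c ^ 2 := by positivity
    have h5 := h2 0
    have h6 := h2 1
    have h7 := h2 2
    rw [pow_succ]
    nlinarith

end BdM

theorem specPbc : SpecPbc := by
  intro k K
  have h1 := BdM.cC_nonneg K k
  have h2 := BdM.cD_nonneg K k
  refine ⟨3 * (3 * (2 ^ k * BdM.cC K k + 2 ^ k * |K| * BdM.cD K k)) +
    3 * (2 ^ k * BdM.cC K k + 2 ^ (k + 1) * |K| * BdM.cD K k), by positivity, ?_⟩
  intro R Φ Ψ Φ' Ψ' η hD hD' d1 d2 d3 d4 hη hη'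
  have hη0 := BdM.nonneg hη
  constructor
  · intro m c hm hc
    have hc0 := BdM.nonneg hc
    refine BdM.le ?_ (BdM.pb_diff K k hD.smooth hD'.smooth (BdM.db_mono (by omega) d1)
      (BdM.db_mono (by omega) d3) hη hm hc)
    have h3 : 0 ≤ 3 * (2 ^ k * BdM.cC K k + 2 ^ (k + 1) * |K| * BdM.cD K k) := by positivity
    refine mul_le_mul_of_nonneg_right (mul_le_mul_of_nonneg_right ?_ hc0) hη0
    linarith
  · intro b c hb hc
    have hc0 := BdM.nonneg hc
    refine BdM.le ?_ (BdM.pv_diff K k hD.smooth hD'.smooth hD.smoothi hD'.smoothi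
      (BdM.db_mono (by omega) d1) (BdM.db_mono (by omega) d3) d4
      (BdM.mono (Nat.le_succ k) hη) hη' hb hc)
    have h3 : 0 ≤ 3 * (3 * (2 ^ k * BdM.cC K k + 2 ^ k * |K| * BdM.cD K k)) := by positivity
    refine mul_le_mul_of_nonneg_right (mul_le_mul_of_nonneg_right ?_ hc0) hη0
    linarith

theorem specChs : SpecChs := by
  intro R k
  refine ⟨√(4 ^ k * (volume (Metric.closedBall (0 : E) R)).toReal), Real.sqrt_nonneg _, ?_⟩
  intro F _ _ f c hf h
  have hc := BdM.nonneg h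
  have h1 := BdM.hs_le R k f c hf.smooth (fun x hx => hf.supp x hx.le) h
  calc √(hs univ k f) ≤ √(4 ^ k * ((volume (Metric.closedBall (0 : E) R)).toReal * c ^ 2)) :=
        Real.sqrt_le_sqrt h1
    _ = √(4 ^ k * (volume (Metric.closedBall (0 : E) R)).toReal) * c := by
      rw [← mul_assoc, Real.sqrt_mul (by positivity), Real.sqrt_sq hc]

end MPfab
end

section
/-!
MP_fabde4_an, module PBALG: the algebra of pull-backs.
-/
set_option autoImplicit false
open MeasureTheory Set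

namespace MPfab

namespace PbAlgM

open BdM

/-- cross product with a curl -/
theorem cr_curl (m b : E → E) (x : E) (i : Fin 3) :
    cr (curl m x) (b x) i = ∑ j, (pd j m x i - pd i m x j) * b x j := by
  rw [Fin.sum_univ_three]
  fin_cases i
  · show cr (curl m x) (b x) 0 = (pd 0 m x 0 - pd 0 m x 0) * b x 0 +
      (pd 1 m x 0 - pd 0 m x 1) * b x 1 + (pd 2 m x 0 - pd 0 m x 2) * b x 2
    rw [cr_apply0, curl_apply1, curl_apply2]
    ring
  · show cr (curl m x) (b x) 1 = (pd 0 m x 1 - pd 1 m x 0) * b x 0 +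
      (pd 1 m x 1 - pd 1 m x 1) * b x 1 + (pd 2 m x 1 - pd 1 m x 2) * b x 2
    rw [cr_apply1, curl_apply2, curl_apply0]
    ring
  · show cr (curl m x) (b x) 2 = (pd 0 m x 2 - pd 2 m x 0) * b x 0 +
      (pd 1 m x 2 - pd 2 m x 1) * b x 1 + (pd 2 m x 2 - pd 2 m x 2) * b x 2
    rw [cr_apply2, curl_apply0, curl_apply1]
    ring

/-- derivatives of a composition, components -/
theorem pd_comp_c {m Φ : E → E} (hm : Sm m) (hΦ : Sm Φ) (j k : Fin 3) (x : E) :
    pd j (fun y => m (Φ y) k) x = ∑ l, pd j Φ x l * pd l m (Φ x) k := by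
  rw [pd_comp' (f := fun y => m y k) (hm.comp_apply k) hΦ]
  refine Finset.sum_congr rfl fun l _ => ?_
  rw [smul_eq_mul, ← PDC.pd_comp_apply hm]

/-- derivatives of a pull-back -/
theorem pd_pb {m Φ : E → E} (hm : Sm m) (hΦ : Sm Φ) (j i : Fin 3) (x : E) :
    pd j (pb Φ m) x i = ∑ k, (pd i Φ x k * ∑ l, pd j Φ x l * pd l m (Φ x) k) +
      ∑ k, pd j (pd i Φ) x k * m (Φ x) k := by
  rw [PDC.pd_comp_apply (pb_smooth hΦ hm)]
  simp only [pb_apply]
  have hs1 : ∀ k, Sm fun y => pd i Φ y k := fun k => (hΦ.pd i).comp_apply k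
  have hs2 : ∀ k, Sm fun y => m (Φ y) k := fun k => (smc hm hΦ).comp_apply k
  rw [PDC.pd_sum (fun k _ => ((hs1 k).mul (hs2 k)).differentiable (by simp) x),
    ← Finset.sum_add_distrib]
  refine Finset.sum_congr rfl fun k _ => ?_
  rw [PDC.pd_mul ((hs1 k).differentiable x) ((hs2 k).differentiable x), pd_comp_c hm hΦ,
    ← PDC.pd_comp_apply (hΦ.pd i)]

theorem pd_pb_sub {m Φ : E → E} (hm : Sm m) (hΦ : Sm Φ) (j i : Fin 3) (x : E) :
    pd j (pb Φ m) x i - pd i (pb Φ m) x j =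
      ∑ k, ∑ l, pd i Φ x k * pd j Φ x l * (pd l m (Φ x) k - pd k m (Φ x) l) := by
  rw [pd_pb hm hΦ, pd_pb hm hΦ, PDC.pd_comm hΦ j i]
  have h1 : ∑ k, (pd i Φ x k * ∑ l, pd j Φ x l * pd l m (Φ x) k) =
      ∑ k, ∑ l, pd i Φ x k * pd j Φ x l * pd l m (Φ x) k := by
    refine Finset.sum_congr rfl fun k _ => ?_
    rw [Finset.mul_sum]
    refine Finset.sum_congr rfl fun l _ => ?_
    ring
  have h2 : ∑ k, (pd j Φ x k * ∑ l, pd i Φ x l * pd l m (Φ x) k) =
      ∑ k, ∑ l, pd i Φ x k * pd j Φ x l * pd k m (Φ x) l := by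
    rw [Finset.sum_comm]
    refine Finset.sum_congr rfl fun k _ => ?_
    rw [Finset.mul_sum]
    refine Finset.sum_congr rfl fun l _ => ?_
    ring
  rw [h1, h2, add_sub_add_right_eq_sub, ← Finset.sum_sub_distrib]
  refine Finset.sum_congr rfl fun k _ => ?_
  rw [← Finset.sum_sub_distrib]
  refine Finset.sum_congr rfl fun l _ => ?_
  ring

/-- `DΦ(x)` maps the pull back of `b` to `b(Φ x)` -/
theorem push_pv {R : ℝ} {Φ Ψ : E → E} (h : Dif R Φ Ψ) (b : E → E) (x : E) (l : Fin 3) :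
    ∑ j, pd j Φ x l * pv Φ Ψ b x j = b (Φ x) l := by
  have h1 : HasFDerivAt (fun y => Φ (Ψ y)) ((fderiv ℝ Φ (Ψ (Φ x))).comp (fderiv ℝ Ψ (Φ x)))
      (Φ x) :=
    (h.smooth.differentiable _).hasFDerivAt.comp (Φ x) (h.smoothi.differentiable _).hasFDerivAt
  have h2 : (fun y => Φ (Ψ y)) = fun y => y := funext h.right
  rw [h2, h.left] at h1
  have h3 := h1.unique (hasFDerivAt_id (Φ x))
  have h4 : fderiv ℝ Φ x (fderiv ℝ Ψ (Φ x) (b (Φ x))) = b (Φ x) := by
    have := congrArg (fun A : E →L[ℝ] E => A (b (Φ x))) h3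
    simpa using this
  have h5 := congrArg (fun v : E => v l) h4
  simp only at h5
  rw [fderiv_eq_sum] at h5
  rw [← h5]
  show ∑ j, pd j Φ x l * (fderiv ℝ Ψ (Φ x) (b (Φ x))) j = _
  simp only [WithLp.ofLp_sum, WithLp.ofLp_smul, Finset.sum_apply, Pi.smul_apply, smul_eq_mul]
  refine Finset.sum_congr rfl fun j _ => mul_comm _ _

theorem cr_pb {R : ℝ} {Φ Ψ m b : E → E} (h : Dif R Φ Ψ) (hm : Sm m) (x : E) :
    cr (curl (pb Φ m) x) (pv Φ Ψ b x) = pb Φ (fun y => cr (curl m y) (b y)) x := by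
  ext i
  rw [cr_curl, pb_apply]
  have h1 : ∀ j, (pd j (pb Φ m) x i - pd i (pb Φ m) x j) * pv Φ Ψ b x j =
      ∑ k, ∑ l, pd i Φ x k * (pd l m (Φ x) k - pd k m (Φ x) l) *
        (pd j Φ x l * pv Φ Ψ b x j) := by
    intro j
    rw [pd_pb_sub hm h.smooth, Finset.sum_mul]
    refine Finset.sum_congr rfl fun k _ => ?_
    rw [Finset.sum_mul]
    refine Finset.sum_congr rfl fun l _ => ?_
    ring
  rw [Finset.sum_congr rfl fun j _ => h1 j, Finset.sum_comm]
  refine Finset.sum_congr rfl fun k _ => ?_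
  rw [Finset.sum_comm]
  have h2 := cr_curl m b (Φ x) k
  show _ = pd i Φ x k * cr (curl m (Φ x)) (b (Φ x)) k
  rw [h2, Finset.mul_sum]
  refine Finset.sum_congr rfl fun l _ => ?_
  rw [← Finset.mul_sum, push_pv h]
  ring

theorem dif_symm {R : ℝ} {Φ Ψ : E → E} (h : Dif R Φ Ψ) : Dif R Ψ Φ where
  smooth := h.smoothi
  smoothi := h.smooth
  left := h.right
  right := h.left
  out x hx := by
    have h1 := h.left x
    rw [h.out x hx] at h1
    exact h1

end PbAlgM

open BdM PbAlgM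

theorem specPbAlg : SpecPbAlg where
  inp R Φ Ψ m h hm :=
    { smooth := pb_smooth h.smooth hm.smooth
      supp := by
        intro x hx
        ext i
        rw [pb_apply, h.out x hx, hm.supp x hx]
        simp }
  inv R Φ Ψ b h hb :=
    { smooth := pv_smooth h.smooth h.smoothi hb.smooth
      supp := by
        intro x hx
        rw [pv_eq, h.out x hx, hb.supp x hx]
        simp }
  gr Φ q hΦ hq x := by
    ext i
    rw [pb_apply, gr_apply, pd_comp' hq hΦ]
    rfl
  comp Φ Φ' m hΦ hΦ' x := by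
    ext i
    rw [pb_apply, pb_apply]
    simp only [pb_apply]
    have h1 : ∀ j, pd i Φ x j * ∑ k, pd j Φ' (Φ x) k * m (Φ' (Φ x)) k =
        ∑ k, pd i Φ x j * pd j Φ' (Φ x) k * m (Φ' (Φ x)) k := by
      intro j
      rw [Finset.mul_sum]
      exact Finset.sum_congr rfl fun k _ => by ring
    rw [Finset.sum_congr rfl fun j _ => h1 j, Finset.sum_comm]
    refine Finset.sum_congr rfl fun k _ => ?_
    rw [← Finset.sum_mul, PDC.pd_comp_apply (smc hΦ' hΦ), pd_comp_c hΦ' hΦ]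
  id m x := by
    ext i
    have h1 : ∀ j, pd i (fun y : E => y) x j = if j = i then 1 else 0 := by
      intro j
      have : pd i (fun y : E => y) x = eb i := by
        unfold pd
        have h2 : HasFDerivAt (fun y : E => y) (ContinuousLinearMap.id ℝ E) x := hasFDerivAt_id x
        rw [h2.fderiv]
        rfl
      rw [this, eb_apply]
    rw [pb_apply]
    simp [h1]
  cr R Φ Ψ m b h hm x := cr_pb h hm x
  lie b m hb hm x := by
    ext i
    rw [lie_apply, PiLp.add_apply, cr_curl, gr_apply]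
    have h1 : (fun y => inner ℝ (b y) (m y)) = fun y => ∑ j, b y j * m y j := by
      funext y
      exact inner_eq _ _
    rw [h1, PDC.pd_sum (fun j _ => ((hb.comp_apply j).mul (hm.comp_apply j)).differentiable
      (by simp) x), ← Finset.sum_add_distrib]
    refine Finset.sum_congr rfl fun j _ => ?_
    rw [PDC.pd_mul ((hb.comp_apply j).differentiable x) ((hm.comp_apply j).differentiable x),
      ← PDC.pd_comp_apply hm, ← PDC.pd_comp_apply hb]
    ring
  dif R Φ Ψ h := dif_symm h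

end MPfab
end

section
/-!
MP_fabde4_an, part M, module PBB: the pull-backs are bounded operators.
-/
set_option autoImplicit false
open MeasureTheory Set Filter Topology

namespace MPfab

namespace PbbM

theorem pb_smooth {Φ m : E → E} (hΦ : Sm Φ) (hm : Sm m) : Sm (pb Φ m) := by
  refine contDiff_euclidean.mpr fun i => ?_
  show Sm fun x => ∑ j, pd i Φ x j * m (Φ x) j
  refine ContDiff.sum fun j _ => ?_
  exact ((hΦ.pd i).comp_apply j).mul (Sm.comp_apply (w := fun x => m (Φ x)) (hm.comp hΦ) j)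

theorem pb_in {R : ℝ} {Φ Ψ m : E → E} (h : Dif R Φ Ψ) (hm : In R m) : In R (pb Φ m) := by
  refine ⟨pb_smooth h.smooth hm.smooth, fun x hx => ?_⟩
  ext i
  show ∑ j, pd i Φ x j * m (Φ x) j = 0
  rw [h.out x hx, hm.supp x hx]
  simp

theorem pv_eq (Φ Ψ b : E → E) (x : E) :
    pv Φ Ψ b x = ∑ j, b (Φ x) j • pd j Ψ (Φ x) := by
  unfold pv
  rw [fderiv_eq_sum]

theorem pd_pb {Φ m : E → E} (hΦ : Sm Φ) (hm : Sm m) (i j : Fin 3) (x : E) :
    pd j (pb Φ m) x i = ∑ a, (pd i Φ x a * (∑ b, pd j Φ x b * pd b m (Φ x) a) +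
      pd j (pd i Φ) x a * m (Φ x) a) := by
  rw [PDC.pd_comp_apply (pb_smooth hΦ hm)]
  show pd j (fun y => ∑ a, pd i Φ y a * m (Φ y) a) x = _
  have h1 : ∀ a, Sm fun y => pd i Φ y a := fun a => (hΦ.pd i).comp_apply a
  have h2 : ∀ a, Sm fun y => m (Φ y) a := fun a =>
    Sm.comp_apply (w := fun x => m (Φ x)) (hm.comp hΦ) a
  rw [PDC.pd_sum fun a _ => ((h1 a).mul (h2 a)).differentiable (by simp) x]
  refine Finset.sum_congr rfl fun a _ => ?_
  rw [PDC.pd_mul ((h1 a).differentiable x) ((h2 a).differentiable x),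
    HcompM.pd_compΦ hΦ (f := fun y => m y a) (hm.comp_apply a)]
  congr 1
  · congr 1
    refine Finset.sum_congr rfl fun b _ => ?_
    rw [PDC.pd_comp_apply hm]
    rfl
  · rw [PDC.pd_comp_apply (hΦ.pd i)]

/-- the curl of a pull-back -/
theorem curl_pb {Φ m : E → E} (hΦ : Sm Φ) (hm : Sm m) (x : E) (i : Fin 3) :
    curl (pb Φ m) x i = ∑ d, cr (pd (i + 1) Φ x) (pd (i + 2) Φ x) d * curl m (Φ x) d := by
  have hc : ∀ i j : Fin 3, ∀ a, pd i (pd j Φ) x a = pd j (pd i Φ) x a := fun i j a => by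
    rw [PDC.pd_comm hΦ i j]
  fin_cases i
  · show curl (pb Φ m) x 0 = ∑ d, cr (pd 1 Φ x) (pd 2 Φ x) d * curl m (Φ x) d
    rw [curl_apply0, pd_pb hΦ hm, pd_pb hΦ hm]
    simp only [Fin.sum_univ_three, curl_apply0, curl_apply1, curl_apply2, cr_apply0, cr_apply1,
      cr_apply2, hc 2 1]
    ring
  · show curl (pb Φ m) x 1 = ∑ d, cr (pd 2 Φ x) (pd 0 Φ x) d * curl m (Φ x) d
    rw [curl_apply1, pd_pb hΦ hm, pd_pb hΦ hm]
    simp only [Fin.sum_univ_three, curl_apply0, curl_apply1, curl_apply2, cr_apply0, cr_apply1,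
      cr_apply2, hc 2 0]
    ring
  · show curl (pb Φ m) x 2 = ∑ d, cr (pd 0 Φ x) (pd 1 Φ x) d * curl m (Φ x) d
    rw [curl_apply2, pd_pb hΦ hm, pd_pb hΦ hm]
    simp only [Fin.sum_univ_three, curl_apply0, curl_apply1, curl_apply2, cr_apply0, cr_apply1,
      cr_apply2, hc 1 0]
    ring

theorem bd_sub {F : Type*} [NormedAddCommGroup F] [NormedSpace ℝ F] {S : Set E} {k : ℕ}
    {f g : E → F} {c c' : ℝ} (hf : Sm f) (hg : Sm g) (h : Bd S k f c) (h' : Bd S k g c') :
    Bd S k (fun x => f x - g x) (c + c') := by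
  intro L hL x hx
  have e : ∀ L : List (Fin 3), pds L (fun x => f x - g x) = fun x => pds L f x - pds L g x := by
    intro L
    induction L with
    | nil => rfl
    | cons i L ih =>
      funext x
      show pd i (pds L (fun x => f x - g x)) x = pd i (pds L f) x - pd i (pds L g) x
      rw [ih]
      exact PDC.pd_sub ((PDC.pds_smooth hf L).differentiable x)
        ((PDC.pds_smooth hg L).differentiable x) i
  rw [e]
  exact (norm_sub_le _ _).trans (add_le_add (h L hL x hx) (h' L hL x hx))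

/-- the coefficients in the formula for the curl are bounded -/
theorem bd_cr (hC : SpecCmul) (k : ℕ) : ∃ C : ℝ, 0 ≤ C ∧ ∀ (K : ℝ) (u v : E → E), Sm u → Sm v →
    (∀ j, Bd univ k (fun x => u x j) K) → (∀ j, Bd univ k (fun x => v x j) K) →
    ∀ d, Bd univ k (fun x => cr (u x) (v x) d) (C * K ^ 2) := by
  obtain ⟨C, hC0, H⟩ := hC k
  refine ⟨2 * C, by positivity, ?_⟩
  intro K u v hu hv bu bv d
  have h1 : ∀ i j, Bd univ k (fun x => u x i * v x j) (C * K * K) := fun i j =>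
    H ℝ (fun x => u x i) (fun x => v x j) K K (hu.comp_apply i) (hv.comp_apply j) (bu i) (bv j)
  have h2 : ∀ i j, Sm fun x => u x i * v x j := fun i j => (hu.comp_apply i).mul (hv.comp_apply j)
  have e : 2 * C * K ^ 2 = C * K * K + C * K * K := by ring
  rw [e]
  fin_cases d
  · exact bd_sub (h2 1 2) (h2 2 1) (h1 1 2) (h1 2 1)
  · exact bd_sub (h2 2 0) (h2 0 2) (h1 2 0) (h1 0 2)
  · exact bd_sub (h2 0 1) (h2 1 0) (h1 0 1) (h1 1 0)

/-- linear combinations with bounded coefficients -/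
theorem hs_lin (k : ℕ) : ∃ C : ℝ, 0 ≤ C ∧ ∀ (F : Type) [NormedAddCommGroup F] [NormedSpace ℝ F]
    (R c : ℝ) (a : Fin 3 → E → ℝ) (f : Fin 3 → E → F), (∀ j, Sm (a j)) →
    (∀ j, Bd univ k (a j) c) → (∀ j, In R (f j)) →
    hs univ k (fun x => ∑ j, a j x • f j x) ≤ C * c ^ 2 * ∑ j, hs univ k (f j) := by
  obtain ⟨C, hC, H⟩ := HmulM.mul_le k
  refine ⟨4 * C, by positivity, ?_⟩
  intro F _ _ R c a f ha hb hf
  have hin : ∀ j, In R (fun x => a j x • f j x) := fun j => HcompM.in_smul (ha j) (hf j)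
  refine (HcompM.hs_sum3 k (g := fun j x => a j x • f j x) (fun j => (hin j).smooth)
    (fun j => HmulM.hcs_of_in (hin j))).trans ?_
  have h5 := Finset.sum_le_sum fun j (_ : j ∈ Finset.univ) =>
    H F (a j) (f j) c (ha j) (hb j) (hf j).smooth (HmulM.hcs_of_in (hf j))
  rw [← Finset.mul_sum] at h5
  calc 4 * ∑ j, hs univ k (fun x => a j x • f j x) ≤
      4 * (C * c ^ 2 * ∑ j, hs univ k (f j)) := mul_le_mul_of_nonneg_left h5 (by norm_num)
    _ = _ := by ring

theorem in_comp_apply {R : ℝ} {m : E → E} (h : In R m) (j : Fin 3) : In R (fun x => m x j) :=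
  ⟨h.smooth.comp_apply j, fun x hx => by
    show m x j = 0
    rw [h.supp x hx]; rfl⟩

theorem curl_in {R : ℝ} {m : E → E} (h : In R m) : In R (curl m) := by
  refine ⟨h.smooth.curl, fun x hx => ?_⟩
  have h1 : ∀ i, pd i m x = 0 := fun i => (HcompM.in_pd h i).supp x hx
  ext i
  fin_cases i
  · show pd 1 m x 2 - pd 2 m x 1 = 0
    rw [h1, h1]; simp
  · show pd 2 m x 0 - pd 0 m x 2 = 0
    rw [h1, h1]; simp
  · show pd 0 m x 1 - pd 1 m x 0 = 0
    rw [h1, h1]; simp

/-- first estimate: `curl` part -/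
theorem curl_le (hC : SpecCmul) (R : ℝ) (k : ℕ) (K : ℝ) : ∃ C : ℝ, 0 ≤ C ∧
    ∀ Φ Ψ : E → E, Dif R Φ Ψ → DB (k + 2) K Φ → DB (k + 2) K Ψ → ∀ m, In R m →
      hs univ k (curl (pb Φ m)) ≤ C * hs univ k (curl m) := by
  obtain ⟨C1, hC1, H1⟩ := hs_lin k
  obtain ⟨C2, hC2, H2⟩ := HcompM.comp_le R k K
  obtain ⟨C3, hC3, H3⟩ := bd_cr hC k
  refine ⟨3 * (C1 * (C3 * K ^ 2) ^ 2) * C2, by positivity, ?_⟩
  intro Φ Ψ h hΦ hΨ m hm
  have hcin := curl_in hm
  have hcin' := curl_in (pb_in h hm)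
  have h1 : DB (k + 1) K Φ := HcompM.db_mono hΦ (by omega)
  have h2 : DB (max k 1) K Φ := HcompM.db_mono hΦ (by omega)
  have h3 : DB 1 K Ψ := HcompM.db_mono hΨ (by omega)
  rw [HSB.comp k (curl (pb Φ m)) (Or.inr (HmulM.hcs_of_in hcin')) hcin'.smooth]
  have b1 : ∀ i : Fin 3, hs univ k (fun x => curl (pb Φ m) x i) ≤
      C1 * (C3 * K ^ 2) ^ 2 * (C2 * hs univ k (curl m)) := by
    intro i
    have e : (fun x => curl (pb Φ m) x i) = fun x => ∑ d,
        (cr (pd (i + 1) Φ x) (pd (i + 2) Φ x) d) • (curl m (Φ x) d) := by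
      funext x
      exact curl_pb h.smooth hm.smooth x i
    rw [e]
    have hd : ∀ d, In R fun x => curl m (Φ x) d := fun d =>
      HcompM.in_comp (f := fun y => curl m y d) h (in_comp_apply hcin d)
    refine (H1 ℝ R (C3 * K ^ 2) (fun d x => cr (pd (i + 1) Φ x) (pd (i + 2) Φ x) d)
      (fun d x => curl m (Φ x) d) (fun d => ?_) (fun d => ?_) hd).trans ?_
    · exact (Sm.cr (h.smooth.pd _) (h.smooth.pd _)).comp_apply d
    · exact H3 K (pd (i + 1) Φ) (pd (i + 2) Φ) (h.smooth.pd _) (h.smooth.pd _)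
        (fun j => HcompM.bd_coef h.smooth h1 _ j) (fun j => HcompM.bd_coef h.smooth h1 _ j) d
    · refine mul_le_mul_of_nonneg_left ?_ (by positivity)
      rw [HSB.comp k (curl m) (Or.inr (HmulM.hcs_of_in hcin)) hcin.smooth, Finset.mul_sum]
      exact Finset.sum_le_sum fun d _ => H2 Φ Ψ h h2 h3 ℝ (fun y => curl m y d)
        (in_comp_apply hcin d)
  have b2 := Finset.sum_le_sum fun i (_ : i ∈ Finset.univ) => b1 i
  rw [Finset.sum_const, Finset.card_univ, Fintype.card_fin, nsmul_eq_mul] at b2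
  push_cast at b2
  refine b2.trans (le_of_eq ?_)
  ring

/-- second estimate: the function itself -/
theorem zero_le (R : ℝ) (K : ℝ) : ∃ C : ℝ, 0 ≤ C ∧
    ∀ Φ Ψ : E → E, Dif R Φ Ψ → DB 1 K Φ → DB 1 K Ψ → ∀ m, In R m →
      hs univ 0 (pb Φ m) ≤ C * hs univ 0 m := by
  obtain ⟨C1, hC1, H1⟩ := hs_lin 0
  obtain ⟨C2, hC2, H2⟩ := HcompM.comp_le R 0 K
  refine ⟨3 * (C1 * K ^ 2) * C2, by positivity, ?_⟩
  intro Φ Ψ h hΦ hΨ m hm
  have hin := pb_in h hm
  rw [HSB.comp 0 (pb Φ m) (Or.inr (HmulM.hcs_of_in hin)) hin.smooth]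
  have b1 : ∀ i : Fin 3, hs univ 0 (fun x => pb Φ m x i) ≤
      C1 * K ^ 2 * (C2 * hs univ 0 m) := by
    intro i
    have e : (fun x => pb Φ m x i) = fun x => ∑ d, (pd i Φ x d) • (m (Φ x) d) := by
      funext x
      rfl
    rw [e]
    have hd : ∀ d, In R fun x => m (Φ x) d := fun d =>
      HcompM.in_comp (f := fun y => m y d) h (in_comp_apply hm d)
    refine (H1 ℝ R K (fun d x => pd i Φ x d) (fun d x => m (Φ x) d)
      (fun d => (h.smooth.pd i).comp_apply d)
      (fun d => HcompM.bd_coef h.smooth (HcompM.db_mono hΦ le_rfl) i d) hd).trans ?_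
    refine mul_le_mul_of_nonneg_left ?_ (by positivity)
    rw [HSB.comp 0 m (Or.inr (HmulM.hcs_of_in hm)) hm.smooth, Finset.mul_sum]
    exact Finset.sum_le_sum fun d _ => H2 Φ Ψ h hΦ hΨ ℝ (fun y => m y d)
      (in_comp_apply hm d)
  have b2 := Finset.sum_le_sum fun i (_ : i ∈ Finset.univ) => b1 i
  rw [Finset.sum_const, Finset.card_univ, Fintype.card_fin, nsmul_eq_mul] at b2
  push_cast at b2
  refine b2.trans (le_of_eq ?_)
  ring

/-- third estimate: pull-back of vector fields -/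
theorem pv_le (R : ℝ) (k : ℕ) (K : ℝ) : ∃ C : ℝ, 0 ≤ C ∧
    ∀ Φ Ψ : E → E, Dif R Φ Ψ → DB (k + 1) K Φ → DB (k + 2) K Ψ → ∀ b, In R b →
      hs univ (k + 1) (pv Φ Ψ b) ≤ C * hs univ (k + 1) b := by
  obtain ⟨C1, hC1, H1⟩ := hs_lin (k + 1)
  obtain ⟨C2, hC2, H2⟩ := HcompM.comp_le R (k + 1) K
  refine ⟨C2 * (3 * (C1 * K ^ 2)), by positivity, ?_⟩
  intro Φ Ψ h hΦ hΨ b hb
  have hg0 : Sm fun y => ∑ j, b y j • pd j Ψ y :=
    ContDiff.sum fun j _ => (hb.smooth.comp_apply j).smul (h.smoothi.pd j)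
  have hg : In R fun y => ∑ j, b y j • pd j Ψ y := by
    refine ⟨hg0, fun x hx => ?_⟩
    show ∑ j, b x j • pd j Ψ x = 0
    rw [hb.supp x hx]
    simp
  have e : pv Φ Ψ b = fun x => (fun y => ∑ j, b y j • pd j Ψ y) (Φ x) := by
    funext x
    exact pv_eq Φ Ψ b x
  rw [e]
  refine (H2 Φ Ψ h (HcompM.db_mono hΦ (by omega)) (HcompM.db_mono hΨ (by omega)) E _ hg).trans ?_
  rw [mul_assoc]
  refine mul_le_mul_of_nonneg_left ?_ hC2
  rw [HSB.comp (k + 1) _ (Or.inr (HmulM.hcs_of_in hg)) hg.smooth]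
  have b1 : ∀ i : Fin 3, hs univ (k + 1) (fun x => (∑ j, b x j • pd j Ψ x) i) ≤
      C1 * K ^ 2 * hs univ (k + 1) b := by
    intro i
    have e : (fun x => (∑ j, b x j • pd j Ψ x) i) = fun x => ∑ j, (pd j Ψ x i) • (b x j) := by
      funext x
      simp [mul_comm]
    rw [e]
    refine (H1 ℝ R K (fun j x => pd j Ψ x i) (fun j x => b x j)
      (fun j => (h.smoothi.pd j).comp_apply i)
      (fun j => HcompM.bd_coef h.smoothi (HcompM.db_mono hΨ le_rfl) j i)
      (fun j => in_comp_apply hb j)).trans ?_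
    rw [HSB.comp (k + 1) b (Or.inr (HmulM.hcs_of_in hb)) hb.smooth]
  have b2 := Finset.sum_le_sum fun i (_ : i ∈ Finset.univ) => b1 i
  rw [Finset.sum_const, Finset.card_univ, Fintype.card_fin, nsmul_eq_mul] at b2
  push_cast at b2
  refine b2.trans (le_of_eq ?_)
  ring

end PbbM

/-- module PBB -/
theorem specPbb (hC : SpecCmul) : SpecPbb := by
  intro R k K
  obtain ⟨C1, hC1, H1⟩ := PbbM.curl_le hC R k K
  obtain ⟨C2, hC2, H2⟩ := PbbM.zero_le R K
  obtain ⟨C3, hC3, H3⟩ := PbbM.pv_le R k K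
  refine ⟨√(C1 + C2 + C3), Real.sqrt_nonneg _, ?_⟩
  intro Φ Ψ h hΦ hΨ
  refine ⟨fun m hm => ?_, fun b hb => ?_⟩
  · rw [← Real.sqrt_mul (by positivity)]
    refine Real.sqrt_le_sqrt ?_
    unfold nq
    have a1 := H1 Φ Ψ h hΦ hΨ m hm
    have a2 := H2 Φ Ψ h (HcompM.db_mono hΦ (by omega)) (HcompM.db_mono hΨ (by omega)) m hm
    have a3 := HSB.nonneg univ k (curl m)
    have a4 := HSB.nonneg univ 0 m
    nlinarith [mul_nonneg hC1 a4, mul_nonneg hC2 a3, mul_nonneg hC3 a3, mul_nonneg hC3 a4]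
  · rw [← Real.sqrt_mul (by positivity)]
    refine Real.sqrt_le_sqrt ?_
    have a1 := H3 Φ Ψ h (HcompM.db_mono hΦ (by omega)) hΨ b hb
    have a3 := HSB.nonneg univ (k + 1) b
    nlinarith [mul_nonneg hC1 a3, mul_nonneg hC2 a3]

end MPfab
end

section
/-!
MP_fabde4_an, module WFREP: repetition of a word.
-/
set_option autoImplicit false
open MeasureTheory Set Filter Topology

namespace MPfab

namespace WfrepM

open WflM

theorem shift {R : ℝ} {c Θ Θi : ℝ × E → E} (n : ℝ) (hn : 0 ≤ n) (h : WF R c Θ Θi)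
    (hc : ∀ s x, (s ≤ 0 ∨ 1 ≤ s) → c (s, x) = 0) :
    WF R (fun p => c (p.1 - n, p.2)) (fun p => Θ (p.1 - n, p.2)) fun p => Θi (p.1 - n, p.2) := by
  have hsh : Sm (fun p : ℝ × E => (p.1 - n, p.2)) := (contDiff_fst.sub contDiff_const).prodMk
    contDiff_snd
  refine ⟨⟨h.field.smooth.comp hsh, fun t x hx => h.field.supp _ x hx⟩, h.smooth.comp hsh,
    h.smoothi.comp hsh, fun x => ?_, fun s x => ?_, fun s x => h.left _ x, fun s x => h.right _ x,
    fun s x hx => h.out _ x hx⟩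
  · exact wid h le_rfl (fun s x hs => hc s x (Or.inl hs)) (by linarith) x
  · have h1 := (h.deriv (s - n) x).scomp s ((hasDerivAt_id s).sub_const n)
    rw [one_smul] at h1
    exact h1

end WfrepM

open WflM WfrepM in
/-- WFREP -/
theorem specWfrep : SpecWfrep := by
  intro R c Θ Θi n h hc
  induction n with
  | zero =>
    refine ⟨fun p => p.2, fun p => p.2, ?_, ?_, ?_⟩
    · refine ⟨⟨?_, ?_⟩, contDiff_snd, contDiff_snd, fun x => rfl, fun s x => ?_, fun s x => rfl,
        fun s x => rfl, fun s x _ => rfl⟩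
      · simp only [Finset.range_zero, Finset.sum_empty]
        exact contDiff_const
      · intro t x _
        simp
      · simp only [Finset.range_zero, Finset.sum_empty]
        exact hasDerivAt_const s x
    · intro k x hk
      have : k = 0 := by omega
      subst this
      exact ⟨rfl, rfl⟩
    · intro k s x hk
      omega
  | succ n ih =>
    obtain ⟨ΘN, ΘNi, hN, hv, hm⟩ := ih
    have hn0 : (0 : ℝ) ≤ n := Nat.cast_nonneg n
    have hs := shift (n : ℝ) hn0 h hc
    have z1 : ∀ s x, (n : ℝ) ≤ s → ∑ k ∈ Finset.range n, c (s - (k : ℝ), x) = 0 := by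
      intro s x hsn
      refine Finset.sum_eq_zero fun k hk => hc _ _ (Or.inr ?_)
      rw [Finset.mem_range] at hk
      have : (k : ℝ) + 1 ≤ n := by exact_mod_cast hk
      linarith
    have z2 : ∀ s x, s ≤ (n : ℝ) → c (s - (n : ℝ), x) = 0 := fun s x hsn =>
      hc _ _ (Or.inl (by linarith))
    have hcat := specWfl.cat R n _ ΘN ΘNi _ _ _ hN hs hn0 z1 z2
    have idm : ∀ s x, s ≤ 0 → Θ (s, x) = x := fun s x hs' =>
      wid h le_rfl (fun s x hs => hc s x (Or.inl hs)) hs' x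
    have idi : ∀ s x, s ≤ 0 → Θi (s, x) = x := fun s x hs' =>
      winvid h le_rfl (fun s x hs => hc s x (Or.inl hs)) hs' x
    have hNc : ∀ s x, (n : ℝ) ≤ s → ΘN (s, x) = ΘN (n, x) := fun s x hsn =>
      wconst hN hsn (fun r y h1 _ => z1 r y h1) x
    have hNic : ∀ s x, (n : ℝ) ≤ s → ΘNi (s, x) = ΘNi (n, x) := fun s x hsn =>
      inv_eq hN (fun y => hNc s y hsn) x
    refine ⟨fun p => Θ (p.1 - n, ΘN p), fun p => ΘNi (p.1, Θi (p.1 - n, p.2)), ?_, ?_, ?_⟩
    · have e : (fun p : ℝ × E => ∑ k ∈ Finset.range (n + 1), c (p.1 - (k : ℝ), p.2)) =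
          fun p => (∑ k ∈ Finset.range n, c (p.1 - (k : ℝ), p.2)) + c (p.1 - (n : ℝ), p.2) := by
        funext p
        exact Finset.sum_range_succ _ _
      rw [e]
      exact hcat
    · intro k x hk
      rcases Nat.lt_or_ge n k with hk' | hk'
      · have : k = n + 1 := by omega
        subst this
        have e1 : ((n + 1 : ℕ) : ℝ) - n = 1 := by push_cast; ring
        have e2 : (n : ℝ) ≤ ((n + 1 : ℕ) : ℝ) := by push_cast; linarith
        simp only
        rw [e1]
        refine ⟨?_, ?_⟩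
        · rw [hNc _ _ e2, (hv n x le_rfl).1, Function.iterate_succ_apply']
        · rw [hNic _ _ e2, (hv n _ le_rfl).2, Function.iterate_succ_apply]
      · have e1 : (k : ℝ) - n ≤ 0 := by
          have : (k : ℝ) ≤ n := by exact_mod_cast hk'
          linarith
        simp only
        rw [idm _ _ e1, idi _ _ e1]
        exact hv k x hk'
    · intro k s x hk hs0 hs1
      simp only
      rcases Nat.lt_or_ge k n with hk' | hk'
      · have e1 : (k : ℝ) + s - n ≤ 0 := by
          have : (k : ℝ) + 1 ≤ n := by exact_mod_cast hk'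
          linarith
        rw [idm _ _ e1]
        exact hm k s x hk' hs0 hs1
      · have : k = n := by omega
        subst this
        rw [hNc _ _ (by linarith), (hv k x le_rfl).1, add_sub_cancel_left]

end MPfab
end

section
/-!
MP_fabde4_an, part N: module CYC (cycles: displacement, then loops).
-/
set_option autoImplicit false
open MeasureTheory Set

namespace MPfab

namespace CycN

variable {Cl : (E → E) → Prop}

theorem word_zero : Word Cl (fun _ => 0) :=
  ⟨0, fun i => i.elim0, fun i => i.elim0, fun i => i.elim0, fun i => i.elim0, fun p => by simp⟩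

theorem word_add {c c' : ℝ × E → E} (h : Word Cl c) (h' : Word Cl c') :
    Word Cl (fun p => c p + c' p) := by
  obtain ⟨N, lam, X, h1, h2, h3⟩ := h
  obtain ⟨N', lam', X', h1', h2', h3'⟩ := h'
  refine ⟨N + N', Fin.append lam lam', Fin.append X X', ?_, ?_, ?_⟩
  · intro i
    refine Fin.addCases (fun i => ?_) (fun i => ?_) i
    · rw [Fin.append_left]; exact h1 i
    · rw [Fin.append_right]; exact h1' i
  · intro i
    refine Fin.addCases (fun i => ?_) (fun i => ?_) i
    · rw [Fin.append_left]; exact h2 i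
    · rw [Fin.append_right]; exact h2' i
  · intro p
    rw [Fin.sum_univ_add]
    simp only [Fin.append_left, Fin.append_right]
    rw [h3, h3']

theorem word_shift {c : ℝ × E → E} (h : Word Cl c) (a : ℝ) :
    Word Cl (fun p => c (p.1 - a, p.2)) := by
  obtain ⟨N, lam, X, h1, h2, h3⟩ := h
  refine ⟨N, fun i t => lam i (t - a), X, fun i => ?_, h2, fun p => h3 _⟩
  exact (h1 i).comp (contDiff_id.sub contDiff_const)

theorem word_sum {c : ℝ × E → E} (h : Word Cl c) (n : ℕ) :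
    Word Cl (fun p => ∑ k ∈ Finset.range n, c (p.1 - (k : ℝ), p.2)) := by
  induction n with
  | zero =>
    simp only [Finset.range_zero, Finset.sum_empty]
    exact word_zero
  | succ n ih =>
    simp only [Finset.sum_range_succ]
    exact word_add ih (word_shift h n)

end CycN

open CycN in
/-- module CYC -/
theorem specCyc : SpecCyc := by
  intro Cl R w φ φi β βi c Θ Θi B hD hw hWF hc hΘ1 r n
  obtain ⟨Θw, Θwi, hWw, hval⟩ := hD.flow r
  have hws := hD.supp r
  have hcat := specWfl.cat R (1 / 2) (w r) Θw Θwi c Θ Θi hWw hWF (by norm_num)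
    (fun s x hs => hws s x (Or.inr hs)) (fun s x hs => hc s x (Or.inl hs))
  set c1 : ℝ × E → E := fun p => w r p + c p with hc1
  have hc1s : ∀ s x, (s ≤ 0 ∨ 1 ≤ s) → c1 (s, x) = 0 := by
    intro s x hs
    have h1 : w r (s, x) = 0 := hws s x (by
      rcases hs with h | h
      · exact Or.inl h
      · exact Or.inr (by linarith))
    have h2 : c (s, x) = 0 := hc s x (by
      rcases hs with h | h
      · exact Or.inl (by linarith)
      · exact Or.inr h)
    show w r (s, x) + c (s, x) = 0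
    rw [h1, h2, add_zero]
  obtain ⟨ΘN, ΘNi, hN, hv, hm⟩ := specWfrep R c1 _ _ n hcat hc1s
  have hΘi1 : ∀ x, Θi (1, x) = x := by
    intro x
    have h1 := hWF.left 1 x
    rwa [hΘ1] at h1
  have e1 : (fun y => Θ (1, Θw (1, y))) = fun y => φ (r, y) := by
    funext y
    rw [hΘ1, (hval 1 y (by norm_num)).1]
  have e2 : (fun y => Θwi (1, Θi (1, y))) = fun y => φi (r, y) := by
    funext y
    rw [hΘi1, (hval 1 y (by norm_num)).2]
  refine ⟨fun p => ∑ k ∈ Finset.range n, c1 (p.1 - (k : ℝ), p.2), ΘN, ΘNi,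
    word_sum (word_add (hD.word r) hw) n, hN, ?_, ?_⟩
  · intro k x hk
    have h1 := hv k x hk
    simp only [e1, e2] at h1
    exact h1
  · intro k s x hk hs1 hs2
    have h1 := hm k s x hk (by linarith) hs2
    simp only [e1] at h1
    rw [h1, Function.iterate_succ_apply', (hval s _ hs1).1]

end MPfab
end

section
/-!
MP_fabde4_an, part N, module RESET (helper39): loops of control flows which bring every point of a
compact set into the control region.
-/
set_option autoImplicit false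
open MeasureTheory Set Filter Topology
open scoped Manifold ContDiff

namespace MPfab

namespace ResetN

theorem word_zero (Cl : (E → E) → Prop) : Word Cl (fun _ => 0) :=
  ⟨0, fun i => i.elim0, fun i => i.elim0, fun i => i.elim0, fun i => i.elim0, fun p => by simp⟩

theorem word_add {Cl : (E → E) → Prop} {c d : ℝ × E → E} (hc : Word Cl c) (hd : Word Cl d) :
    Word Cl (fun p => c p + d p) := by
  obtain ⟨N, l, X, h1, h2, h3⟩ := hc
  obtain ⟨M, m, Y, g1, g2, g3⟩ := hd
  refine ⟨N + M, Fin.append l m, Fin.append X Y, fun i => ?_, fun i => ?_, fun p => ?_⟩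
  · refine Fin.addCases (fun i => ?_) (fun i => ?_) i
    · rw [Fin.append_left]; exact h1 i
    · rw [Fin.append_right]; exact g1 i
  · refine Fin.addCases (fun i => ?_) (fun i => ?_) i
    · rw [Fin.append_left]; exact h2 i
    · rw [Fin.append_right]; exact g2 i
  · simp only [Fin.sum_univ_add, h3, g3, Fin.append_left, Fin.append_right]

theorem word_one {Cl : (E → E) → Prop} {X : E → E} (hX : Cl X) {l : ℝ → ℝ} (hl : Sm l) :
    Word Cl (fun p => l p.1 • X p.2) :=
  ⟨1, fun _ => l, fun _ => X, fun _ => hl, fun _ => hX, fun p => by simp⟩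

/-- a word supported in the time interval `[a,b]`, with its flow -/
structure Sg (Cl : (E → E) → Prop) (R a b : ℝ) (c Θ Θi : ℝ × E → E) : Prop where
  word : Word Cl c
  wf : WF R c Θ Θi
  zl : ∀ s x, s ≤ a → c (s, x) = 0
  zr : ∀ s x, b ≤ s → c (s, x) = 0

theorem Sg.left {Cl : (E → E) → Prop} {R a b : ℝ} {c Θ Θi : ℝ × E → E} (h : Sg Cl R a b c Θ Θi)
    (ha : 0 ≤ a) {s : ℝ} (hs : s ≤ a) (x : E) : Θ (s, x) = x :=
  WflM.wid h.wf ha h.zl hs x

theorem Sg.right {Cl : (E → E) → Prop} {R a b : ℝ} {c Θ Θi : ℝ × E → E} (h : Sg Cl R a b c Θ Θi)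
    {s : ℝ} (hs : b ≤ s) (x : E) : Θ (s, x) = Θ (b, x) :=
  WflM.wconst h.wf hs (fun r y hr _ => h.zr r y hr) x

/-- the empty word -/
theorem sg_zero (Cl : (E → E) → Prop) (R a b : ℝ) :
    Sg Cl R a b (fun _ => 0) (fun p => p.2) (fun p => p.2) where
  word := word_zero Cl
  wf := ⟨⟨contDiff_const, fun _ _ _ => rfl⟩, contDiff_snd, contDiff_snd, fun _ => rfl,
    fun s x => hasDerivAt_const s x, fun _ _ => rfl, fun _ _ => rfl, fun _ _ _ => rfl⟩
  zl := fun _ _ _ => rfl
  zr := fun _ _ _ => rfl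

theorem Sg.cat {Cl : (E → E) → Prop} {R a b d : ℝ} {c1 Θ1 Θ1i c2 Θ2 Θ2i : ℝ × E → E}
    (h1 : Sg Cl R a b c1 Θ1 Θ1i) (h2 : Sg Cl R b d c2 Θ2 Θ2i) (ha : 0 ≤ a) (hab : a ≤ b)
    (hbd : b ≤ d) : Sg Cl R a d (fun p => c1 p + c2 p) (fun p => Θ2 (p.1, Θ1 p))
      (fun p => Θ1i (p.1, Θ2i p)) where
  word := word_add h1.word h2.word
  wf := specWfl.cat R b c1 Θ1 Θ1i c2 Θ2 Θ2i h1.wf h2.wf (ha.trans hab) h1.zr h2.zl
  zl := fun s x hs => by
    rw [h1.zl s x hs, h2.zl s x (hs.trans hab), add_zero]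
  zr := fun s x hs => by
    rw [h1.zr s x (hbd.trans hs), h2.zr s x hs, add_zero]

/-- one flow, positive or negative -/
theorem sg_one {Cl : (E → E) → Prop} {R : ℝ} {X : E → E} {F : ℝ × E → E} (hCl : Cl X)
    (hX : In R X) (hF : IsFlow X F) (hout : ∀ s x, R ≤ ‖x‖ → F (s, x) = x) (e a b : ℝ)
    (ha : 0 ≤ a) (hab : a < b) :
    ∃ c Θ Θi : ℝ × E → E, Sg Cl R a b c Θ Θi ∧ ∀ x, Θ (b, x) = F (e, x) := by
  let γ : ℝ → ℝ := fun s => e * Real.smoothTransition ((s - a) / (b - a))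
  have hpos : 0 < b - a := sub_pos.mpr hab
  have hγ : Sm γ := by
    refine contDiff_const.mul (Real.smoothTransition.contDiff.comp ?_)
    exact (contDiff_id.sub contDiff_const).div_const _
  have hl : ∀ s, s ≤ a → γ s = 0 := by
    intro s hs
    simp only [γ]
    rw [Real.smoothTransition.zero_of_nonpos (div_nonpos_of_nonpos_of_nonneg (by linarith)
      hpos.le), mul_zero]
  have hr : ∀ s, b ≤ s → γ s = e := by
    intro s hs
    simp only [γ]
    rw [Real.smoothTransition.one_of_one_le ((one_le_div hpos).mpr (by linarith)), mul_one]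
  have hdl : ∀ s, s ≤ a → deriv γ s = 0 := by
    intro s hs
    have h1 : HasDerivWithinAt γ (deriv γ s) (Iic s) s :=
      (WflM.sm_hasDeriv hγ s).hasDerivWithinAt
    have h2 : HasDerivWithinAt γ 0 (Iic s) s :=
      (hasDerivWithinAt_const s (Iic s) (0 : ℝ)).congr (fun y hy => hl y (le_trans hy hs)) (hl s hs)
    exact UniqueDiffWithinAt.eq_deriv _ (uniqueDiffWithinAt_Iic s) h1 h2
  have hdr : ∀ s, b ≤ s → deriv γ s = 0 := by
    intro s hs
    have h1 : HasDerivWithinAt γ (deriv γ s) (Ici s) s :=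
      (WflM.sm_hasDeriv hγ s).hasDerivWithinAt
    have h2 : HasDerivWithinAt γ 0 (Ici s) s :=
      (hasDerivWithinAt_const s (Ici s) e).congr (fun y hy => hr y (le_trans hs hy)) (hr s hs)
    exact UniqueDiffWithinAt.eq_deriv _ (uniqueDiffWithinAt_Ici s) h1 h2
  refine ⟨_, _, _, ⟨word_one hCl (WflM.sm_deriv hγ), specWfl.one R X F γ hX hF hout hγ (hl 0 ha),
    ?_, ?_⟩, ?_⟩
  · intro s x hs
    simp only [hdl s hs, zero_smul]
  · intro s x hs
    simp only [hdr s hs, zero_smul]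
  · intro x
    simp only [hr b le_rfl]

section lists

variable {Cl : (E → E) → Prop} {R : ℝ} {Fl : (E → E) → ℝ × E → E} {X : (E → E) → E → E}

/-- the composition of the flows -/
noncomputable def comp (Fl : (E → E) → ℝ × E → E) (L : List (E → E)) (x : E) : E :=
  L.foldl (fun x Ψ => Fl Ψ (1, x)) x

theorem forward (L : List (E → E)) (h : ∀ Ψ ∈ L, Cl (X Ψ) ∧ In R (X Ψ) ∧ IsFlow (X Ψ) (Fl Ψ) ∧
    ∀ s x, R ≤ ‖x‖ → Fl Ψ (s, x) = x) : ∀ (a b : ℝ), 0 ≤ a → a < b →
    ∃ c Θ Θi : ℝ × E → E, Sg Cl R a b c Θ Θi ∧ ∀ x, Θ (b, x) = comp Fl L x := by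
  induction L with
  | nil =>
    intro a b _ _
    exact ⟨_, _, _, sg_zero Cl R a b, fun x => rfl⟩
  | cons Ψ L ih =>
    intro a b ha hab
    obtain ⟨h1, h2, h3, h4⟩ := h Ψ List.mem_cons_self
    obtain ⟨c1, Θ1, Θ1i, g1, e1⟩ := sg_one h1 h2 h3 h4 1 a ((a + b) / 2) ha (by linarith)
    obtain ⟨c2, Θ2, Θ2i, g2, e2⟩ := ih (fun Ψ' h' => h Ψ' (List.mem_cons_of_mem _ h'))
      ((a + b) / 2) b (by linarith) (by linarith)
    refine ⟨_, _, _, g1.cat g2 ha (by linarith) (by linarith), fun x => ?_⟩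
    simp only
    rw [e2, g1.right (by linarith), e1]
    rfl

theorem backward (L : List (E → E)) (h : ∀ Ψ ∈ L, Cl (X Ψ) ∧ In R (X Ψ) ∧ IsFlow (X Ψ) (Fl Ψ) ∧
    ∀ s x, R ≤ ‖x‖ → Fl Ψ (s, x) = x) : ∀ (a b : ℝ), 0 ≤ a → a < b →
    ∃ c Θ Θi : ℝ × E → E, Sg Cl R a b c Θ Θi ∧ ∀ x, Θ (b, comp Fl L x) = x := by
  induction L with
  | nil =>
    intro a b _ _
    exact ⟨_, _, _, sg_zero Cl R a b, fun x => rfl⟩
  | cons Ψ L ih =>
    intro a b ha hab
    obtain ⟨h1, h2, h3, h4⟩ := h Ψ List.mem_cons_self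
    obtain ⟨c1, Θ1, Θ1i, g1, e1⟩ := ih (fun Ψ' h' => h Ψ' (List.mem_cons_of_mem _ h'))
      a ((a + b) / 2) ha (by linarith)
    obtain ⟨c2, Θ2, Θ2i, g2, e2⟩ := sg_one h1 h2 h3 h4 (-1) ((a + b) / 2) b (by linarith)
      (by linarith)
    refine ⟨_, _, _, g1.cat g2 ha (by linarith) (by linarith), fun x => ?_⟩
    have e3 : comp Fl (Ψ :: L) x = comp Fl L (Fl Ψ (1, x)) := rfl
    simp only
    rw [e3, e2, g1.right (by linarith), e1, h3.group]
    norm_num
    exact h3.zero x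

/-- one slot: forward, pause, backward -/
theorem slot (L : List (E → E)) (h : ∀ Ψ ∈ L, Cl (X Ψ) ∧ In R (X Ψ) ∧ IsFlow (X Ψ) (Fl Ψ) ∧
    ∀ s x, R ≤ ‖x‖ → Fl Ψ (s, x) = x) (a b : ℝ) (ha : 0 ≤ a) (hab : a < b) :
    ∃ (c Θ Θi : ℝ × E → E) (s0 s1 : ℝ), Sg Cl R a b c Θ Θi ∧ (∀ x, Θ (b, x) = x) ∧ a < s0 ∧
      s0 < s1 ∧ s1 < b ∧ ∀ s x, s0 ≤ s → s ≤ s1 → Θ (s, x) = comp Fl L x := by
  have q1 : a < (2 * a + b) / 3 := by linarith
  have q2 : (2 * a + b) / 3 < (a + 2 * b) / 3 := by linarith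
  have q3 : (a + 2 * b) / 3 < b := by linarith
  obtain ⟨c1, Θ1, Θ1i, g1, e1⟩ := forward L h a ((2 * a + b) / 3) ha q1
  obtain ⟨c2, Θ2, Θ2i, g2, e2⟩ := backward L h ((a + 2 * b) / 3) b (by linarith) q3
  have g0 := sg_zero Cl R ((2 * a + b) / 3) ((a + 2 * b) / 3)
  have g3 := (g1.cat g0 ha q1.le q2.le).cat g2 ha (q1.trans q2).le q3.le
  refine ⟨_, _, _, (2 * a + b) / 3, (a + 2 * b) / 3, g3, fun x => ?_, q1, q2, q3,
    fun s x h1 h2 => ?_⟩
  · simp only
    rw [g1.right (by linarith), e1, e2]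
  · simp only
    rw [g2.left (by linarith) h2, g1.right h1, e1]

/-- all slots -/
theorem slots (Ls : ℕ → List (E → E)) (h : ∀ i, ∀ Ψ ∈ Ls i, Cl (X Ψ) ∧ In R (X Ψ) ∧
    IsFlow (X Ψ) (Fl Ψ) ∧ ∀ s x, R ≤ ‖x‖ → Fl Ψ (s, x) = x) (n : ℕ) : ∀ (a b : ℝ), 0 ≤ a →
    a < b → ∃ (c Θ Θi : ℝ × E → E) (s0 s1 : ℕ → ℝ), Sg Cl R a b c Θ Θi ∧ (∀ x, Θ (b, x) = x) ∧
      ∀ j, j < n → a < s0 j ∧ s0 j < s1 j ∧ s1 j < b ∧
        ∀ s x, s0 j ≤ s → s ≤ s1 j → Θ (s, x) = comp Fl (Ls j) x := by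
  induction n with
  | zero =>
    intro a b _ _
    exact ⟨_, _, _, fun _ => 0, fun _ => 0, sg_zero Cl R a b, fun x => rfl, fun j hj =>
      absurd hj (Nat.not_lt_zero j)⟩
  | succ n ih =>
    intro a b ha hab
    have q1 : a < (a + b) / 2 := by linarith
    have q2 : (a + b) / 2 < b := by linarith
    obtain ⟨c1, Θ1, Θ1i, s0, s1, g1, e1, f1⟩ := ih a ((a + b) / 2) ha q1
    obtain ⟨c2, Θ2, Θ2i, r0, r1, g2, e2, u1, u2, u3, u4⟩ := slot (Ls n) (h n) ((a + b) / 2) b
      (by linarith) q2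
    refine ⟨_, _, _, fun j => if j < n then s0 j else r0, fun j => if j < n then s1 j else r1,
      g1.cat g2 ha q1.le q2.le, fun x => ?_, fun j hj => ?_⟩
    · simp only
      rw [g1.right q2.le, e1, e2]
    · by_cases hjn : j < n
      · obtain ⟨v1, v2, v3, v4⟩ := f1 j hjn
        simp only [hjn, if_true]
        refine ⟨v1, v2, v3.trans q2, fun s x w1 w2 => ?_⟩
        rw [v4 s x w1 w2, g2.left (by linarith) (by linarith)]
      · have hj' : j = n := by omega
        subst hj'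
        simp only [lt_irrefl, if_false]
        refine ⟨by linarith, u2, u3, fun s x w1 w2 => ?_⟩
        rw [g1.right (by linarith), e1, u4 s x w1 w2]

end lists

/-- smooth partition of unity on a compact set, subordinate to finitely many bounded open sets -/
theorem partition {J : ℕ} {K : Set E} (hK : IsCompact K) (U : Fin J → Set E)
    (hU : ∀ j, IsOpen (U j)) (hb : ∀ j, Bornology.IsBounded (U j)) (hc : K ⊆ ⋃ j, U j) :
    ∃ χ : Fin J → E → ℝ, (∀ j, Test (U j) (χ j)) ∧ ∀ x ∈ K, ∑ j, χ j x = 1 := by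
  obtain ⟨f, hf⟩ := SmoothPartitionOfUnity.exists_isSubordinate (𝓘(ℝ, E)) hK.isClosed U hU hc
  refine ⟨fun j => f j, fun j => ⟨?_, ?_, hf j⟩, fun x hx => ?_⟩
  · exact (f j).contMDiff.contDiff
  · refine Metric.isCompact_of_isClosed_isBounded (isClosed_tsupport _) ((hb j).subset (hf j))
  · have := f.sum_eq_one hx
    rwa [finsum_eq_sum_of_fintype] at this

end ResetN

open ResetN in
/-- RESET -/
theorem specReset (hO : SpecOrbit) (hT : SpecCTan) (hA : SpecFlowA) : SpecReset := by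
  classical
  intro ρ R P Q B0 K hD hK hKD
  have hin : ∀ Ψ, Test B0 Ψ → In R (gr (Q Ψ)) := fun Ψ h =>
    (hT ρ R P Q B0 Ψ hD.dom hD.ler hD.sub h hD.pos).1
  have hfl : ∀ Ψ, Test B0 Ψ → ∃ F : ℝ × E → E, IsFlow (gr (Q Ψ)) F ∧
      ∀ s x, R ≤ ‖x‖ → F (s, x) = x := fun Ψ h => hA _ R (hin Ψ h)
  let Fl : (E → E) → ℝ × E → E := fun Ψ =>
    if h : Test B0 Ψ then (hfl Ψ h).choose else fun p => p.2
  have hFl : ∀ Ψ, Test B0 Ψ → IsFlow (gr (Q Ψ)) (Fl Ψ) ∧
      ∀ s x, R ≤ ‖x‖ → Fl Ψ (s, x) = x := by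
    intro Ψ h
    have : Fl Ψ = (hfl Ψ h).choose := by
      simp only [Fl, h, dif_pos]
    rw [this]
    exact (hfl Ψ h).choose_spec
  have horb : ∀ y : E, ∃ L : List (E → E), (∀ Ψ ∈ L, Test B0 Ψ) ∧ (y ∈ K → comp Fl L y ∈ B0) := by
    intro y
    by_cases hy : y ∈ K
    · obtain ⟨L, h1, h2⟩ := hO ρ R P Q B0 y hD.dom hD.conn hD.ler hD.pos hD.op hD.ne hD.sub
        (hKD hy) Fl (fun Ψ h => (hFl Ψ h).1)
      exact ⟨L, h1, fun _ => h2⟩
    · exact ⟨[], by simp, fun h => absurd h hy⟩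
  choose L hL1 hL2 using horb
  have hcont : ∀ M : List (E → E), (∀ Ψ ∈ M, Test B0 Ψ) → Continuous (comp Fl M) := by
    intro M
    induction M with
    | nil => intro _; exact continuous_id
    | cons Ψ M ih =>
      intro h
      have h1 : Continuous fun x => Fl Ψ (1, x) :=
        (hFl Ψ (h Ψ List.mem_cons_self)).1.smooth.continuous.comp
          (continuous_const.prodMk continuous_id)
      exact (ih (fun Ψ' h' => h Ψ' (List.mem_cons_of_mem _ h'))).comp h1
  let U : E → Set E := fun y => D ρ ∩ comp Fl (L y) ⁻¹' B0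
  have hDo : IsOpen (D ρ) := isOpen_lt hD.dom.smooth.continuous continuous_const
  have hUo : ∀ y, IsOpen (U y) := fun y => hDo.inter (hD.op.preimage (hcont _ (hL1 y)))
  obtain ⟨t, ht⟩ := hK.elim_finite_subcover (fun y : K => U y) (fun y => hUo y) (by
    intro y hy
    exact mem_iUnion.mpr ⟨⟨y, hy⟩, hKD hy, hL2 y hy⟩)
  obtain ⟨J, e⟩ : ∃ J : ℕ, Nonempty (Fin J ≃ t) := ⟨t.card, ⟨t.equivFin.symm⟩⟩
  obtain ⟨e⟩ := e
  let Lj : ℕ → List (E → E) := fun j => if h : j < J then L (e ⟨j, h⟩ : K) else []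
  obtain ⟨χ, hχ1, hχ2⟩ := partition hK (fun j : Fin J => U ((e j : K) : E)) (fun j => hUo _)
    (fun j => hD.dom.bdd.subset inter_subset_left) (by
      intro x hx
      obtain ⟨y, hy1, hy2⟩ := mem_iUnion₂.mp (ht hx)
      refine mem_iUnion.mpr ⟨e.symm ⟨y, hy1⟩, ?_⟩
      rw [Equiv.apply_symm_apply]
      exact hy2)
  obtain ⟨c, Θ, Θi, s0, s1, g, g1, g2⟩ := slots (Cl := Ctl Q B0) (R := R) (Fl := Fl)
    (X := fun Ψ => gr (Q Ψ)) Lj (by
      intro i Ψ hΨ
      simp only [Lj] at hΨ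
      split_ifs at hΨ with h
      · have h1 := hL1 _ Ψ hΨ
        exact ⟨⟨Ψ, h1, rfl⟩, hin Ψ h1, (hFl Ψ h1).1, (hFl Ψ h1).2⟩
      · simp at hΨ) J (1 / 2) 1 (by norm_num) (by norm_num)
  refine ⟨J, χ, fun j => s0 j, fun j => s1 j, c, Θ, Θi, fun j => ⟨(hχ1 j).smooth, (hχ1 j).cpt,
    (hχ1 j).sub.trans inter_subset_left⟩, hχ2, g.word, g.wf, ?_, g1, fun j => ?_⟩
  · rintro s x (h | h)
    · exact g.zl s x h
    · exact g.zr s x h
  · obtain ⟨v1, v2, v3, v4⟩ := g2 j j.2
    refine ⟨v1, v2, v3, fun s x w1 w2 hx => ?_⟩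
    rw [v4 s x w1 w2]
    have h1 : Lj j = L (e j : K) := by
      simp only [Lj, j.2, dif_pos]
    rw [h1]
    exact ((hχ1 j).sub hx).2

end MPfab
end
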