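import Pool.Agent.Lib.MP_fabde4_an.SpecN
import Pool.Agent.Lib.MP_fabde4_an.M.Lop
import Pool.Agent.Lib.MP_fabde4_an.PT

section
/-! MP_fabde4_an, module BRKC (helper60); algebra of the bounds `Bd`. -/
set_option autoImplicit false
open MeasureTheory Set Filter Topology

namespace MPfab

namespace BrkCN

variable {F : Type*} [NormedAddCommGroup F] [NormedSpace ℝ F]

lemma pds_add {f g : E → F} (hf : Sm f) (hg : Sm g) (L : List (Fin 3)) :
    pds L (fun x => f x + g x) = fun x => pds L f x + pds L g x := by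
  induction L with
  | nil => rfl
  | cons i L ih =>
    funext x
    simp only [pds]
    rw [ih]
    exact PDC.pd_add (PDC.pds_smooth hf L).differentiable.differentiableAt
      (PDC.pds_smooth hg L).differentiable.differentiableAt i

lemma pds_sub {f g : E → F} (hf : Sm f) (hg : Sm g) (L : List (Fin 3)) :
    pds L (fun x => f x - g x) = fun x => pds L f x - pds L g x := by
  induction L with
  | nil => rfl
  | cons i L ih =>
    funext x
    simp only [pds]
    rw [ih]
    exact PDC.pd_sub (PDC.pds_smooth hf L).differentiable.differentiableAt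
      (PDC.pds_smooth hg L).differentiable.differentiableAt i

lemma pds_zero (L : List (Fin 3)) : pds L (fun _ => (0 : F)) = fun _ => 0 := by
  induction L with
  | nil => rfl
  | cons i L ih =>
    funext x
    simp only [pds]
    rw [ih]
    simp [pd]

lemma pds_apply {w : E → E} (hw : Sm w) (L : List (Fin 3)) (j : Fin 3) :
    pds L (fun x => w x j) = fun x => pds L w x j := by
  induction L with
  | nil => rfl
  | cons i L ih =>
    funext x
    simp only [pds]
    rw [ih]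
    exact (MPfab.pd_apply (PDC.pds_smooth hw L).differentiable.differentiableAt i j).symm

lemma Bd_mono {S : Set E} {k l : ℕ} {f : E → F} {a b : ℝ} (h : Bd S k f a) (hl : l ≤ k)
    (hab : a ≤ b) : Bd S l f b := fun α hα x hx => (h α (hα.trans hl) x hx).trans hab

lemma Bd_add {S : Set E} {k : ℕ} {f g : E → F} {a b : ℝ} (hf : Sm f) (hg : Sm g)
    (h : Bd S k f a) (h' : Bd S k g b) : Bd S k (fun x => f x + g x) (a + b) := by
  intro α hα x hx
  rw [pds_add hf hg]
  exact (norm_add_le _ _).trans (add_le_add (h α hα x hx) (h' α hα x hx))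

lemma Bd_sub {S : Set E} {k : ℕ} {f g : E → F} {a b : ℝ} (hf : Sm f) (hg : Sm g)
    (h : Bd S k f a) (h' : Bd S k g b) : Bd S k (fun x => f x - g x) (a + b) := by
  intro α hα x hx
  rw [pds_sub hf hg]
  exact (norm_sub_le _ _).trans (add_le_add (h α hα x hx) (h' α hα x hx))

lemma Bd_sum {ι : Type*} (s : Finset ι) {S : Set E} {k : ℕ} {f : ι → E → F} {a : ι → ℝ}
    (hf : ∀ i ∈ s, Sm (f i)) (h : ∀ i ∈ s, Bd S k (f i) (a i)) :
    Bd S k (fun x => ∑ i ∈ s, f i x) (∑ i ∈ s, a i) := by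
  classical
  induction s using Finset.induction_on with
  | empty =>
    intro α hα x hx
    simp only [Finset.sum_empty]
    rw [pds_zero]
    simp
  | insert j s hj ih =>
    have h1 := Bd_add (hf j (Finset.mem_insert_self j s))
      (ContDiff.sum fun i hi => hf i (Finset.mem_insert_of_mem hi))
      (h j (Finset.mem_insert_self j s))
      (ih (fun i hi => hf i (Finset.mem_insert_of_mem hi))
        (fun i hi => h i (Finset.mem_insert_of_mem hi)))
    simpa only [Finset.sum_insert hj] using h1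

lemma Bd_apply {S : Set E} {k : ℕ} {w : E → E} {a : ℝ} (hw : Sm w) (h : Bd S k w a)
    (j : Fin 3) : Bd S k (fun x => w x j) a := by
  intro α hα x hx
  rw [pds_apply hw]
  exact (PiLp.norm_apply_le _ j).trans (h α hα x hx)

lemma Bd_pd {S : Set E} {k : ℕ} {f : E → F} {a : ℝ} (hf : Sm f) (h : Bd S (k + 1) f a)
    (j : Fin 3) : Bd S k (pd j f) a := by
  intro α hα x hx
  rw [PDC.pds_comm hf]
  exact h (j :: α) (by simpa using hα) x hx

/-- the bracket in vector form -/
lemma brk_vec (X Y : E → E) (x : E) : brk X Y x = ∑ j, (X x j • pd j Y x - Y x j • pd j X x) := by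
  ext i
  rw [brk_apply]
  simp [Finset.sum_apply]

/-- bound of a bracket -/
lemma Bd_brk {k : ℕ} {C : ℝ} (hC : ∀ (a : E → ℝ) (f : E → E) (c c' : ℝ), Sm a → Sm f →
    Bd univ k a c → Bd univ k f c' → Bd univ k (fun x => a x • f x) (C * c * c'))
    {X Y : E → E} {a b : ℝ} (hX : Sm X) (hY : Sm Y) (h : Bd univ (k + 1) X a)
    (h' : Bd univ (k + 1) Y b) : Bd univ k (brk X Y) (6 * C * a * b) := by
  have e : brk X Y = fun x => ∑ j, (X x j • pd j Y x - Y x j • pd j X x) := by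
    funext x
    exact brk_vec X Y x
  rw [e]
  have h1 : ∀ j : Fin 3, Bd univ k (fun x => X x j • pd j Y x - Y x j • pd j X x)
      (C * a * b + C * b * a) := by
    intro j
    exact Bd_sub ((hX.comp_apply j).smul (hY.pd j)) ((hY.comp_apply j).smul (hX.pd j))
      (hC _ _ _ _ (hX.comp_apply j) (hY.pd j)
        (Bd_mono (Bd_apply hX h j) (Nat.le_succ k) le_rfl) (Bd_pd hY h' j))
      (hC _ _ _ _ (hY.comp_apply j) (hX.pd j)
        (Bd_mono (Bd_apply hY h' j) (Nat.le_succ k) le_rfl) (Bd_pd hX h j))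
  have h2 := Bd_sum (Finset.univ : Finset (Fin 3)) (S := univ) (k := k)
    (f := fun j x => X x j • pd j Y x - Y x j • pd j X x) (a := fun _ => C * a * b + C * b * a)
    (fun j _ => ((hX.comp_apply j).smul (hY.pd j)).sub ((hY.comp_apply j).smul (hX.pd j)))
    (fun j _ => h1 j)
  refine Bd_mono h2 le_rfl (le_of_eq ?_)
  simp
  ring

lemma brk_sub (X Y X' Y' : E → E) (hX : Sm X) (hY : Sm Y) (hX' : Sm X') (hY' : Sm Y') (x : E) :
    brk X Y x - brk X' Y' x =
      brk (fun x => X x - X' x) Y x + brk X' (fun x => Y x - Y' x) x := by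
  simp only [brk_vec]
  rw [← Finset.sum_sub_distrib, ← Finset.sum_add_distrib]
  refine Finset.sum_congr rfl fun j _ => ?_
  rw [PDC.pd_sub hX.differentiable.differentiableAt hX'.differentiable.differentiableAt,
    PDC.pd_sub hY.differentiable.differentiableAt hY'.differentiable.differentiableAt]
  simp only [PiLp.sub_apply]
  module

end BrkCN

open BrkCN in
/-- BRKC -/
theorem specBrkC (hCmul : SpecCmul) : SpecBrkC := by
  intro n k K
  obtain ⟨C, hC0, hC⟩ := hCmul k
  refine ⟨1 + n * (12 * C * |K|), by positivity, ?_⟩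
  intro X Y X' Y' H H' η hX hY hX' hY' hH hH' bX bY bX' bY' dX dY dH
  have hC' : ∀ (a : E → ℝ) (f : E → E) (c c' : ℝ), Sm a → Sm f →
      Bd univ k a c → Bd univ k f c' → Bd univ k (fun x => a x • f x) (C * c * c') :=
    fun a f c c' ha hf h h' => hC E a f c c' ha hf h h'
  have e : (fun x => drift X Y H x - drift X' Y' H' x) = fun x => (H x - H' x) +
      ∑ i, (brk (fun x => X i x - X' i x) (Y i) x + brk (X' i) (fun x => Y i x - Y' i x) x) := by
    funext x
    unfold drift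
    rw [add_sub_add_comm, ← Finset.sum_sub_distrib]
    congr 1
    exact Finset.sum_congr rfl fun i _ => brk_sub _ _ _ _ (hX i) (hY i) (hX' i) (hY' i) x
  rw [e]
  have h1 : ∀ i : Fin n, Bd univ k (fun x => brk (fun x => X i x - X' i x) (Y i) x +
      brk (X' i) (fun x => Y i x - Y' i x) x) (12 * C * |K| * η) := by
    intro i
    have hη : 0 ≤ η := (norm_nonneg _).trans (dX i [] (Nat.zero_le _) 0 (mem_univ _))
    have h2 := Bd_brk hC' ((hX i).sub (hX' i)) (hY i) (dX i)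
      (Bd_mono (bY i) le_rfl (le_abs_self K))
    have h3 := Bd_brk hC' (hX' i) ((hY i).sub (hY' i))
      (Bd_mono (bX' i) le_rfl (le_abs_self K)) (dY i)
    refine Bd_mono (Bd_add (Sm.brk ((hX i).sub (hX' i)) (hY i)) (Sm.brk (hX' i) ((hY i).sub (hY' i)))
      h2 h3) le_rfl (le_of_eq ?_)
    ring
  have h4 := Bd_sum (Finset.univ : Finset (Fin n)) (S := univ) (k := k)
    (f := fun i x => brk (fun x => X i x - X' i x) (Y i) x + brk (X' i) (fun x => Y i x - Y' i x) x)
    (a := fun _ => 12 * C * |K| * η)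
    (fun i _ => (Sm.brk ((hX i).sub (hX' i)) (hY i)).add (Sm.brk (hX' i) ((hY i).sub (hY' i))))
    (fun i _ => h1 i)
  have h5 := Bd_add (hH.sub hH') (ContDiff.sum fun i (_ : i ∈ (Finset.univ : Finset (Fin n))) =>
    (Sm.brk ((hX i).sub (hX' i)) (hY i)).add (Sm.brk (hX' i) ((hY i).sub (hY' i))))
    (Bd_mono dH (Nat.le_succ k) le_rfl) h4
  refine Bd_mono h5 le_rfl (le_of_eq ?_)
  simp
  ring

end MPfab
end

section
/-! MP_fabde4_an, module CLOSE (helper60). -/
set_option autoImplicit false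
open MeasureTheory Set Filter Topology

namespace MPfab

namespace CloseN

/-- points of `ρ ≤ 0` are limits of points of `D ρ` -/
lemma closure_D {ρ : E → ℝ} (h : Dom ρ) {x : E} (hx : ρ x ≤ 0) : x ∈ closure (D ρ) := by
  rcases lt_or_eq_of_le hx with hx | hx
  · exact subset_closure hx
  have h1 := h.reg x hx
  obtain ⟨v, hv⟩ : ∃ v, fderiv ℝ ρ x v ≠ 0 := by
    by_contra hcon
    push Not at hcon
    exact h1 (ContinuousLinearMap.ext hcon)
  obtain ⟨v, hv⟩ : ∃ v, fderiv ℝ ρ x v < 0 := by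
    rcases lt_or_gt_of_ne hv with h2 | h2
    · exact ⟨v, h2⟩
    · exact ⟨-v, by rw [map_neg]; linarith⟩
  have h2 : HasDerivAt (fun t : ℝ => ρ (x + t • v)) (fderiv ℝ ρ x v) 0 := by
    have h3 : HasDerivAt (fun t : ℝ => x + t • v) v 0 := by
      simpa using ((hasDerivAt_id (0 : ℝ)).smul_const v).const_add x
    have h4 : HasFDerivAt ρ (fderiv ℝ ρ x) (x + (0 : ℝ) • v) := by
      simpa using h.smooth.differentiable.differentiableAt.hasFDerivAt
    exact h4.comp_hasDerivAt (0 : ℝ) h3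
  have h3 : ∀ᶠ t in 𝓝[>] (0 : ℝ), ρ (x + t • v) < 0 := by
    have h4 := h2.tendsto_slope
    have h5 : ∀ᶠ t in 𝓝[≠] (0 : ℝ), slope (fun t : ℝ => ρ (x + t • v)) 0 t < 0 :=
      h4.eventually (gt_mem_nhds hv)
    have h6 : ∀ᶠ t in 𝓝[>] (0 : ℝ), slope (fun t : ℝ => ρ (x + t • v)) 0 t < 0 :=
      h5.filter_mono (nhdsWithin_mono _ (fun t ht => ne_of_gt ht))
    filter_upwards [h6, self_mem_nhdsWithin] with t ht ht0
    have ht0' : (0 : ℝ) < t := ht0
    rw [slope_def_field] at ht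
    simp only [zero_smul, add_zero, hx, sub_zero] at ht
    by_contra hcon
    push Not at hcon
    have : 0 ≤ ρ (x + t • v) / t := div_nonneg hcon ht0'.le
    linarith
  have h4 : Tendsto (fun t : ℝ => x + t • v) (𝓝[>] 0) (𝓝 x) := by
    have h5 : Tendsto (fun t : ℝ => x + t • v) (𝓝 0) (𝓝 (x + (0 : ℝ) • v)) :=
      (continuous_const.add (continuous_id.smul continuous_const)).tendsto _
    rw [zero_smul, add_zero] at h5
    exact h5.mono_left nhdsWithin_le_nhds
  exact mem_closure_of_tendsto h4 h3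

lemma isOpen_D {ρ : E → ℝ} (h : Dom ρ) : IsOpen (D ρ) :=
  isOpen_lt h.smooth.continuous continuous_const

/-- equality near a point is preserved by iterated partial derivatives -/
lemma pds_congr {F : Type*} [NormedAddCommGroup F] [NormedSpace ℝ F] {f g : E → F} {x : E}
    (h : f =ᶠ[𝓝 x] g) (L : List (Fin 3)) : pds L f =ᶠ[𝓝 x] pds L g := by
  induction L with
  | nil => exact h
  | cons i L ih =>
    have h1 := ih.fderiv (𝕜 := ℝ)
    filter_upwards [h1] with y hy
    simp only [pds, pd, hy]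

/-- equality on an open set is preserved by iterated partial derivatives -/
lemma pds_eqOn {F : Type*} [NormedAddCommGroup F] [NormedSpace ℝ F] {f g : E → F} {U : Set E}
    (hU : IsOpen U) (h : ∀ x ∈ U, f x = g x) (L : List (Fin 3)) {x : E} (hx : x ∈ U) :
    pds L f x = pds L g x :=
  (pds_congr (Filter.eventually_of_mem (hU.mem_nhds hx) h) L).eq_of_nhds

end CloseN

open CloseN in
/-- CLOSE -/
theorem specClose : SpecClose := by
  intro F _ _ ρ f g hρ hf hg h L x hx
  have h1 : closure (D ρ) ⊆ {y | pds L f y = pds L g y} :=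
    closure_minimal (fun y hy => pds_eqOn (isOpen_D hρ) h L hy)
      (isClosed_eq (PDC.pds_smooth hf L).continuous (PDC.pds_smooth hg L).continuous)
  exact h1 (closure_D hρ hx)

end MPfab
end

section
/-!
MP_fabde4_an, part N, module DOM2 (helper39): the enlarged domain.
-/
set_option autoImplicit false
open MeasureTheory Set Filter Topology

namespace MPfab

namespace Dom2N

/-- decrease along a segment -/
theorem line {f : E → ℝ} (hf : Sm f) (x v : E) (c s : ℝ) (hs : 0 ≤ s)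
    (h : ∀ r, 0 ≤ r → r ≤ s → c ≤ fderiv ℝ f (x - r • v) v) : f (x - s • v) ≤ f x - c * s := by
  have hd : ∀ r : ℝ, HasDerivAt (fun r : ℝ => f (x - r • v)) (-(fderiv ℝ f (x - r • v) v)) r := by
    intro r
    have h1 : HasFDerivAt f (fderiv ℝ f (x - r • v)) (x - r • v) :=
      (hf.differentiable (x - r • v)).hasFDerivAt
    have h2 : HasDerivAt (fun r : ℝ => x - r • v) (-v) r := by
      have := ((hasDerivAt_id r).smul_const v).const_sub x
      simpa using this
    have h3 := h1.comp_hasDerivAt r h2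
    rw [map_neg] at h3
    exact h3
  have h1 := (convex_Icc (0 : ℝ) s).image_sub_le_mul_sub_of_deriv_le
    (f := fun r : ℝ => f (x - r • v)) (C := -c)
    (fun r _ => (hd r).continuousAt.continuousWithinAt)
    (fun r _ => (hd r).differentiableAt.differentiableWithinAt)
    (fun r hr => by
      rw [interior_Icc] at hr
      rw [(hd r).deriv]
      linarith [h r hr.1.le hr.2.le])
    0 (left_mem_Icc.mpr hs) s (right_mem_Icc.mpr hs) hs
  simp only [zero_smul, sub_zero] at h1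
  linarith

end Dom2N

open Dom2N in
/-- DOM2 -/
theorem specDom2 : SpecDom2 := by
  intro σ x0 U hσ hconn hx0 hU hxU
  have hv0 : gr σ x0 ≠ 0 := by
    intro h
    apply hσ.reg x0 hx0
    ext w
    rw [← inner_gr, h]
    simp
  set v : E := gr σ x0 with hv
  set a : ℝ := ‖v‖ ^ 2 with ha
  have ha0 : 0 < a := by positivity
  have hva : fderiv ℝ σ x0 v = a := by
    rw [← inner_gr, ← hv, ha, real_inner_self_eq_norm_sq]
  have hcont : Continuous fun x => fderiv ℝ σ x v :=
    ((hσ.smooth.continuous_fderiv (by simp)).clm_apply continuous_const)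
  have hev : ∀ᶠ x in 𝓝 x0, a / 2 < fderiv ℝ σ x v :=
    hcont.continuousAt.eventually_const_lt (by simp only [hva]; linarith)
  obtain ⟨r1, hr1, hr1'⟩ := Metric.eventually_nhds_iff_ball.mp (hev.and (hU.eventually_mem hxU))
  -- the radius
  set r : ℝ := r1 / 2 with hr
  have hr0 : 0 < r := by positivity
  have hball : ∀ x ∈ Metric.ball x0 (2 * r), a / 2 ≤ fderiv ℝ σ x v := fun x hx =>
    (hr1' x (by rw [hr] at hx; convert hx using 2; ring)).1.le
  have hballU : Metric.ball x0 (2 * r) ⊆ U := fun x hx =>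
    (hr1' x (by rw [hr] at hx; convert hx using 2; ring)).2
  let ψ : ContDiffBump x0 := ⟨r / 2, r, by positivity, by linarith⟩
  have hψs : Sm (ψ : E → ℝ) := ψ.contDiff
  have hψt : tsupport (ψ : E → ℝ) = Metric.closedBall x0 r := ψ.tsupport_eq
  have hcb : Metric.closedBall x0 r ⊆ Metric.ball x0 (2 * r) :=
    Metric.closedBall_subset_ball (by linarith)
  obtain ⟨M, hM⟩ : ∃ M : ℝ, ∀ x, |fderiv ℝ (ψ : E → ℝ) x v| ≤ M := by
    have h1 : Continuous fun x => fderiv ℝ (ψ : E → ℝ) x v :=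
      ((hψs.continuous_fderiv (by simp)).clm_apply continuous_const)
    have h2 : HasCompactSupport fun x => fderiv ℝ (ψ : E → ℝ) x v := ψ.hasCompactSupport.fderiv_apply ℝ v
    obtain ⟨M, hM⟩ := h1.bounded_above_of_compact_support h2
    exact ⟨M, fun x => hM x⟩
  have hM0 : 0 ≤ M := (abs_nonneg _).trans (hM x0)
  have hvn : 0 < ‖v‖ := norm_pos_iff.mpr hv0
  -- the size of the bump
  obtain ⟨η, hη0, hη1, hη2⟩ : ∃ η : ℝ, 0 < η ∧ η * M ≤ a / 4 ∧ 3 * η / a * ‖v‖ < r := by
    refine ⟨min (a / (4 * (M + 1))) (r * a / (6 * ‖v‖)), by positivity, ?_, ?_⟩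
    · calc min (a / (4 * (M + 1))) (r * a / (6 * ‖v‖)) * M ≤ a / (4 * (M + 1)) * M := by
            gcongr
            exact min_le_left _ _
        _ ≤ a / (4 * (M + 1)) * (M + 1) := by gcongr; linarith
        _ = a / 4 := by field_simp
    · calc 3 * min (a / (4 * (M + 1))) (r * a / (6 * ‖v‖)) / a * ‖v‖
          ≤ 3 * (r * a / (6 * ‖v‖)) / a * ‖v‖ := by
            gcongr
            exact min_le_right _ _
        _ = r / 2 := by field_simp; ring
        _ < r := by linarith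
  let ρ : E → ℝ := fun x => σ x - η * ψ x
  have hρs : Sm ρ := hσ.smooth.sub (contDiff_const.mul hψs)
  have hfd : ∀ x, fderiv ℝ ρ x = fderiv ℝ σ x - η • fderiv ℝ (ψ : E → ℝ) x := by
    intro x
    have h1 : HasFDerivAt ρ (fderiv ℝ σ x - η • fderiv ℝ (ψ : E → ℝ) x) x :=
      (hσ.smooth.differentiable x).hasFDerivAt.sub
        ((hψs.differentiable x).hasFDerivAt.const_mul η)
    exact h1.fderiv
  have hρv : ∀ x ∈ Metric.ball x0 (2 * r), a / 4 ≤ fderiv ℝ ρ x v := by
    intro x hx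
    have h1 := hball x hx
    have h2 := hM x
    have h3 : η * fderiv ℝ (ψ : E → ℝ) x v ≤ η * M := by
      gcongr
      exact (le_abs_self _).trans h2
    rw [hfd]
    simp only [_root_.sub_apply, _root_.smul_apply, smul_eq_mul]
    linarith
  have hψ0 : ∀ x, x ∉ Metric.closedBall x0 r → ψ x = 0 := fun x hx => by
    rw [← hψt] at hx
    exact image_eq_zero_of_notMem_tsupport hx
  have hle : ∀ x, ρ x ≤ σ x := fun x => by
    have := ψ.nonneg (x := x)
    simp only [ρ]
    nlinarith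
  have hout : ∀ x, x ∉ Metric.closedBall x0 r → ρ x = σ x ∧ fderiv ℝ ρ x = fderiv ℝ σ x := by
    intro x hx
    refine ⟨?_, ?_⟩
    · simp only [ρ, hψ0 x hx, mul_zero, sub_zero]
    · rw [hfd, fderiv_of_notMem_tsupport (𝕜 := ℝ) (f := (ψ : E → ℝ)) (by rw [hψt]; exact hx),
        smul_zero, sub_zero]
  have hin : ∀ x, ρ x < 0 → 0 ≤ σ x → x ∈ Metric.closedBall x0 r := by
    intro x h1 h2
    by_contra h3
    have := (hout x h3).1
    linarith
  -- the segment
  have hseg : ∀ x, ρ x < 0 → 0 ≤ σ x → ∀ s, 0 ≤ s → s ≤ 3 * η / a →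
      x - s • v ∈ Metric.ball x0 (2 * r) := by
    intro x h1 h2 s hs hs'
    have h3 := hin x h1 h2
    rw [Metric.mem_closedBall, dist_eq_norm] at h3
    rw [Metric.mem_ball, dist_eq_norm]
    have h4 : ‖s • v‖ < r := by
      rw [norm_smul, Real.norm_of_nonneg hs]
      calc s * ‖v‖ ≤ 3 * η / a * ‖v‖ := by gcongr
        _ < r := hη2
    calc ‖x - s • v - x0‖ = ‖(x - x0) - s • v‖ := by congr 1; abel
      _ ≤ ‖x - x0‖ + ‖s • v‖ := norm_sub_le _ _
      _ < 2 * r := by linarith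
  have hs0 : 0 ≤ 3 * η / a := by positivity
  have hend : ∀ x, ρ x < 0 → 0 ≤ σ x → σ (x - (3 * η / a) • v) < 0 := by
    intro x h1 h2
    have h3 := line hσ.smooth x v (a / 2) (3 * η / a) hs0
      (fun s hs hs' => hball _ (hseg x h1 h2 s hs hs'))
    have h4 : σ x < η := by
      have h5 := ψ.le_one (x := x)
      have h6 : ρ x = σ x - η * ψ x := rfl
      nlinarith
    have h5 : a / 2 * (3 * η / a) = 3 * η / 2 := by field_simp
    rw [h5] at h3
    linarith
  have hpath : ∀ x, ρ x < 0 → 0 ≤ σ x → ∀ s, 0 ≤ s → s ≤ 3 * η / a → ρ (x - s • v) < 0 := by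
    intro x h1 h2 s hs hs'
    have h3 := line hρs x v (a / 4) s hs
      (fun s' q q' => hρv _ (hseg x h1 h2 s' q (q'.trans hs')))
    have : 0 ≤ a / 4 * s := by positivity
    linarith
  obtain ⟨p, hp⟩ := hconn.nonempty
  have hsub : D σ ⊆ D ρ := fun x hx => lt_of_le_of_lt (hle x) hx
  refine ⟨ρ, ⟨hρs, ?_, ?_⟩, ⟨⟨p, hsub hp⟩, ?_⟩, hle, ?_, ?_⟩
  · refine (hσ.bdd.union (Metric.isBounded_closedBall (x := x0) (r := r))).subset fun x hx => ?_
    by_cases h : σ x < 0
    · exact Or.inl h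
    · exact Or.inr (hin x hx (not_lt.mp h))
  · intro x hx hfx
    by_cases h : x ∈ Metric.closedBall x0 r
    · have := hρv x (hcb h)
      rw [hfx] at this
      simp only [_root_.zero_apply] at this
      linarith
    · obtain ⟨h1, h2⟩ := hout x h
      rw [h2] at hfx
      exact hσ.reg x (by rw [← h1, hx]) hfx
  · refine isPreconnected_of_forall p fun y hy => ?_
    by_cases h : σ y < 0
    · exact ⟨D σ, hsub, hp, h, hconn.isPreconnected⟩
    · have h' := not_lt.mp h
      refine ⟨D σ ∪ (fun s : ℝ => y - s • v) '' Icc 0 (3 * η / a), ?_, Or.inl hp, ?_, ?_⟩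
      · rintro x (hx | ⟨s, ⟨hs1, hs2⟩, rfl⟩)
        · exact hsub hx
        · exact hpath y hy h' s hs1 hs2
      · exact Or.inr ⟨0, ⟨le_rfl, hs0⟩, by simp⟩
      · refine IsPreconnected.union (y - (3 * η / a) • v) (hend y hy h')
          ⟨3 * η / a, ⟨hs0, le_rfl⟩, rfl⟩ hconn.isPreconnected ?_
        refine isPreconnected_Icc.image _ ?_
        exact (continuous_const.sub (continuous_id.smul continuous_const)).continuousOn
  · intro x hx
    refine hout x fun h => hx (hballU (hcb h))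
  · -- a point outside of the old domain
    have h1 : ρ x0 < 0 := by
      have : ψ x0 = 1 := ψ.one_of_mem_closedBall (Metric.mem_closedBall_self (by positivity))
      simp only [ρ, hx0, this]
      linarith
    have hc : Continuous fun s : ℝ => x0 + s • v :=
      continuous_const.add (continuous_id.smul continuous_const)
    have h2 : ∀ᶠ s in 𝓝 (0 : ℝ), ρ (x0 + s • v) < 0 := by
      have : ContinuousAt (fun s : ℝ => ρ (x0 + s • v)) 0 := (hρs.continuous.comp hc).continuousAt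
      refine this.eventually_lt_const ?_
      simpa using h1
    have h3 : ∀ᶠ s in 𝓝 (0 : ℝ), x0 + s • v ∈ Metric.ball x0 (2 * r) := by
      refine hc.continuousAt.eventually_mem (Metric.isOpen_ball.mem_nhds ?_)
      simp only [zero_smul, add_zero]
      exact Metric.mem_ball_self (by positivity)
    obtain ⟨δ, hδ, hδ'⟩ := Metric.eventually_nhds_iff_ball.mp (h2.and h3)
    have hs : (δ / 2) ∈ Metric.ball (0 : ℝ) δ := by
      rw [Metric.mem_ball, dist_zero_right, Real.norm_of_nonneg (by positivity)]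
      linarith
    refine ⟨x0 + (δ / 2) • v, ?_, (hδ' _ hs).1⟩
    have h4 := line hσ.smooth (x0 + (δ / 2) • v) v (a / 2) (δ / 2) (by positivity) (by
      intro s q1 q2
      have h5 : x0 + (δ / 2) • v - s • v = x0 + (δ / 2 - s) • v := by
        rw [sub_smul]; abel
      rw [h5]
      refine hball _ (hδ' _ ?_).2
      rw [Metric.mem_ball, dist_zero_right, Real.norm_of_nonneg (by linarith)]
      linarith)
    rw [add_sub_cancel_right, hx0] at h4
    have : 0 < a / 2 * (δ / 2) := by positivity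
    show 0 < σ _
    linarith

end MPfab
end

section
/-!
MP_fabde4_an, module MAIN: the frozen statement from the modules.
-/
set_option autoImplicit false
open MeasureTheory Set Filter Topology

namespace MPfab

namespace MainN

open RzN

/-- the projection of a field of the class `InX` is the field itself on the closed domain -/
lemma proj_id {ρ : E → ℝ} {R : ℝ} {P : (E → E) → E → E} {Q : (E → E) → E → ℝ}
    (hL : Leray ρ R P Q) {v : E → E} (hv : InX ρ v) {x : E} (hx : ρ x ≤ 0) : P v x = v x := by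
  have h0 : ∀ y, gr (fun _ : E => (0 : ℝ)) y = 0 := by
    intro y
    ext i
    simp [pd_def]
  have h1 : InX ρ (fun x => v x - gr (fun _ : E => (0 : ℝ)) x) := by
    have e : (fun x => v x - gr (fun _ : E => (0 : ℝ)) x) = v := by
      funext y
      rw [h0, sub_zero]
    rw [e]
    exact hv
  have h2 := hL.uniq v (fun _ => 0) hv.smooth contDiff_const h1 x hx
  have h3 := hL.dec v hv.smooth x hx
  rw [← h2, h0] at h3
  exact (sub_eq_zero.mp h3).symm

/-- the projection of a gradient vanishes -/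
lemma proj_gr {ρ : E → ℝ} {R : ℝ} {P : (E → E) → E → E} {Q : (E → E) → E → ℝ}
    (hL : Leray ρ R P Q) {φ : E → ℝ} (hφ : Sm φ) {x : E} (hx : ρ x ≤ 0) : P (gr φ) x = 0 := by
  have h1 : InX ρ (fun x => gr φ x - gr φ x) := by
    have e : (fun x => gr φ x - gr φ x) = fun _ => (0 : E) := by
      funext y
      rw [sub_self]
    rw [e]
    refine ⟨contDiff_const, fun y _ => ?_, fun y _ => by simp⟩
    simp [dv, pd_def]
  have h2 := hL.uniq (gr φ) φ hφ.gr hφ h1 x hx
  have h3 := hL.dec (gr φ) hφ.gr x hx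
  rw [← h2] at h3
  simpa using h3

lemma in_drift (hCT : SpecCTan) (hBT : SpecBrkT) {ρ : E → ℝ} {R : ℝ} {P : (E → E) → E → E}
    {Q : (E → E) → E → ℝ} {B0 : Set E} (hd : Dat ρ R P Q B0) {n : ℕ} {X Y : Fin n → E → E}
    {H : E → E} (hX : ∀ i, Ctl Q B0 (X i)) (hY : ∀ i, Ctl Q B0 (Y i)) (hH : Ctl Q B0 H) :
    In R (drift X Y H) ∧ Tan ρ (drift X Y H) := by
  have hc : ∀ Z, Ctl Q B0 Z → In R Z ∧ Tan ρ Z := by
    rintro Z ⟨Ψ, hΨ, rfl⟩
    exact hCT ρ R P Q B0 Ψ hd.dom hd.ler hd.sub hΨ hd.pos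
  have hb : ∀ X Y : E → E, In R X → In R Y → In R (brk X Y) := by
    intro X Y hX hY
    refine ⟨Sm.brk hX.smooth hY.smooth, fun x hx => ?_⟩
    ext i
    rw [brk_apply, hX.supp x hx, hY.supp x hx]
    simp
  constructor
  · refine ⟨(hc H hH).1.smooth.add (ContDiff.sum fun i _ =>
      (hb _ _ (hc _ (hX i)).1 (hc _ (hY i)).1).smooth), fun x hx => ?_⟩
    unfold drift
    rw [(hc H hH).1.supp x hx, Finset.sum_eq_zero fun i _ =>
      (hb _ _ (hc _ (hX i)).1 (hc _ (hY i)).1).supp x hx, add_zero]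
  · intro x hx
    unfold drift
    rw [map_add, map_sum, (hc H hH).2 x hx, zero_add]
    refine Finset.sum_eq_zero fun i _ => ?_
    exact hBT.tan ρ hd.dom.smooth hd.dom.reg (X i) (Y i) (hc _ (hX i)).1.smooth
      (hc _ (hY i)).1.smooth (hc _ (hX i)).2 (hc _ (hY i)).2 x hx

end MainN

open RzN MainN

/-- the whole construction in the notation of the modules -/
theorem main0 (hN : SpecNormal) (hD2 : SpecDom2) (hLe : SpecLeray) (hRe : SpecRelax)
    (hLa : SpecLast) (hRz : SpecRealize) (hFi : SpecFinal) (hFA : SpecFlowA) (hCT : SpecCTan)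
    (hBT : SpecBrkT) (rho : E → ℝ) (hrho : Dom rho) (hconn : IsConnected (D rho)) (U : Set E)
    (hU : IsOpen U) (x0 : E) (hx0 : rho x0 = 0) (hx0U : x0 ∈ U) (T : ℝ) (hT : 0 < T)
    (v0 v1 : E → E) (hv0 : InX rho v0) (hv1 : InX rho v1) (p : ENNReal) (hp : 1 ≤ p)
    (hp' : p ≠ ⊤) (ε : ℝ) (hε : 0 < ε) :
    ∃ (V : ℝ × E → E) (Pr : ℝ × E → ℝ), Sm V ∧ Sm Pr ∧
      (∀ t x, 0 ≤ t → t ≤ T → rho x ≤ 0 → deriv (fun s => V (s, x)) t +
        fderiv ℝ (fun y => V (t, y)) x (V (t, x)) + gr (fun y => Pr (t, y)) x = 0) ∧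
      (∀ t x, 0 ≤ t → t ≤ T → rho x ≤ 0 → dv (sl V t) x = 0) ∧
      (∀ t x, 0 ≤ t → t ≤ T → rho x = 0 → x ∉ U → fderiv ℝ rho x (V (t, x)) = 0) ∧
      (∀ x, rho x ≤ 0 → V (0, x) = v0 x) ∧
      eLpNorm (fun x => V (T, x) - v1 x) p (volume.restrict (D rho)) < ENNReal.ofReal ε := by
  -- the normalized domains
  obtain ⟨σ, hσ, hσlt, hσeq, U0, hU0, hU0s, hU0e⟩ := hN rho hrho
  have hσle : ∀ x, σ x ≤ 0 ↔ rho x ≤ 0 := by
    intro x
    rw [le_iff_lt_or_eq, le_iff_lt_or_eq, hσlt, hσeq]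
  have hDσ : D σ = D rho := by
    ext x
    exact hσlt x
  have hσd : ∀ x, rho x ≤ 0 → fderiv ℝ σ x = fderiv ℝ rho x := by
    intro x hx
    have e : σ =ᶠ[𝓝 x] rho := by
      filter_upwards [hU0.mem_nhds (hU0s hx)] with y hy
      exact hU0e y hy
    exact e.fderiv_eq
  have hcσ : IsConnected (D σ) := by
    rw [hDσ]
    exact hconn
  obtain ⟨ρ1, hρ1, hc1, hle1, hout1, hne1⟩ := hD2 σ x0 U hσ.toDom hcσ ((hσeq x0).mpr hx0) hU hx0U
  obtain ⟨ρ, hρ, hρlt, hρeq, U1, hU1, hU1s, hU1e⟩ := hN ρ1 hρ1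
  have hρle : ∀ x, ρ x ≤ 0 ↔ ρ1 x ≤ 0 := by
    intro x
    rw [le_iff_lt_or_eq, le_iff_lt_or_eq, hρlt, hρeq]
  have hDρ : D ρ = D ρ1 := by
    ext x
    exact hρlt x
  have hρd : ∀ x, ρ1 x ≤ 0 → fderiv ℝ ρ x = fderiv ℝ ρ1 x := by
    intro x hx
    have e : ρ =ᶠ[𝓝 x] ρ1 := by
      filter_upwards [hU1.mem_nhds (hU1s hx)] with y hy
      exact hU1e y hy
    exact e.fderiv_eq
  have hcρ : IsConnected (D ρ) := by
    rw [hDρ]
    exact hc1
  have hsub : ∀ x, σ x ≤ 0 → ρ x ≤ 0 := fun x hx => (hρle x).mpr ((hle1 x).trans hx)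
  have hsubD : D σ ⊆ D ρ := fun x hx => (hρlt x).mpr ((hle1 x).trans_lt hx)
  -- the ball
  obtain ⟨R, hR, hball⟩ : ∃ R : ℝ, 0 < R ∧ ∀ x, ρ x ≤ 0 → ‖x‖ < R := by
    have hb : Bornology.IsBounded (closure (D ρ)) := hρ.bdd.closure
    obtain ⟨r, hr⟩ := hb.subset_closedBall (0 : E)
    refine ⟨max r 0 + 1, by positivity, fun x hx => ?_⟩
    have h1 : x ∈ closure (D ρ) := CloseN.closure_D hρ.toDom hx
    have h2 := hr h1
    rw [mem_closedBall_zero_iff] at h2
    have := le_max_left r 0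
    linarith
  obtain ⟨P1, Q1, hL1⟩ := hLe σ R hσ.toDom hcσ (fun x hx => hball x (hsub x hx))
  obtain ⟨P2, Q2, hL2⟩ := hLe ρ R hρ.toDom hcρ hball
  -- the control region
  set B0 : Set E := {x | 0 < σ x} ∩ D ρ with hB0
  have hdat : Dat ρ R P2 Q2 B0 := by
    refine ⟨hρ, hcρ, hR, hball, hL2, ?_, ?_, inter_subset_right⟩
    · exact (isOpen_lt continuous_const hσ.smooth.continuous).inter (EngM.D_open hρ.toDom)
    · rw [hB0, hDρ]
      exact hne1
  -- the initial value
  have hv0σ : InX σ v0 := by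
    refine ⟨hv0.smooth, fun x hx => hv0.dv0 x ((hσle x).mp hx), fun x hx => ?_⟩
    have h1 := (hσeq x).mp hx
    rw [hσd x h1.le]
    exact hv0.tan x h1
  have hv1σ : InX σ v1 := by
    refine ⟨hv1.smooth, fun x hx => hv1.dv0 x ((hσle x).mp hx), fun x hx => ?_⟩
    have h1 := (hσeq x).mp hx
    rw [hσd x h1.le]
    exact hv1.tan x h1
  set v0' : E → E := P1 v0 with hv0'
  have hv0in : In R v0' := hL1.inP v0 hv0.smooth
  have hv0X : InX σ v0' := hL1.inX v0 hv0.smooth
  set u0 : E → E := P2 v0' with hu0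
  have hu0in : In R u0 := hL2.inP v0' hv0in.smooth
  have hu0X : InX ρ u0 := hL2.inX v0' hv0in.smooth
  -- level 1
  obtain ⟨n, X, Y, H, u, q, Z2, Zo, K, hX, hY, hH, huin, hqin, hZ2in, hZoin, hui, hKc, hKs,
    hZ2s, hZos, hueq⟩ := hRe ρ R P2 Q2 B0 u0 T hdat hu0X hu0in hT
  obtain ⟨hBin, hBtan⟩ := in_drift hCT hBT hdat hX hY hH
  obtain ⟨FB, hFB, hFBo⟩ := hFA (drift X Y H) R hBin
  -- the last target
  have huT : Sm (sl u T) := PDC.sl_smooth huin.smooth T
  obtain ⟨w, hw, haf, hwv⟩ := hLa ρ σ R P2 Q2 hρ hσ hsubD hcρ hL2 (P2 (sl u T)) v1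
    (hL2.inX _ huT) hv1σ p hp hp' (ε / 2) (by positivity)
  set af : E → E := fun x => w x - P2 (sl u T) x with haf'
  have hPw : ∀ x, ρ x ≤ 0 → P2 (fun y => u (T, y) + af y) x = P2 w x := by
    intro x hx
    have hg : Sm (gr (Q2 (sl u T))) := (hL2.inQ _ huT).smooth.gr
    have e1 : P2 (fun y => u (T, y) + af y) = P2 (fun y => gr (Q2 (sl u T)) y + w y) := by
      refine hL2.locP _ _ (huT.add haf.smooth) (hg.add hw) fun y hy => ?_
      have h1 := hL2.dec (sl u T) huT y (le_of_lt hy)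
      rw [← h1]
      change u (T, y) + (w y - P2 (sl u T) y) = u (T, y) - P2 (sl u T) y + w y
      abel
    rw [e1, hL2.addP _ _ hg hw]
    change P2 (gr (Q2 (sl u T))) x + P2 w x = P2 w x
    rw [proj_gr hL2 (hL2.inQ _ huT).smooth hx, zero_add]
  -- level 2
  set q0 : E → ℝ := Q2 v0' with hq0
  have hq0in : In R q0 := hL2.inQ v0' hv0in.smooth
  have hgq0 : In R (gr q0) := by
    refine ⟨hq0in.smooth.gr, fun x hx => ?_⟩
    ext j
    exact (ItB.in_pd hR hq0in j).supp x hx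
  set r0 : E → E := fun x => v0' x - u (0, x) - gr q0 x with hr0
  have hr0in : In R r0 := LopM.in_sub (LopM.in_sub hv0in (ItB.in_sl huin 0)) hgq0
  have lv : Lv σ ρ R T P1 Q1 P2 Q2 B0 (drift X Y H) FB u q Z2 Zo K v0' q0 r0 af := by
    refine ⟨hσ, hsub, hL1, hdat, fun x hx => hx.1, hT, hBin, hBtan, hFB, hFBo, huin, hqin,
      hZ2in, hZoin, hKc, hKs, hZ2s, hZos, hueq, hv0in, hq0in, hr0in, fun x => ?_, fun x hx => ?_,
      haf⟩
    · rw [hr0]
      simp only
      abel
    · have h1 := hL2.dec v0' hv0in.smooth x hx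
      rw [hr0]
      simp only
      rw [hui x hx, hu0, h1]
      exact sub_self _
  -- the accuracy
  obtain ⟨η, hη, hηp⟩ : ∃ η : ℝ, 0 < η ∧
      (volume.restrict (D rho)) univ ^ p.toReal⁻¹ * ENNReal.ofReal η ≤
        ENNReal.ofReal (ε / 2) := by
    have hfin : (volume.restrict (D rho)) univ ≠ ⊤ := by
      rw [Measure.restrict_apply_univ]
      exact hrho.bdd.measure_lt_top.ne
    have hfin2 : (volume.restrict (D rho)) univ ^ p.toReal⁻¹ ≠ ⊤ :=
      ENNReal.rpow_ne_top_of_nonneg (by positivity) hfin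
    set m : ENNReal := (volume.restrict (D rho)) univ ^ p.toReal⁻¹
    have key : m.toReal * (ε / 2 / (m.toReal + 1)) ≤ ε / 2 := by
      rw [mul_div_assoc', div_le_iff₀ (by positivity)]
      nlinarith [ENNReal.toReal_nonneg (a := m)]
    refine ⟨ε / 2 / (m.toReal + 1), by positivity, ?_⟩
    calc m * ENNReal.ofReal (ε / 2 / (m.toReal + 1)) =
        ENNReal.ofReal m.toReal * ENNReal.ofReal (ε / 2 / (m.toReal + 1)) := by
          rw [ENNReal.ofReal_toReal hfin2]
      _ = ENNReal.ofReal (m.toReal * (ε / 2 / (m.toReal + 1))) :=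
          (ENNReal.ofReal_mul ENNReal.toReal_nonneg).symm
      _ ≤ _ := ENNReal.ofReal_le_ofReal key
  obtain ⟨κ, a, b, Φ, Ψ, M, F, π, hκ, ha, hπ, hκ1, ha0, haT, hbw, hb0, hbT, hWF, hMin, hMeq,
    hM0, hpr, hcl⟩ := hRz σ ρ R T P1 Q1 P2 Q2 B0 FB u q Z2 Zo K v0' q0 r0 af n X Y H hX hY hH lv η
      hη
  obtain ⟨V, Pr, hV, hPr, hVeq, hVdv, hVtan, hV0, hVT⟩ := hFi σ ρ R T P1 Q1 P2 Q2 B0 v0' κ a b Φ Ψ
    M F π hσ hsub hL1 hdat (fun x hx => hx.1) hv0X hT hκ ha hπ hκ1 ha0 haT hbw hb0 hbT hWF hMin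
    hMeq hM0 hpr
  refine ⟨V, Pr, hV, hPr, fun t x h0 h1 hx => hVeq t x h0 h1 ((hσle x).mpr hx),
    fun t x h0 h1 hx => hVdv t x h0 h1 ((hσle x).mpr hx), ?_, ?_, ?_⟩
  · intro t x h0 h1 hx hxU
    have hx' : σ x = 0 := (hσeq x).mpr hx
    obtain ⟨e1, e2⟩ := hout1 x hxU
    have e3 : ρ1 x = 0 := e1.trans hx'
    have e4 : ρ x = 0 := (hρeq x).mpr e3
    have e5 : fderiv ℝ σ x = fderiv ℝ ρ x := by
      rw [hρd x e3.le, e2]
    have h2 := hVtan t x h0 h1 hx' e4 e5
    rwa [hσd x hx.le] at h2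
  · intro x hx
    have hx' : σ x ≤ 0 := (hσle x).mpr hx
    rw [hV0 x hx', hv0', proj_id hL1 hv0σ hx']
  · have hVs : Sm (fun x => V (T, x)) := PDC.sl_smooth hV T
    have hPws : Sm (P2 w) := (hL2.inP w hw).smooth
    have e1 : (fun x => V (T, x) - v1 x) =
        (fun x => V (T, x) - P2 w x) + fun x => P2 w x - v1 x := by
      funext x
      simp
    have hm1 : AEStronglyMeasurable (fun x => V (T, x) - P2 w x) (volume.restrict (D rho)) :=
      (hVs.continuous.sub hPws.continuous).aestronglyMeasurable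
    have hm2 : AEStronglyMeasurable (fun x => P2 w x - v1 x) (volume.restrict (D rho)) :=
      (hPws.continuous.sub hv1.smooth.continuous).aestronglyMeasurable
    rw [e1]
    refine (eLpNorm_add_le hm1 hm2 hp).trans_lt ?_
    have b1 : eLpNorm (fun x => V (T, x) - P2 w x) p (volume.restrict (D rho)) ≤
        ENNReal.ofReal (ε / 2) := by
      refine le_trans (eLpNorm_le_of_ae_bound (C := η) ?_) hηp
      rw [ae_restrict_iff' (EngM.D_open hrho).measurableSet]
      refine Eventually.of_forall fun x hx => ?_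
      have hx1 : ρ x ≤ 0 := hsub x ((hσle x).mpr (le_of_lt hx))
      rw [hVT x, ← hPw x hx1]
      exact hcl x
    have b2 : eLpNorm (fun x => P2 w x - v1 x) p (volume.restrict (D rho)) <
        ENNReal.ofReal (ε / 2) := by
      rw [← hDσ]
      exact hwv
    calc _ < ENNReal.ofReal (ε / 2) + ENNReal.ofReal (ε / 2) :=
          ENNReal.add_lt_add_of_le_of_lt (b1.trans_lt ENNReal.ofReal_lt_top).ne b1 b2
      _ = ENNReal.ofReal ε := by
          rw [← ENNReal.ofReal_add (by positivity) (by positivity)]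
          congr 1
          ring

/-- the frozen statement from the modules -/
theorem main1 (hN : SpecNormal) (hD2 : SpecDom2) (hLe : SpecLeray) (hRe : SpecRelax)
    (hLa : SpecLast) (hRz : SpecRealize) (hFi : SpecFinal) (hFA : SpecFlowA) (hCT : SpecCTan)
    (hBT : SpecBrkT) :
    ∀ (Om : Set (EuclideanSpace ℝ (Fin 3))) (rho : EuclideanSpace ℝ (Fin 3) → ℝ)
      (S : Set (EuclideanSpace ℝ (Fin 3))),
      IsOpen Om → IsConnected Om → Bornology.IsBounded Om →
      ContDiff ℝ ((⊤ : ENat) : WithTop ENat) rho →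
      Om = {x | rho x < 0} →
      (∀ x, rho x = 0 → gradient rho x ≠ 0) →
      S ⊆ frontier Om → S.Nonempty →
      (∃ U : Set (EuclideanSpace ℝ (Fin 3)), IsOpen U ∧ S = U ∩ frontier Om) →
      (∃ x ∈ frontier Om, Disjoint (connectedComponentIn (frontier Om) x) S) →
      ∀ T : ℝ, 0 < T →
      ∀ v0 v1 : EuclideanSpace ℝ (Fin 3) → EuclideanSpace ℝ (Fin 3),
      ContDiff ℝ ((⊤ : ENat) : WithTop ENat) v0 →
      ContDiff ℝ ((⊤ : ENat) : WithTop ENat) v1 →
      (∀ x ∈ closure Om, ∑ i : Fin 3,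
          inner ℝ (fderiv ℝ v0 x (EuclideanSpace.single i 1)) (EuclideanSpace.single i 1) = 0) →
      (∀ x ∈ closure Om, ∑ i : Fin 3,
          inner ℝ (fderiv ℝ v1 x (EuclideanSpace.single i 1)) (EuclideanSpace.single i 1) = 0) →
      (∀ x ∈ frontier Om, inner ℝ (v0 x) (gradient rho x) = 0) →
      (∀ x ∈ frontier Om, inner ℝ (v1 x) (gradient rho x) = 0) →
      ∀ p : ENNReal, 1 ≤ p → p ≠ ⊤ →
      ∀ ε : ℝ, 0 < ε →
      ∃ (V : ℝ × EuclideanSpace ℝ (Fin 3) → EuclideanSpace ℝ (Fin 3))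
        (Pr : ℝ × EuclideanSpace ℝ (Fin 3) → ℝ),
        ContDiff ℝ ((⊤ : ENat) : WithTop ENat) V ∧
        ContDiff ℝ ((⊤ : ENat) : WithTop ENat) Pr ∧
        (∀ t ∈ Icc (0 : ℝ) T, ∀ x ∈ closure Om,
          deriv (fun s => V (s, x)) t
            + fderiv ℝ (fun y => V (t, y)) x (V (t, x))
            + gradient (fun y => Pr (t, y)) x = 0) ∧
        (∀ t ∈ Icc (0 : ℝ) T, ∀ x ∈ closure Om, ∑ i : Fin 3,
          inner ℝ (fderiv ℝ (fun y => V (t, y)) x (EuclideanSpace.single i 1))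
            (EuclideanSpace.single i 1) = 0) ∧
        (∀ t ∈ Icc (0 : ℝ) T, ∀ x ∈ frontier Om \ S, inner ℝ (V (t, x)) (gradient rho x) = 0) ∧
        (∀ x ∈ closure Om, V (0, x) = v0 x) ∧
        eLpNorm (fun x => V (T, x) - v1 x) p (volume.restrict Om) < ENNReal.ofReal ε := by
  intro Om rho S hOm hconn hbdd hrho hOmeq hreg hSf hSne hSU _ T hT v0 v1 hv0 hv1 hd0 hd1 ht0 ht1
    p hp hp' ε hε
  obtain ⟨U, hU, hSU⟩ := hSU
  have hOD : Om = D rho := hOmeq
  have hdom : Dom rho := by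
    refine ⟨hrho, by rw [← hOD]; exact hbdd, fun x hx h0 => hreg x hx ?_⟩
    rw [gradient_eq]
    ext i
    rw [gr_apply, pd_def, h0]
    rfl
  have hcl : ∀ x, x ∈ closure Om ↔ rho x ≤ 0 := by
    intro x
    rw [hOD]
    constructor
    · intro hx
      exact closure_lt_subset_le hrho.continuous continuous_const hx
    · intro hx
      exact CloseN.closure_D hdom hx
  have hfr : ∀ x, x ∈ frontier Om ↔ rho x = 0 := by
    intro x
    rw [frontier, hOm.interior_eq, Set.mem_sdiff, hcl]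
    constructor
    · rintro ⟨h1, h2⟩
      refine le_antisymm h1 (not_lt.mp fun h3 => h2 ?_)
      rw [hOD]
      exact h3
    · intro h1
      refine ⟨h1.le, fun h2 => ?_⟩
      rw [hOD] at h2
      have h3 : rho x < 0 := h2
      linarith
  have hX0 : InX rho v0 := by
    refine ⟨hv0, fun x hx => ?_, fun x hx => ?_⟩
    · rw [dv_eq]
      exact hd0 x ((hcl x).mpr hx)
    · have := ht0 x ((hfr x).mpr hx)
      rwa [gradient_eq, inner_gr] at this
  have hX1 : InX rho v1 := by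
    refine ⟨hv1, fun x hx => ?_, fun x hx => ?_⟩
    · rw [dv_eq]
      exact hd1 x ((hcl x).mpr hx)
    · have := ht1 x ((hfr x).mpr hx)
      rwa [gradient_eq, inner_gr] at this
  obtain ⟨x0, hx0⟩ := hSne
  have hx0f : rho x0 = 0 := (hfr x0).mp (hSf hx0)
  have hx0U : x0 ∈ U := by
    rw [hSU] at hx0
    exact hx0.1
  obtain ⟨V, Pr, hV, hPr, h1, h2, h3, h4, h5⟩ := main0 hN hD2 hLe hRe hLa hRz hFi hFA hCT hBT rho
    hdom (by rw [← hOD]; exact hconn) U hU x0 hx0f hx0U T hT v0 v1 hX0 hX1 p hp hp' ε hε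
  refine ⟨V, Pr, hV, hPr, fun t ht x hx => ?_, fun t ht x hx => ?_, fun t ht x hx => ?_,
    fun x hx => h4 x ((hcl x).mp hx), ?_⟩
  · rw [gradient_eq]
    exact h1 t x ht.1 ht.2 ((hcl x).mp hx)
  · have h6 := h2 t x ht.1 ht.2 ((hcl x).mp hx)
    rw [dv_eq] at h6
    exact h6
  · rw [gradient_eq, inner_gr]
    refine h3 t x ht.1 ht.2 ((hfr x).mp hx.1) fun hxU => hx.2 ?_
    rw [hSU]
    exact ⟨hxU, hx.1⟩
  · rw [hOD]
    exact h5

end MPfab
end

section
/-! MP_fabde4_an, module RXA (helper60): the ideal and the tame drift. -/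
set_option autoImplicit false
open MeasureTheory Set Filter Topology

namespace MPfab

namespace RxAN

open CloseN BrkCN

/-- componentwise extension -/
noncomputable def exV (Ex : (E → ℝ) → E → ℝ) (w : E → E) (x : E) : E :=
  WithLp.toLp 2 fun j => Ex (fun y => w y j) x

@[simp] lemma exV_apply (Ex : (E → ℝ) → E → ℝ) (w : E → E) (x : E) (j : Fin 3) :
    exV Ex w x j = Ex (fun y => w y j) x := rfl

lemma exV_in {ρ : E → ℝ} {R : ℝ} {Ex : (E → ℝ) → E → ℝ} (h : IsExt ρ R Ex) {w : E → E}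
    (hw : Sm w) : In R (exV Ex w) := by
  refine ⟨?_, fun x hx => ?_⟩
  · rw [sm_iff]
    intro j
    exact (h.supp _ (hw.comp_apply j)).smooth
  · ext j
    rw [exV_apply, (h.supp _ (hw.comp_apply j)).supp x hx]
    rfl

lemma exV_eq {ρ : E → ℝ} {R : ℝ} {Ex : (E → ℝ) → E → ℝ} (h : IsExt ρ R Ex) {w : E → E}
    (hw : Sm w) {x : E} (hx : ρ x ≤ 0) : exV Ex w x = w x := by
  ext j
  rw [exV_apply, h.eq _ (hw.comp_apply j) x hx]

lemma ex_sub {ρ : E → ℝ} {R : ℝ} {Ex : (E → ℝ) → E → ℝ} (h : IsExt ρ R Ex) {f g : E → ℝ}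
    (hf : Sm f) (hg : Sm g) : (fun x => Ex f x - Ex g x) = Ex (fun x => f x - g x) := by
  have h1 : Ex (fun x => (-1) * g x) = fun x => (-1) * Ex g x := h.smul (-1) g hg
  have h2 := h.add f (fun x => (-1) * g x) hf (contDiff_const.mul hg)
  have h3 : (fun x => f x - g x) = fun x => f x + (-1) * g x := by
    funext x
    ring
  rw [h3, h2, h1]
  funext x
  ring

lemma exV_sub {ρ : E → ℝ} {R : ℝ} {Ex : (E → ℝ) → E → ℝ} (h : IsExt ρ R Ex) {v w : E → E}
    (hv : Sm v) (hw : Sm w) :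
    (fun x => exV Ex v x - exV Ex w x) = exV Ex (fun x => v x - w x) := by
  funext x
  ext j
  have := congrFun (ex_sub h (hv.comp_apply j) (hw.comp_apply j)) x
  simpa using this

lemma norm_le_of_apply {v : E} {M : ℝ} (h : ∀ j, |v j| ≤ M) : ‖v‖ ≤ 3 * M := by
  have h1 : v = ∑ j, v j • eb j := by
    ext i
    simp [Finset.sum_apply, eb_apply]
  calc ‖v‖ = ‖∑ j, v j • eb j‖ := by rw [← h1]
    _ ≤ ∑ j, ‖v j • eb j‖ := norm_sum_le _ _
    _ ≤ ∑ _j : Fin 3, M := by
        refine Finset.sum_le_sum fun j _ => ?_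
        rw [norm_smul, eb, EuclideanSpace.norm_single]
        simpa using h j
    _ = 3 * M := by simp

lemma Bd_of_apply {S : Set E} {k : ℕ} {w : E → E} (hw : Sm w) {M : ℝ}
    (h : ∀ j, Bd S k (fun x => w x j) M) : Bd S k w (3 * M) := by
  intro α hα x hx
  refine norm_le_of_apply fun j => ?_
  have := h j α hα x hx
  rw [pds_apply hw] at this
  exact this

/-- smooth functions supported in a ball have bounded derivatives -/
lemma exists_Bd {F : Type*} [NormedAddCommGroup F] [NormedSpace ℝ F] {R : ℝ} {f : E → F}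
    (h : In R f) (k : ℕ) : ∃ c : ℝ, Bd univ k f c := by
  have h1 : ∀ α : List (Fin 3), ∃ c, ∀ x, ‖pds α f x‖ ≤ c := by
    intro α
    have hc : Continuous (pds α f) := (PDC.pds_smooth h.smooth α).continuous
    obtain ⟨c, hc'⟩ := (isCompact_closedBall (0 : E) R).exists_bound_of_continuousOn
      hc.continuousOn
    refine ⟨max c 0, fun x => ?_⟩
    by_cases hx : x ∈ Metric.closedBall (0 : E) R
    · exact (hc' x hx).trans (le_max_left _ _)
    · have hU : IsOpen (Metric.closedBall (0 : E) R)ᶜ := Metric.isClosed_closedBall.isOpen_compl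
      have h2 : pds α f x = pds α (fun _ => (0 : F)) x :=
        pds_eqOn hU (fun y hy => h.supp y (by
          simp only [mem_compl_iff, mem_closedBall_zero_iff, not_le] at hy
          exact hy.le)) α hx
      rw [h2, pds_zero, norm_zero]
      exact le_max_right _ _
  choose c hc using h1
  have hfin : {α : List (Fin 3) | α.length ≤ k}.Finite := List.finite_length_le (Fin 3) k
  obtain ⟨M, hM⟩ := (hfin.image c).bddAbove
  exact ⟨M, fun α hα x _ => (hc α x).trans (hM ⟨α, hα, rfl⟩)⟩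

lemma in_brk {R : ℝ} {X Y : E → E} (hX : In R X) (hY : In R Y) : In R (brk X Y) := by
  refine ⟨hX.smooth.brk hY.smooth, fun x hx => ?_⟩
  ext i
  rw [brk_apply]
  simp [hX.supp x hx, hY.supp x hx]

lemma in_drift {R : ℝ} {n : ℕ} {X Y : Fin n → E → E} {H : E → E} (hX : ∀ i, In R (X i))
    (hY : ∀ i, In R (Y i)) (hH : In R H) : In R (drift X Y H) := by
  refine ⟨?_, fun x hx => ?_⟩
  · unfold drift
    exact hH.smooth.add (ContDiff.sum fun i _ => (in_brk (hX i) (hY i)).smooth)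
  · unfold drift
    rw [hH.supp x hx, Finset.sum_eq_zero fun i _ => (in_brk (hX i) (hY i)).supp x hx, add_zero]

lemma brk_congr {X Y X' Y' : E → E} {x : E} (h1 : X x = X' x) (h2 : Y x = Y' x)
    (h3 : ∀ j, pd j X x = pd j X' x) (h4 : ∀ j, pd j Y x = pd j Y' x) :
    brk X Y x = brk X' Y' x := by
  rw [brk_vec, brk_vec]
  refine Finset.sum_congr rfl fun j _ => ?_
  rw [h1, h2, h3, h4]

lemma drift_congr {n : ℕ} {X Y X' Y' : Fin n → E → E} {H H' : E → E} {x : E}
    (h1 : ∀ i, X i x = X' i x) (h2 : ∀ i, Y i x = Y' i x) (h3 : ∀ i j, pd j (X i) x = pd j (X' i) x)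
    (h4 : ∀ i j, pd j (Y i) x = pd j (Y' i) x) (h5 : H x = H' x) :
    drift X Y H x = drift X' Y' H' x := by
  unfold drift
  rw [h5]
  congr 1
  exact Finset.sum_congr rfl fun i _ => brk_congr (h1 i) (h2 i) (h3 i) (h4 i)

lemma tan_drift (hT : SpecBrkT) {ρ : E → ℝ} (hρ : Dom ρ) {n : ℕ} {X Y : Fin n → E → E}
    {H : E → E} (sX : ∀ i, Sm (X i)) (sY : ∀ i, Sm (Y i)) (hX : ∀ i, Tan ρ (X i))
    (hY : ∀ i, Tan ρ (Y i)) (hH : Tan ρ H) : Tan ρ (drift X Y H) := by
  intro x hx
  unfold drift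
  rw [map_add, map_sum, hH x hx, zero_add]
  exact Finset.sum_eq_zero fun i _ =>
    hT.tan ρ hρ.smooth hρ.reg (X i) (Y i) (sX i) (sY i) (hX i) (hY i) x hx

/-- approximation of one formally harmonic gradient -/
lemma apx (hCT : SpecCTan) (hR : SpecRunge) (hSob : SpecSob) (hHSB : SpecHSB) {ρ : E → ℝ} {R : ℝ}
    {P : (E → E) → E → E} {Q : (E → E) → E → ℝ} {B0 : Set E} (h : Dat ρ R P Q B0)
    {Ex : (E → ℝ) → E → ℝ} (hEx : IsExt ρ R Ex) {f : E → ℝ} (hf : FH ρ 12 f) {η : ℝ}
    (hη : 0 < η) : ∃ (Ψ a Xt : E → E), Test B0 Ψ ∧ Test (D ρ) a ∧ In R Xt ∧ Tan ρ Xt ∧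
      (∀ x, ρ x ≤ 0 → Xt x = gr (Q Ψ) x + a x) ∧
      Bd univ 9 (fun x => Xt x - exV Ex (gr f) x) η := by
  obtain ⟨hh, hhs, hhe⟩ := hf.harm
  have hDom : Dom ρ := h.dom.toDom
  obtain ⟨C, hC0, hC⟩ := hSob ρ hDom
  obtain ⟨C', hC'⟩ := hEx.bdb 9
  -- choice of the accuracy
  obtain ⟨m, hm0, hm1⟩ : ∃ m : ℝ, 0 < m ∧ 3 * (|C'| * m) ≤ η := by
    refine ⟨η / (3 * (|C'| + 1)), by positivity, ?_⟩
    have h1 : 3 * (|C'| * (η / (3 * (|C'| + 1)))) = η * (|C'| / (|C'| + 1)) := by
      field_simp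
    rw [h1]
    have h2 : |C'| / (|C'| + 1) ≤ 1 := by
      rw [div_le_one (by positivity)]
      linarith
    nlinarith
  obtain ⟨ε, hε0, hε1⟩ : ∃ ε : ℝ, 0 < ε ∧ C * ε ≤ m ^ 2 := by
    refine ⟨m ^ 2 / (C + 1), by positivity, ?_⟩
    rw [mul_div_assoc', div_le_iff₀ (by positivity)]
    nlinarith [sq_nonneg m]
  obtain ⟨Ψ, a, hΨ, ha, hs1⟩ := hR ρ R P Q B0 univ 12 12 f hh ε h.dom h.conn h.ler h.op h.ne h.sub
    le_rfl hf.smooth hhs hf.neu isOpen_univ (fun _ _ => mem_univ _) (fun x _ => hhe x) hε0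
  have hQs : Sm (gr (Q Ψ)) := (h.ler.inQ Ψ hΨ.smooth).smooth.gr
  have hsum : Sm (fun x => gr (Q Ψ) x + a x) := hQs.add ha.smooth
  have hd : Sm (fun x => gr f x - gr (Q Ψ) x - a x) := (hf.smooth.gr.sub hQs).sub ha.smooth
  have hd' : Sm (fun x => (gr (Q Ψ) x + a x) - gr f x) := hsum.sub hf.smooth.gr
  refine ⟨Ψ, a, exV Ex (fun x => gr (Q Ψ) x + a x), hΨ, ha, exV_in hEx hsum, ?_,
    fun x hx => exV_eq hEx hsum hx, ?_⟩
  · intro x hx
    rw [exV_eq hEx hsum hx.le, map_add]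
    have h1 := (hCT ρ R P Q B0 Ψ h.dom h.ler h.sub hΨ h.pos).2 x hx
    have h2 : a x = 0 := by
      refine image_eq_zero_of_notMem_tsupport fun hcon => ?_
      have := ha.sub hcon
      simp only [D, mem_setOf_eq] at this
      linarith
    rw [h1, h2, map_zero, add_zero]
  · -- bounds on the domain
    have hb : Bd (D ρ) 9 (fun x => gr f x - gr (Q Ψ) x - a x) m := by
      intro α hα x hx
      have h1 := hC E _ (PDC.pds_smooth hd α) x hx
      have h2 := hHSB.pds_le E (D ρ) 3 α _ hd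
      have h3 := hHSB.mono E (D ρ) (3 + α.length) 12 (fun x => gr f x - gr (Q Ψ) x - a x)
        (by omega)
      have h4 : ‖pds α (fun x => gr f x - gr (Q Ψ) x - a x) x‖ ^ 2 ≤ m ^ 2 := by
        calc _ ≤ C * hs (D ρ) 3 (pds α fun x => gr f x - gr (Q Ψ) x - a x) := h1
          _ ≤ C * ε := mul_le_mul_of_nonneg_left ((h2.trans h3).trans hs1.le) hC0
          _ ≤ m ^ 2 := hε1
      exact (abs_le_of_sq_le_sq' h4 hm0.le).2
    have hb' : Bd (D ρ) 9 (fun x => (gr (Q Ψ) x + a x) - gr f x) m := by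
      intro α hα x hx
      have h1 := hb α hα x hx
      have h2 : (fun x => (gr (Q Ψ) x + a x) - gr f x) =
          fun x => (fun _ => (0 : E)) x - (fun x => gr f x - gr (Q Ψ) x - a x) x := by
        funext y
        simp only
        abel
      rw [h2, pds_sub contDiff_const hd, pds_zero]
      simpa using h1
    rw [exV_sub hEx hsum hf.smooth.gr]
    refine Bd_mono (Bd_of_apply (exV_in hEx hd').smooth (M := |C'| * m) fun j => ?_) le_rfl hm1
    have h5 := hC' (fun x => ((gr (Q Ψ) x + a x) - gr f x) j) m (hd'.comp_apply j)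
      (Bd_apply hd' hb' j)
    exact Bd_mono h5 le_rfl (mul_le_mul_of_nonneg_right (le_abs_self _) hm0.le)

end RxAN

open RxAN CloseN BrkCN in
/-- RXA -/
theorem specRxA (hBdry : SpecBdry) (hDivB : SpecDivB) (hFl : SpecFlatD) (hSeel : SpecSeel)
    (hSob : SpecSob) (hHSB : SpecHSB) (hBrkC : SpecBrkC) (hBrkT : SpecBrkT) (hCT : SpecCTan)
    (hR : SpecRunge) : SpecRxA := by
  intro ρ R P Q B0 V0 h hV0
  have hDom : Dom ρ := h.dom.toDom
  have hT : Tan ρ (fun x => -V0 x) := fun x hx => by rw [map_neg, hV0.tan x hx, neg_zero]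
  obtain ⟨n, F, G, H0, hF, hG, hH, hB⟩ := hBdry ρ h.dom 12 (fun x => -V0 x) hV0.smooth.neg hT
  obtain ⟨Ex, hEx⟩ := hSeel ρ R h.dom h.ball
  have w2 : ∀ f, FH ρ 12 f → FH ρ 2 f := by
    intro f hf
    obtain ⟨hh, hhs, hhe⟩ := hf.harm
    refine ⟨hf.smooth, hf.neu, fun x => ρ x ^ 10 * hh x, (h.dom.smooth.pow 10).mul hhs, fun x => ?_⟩
    rw [hhe x]
    ring
  have smF : ∀ i, Sm (gr (F i)) := fun i => (hF i).smooth.gr
  have smG : ∀ i, Sm (gr (G i)) := fun i => (hG i).smooth.gr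
  have smH : Sm (gr H0) := hH.smooth.gr
  have smB : Sm (drift (fun i => gr (F i)) (fun i => gr (G i)) (gr H0)) := by
    unfold drift
    exact smH.add (ContDiff.sum fun i _ => (smF i).brk (smG i))
  set Xh : Fin n → E → E := fun i => exV Ex (gr (F i)) with hXh
  set Yh : Fin n → E → E := fun i => exV Ex (gr (G i)) with hYh
  set Hh : E → E := exV Ex (gr H0) with hHh
  have inXh : ∀ i, In R (Xh i) := fun i => exV_in hEx (smF i)
  have inYh : ∀ i, In R (Yh i) := fun i => exV_in hEx (smG i)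
  have inHh : In R Hh := exV_in hEx smH
  -- equality of all derivatives on the closed domain
  have hcl : ∀ (w w' : E → E), Sm w → Sm w' → (∀ x ∈ D ρ, w x = w' x) → ∀ x, ρ x ≤ 0 → ∀ j,
      pd j w x = pd j w' x := fun w w' hw hw' he x hx j =>
    specClose E ρ w w' hDom hw hw' he [j] x hx
  refine ⟨drift (fun i => gr (F i)) (fun i => gr (G i)) (gr H0), drift Xh Yh Hh, smB,
    in_drift inXh inYh inHh, ?_, ?_, ?_, ?_⟩
  · intro x hx
    refine drift_congr (fun i => exV_eq hEx (smF i) hx) (fun i => exV_eq hEx (smG i) hx)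
      (fun i j => ?_) (fun i j => ?_) (exV_eq hEx smH hx)
    · exact hcl _ _ (inXh i).smooth (smF i) (fun y hy => exV_eq hEx (smF i) (le_of_lt hy)) x hx j
    · exact hcl _ _ (inYh i).smooth (smG i) (fun y hy => exV_eq hEx (smG i) (le_of_lt hy)) x hx j
  · intro x hx
    have := hB x hx
    unfold drift
    rw [← this]
    simp
  · obtain ⟨h1, h1s, h1e⟩ := hDivB ρ h.dom n F G H0 (fun i => w2 _ (hF i)) (fun i => w2 _ (hG i))
      (w2 _ hH)
    obtain ⟨h2, h2s, h2e⟩ := hFl ρ (dv V0) h.dom hV0.smooth.dv hV0.dv0 1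
    refine ⟨fun x => h2 x + h1 x, h2s.add h1s, fun x => ?_⟩
    have h3 := h1e x
    have h4 := h2e x
    change dv V0 x + dv (fun y => gr H0 y + ∑ i, brk (gr (F i)) (gr (G i)) y) x = _
    rw [h3, h4]
    ring
  · intro η hη
    -- uniform bounds
    have hbd : ∀ (w : E → E), In R w → ∃ c, Bd univ 9 w c := fun w hw => exists_Bd hw 9
    choose cX hcX using fun i => hbd _ (inXh i)
    choose cY hcY using fun i => hbd _ (inYh i)
    set K0 : ℝ := 1 + (∑ i, |cX i|) + ∑ i, |cY i| with hK0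
    have leX : ∀ i, |cX i| ≤ ∑ i, |cX i| := fun i =>
      Finset.single_le_sum (f := fun i => |cX i|) (fun _ _ => abs_nonneg _) (Finset.mem_univ i)
    have leY : ∀ i, |cY i| ≤ ∑ i, |cY i| := fun i =>
      Finset.single_le_sum (f := fun i => |cY i|) (fun _ _ => abs_nonneg _) (Finset.mem_univ i)
    have nX : 0 ≤ ∑ i, |cX i| := Finset.sum_nonneg fun _ _ => abs_nonneg _
    have nY : 0 ≤ ∑ i, |cY i| := Finset.sum_nonneg fun _ _ => abs_nonneg _
    obtain ⟨C, hC0, hC⟩ := hBrkC n 8 K0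
    obtain ⟨η', hη0, hη1, hη2⟩ : ∃ η' : ℝ, 0 < η' ∧ η' ≤ 1 ∧ C * η' ≤ η := by
      refine ⟨min 1 (η / (C + 1)), by positivity, min_le_left _ _, ?_⟩
      calc C * min 1 (η / (C + 1)) ≤ C * (η / (C + 1)) :=
            mul_le_mul_of_nonneg_left (min_le_right _ _) hC0
        _ = η * (C / (C + 1)) := by ring
        _ ≤ η * 1 := by
            refine mul_le_mul_of_nonneg_left ?_ hη.le
            rw [div_le_one (by positivity)]
            linarith
        _ = η := mul_one η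
    choose ΨX aX Xt tX1 tX2 tX3 tX4 tX5 tX6 using fun i =>
      apx hCT hR hSob hHSB h hEx (hF i) hη0
    choose ΨY aY Yt tY1 tY2 tY3 tY4 tY5 tY6 using fun i =>
      apx hCT hR hSob hHSB h hEx (hG i) hη0
    obtain ⟨ΨH, aH, Ht, tH1, tH2, tH3, tH4, tH5, tH6⟩ := apx hCT hR hSob hHSB h hEx hH hη0
    set K : Set E := (⋃ i, tsupport (aX i)) ∪ (⋃ i, tsupport (aY i)) ∪ tsupport aH with hK
    have hgrs : ∀ Ψ, Sm Ψ → Sm (gr (Q Ψ)) := fun Ψ hΨ => (h.ler.inQ Ψ hΨ).smooth.gr
    -- derivatives outside K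
    have key : ∀ (Ψ a X : E → E), Test B0 Ψ → Test (D ρ) a → In R X →
        (∀ x, ρ x ≤ 0 → X x = gr (Q Ψ) x + a x) → ∀ x, ρ x ≤ 0 → x ∉ tsupport a →
        X x = gr (Q Ψ) x ∧ ∀ j, pd j X x = pd j (gr (Q Ψ)) x := by
      intro Ψ a X hΨ ha hX he x hx hxa
      have ha0 : a =ᶠ[𝓝 x] fun _ => 0 := notMem_tsupport_iff_eventuallyEq.1 hxa
      refine ⟨by rw [he x hx, ha0.eq_of_nhds, add_zero], fun j => ?_⟩
      rw [hcl X (fun x => gr (Q Ψ) x + a x) hX.smooth ((hgrs Ψ hΨ.smooth).add ha.smooth)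
        (fun y hy => he y (le_of_lt hy)) x hx j]
      have h1 : (fun x => gr (Q Ψ) x + a x) =ᶠ[𝓝 x] gr (Q Ψ) := by
        filter_upwards [ha0] with y hy
        rw [hy, add_zero]
      exact (pds_congr h1 [j]).eq_of_nhds
    refine ⟨n, fun i => gr (Q (ΨX i)), fun i => gr (Q (ΨY i)), gr (Q ΨH), drift Xt Yt Ht, K,
      fun i => ⟨ΨX i, tX1 i, rfl⟩, fun i => ⟨ΨY i, tY1 i, rfl⟩, ⟨ΨH, tH1, rfl⟩,
      in_drift tX3 tY3 tH3,
      tan_drift hBrkT hDom (fun i => (tX3 i).smooth) (fun i => (tY3 i).smooth) tX4 tY4 tH4,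
      ?_, ?_, ?_, ?_⟩
    · have hXt : ∀ i, Bd univ 9 (Xt i) K0 := by
        intro i
        have h1 := Bd_add ((tX3 i).smooth.sub (inXh i).smooth) (inXh i).smooth (tX6 i) (hcX i)
        have h2 : (fun x => (Xt i x - exV Ex (gr (F i)) x) + Xh i x) = Xt i := by
          funext x
          simp [hXh]
        rw [h2] at h1
        exact Bd_mono h1 le_rfl (by have := leX i; have := le_abs_self (cX i); linarith)
      have hYt : ∀ i, Bd univ 9 (Yt i) K0 := by
        intro i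
        have h1 := Bd_add ((tY3 i).smooth.sub (inYh i).smooth) (inYh i).smooth (tY6 i) (hcY i)
        have h2 : (fun x => (Yt i x - exV Ex (gr (G i)) x) + Yh i x) = Yt i := by
          funext x
          simp [hYh]
        rw [h2] at h1
        exact Bd_mono h1 le_rfl (by have := leY i; have := le_abs_self (cY i); linarith)
      refine Bd_mono (hC Xt Yt Xh Yh Ht Hh η' (fun i => (tX3 i).smooth) (fun i => (tY3 i).smooth)
        (fun i => (inXh i).smooth) (fun i => (inYh i).smooth) tH3.smooth inHh.smooth hXt hYt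
        (fun i => Bd_mono (hcX i) le_rfl (by have := leX i; have := le_abs_self (cX i); linarith))
        (fun i => Bd_mono (hcY i) le_rfl (by have := leY i; have := le_abs_self (cY i); linarith))
        tX6 tY6 tH6) le_rfl hη2
    · exact ((isCompact_iUnion fun i => (tX2 i).cpt).union
        (isCompact_iUnion fun i => (tY2 i).cpt)).union tH2.cpt
    · refine union_subset (union_subset (iUnion_subset fun i => (tX2 i).sub)
        (iUnion_subset fun i => (tY2 i).sub)) tH2.sub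
    · intro x hx hxK
      simp only [hK, mem_union, mem_iUnion, not_or, not_exists] at hxK
      have kX := fun i => key (ΨX i) (aX i) (Xt i) (tX1 i) (tX2 i) (tX3 i) (tX5 i) x hx
        (hxK.1.1 i)
      have kY := fun i => key (ΨY i) (aY i) (Yt i) (tY1 i) (tY2 i) (tY3 i) (tY5 i) x hx
        (hxK.1.2 i)
      have kH := key ΨH aH Ht tH1 tH2 tH3 tH5 x hx hxK.2
      exact drift_congr (fun i => (kX i).1) (fun i => (kY i).1) (fun i j => (kX i).2 j)
        (fun i j => (kY i).2 j) kH.1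

end MPfab
end
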