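import Pool.Agent.Lib.MP_fabde4_an.SpecM
import Pool.Agent.Lib.MP_fabde4_an.M.Lop
import Pool.Agent.Lib.MP_fabde4_an.SpecN
import Pool.Agent.Lib.MP_fabde4_an.N.Reset
import Pool.Agent.Lib.MP_fabde4_an.N.RxA
import Pool.Agent.Lib.MP_fabde4_an.M.Cont
import Pool.Agent.Lib.MP_fabde4_an.F.Orbit

section
/-!
MP_fabde4_an, module PBDT: the time derivative of a pull-back along a flow.
-/
set_option autoImplicit false
open MeasureTheory Set

namespace MPfab

namespace PbDtM

theorem hasDerivAt_comp_iff {f : ℝ → E} {f' : E} {t : ℝ} :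
    HasDerivAt f f' t ↔ ∀ i, HasDerivAt (fun s => f s i) (f' i) t := by
  rw [hasDerivAt_iff_hasFDerivAt, ← hasFDerivWithinAt_univ, hasFDerivWithinAt_euclidean]
  refine forall_congr' fun i => ?_
  rw [hasFDerivWithinAt_univ, hasDerivAt_iff_hasFDerivAt]
  have e : (PiLp.proj 2 (fun _ : Fin 3 => ℝ) i).comp (ContinuousLinearMap.toSpanSingleton ℝ f') =
      ContinuousLinearMap.toSpanSingleton ℝ (f' i) := by
    ext
    simp
  rw [← e]

/-- partial derivatives of a composition -/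
theorem pd_cmp {F : Type*} [NormedAddCommGroup F] [NormedSpace ℝ F] {f : E → F} {Φ : E → E}
    (hf : Sm f) (hΦ : Sm Φ) (i : Fin 3) (x : E) :
    pd i (fun y => f (Φ y)) x = ∑ k, pd i Φ x k • pd k f (Φ x) := by
  have h1 : HasFDerivAt (fun y => f (Φ y)) ((fderiv ℝ f (Φ x)).comp (fderiv ℝ Φ x)) x :=
    (hf.differentiable (Φ x)).hasFDerivAt.comp x
      (hΦ.differentiable x).hasFDerivAt
  rw [pd_def, h1.fderiv, ContinuousLinearMap.comp_apply, fderiv_eq_sum f (Φ x)]
  rfl

/-- the derivative along a curve -/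
theorem along {F : Type*} [NormedAddCommGroup F] [NormedSpace ℝ F] {m : ℝ × E → F} (hm : Sm m)
    {γ : ℝ → E} {v : E} {t : ℝ} (hγ : HasDerivAt γ v t) :
    HasDerivAt (fun s => m (s, γ s)) (dt m (t, γ t) + ∑ k, v k • pd k (sl m t) (γ t)) t := by
  have h1 : HasFDerivAt m (fderiv ℝ m (t, γ t)) (t, γ t) :=
    (hm.differentiable _).hasFDerivAt
  have h2 : HasDerivAt (fun s => (s, γ s)) ((1 : ℝ), v) t := (hasDerivAt_id t).prodMk hγ
  have h3 := h1.comp_hasDerivAt t h2
  have e : dt m (t, γ t) + ∑ k, v k • pd k (sl m t) (γ t) = fderiv ℝ m (t, γ t) ((1 : ℝ), v) := by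
    have e1 : ((1 : ℝ), v) = ((1 : ℝ), (0 : E)) + ((0 : ℝ), v) := by simp
    rw [e1, map_add, PDC.dt_eq hm]
    congr 1
    have h4 : HasFDerivAt (fun y : E => (t, y))
        ((0 : E →L[ℝ] ℝ).prod (ContinuousLinearMap.id ℝ E)) (γ t) :=
      (hasFDerivAt_const t (γ t)).prodMk (hasFDerivAt_id (γ t))
    have h5 : HasFDerivAt (sl m t) _ (γ t) := h1.comp (γ t) h4
    rw [← fderiv_eq_sum (sl m t) (γ t) v, h5.fderiv]
    simp
  rw [e]
  exact h3

end PbDtM

open PbDtM in
theorem specPbDt : SpecPbDt := by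
  intro Φ b m hΦ hb hm hfl t x
  rw [hasDerivAt_comp_iff]
  intro i
  have hdt : sl (dt Φ) t = fun y => sl b t (sl Φ t y) := by
    funext y
    exact (hfl t y).deriv
  have h1 : HasDerivAt (fun s => pd i (sl Φ s) x)
      (∑ k, pd i (sl Φ t) x k • pd k (sl b t) (Φ (t, x))) t := by
    have h := PDC.dt_pds hΦ [i] t x
    have e : pds [i] (sl (dt Φ) t) x =
        ∑ k, pd i (sl Φ t) x k • pd k (sl b t) (Φ (t, x)) := by
      change pd i (sl (dt Φ) t) x = _
      rw [hdt, pd_cmp (PDC.sl_smooth hb t) (PDC.sl_smooth hΦ t)]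
      rfl
    rw [e] at h
    exact h
  have h2 := along hm (hfl t x)
  rw [hasDerivAt_comp_iff] at h1 h2
  have h3 : HasDerivAt (fun s => ∑ j, pd i (sl Φ s) x j * m (s, Φ (s, x)) j)
      (∑ j, ((∑ k, pd i (sl Φ t) x k • pd k (sl b t) (Φ (t, x))) j * m (t, Φ (t, x)) j +
        pd i (sl Φ t) x j *
          (dt m (t, Φ (t, x)) + ∑ k, b (t, Φ (t, x)) k • pd k (sl m t) (Φ (t, x))) j)) t :=
    HasDerivAt.fun_sum fun j _ => (h1 j).mul (h2 j)
  have e : pb (sl Φ t) (fun y => dt m (t, y) + lie (sl b t) (sl m t) y) x i =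
      ∑ j, ((∑ k, pd i (sl Φ t) x k • pd k (sl b t) (Φ (t, x))) j * m (t, Φ (t, x)) j +
        pd i (sl Φ t) x j *
          (dt m (t, Φ (t, x)) + ∑ k, b (t, Φ (t, x)) k • pd k (sl m t) (Φ (t, x))) j) := by
    change ∑ j, pd i (sl Φ t) x j * ((dt m (t, Φ (t, x)) +
      lie (sl b t) (sl m t) (Φ (t, x))) j) = _
    simp only [PiLp.add_apply, lie_apply, WithLp.ofLp_smul,
      Pi.smul_apply, smul_eq_mul, Fin.sum_univ_three]
    simp only [sl]
    ring
  rw [e]
  exact h3

end MPfab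
end

section
/-!
MP_fabde4_an, part N: module FINAL (from the moving frame to the Euler equation).
-/
set_option autoImplicit false
open MeasureTheory Set Filter Topology

namespace MPfab

namespace FinalN

/-! ### elementary calculus -/

theorem gr_add {f g : E → ℝ} (hf : Sm f) (hg : Sm g) (x : E) :
    gr (fun y => f y + g y) x = gr f x + gr g x := by
  ext i
  exact PDC.pd_add (hf.differentiable x) (hg.differentiable x) i

theorem gr_smul (c : ℝ) {f : E → ℝ} (hf : Sm f) (x : E) :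
    gr (fun y => c * f y) x = c • gr f x := by
  ext i
  exact PDC.pd_const_smul c (hf.differentiable x) i

theorem sm_mul {f g : E → ℝ} (hf : Sm f) (hg : Sm g) : Sm (fun y => f y * g y) :=
  ContDiff.mul hf hg

theorem hasDerivAt_gr {f : ℝ × E → ℝ} (hf : Sm f) (t : ℝ) (x : E) :
    HasDerivAt (fun s => gr (sl f s) x) (gr (sl (dt f) t) x) t := by
  have h3 : ∀ i, HasDerivAt (fun s => gr (sl f s) x i) (gr (sl (dt f) t) x i) t :=
    fun i => PDC.dt_pds hf [i] t x
  have h5 : HasDerivAt (fun s => (fun i => gr (sl f s) x i : Fin 3 → ℝ))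
      (fun i => gr (sl (dt f) t) x i) t := hasDerivAt_pi.2 h3
  exact ((PiLp.continuousLinearEquiv 2 ℝ (fun _ : Fin 3 => ℝ)).symm :
    (Fin 3 → ℝ) →L[ℝ] E).hasFDerivAt.comp_hasDerivAt t h5

theorem curl_congr {f g : E → E} {x : E} (h : ∀ i, pd i f x = pd i g x) : curl f x = curl g x := by
  unfold curl
  simp only [h]

theorem dv_congr {f g : E → E} {x : E} (h : ∀ i, pd i f x = pd i g x) : dv f x = dv g x := by
  unfold dv
  simp only [h]

theorem curl_sub_gr {f : E → E} {q : E → ℝ} (hf : Sm f) (hq : Sm q) (x : E) :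
    curl (fun y => f y - gr q y) x = curl f x := by
  have h4 : ∀ i, pd i (fun y => f y - gr q y) x = pd i f x - pd i (gr q) x := fun i =>
    PDC.pd_sub (hf.differentiable x) (hq.gr.differentiable x) i
  have h5 := PDC.curl_gr hq x
  have h6 : ∀ i, curl (gr q) x i = 0 := fun i => by rw [h5]; rfl
  have h60 := h6 0
  have h61 := h6 1
  have h62 := h6 2
  rw [curl_apply0] at h60
  rw [curl_apply1] at h61
  rw [curl_apply2] at h62
  ext i
  fin_cases i
  · show curl (fun y => f y - gr q y) x 0 = curl f x 0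
    rw [curl_apply0, curl_apply0, h4, h4, PiLp.sub_apply, PiLp.sub_apply]
    linarith
  · show curl (fun y => f y - gr q y) x 1 = curl f x 1
    rw [curl_apply1, curl_apply1, h4, h4, PiLp.sub_apply, PiLp.sub_apply]
    linarith
  · show curl (fun y => f y - gr q y) x 2 = curl f x 2
    rw [curl_apply2, curl_apply2, h4, h4, PiLp.sub_apply, PiLp.sub_apply]
    linarith

/-- `(v·∇)v = curl v × v + ∇|v|²/2` -/
theorem conv {v : E → E} (hv : Sm v) (x : E) : fderiv ℝ v x (v x) =
    cr (curl v x) (v x) + gr (fun y => (1 / 2 : ℝ) * ∑ k, v y k * v y k) x := by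
  have hvd : ∀ k, DifferentiableAt ℝ (fun y => v y k) x := fun k =>
    Sm.differentiable (hv.comp_apply k) x
  have hs : Sm (fun y => ∑ k, v y k * v y k) :=
    ContDiff.sum fun k _ => (hv.comp_apply k).mul (hv.comp_apply k)
  have h1 : ∀ i, pd i (fun y => (1 / 2 : ℝ) * ∑ k, v y k * v y k) x = ∑ k, v x k * pd i v x k := by
    intro i
    have h2 : pd i (fun y => (1 / 2 : ℝ) * ∑ k, v y k * v y k) x =
        (1 / 2 : ℝ) * pd i (fun y => ∑ k, v y k * v y k) x :=
      PDC.pd_const_smul (1 / 2 : ℝ) (hs.differentiable x) i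
    rw [h2, PDC.pd_sum (f := fun k y => v y k * v y k) (fun k _ => (hvd k).mul (hvd k)),
      Finset.mul_sum]
    refine Finset.sum_congr rfl fun k _ => ?_
    rw [PDC.pd_mul (hvd k) (hvd k), PDC.pd_comp_apply hv i k]
    ring
  rw [fderiv_eq_sum]
  ext i
  rw [PiLp.add_apply, gr_apply, h1]
  fin_cases i <;> simp [Fin.sum_univ_three] <;> ring

theorem pb_add (Φ G H : E → E) (x : E) :
    pb Φ (fun y => G y + H y) x = pb Φ G x + pb Φ H x := by
  ext i
  show (∑ j, pd i Φ x j * (G (Φ x) + H (Φ x)) j) =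
    (∑ j, pd i Φ x j * G (Φ x) j) + ∑ j, pd i Φ x j * H (Φ x) j
  rw [← Finset.sum_add_distrib]
  refine Finset.sum_congr rfl fun j _ => ?_
  rw [PiLp.add_apply]
  ring

theorem cr_add (u v w : E) : cr u (v + w) = cr u v + cr u w := by
  ext i
  fin_cases i <;> simp <;> ring

/-! ### operators -/

theorem cop_Q {ρ : E → ℝ} {R : ℝ} {P : (E → E) → E → E} {Q : (E → E) → E → ℝ}
    (hL : Leray ρ R P Q) : COp R Q := by
  refine ⟨fun f g hf hg => hL.addQ f g hf.smooth hg.smooth,
    fun c f hf => hL.smulQ c f hf.smooth, fun f hf => hL.inQ f hf.smooth, fun k => ?_⟩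
  obtain ⟨C, hC⟩ := hL.bdQ k
  refine ⟨k, max C 0, le_max_right _ _, fun f hf => ?_⟩
  have h1 := HSB.mono_set (S := D ρ) (S' := univ) k f (subset_univ _)
    (Or.inr (LopM.hcs hf)) hf.smooth
  have h0 := HSB.nonneg (D ρ) k f
  calc hs univ k (Q f) ≤ hs univ (k + 1) (Q f) := HSB.mono_succ _ _ _
    _ ≤ C * hs (D ρ) k f := hC f hf.smooth
    _ ≤ max C 0 * hs (D ρ) k f := mul_le_mul_of_nonneg_right (le_max_left _ _) h0
    _ ≤ max C 0 * hs univ k f := mul_le_mul_of_nonneg_left h1 (le_max_right _ _)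

theorem inT_op (hO : SpecIncOp) {F G : Type} [NormedAddCommGroup F] [NormedSpace ℝ F]
    [FiniteDimensional ℝ F] [NormedAddCommGroup G] [NormedSpace ℝ G] [FiniteDimensional ℝ G]
    {R : ℝ} (hR : 0 < R) {Q : (E → F) → (E → G)} (hQ : COp R Q) {m : ℝ × E → F}
    (hm : InT R m) : InT R (fun p => Q (sl m p.1) p.2) :=
  specIncSm.of_all G R _ fun j => hO F G R Q hR hQ j m (specIncSm.inc F R j m hR hm)

/-- divergence of a control field outside its source -/
theorem dv_ctl {ρ : E → ℝ} {R : ℝ} {P : (E → E) → E → E} {Q : (E → E) → E → ℝ} {B0 : Set E}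
    (hD : Dat ρ R P Q B0) {Ψ : E → E} (hΨ : Test B0 Ψ) {x : E} (hx : ρ x ≤ 0) (hxB : x ∉ B0) :
    dv (gr (Q Ψ)) x = 0 := by
  have hL := hD.ler
  have hQ := hL.inQ Ψ hΨ.smooth
  have hP := hL.inP Ψ hΨ.smooth
  have h1 : ∀ i, pd i (gr (Q Ψ)) x = pd i (fun y => Ψ y - P Ψ y) x := fun i =>
    specClose E ρ (gr (Q Ψ)) (fun y => Ψ y - P Ψ y) hD.dom.toDom hQ.smooth.gr
      (hΨ.smooth.sub hP.smooth) (fun y hy => (hL.dec Ψ hΨ.smooth y (le_of_lt hy)).symm) [i] x hx
  have h2 : ∀ i, pd i Ψ x = 0 := by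
    intro i
    have h3 : x ∉ tsupport Ψ := fun h => hxB (hΨ.sub h)
    have h4 : Ψ =ᶠ[nhds x] fun _ => 0 := notMem_tsupport_iff_eventuallyEq.1 h3
    unfold pd
    rw [h4.fderiv_eq]
    simp
  have h3 : ∀ i, pd i (fun y => Ψ y - P Ψ y) x = - pd i (P Ψ) x := by
    intro i
    rw [PDC.pd_sub (hΨ.smooth.differentiable x) (hP.smooth.differentiable x), h2, zero_sub]
  have h4 := (hL.inX Ψ hΨ.smooth).dv0 x hx
  unfold dv at h4 ⊢
  simp only [h1, h3, PiLp.neg_apply, Finset.sum_neg_distrib]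
  rw [h4, neg_zero]

end FinalN

open FinalN in
/-- module FINAL -/
theorem specFinal (hO : SpecIncOp) : SpecFinal := by
  intro σ ρ R T P1 Q1 P2 Q2 B0 v0 κ a b Φ Ψ M F π hσ hσρ hL1 hDat hB0 hv0 hT hκ ha hπ hκ1 ha0
    haT hWord hb0 hbT hWF hM hEq hM0 hpbF
  have hR := hDat.pos
  have hL2 := hDat.ler
  obtain ⟨N, lam, X, hlam, hX, hbX⟩ := hWord
  choose Ξ hΞ hXΞ using hX
  have hdif : ∀ t, Dif R (sl Φ t) (sl Ψ t) := specWfl.dif R b Φ Ψ hWF
  have hdif' : ∀ t, Dif R (sl Ψ t) (sl Φ t) := fun t => specPbAlg.dif R _ _ (hdif t)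
  -- the momentum in the fixed frame
  set m : ℝ × E → E := fun p => pb (sl Ψ p.1) (sl M p.1) p.2 with hm
  have hmT : InT R m := by
    refine ⟨specPbSm.pb ℝ Ψ M hWF.smoothi hM.smooth, fun t x hx => ?_⟩
    exact (specPbAlg.inp R (sl Ψ t) (sl Φ t) (sl M t) (hdif' t)
      ⟨PDC.sl_smooth hM.smooth t, fun y hy => hM.supp t y hy⟩).supp x hx
  have hms : ∀ t, Sm (sl m t) := fun t => PDC.sl_smooth hmT.smooth t
  have hslm : ∀ t, sl m t = pb (sl Ψ t) (sl M t) := fun t => rfl
  -- the operators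
  have hP1 : InT R (fun p => P1 (sl m p.1) p.2) :=
    inT_op hO hR (specLop σ R P1 Q1 hσ.toDom hL1).cop hmT
  have hP2 : InT R (fun p => P2 (sl m p.1) p.2) :=
    inT_op hO hR (specLop ρ R P2 Q2 hDat.dom.toDom hL2).cop hmT
  have hQ1 : InT R (fun p => Q1 (sl m p.1) p.2) := inT_op hO hR (cop_Q hL1) hmT
  have hQ2 : InT R (fun p => Q2 (sl m p.1) p.2) := inT_op hO hR (cop_Q hL2) hmT
  have has : Sm fun p : ℝ × E => a p.1 := ha.comp contDiff_fst
  -- velocity
  set w : ℝ × E → E := fun p => mix P1 P2 (a p.1) (sl m p.1) p.2 with hw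
  have hws : Sm w :=
    ((contDiff_const.sub has).smul hP1.smooth).add (has.smul hP2.smooth)
  set V : ℝ × E → E := fun p => b p + w p with hV
  have hVs : Sm V := hWF.field.smooth.add hws
  -- potentials
  set θ : ℝ × E → ℝ := fun p => ∑ i, lam i p.1 * Q2 (Ξ i) p.2 with hθ
  have hQΞ : ∀ i, Sm (Q2 (Ξ i)) := fun i => (hL2.inQ (Ξ i) (hΞ i).smooth).smooth
  have hθs : Sm θ := ContDiff.sum fun i _ =>
    ((hlam i).comp contDiff_fst).mul ((hQΞ i).comp contDiff_snd)
  have hbθ : ∀ t x, b (t, x) = gr (sl θ t) x := by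
    intro t x
    rw [hbX]
    ext k
    show (∑ i, lam i t • X i x) k = pd k (fun y => ∑ i, lam i t * Q2 (Ξ i) y) x
    rw [PDC.pd_sum (f := fun i y => lam i t * Q2 (Ξ i) y)
      (fun i _ => (((hQΞ i).differentiable x).const_mul (lam i t)))]
    rw [WithLp.ofLp_sum, Finset.sum_apply]
    refine Finset.sum_congr rfl fun i _ => ?_
    have h1 : pd k (fun y => lam i t * Q2 (Ξ i) y) x = lam i t * pd k (Q2 (Ξ i)) x :=
      PDC.pd_const_smul (lam i t) ((hQΞ i).differentiable x) k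
    rw [h1, hXΞ i]
    rfl
  set p2 : ℝ × E → ℝ := fun p => (1 - a p.1) * Q1 (sl m p.1) p.2 + a p.1 * Q2 (sl m p.1) p.2 +
    -1 * θ p with hp2
  have hp2s : Sm p2 :=
    (((contDiff_const.sub has).mul hQ1.smooth).add (has.mul hQ2.smooth)).add
      (contDiff_const.mul hθs)
  -- the velocity is the momentum up to a gradient on the domain
  have key1 : ∀ t x, σ x ≤ 0 → V (t, x) = m (t, x) - gr (sl p2 t) x := by
    intro t x hx
    have h1 := hL1.dec (sl m t) (hms t) x hx
    have h2 := hL2.dec (sl m t) (hms t) x (hσρ x hx)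
    have hq1 : Sm (Q1 (sl m t)) := (hL1.inQ _ (hms t)).smooth
    have hq2 : Sm (Q2 (sl m t)) := (hL2.inQ _ (hms t)).smooth
    have h3 : gr (sl p2 t) x = (1 - a t) • gr (Q1 (sl m t)) x + a t • gr (Q2 (sl m t)) x +
        (-1 : ℝ) • gr (sl θ t) x := by
      have e : sl p2 t = fun y => ((1 - a t) * Q1 (sl m t) y + a t * Q2 (sl m t) y) +
        -1 * sl θ t y := rfl
      rw [e, gr_add ((contDiff_const.mul hq1).add (contDiff_const.mul hq2))
        (contDiff_const.mul (PDC.sl_smooth hθs t)), gr_add (contDiff_const.mul hq1)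
        (contDiff_const.mul hq2), gr_smul _ hq1, gr_smul _ hq2,
        gr_smul _ (PDC.sl_smooth hθs t)]
    show b (t, x) + ((1 - a t) • P1 (sl m t) x + a t • P2 (sl m t) x) = _
    rw [h3, ← h1, ← h2, hbθ]
    show gr (sl θ t) x + ((1 - a t) • P1 (sl m t) x + a t • P2 (sl m t) x) =
      sl m t x - ((1 - a t) • (sl m t x - P1 (sl m t) x) + a t • (sl m t x - P2 (sl m t) x) +
        (-1 : ℝ) • gr (sl θ t) x)
    module
  have hcurl : ∀ t x, σ x ≤ 0 → curl (sl V t) x = curl (sl m t) x := by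
    intro t x hx
    have h1 : ∀ i, pd i (sl V t) x = pd i (fun y => sl m t y - gr (sl p2 t) y) x := fun i =>
      specClose E σ (sl V t) (fun y => sl m t y - gr (sl p2 t) y) hσ.toDom
        (PDC.sl_smooth hVs t) ((hms t).sub (PDC.sl_smooth hp2s t).gr)
        (fun y hy => key1 t y (le_of_lt hy)) [i] x hx
    rw [curl_congr h1, curl_sub_gr (hms t) (PDC.sl_smooth hp2s t)]
  -- the moving frame
  have hΨΦ : ∀ t, (fun y => sl Ψ t (sl Φ t y)) = fun y => y := fun t =>
    funext fun y => hWF.left t y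
  have hΦΨ : ∀ t, (fun y => sl Φ t (sl Ψ t y)) = fun y => y := fun t =>
    funext fun y => hWF.right t y
  have hΦs : ∀ t, Sm (sl Φ t) := fun t => PDC.sl_smooth hWF.smooth t
  have hΨs : ∀ t, Sm (sl Ψ t) := fun t => PDC.sl_smooth hWF.smoothi t
  have hMm : ∀ t, pb (sl Φ t) (sl m t) = sl M t := by
    intro t
    funext x
    rw [hslm, specPbAlg.comp (sl Φ t) (sl Ψ t) (sl M t) (hΦs t) (hΨs t) x, hΨΦ,
      specPbAlg.id]
  have hG : ∀ t x, 0 ≤ t → t ≤ T → σ x ≤ 0 →
      dt m (t, x) + lie (sl b t) (sl m t) x + cr (curl (sl m t) x) (w (t, x)) =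
        gr (sl π t) x := by
    intro t x ht0 htT hx
    set G1 : E → E := fun y => dt m (t, y) + lie (sl b t) (sl m t) y with hG1
    set G2 : E → E := fun y => cr (curl (sl m t) y) (sl w t y) with hG2
    have hF : ∀ z, pb (sl Φ t) (fun y => G1 y + G2 y) z = sl F t z := by
      intro z
      rw [pb_add]
      have h1 : dt M (t, z) = pb (sl Φ t) G1 z := by
        have h2 := specPbDt Φ b m hWF.smooth hWF.field.smooth hmT.smooth hWF.deriv t z
        have h3 : (fun s => pb (sl Φ s) (sl m s) z) = fun s => M (s, z) :=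
          funext fun s => congrFun (hMm s) z
        rw [h3] at h2
        exact h2.deriv
      have h2 : cr (curl (sl M t) z) (vel (mlaw P1 P2 Φ Ψ κ a) M (t, z)) = pb (sl Φ t) G2 z := by
        have h3 : vel (mlaw P1 P2 Φ Ψ κ a) M (t, z) = pv (sl Φ t) (sl Ψ t) (sl w t) z := by
          show κ t • pv (sl Φ t) (sl Ψ t) (mix P1 P2 (a t) (pb (sl Ψ t) (sl M t))) z = _
          rw [hκ1 t ht0 htT, one_smul]
          rfl
        rw [h3, ← hMm t]
        exact specPbAlg.cr R (sl Φ t) (sl Ψ t) (sl m t) (sl w t) (hdif t) (hms t) z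
      have h3 := hEq t z
      rw [h1, h2] at h3
      exact h3
    have h1 := hpbF t x ht0 htT hx
    have h2 : (fun z => pb (sl Φ t) (fun y => G1 y + G2 y) z) = sl F t := funext hF
    rw [← h2] at h1
    have h3 := specPbAlg.comp (sl Ψ t) (sl Φ t) (fun y => G1 y + G2 y) (hΨs t) (hΦs t) x
    rw [hΦΨ, specPbAlg.id] at h3
    rw [← h1]
    exact h3.symm
  -- the pressure
  have hbm : Sm fun p : ℝ × E => inner ℝ (b p) (m p) := hWF.field.smooth.inner ℝ hmT.smooth
  have hVV : Sm fun p : ℝ × E => (1 / 2 : ℝ) * ∑ k, V p k * V p k :=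
    contDiff_const.mul (ContDiff.sum fun k _ =>
      (contDiff_euclidean.1 hVs k).mul (contDiff_euclidean.1 hVs k))
  set Pr : ℝ × E → ℝ := fun p => (-1 * π p + inner ℝ (b p) (m p)) + (dt p2 p +
    -1 * ((1 / 2 : ℝ) * ∑ k, V p k * V p k)) with hPr
  have hPrs : Sm Pr := ((contDiff_const.mul hπ).add hbm).add
    ((PDC.dt_smooth hp2s).add (contDiff_const.mul hVV))
  have hgrPr : ∀ t x, gr (sl Pr t) x = ((-1 : ℝ) • gr (sl π t) x +
      gr (fun y => inner ℝ (b (t, y)) (m (t, y))) x) + (gr (sl (dt p2) t) x +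
      (-1 : ℝ) • gr (fun y => (1 / 2 : ℝ) * ∑ k, sl V t y k * sl V t y k) x) := by
    intro t x
    have s1 := PDC.sl_smooth hπ t
    have s2 : Sm (fun y => inner ℝ (b (t, y)) (m (t, y))) := PDC.sl_smooth hbm t
    have s3 := PDC.sl_smooth (PDC.dt_smooth hp2s) t
    have s4 : Sm (fun y => (1 / 2 : ℝ) * ∑ k, sl V t y k * sl V t y k) := PDC.sl_smooth hVV t
    have e : sl Pr t = fun y => (-1 * sl π t y + inner ℝ (b (t, y)) (m (t, y))) +
      (sl (dt p2) t y + -1 * ((1 / 2 : ℝ) * ∑ k, sl V t y k * sl V t y k)) := rfl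
    rw [e, gr_add ((contDiff_const.mul s1).add s2) (s3.add (contDiff_const.mul s4)),
      gr_add (contDiff_const.mul s1) s2, gr_add s3 (contDiff_const.mul s4), gr_smul _ s1,
      gr_smul _ s4]
  refine ⟨V, Pr, hVs, hPrs, ?_, ?_, ?_, ?_, ?_⟩
  · -- the equation
    intro t x ht0 htT hx
    have h1 : deriv (fun s => V (s, x)) t = dt m (t, x) - gr (sl (dt p2) t) x := by
      have h2 : (fun s => V (s, x)) = fun s => m (s, x) - gr (sl p2 s) x :=
        funext fun s => key1 s x hx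
      rw [h2]
      exact ((PDC.hasDerivAt_dt hmT.smooth t x).sub (hasDerivAt_gr hp2s t x)).deriv
    have h2 : fderiv ℝ (fun y => V (t, y)) x (V (t, x)) = cr (curl (sl V t) x) (V (t, x)) +
        gr (fun y => (1 / 2 : ℝ) * ∑ k, sl V t y k * sl V t y k) x :=
      conv (PDC.sl_smooth hVs t) x
    have h3 := hG t x ht0 htT hx
    rw [specPbAlg.lie (sl b t) (sl m t) (PDC.sl_smooth hWF.field.smooth t) (hms t) x] at h3
    have h4 := hgrPr t x
    rw [h1, h2, hcurl t x hx]
    show dt m (t, x) - gr (sl (dt p2) t) x + (cr (curl (sl m t) x) (b (t, x) + w (t, x)) +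
      gr (fun y => (1 / 2 : ℝ) * ∑ k, sl V t y k * sl V t y k) x) + gr (sl Pr t) x = 0
    rw [h4, cr_add, ← h3]
    show dt m (t, x) - gr (sl (dt p2) t) x + (cr (curl (sl m t) x) (b (t, x)) +
      cr (curl (sl m t) x) (w (t, x)) +
      gr (fun y => (1 / 2 : ℝ) * ∑ k, sl V t y k * sl V t y k) x) +
      (((-1 : ℝ) • (dt m (t, x) + (cr (curl (sl m t) x) (b (t, x)) +
        gr (fun y => inner ℝ (b (t, y)) (m (t, y))) x) + cr (curl (sl m t) x) (w (t, x))) +
      gr (fun y => inner ℝ (b (t, y)) (m (t, y))) x) + (gr (sl (dt p2) t) x +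
      (-1 : ℝ) • gr (fun y => (1 / 2 : ℝ) * ∑ k, sl V t y k * sl V t y k) x)) = 0
    module
  · -- the divergence
    intro t x _ _ hx
    have hρx := hσρ x hx
    have hxB : x ∉ B0 := fun h => absurd (hB0 x h) (not_lt.2 hx)
    have sb := PDC.sl_smooth hWF.field.smooth t
    have s1 : Sm (P1 (sl m t)) := (hL1.inP _ (hms t)).smooth
    have s2 : Sm (P2 (sl m t)) := (hL2.inP _ (hms t)).smooth
    have h1 : ∀ i, pd i (sl V t) x = pd i (sl b t) x + ((1 - a t) • pd i (P1 (sl m t)) x +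
        a t • pd i (P2 (sl m t)) x) := by
      intro i
      have e : sl V t = fun y => sl b t y + ((1 - a t) • P1 (sl m t) y +
        a t • P2 (sl m t) y) := rfl
      have d1 : DifferentiableAt ℝ (P1 (sl m t)) x := s1.differentiable x
      have d2 : DifferentiableAt ℝ (P2 (sl m t)) x := s2.differentiable x
      have d1' : DifferentiableAt ℝ (fun y => (1 - a t) • P1 (sl m t) y) x :=
        d1.const_smul (1 - a t)
      have d2' : DifferentiableAt ℝ (fun y => a t • P2 (sl m t) y) x := d2.const_smul (a t)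
      have d3 : DifferentiableAt ℝ (fun y => (1 - a t) • P1 (sl m t) y +
        a t • P2 (sl m t) y) x := d1'.add d2'
      rw [e, PDC.pd_add (f := fun y => sl b t y) (sb.differentiable x) d3,
        PDC.pd_add d1' d2', PDC.pd_const_smul _ d1, PDC.pd_const_smul _ d2]
    have h2 : ∀ i, pd i (sl b t) x = ∑ k, lam k t • pd i (X k) x := by
      intro i
      have e : sl b t = fun y => ∑ k, lam k t • X k y := funext fun y => hbX (t, y)
      have hXs : ∀ k, Sm (X k) := fun k => by rw [hXΞ k]; exact (hQΞ k).gr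
      rw [e, PDC.pd_sum (f := fun k y => lam k t • X k y)
        (fun k _ => ((hXs k).differentiable x).const_smul (lam k t))]
      exact Finset.sum_congr rfl fun k _ => PDC.pd_const_smul _ ((hXs k).differentiable x) i
    have h3 : ∀ k, dv (X k) x = 0 := fun k => by
      rw [hXΞ k]
      exact dv_ctl hDat (hΞ k) hρx hxB
    have h4 := (hL1.inX (sl m t) (hms t)).dv0 x hx
    have h5 := (hL2.inX (sl m t) (hms t)).dv0 x hρx
    have hb0' : ∑ i, (∑ k, lam k t • pd i (X k) x) i = 0 := by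
      have e : ∀ i : Fin 3, (∑ k, lam k t • pd i (X k) x) i = ∑ k, lam k t * pd i (X k) x i := by
        intro i
        rw [WithLp.ofLp_sum, Finset.sum_apply]
        rfl
      simp only [e]
      rw [Finset.sum_comm]
      refine Finset.sum_eq_zero fun k _ => ?_
      rw [← Finset.mul_sum]
      have := h3 k
      unfold dv at this
      rw [this, mul_zero]
    unfold dv at h4 h5 ⊢
    simp only [h1, h2, PiLp.add_apply, PiLp.smul_apply, smul_eq_mul, Finset.sum_add_distrib,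
      ← Finset.mul_sum]
    rw [h4, h5, hb0']
    ring
  · -- tangency
    intro t x _ _ hx hρx hfd
    have h1 := (hL1.inX (sl m t) (hms t)).tan x hx
    have h2 := (hL2.inX (sl m t) (hms t)).tan x hρx
    have h3 : fderiv ℝ ρ x (b (t, x)) = 0 := by
      rw [hbX, map_sum]
      refine Finset.sum_eq_zero fun k _ => ?_
      rw [map_smul, hXΞ k,
        (specCTan ρ R P2 Q2 B0 (Ξ k) hDat.dom hL2 hDat.sub (hΞ k) hR).2 x hρx, smul_zero]
    show fderiv ℝ σ x (b (t, x) + ((1 - a t) • P1 (sl m t) x + a t • P2 (sl m t) x)) = 0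
    rw [map_add, map_add, map_smul, map_smul, h1, hfd, h3, h2]
    simp
  · -- initial value
    intro x hx
    have hΨ0 : sl Ψ 0 = fun y => y := by
      funext y
      have h1 := hWF.left 0 y
      rwa [hWF.zero] at h1
    have hm0 : sl m 0 = v0 := by
      funext y
      rw [hslm, hΨ0, specPbAlg.id]
      exact hM0 y
    have h1 : P1 v0 x = v0 x := by
      have h2 := hL1.uniq v0 (fun _ => 0) hv0.smooth contDiff_const (by
        have e : (fun x => v0 x - gr (fun _ : E => (0 : ℝ)) x) = v0 := by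
          funext y
          have h3 : gr (fun _ : E => (0 : ℝ)) y = 0 := by
            ext i
            simp [pd]
          rw [h3, sub_zero]
        rw [e]
        exact hv0) x hx
      have h3 : gr (fun _ : E => (0 : ℝ)) x = 0 := by
        ext i
        simp [pd]
      have h4 := hL1.dec v0 hv0.smooth x hx
      rw [← h2, h3] at h4
      exact (sub_eq_zero.1 h4).symm
    show b (0, x) + ((1 - a 0) • P1 (sl m 0) x + a 0 • P2 (sl m 0) x) = v0 x
    rw [hb0, ha0, hm0, h1]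
    simp
  · -- final value
    intro x
    show b (T, x) + ((1 - a T) • P1 (sl m T) x + a T • P2 (sl m T) x) = _
    rw [hbT, haT]
    simp
    rfl

end MPfab
end
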