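import Pool.Agent.Lib.MP_fabde4_an.M.Lop
import Pool.Agent.Lib.MP_fabde4_an.SpecN
import Pool.Agent.Lib.MP_fabde4_an.N.Reset

section
/-!
MP_fabde4_an, module LEIB: the Leibniz formula.
-/
set_option autoImplicit false
open MeasureTheory Set

namespace MPfab

namespace Leib

theorem sm_sum {T : List (List (Fin 3) × List (Fin 3))} {f g : E → ℝ} (hf : Sm f) (hg : Sm g) :
    Sm (fun x => (T.map fun p => pds p.1 f x * pds p.2 g x).sum) := by
  induction T with
  | nil => simpa using contDiff_const
  | cons p T ih =>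
    simp only [List.map_cons, List.sum_cons]
    exact ((PDC.pds_smooth hf p.1).mul (PDC.pds_smooth hg p.2)).add ih

theorem pd_list {T : List (List (Fin 3) × List (Fin 3))} {f g : E → ℝ} (hf : Sm f) (hg : Sm g)
    (i : Fin 3) (x : E) :
    pd i (fun y => (T.map fun p => pds p.1 f y * pds p.2 g y).sum) x =
      (T.map fun p => pds (i :: p.1) f x * pds p.2 g x).sum +
      (T.map fun p => pds p.1 f x * pds (i :: p.2) g x).sum := by
  induction T with
  | nil =>
    simp only [List.map_nil, List.sum_nil, add_zero]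
    unfold pd
    simp
  | cons p T ih =>
    simp only [List.map_cons, List.sum_cons]
    have h1 : DifferentiableAt ℝ (fun y => pds p.1 f y * pds p.2 g y) x :=
      ((PDC.pds_smooth hf p.1).mul (PDC.pds_smooth hg p.2)).differentiable (by simp) x
    have h2 : DifferentiableAt ℝ (fun y => (T.map fun p => pds p.1 f y * pds p.2 g y).sum) x :=
      (sm_sum (T := T) hf hg).differentiable x
    rw [PDC.pd_add h1 h2, ih, PDC.pd_mul ((PDC.pds_smooth hf p.1).differentiable x)
      ((PDC.pds_smooth hg p.2).differentiable x)]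
    show _ = pd i (pds p.1 f) x * pds p.2 g x + _ + (pds p.1 f x * pd i (pds p.2 g) x + _)
    ring

end Leib

/-- module LEIB -/
theorem specLeib : SpecLeib := by
  intro L
  induction L with
  | nil =>
    refine ⟨[], by simp, ?_⟩
    intro f g _ _ x
    simp [pds]
  | cons i L ih =>
    obtain ⟨T, hT, h⟩ := ih
    refine ⟨([i], L) :: (T.map (fun p => (i :: p.1, p.2)) ++ T.map (fun p => (p.1, i :: p.2))),
      ?_, ?_⟩
    · intro p hp
      simp only [List.mem_cons, List.mem_append, List.mem_map] at hp
      rcases hp with rfl | ⟨q, hq, rfl⟩ | ⟨q, hq, rfl⟩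
      · simp only [List.length_cons, List.length_nil]
        omega
      · have := hT q hq
        simp only [List.length_cons]
        omega
      · have := hT q hq
        simp only [List.length_cons]
        omega
    · intro f g hf hg x
      show pd i (pds L fun y => f y * g y) x = _
      rw [funext (h f g hf hg)]
      have h1 : DifferentiableAt ℝ (fun y => f y * pds L g y) x :=
        (hf.mul (PDC.pds_smooth hg L)).differentiable (by simp) x
      have h2 : DifferentiableAt ℝ (fun y => (T.map fun p => pds p.1 f y * pds p.2 g y).sum) x :=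
        (Leib.sm_sum (T := T) hf hg).differentiable x
      rw [PDC.pd_add h1 h2, Leib.pd_list hf hg, PDC.pd_mul (hf.differentiable x)
        ((PDC.pds_smooth hg L).differentiable x)]
      simp only [List.map_cons, List.sum_cons, List.map_append, List.sum_append, List.map_map,
        Function.comp_def]
      show f x * pd i (pds L g) x + pd i f x * pds L g x + _ = f x * pd i (pds L g) x +
        (pd i f x * pds L g x + _)
      ring

end MPfab
end

section
/-!
MP_fabde4_an, part N: module FLOWBD (bounds for the derivatives of flows).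
-/
set_option autoImplicit false
open MeasureTheory Set

namespace MPfab

namespace FlowBdN

theorem abs_sum_le {α : Type*} (T : List α) (φ : α → ℝ) (M : ℝ) (h : ∀ p ∈ T, |φ p| ≤ M) :
    |(T.map φ).sum| ≤ T.length * M := by
  induction T with
  | nil => simp
  | cons p T ih =>
    have h1 := h p (by simp)
    have h2 := ih fun q hq => h q (by simp [hq])
    simp only [List.map_cons, List.sum_cons, List.length_cons, Nat.cast_add, Nat.cast_one]
    refine (abs_add_le _ _).trans ?_
    linarith

/-- the remainder of the Leibniz formula -/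
theorem leib_bd (L : List (Fin 3)) : ∃ C : ℝ, 0 ≤ C ∧ ∀ (f g : E → ℝ) (c c' : ℝ) (x : E), Sm f →
    Sm g → Bd univ L.length f c →
    (∀ L' : List (Fin 3), L'.length < L.length → ‖pds L' g x‖ ≤ c') →
    |pds L (fun y => f y * g y) x - f x * pds L g x| ≤ C * (c * c') := by
  obtain ⟨T, hT, h⟩ := specLeib L
  refine ⟨T.length, Nat.cast_nonneg _, ?_⟩
  intro f g c c' x hf hg hfb hgb
  rw [h f g hf hg x, add_sub_cancel_left]
  refine abs_sum_le T _ _ fun p hp => ?_
  have h1 := hT p hp
  rw [abs_mul]
  exact mul_le_mul (hfb p.1 (by omega) x (mem_univ _)) (hgb p.2 (by omega)) (abs_nonneg _)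
    (BdM.nonneg hfb)

/-- two sided Gronwall inequality -/
theorem gron {y y' : ℝ → E} {A M T : ℝ} (hA : 0 ≤ A) (hM : 0 ≤ M)
    (hy : ∀ t, HasDerivAt y (y' t) t) (h0 : ‖y 0‖ ≤ 1)
    (hb : ∀ t, |t| ≤ T → ‖y' t‖ ≤ A * ‖y t‖ + M) (t : ℝ) (ht : |t| ≤ T) :
    ‖y t‖ ≤ gronwallBound 1 A M T := by
  have key : ∀ (z z' : ℝ → E), (∀ t, HasDerivAt z (z' t) t) → ‖z 0‖ ≤ 1 →
      (∀ t, |t| ≤ T → ‖z' t‖ ≤ A * ‖z t‖ + M) → ∀ t, 0 ≤ t → t ≤ T →
      ‖z t‖ ≤ gronwallBound 1 A M T := by
    intro z z' hz hz0 hzb t ht0 htT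
    have h1 := norm_le_gronwallBound_of_norm_deriv_right_le (f := z) (f' := z') (δ := 1) (K := A)
      (ε := M) (a := 0) (b := T) (fun s _ => (hz s).continuousAt.continuousWithinAt)
      (fun s _ => (hz s).hasDerivWithinAt) hz0
      (fun s hs => hzb s (by rw [abs_of_nonneg hs.1]; exact hs.2.le)) t ⟨ht0, htT⟩
    refine h1.trans ?_
    rw [sub_zero]
    exact gronwallBound_mono zero_le_one hM hA htT
  rcases le_total 0 t with h | h
  · rw [abs_of_nonneg h] at ht
    exact key y y' hy h0 hb t h ht
  · rw [abs_of_nonpos h] at ht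
    have h2 := key (fun s => y (-s)) (fun s => -y' (-s)) (fun s => by
      have := (hy (-s)).scomp s (hasDerivAt_neg s)
      rw [neg_one_smul] at this
      exact this) (by simpa using h0) (fun s hs => by
      rw [norm_neg]
      exact hb (-s) (by rwa [abs_neg])) (-t) (by linarith) ht
    simpa using h2

theorem pds_id (L : List (Fin 3)) (i : Fin 3) (x : E) : ‖pds L (pd i fun y : E => y) x‖ ≤ 1 := by
  have h1 : (pd i fun y : E => y) = fun _ => eb i := by
    funext y
    unfold pd
    rw [fderiv_fun_id]
    rfl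
  rw [h1]
  cases L with
  | nil =>
    show ‖eb i‖ ≤ 1
    simp [eb]
  | cons j L =>
    have h2 : ∀ (L : List (Fin 3)) (j : Fin 3), (pds (j :: L) fun _ : E => eb i) = fun _ => 0 := by
      intro L
      induction L with
      | nil =>
        intro j
        funext y
        show fderiv ℝ (fun _ : E => eb i) y (eb j) = 0
        simp
      | cons k L ih =>
        intro j
        funext y
        show fderiv ℝ (pds (k :: L) fun _ : E => eb i) y (eb j) = 0
        rw [ih k]
        simp
    rw [h2]
    simp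

/-- one derivative more -/
theorem step (k : ℕ) (K T C : ℝ) (hC : ∀ (R : ℝ) (B : E → E) (FB : ℝ × E → E),
    In R B → IsFlow B FB → Bd univ k B K → ∀ t : ℝ, |t| ≤ T → DB k C (sl FB t))
    (L : List (Fin 3)) (hL : L.length = k) : ∃ D : ℝ, ∀ (R : ℝ) (B : E → E) (FB : ℝ × E → E),
    In R B → IsFlow B FB → Bd univ (k + 1) B K → ∀ t : ℝ, |t| ≤ T → ∀ (i : Fin 3) (x : E),
    ‖pds L (pd i (sl FB t)) x‖ ≤ D := by
  obtain ⟨C1, hC1, hleib⟩ := leib_bd L
  obtain ⟨C2, hC2, hcomp⟩ := specCcomp k C
  refine ⟨gronwallBound 1 (9 * |K|) (9 * (C1 * (C2 * |K| * |C|))) T, ?_⟩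
  intro R B FB hB hF hBd t ht i x
  have hK : 0 ≤ K := BdM.nonneg hBd
  have hFs : ∀ s, Sm (sl FB s) := fun s => PDC.sl_smooth hF.smooth s
  have hdt : sl (dt FB) = fun s y => B (sl FB s y) := by
    funext s y
    exact (hF.deriv s y).deriv
  -- the differential equation
  have hy : ∀ s, HasDerivAt (fun r => pds L (pd i (sl FB r)) x)
      (pds L (pd i fun y => B (sl FB s y)) x) s := by
    intro s
    have h1 := PDC.dt_pds hF.smooth (i :: L) s x
    rw [hdt] at h1
    have h2 : (fun r => pds L (pd i (sl FB r)) x) = fun r => pds (i :: L) (sl FB r) x := by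
      funext r
      exact PDC.pds_comm (hFs r) i L x
    rw [h2, PDC.pds_comm (BdM.smc hB.smooth (hFs s)) i L x]
    exact h1
  refine gron (by positivity) (by positivity) hy ?_ ?_ t ht
  · have h1 : sl FB 0 = fun y => y := funext fun y => hF.zero y
    rw [h1]
    exact pds_id L i x
  · intro s hs
    have hDB := hC R B FB hB hF (BdM.mono (Nat.le_succ k) hBd) s hs
    have e1 : (pd i fun y => B (sl FB s y)) =
        fun y => ∑ j, (pd i (sl FB s) y j) • pd j B (sl FB s y) :=
      funext fun y => BdM.pd_comp' hB.smooth (hFs s) i y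
    have sB : ∀ j, Sm fun y => pd j B (sl FB s y) := fun j => BdM.smc (hB.smooth.pd j) (hFs s)
    have sF : ∀ j, Sm fun y => pd i (sl FB s) y j := fun j => ((hFs s).pd i).comp_apply j
    have hBF : ∀ j, Bd univ k (fun y => pd j B (sl FB s y)) (C2 * |K|) := fun j =>
      hcomp E (pd j B) (sl FB s) |K| (hB.smooth.pd j) (hFs s) hDB
        (BdM.le (le_abs_self K) (BdM.bpd hB.smooth hBd j))
    -- components
    have e2 : ∀ l, pds L (pd i fun y => B (sl FB s y)) x l =
        ∑ j, pds L (fun y => pd j B (sl FB s y) l * pd i (sl FB s) y j) x := by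
      intro l
      rw [← BdM.pds_comp ((BdM.smc hB.smooth (hFs s)).pd i) l L x, e1]
      have e3 : (fun y => (∑ j, (pd i (sl FB s) y j) • pd j B (sl FB s y) : E) l) =
          fun y => (pd 0 B (sl FB s y) l * pd i (sl FB s) y 0 +
            pd 1 B (sl FB s y) l * pd i (sl FB s) y 1) +
            pd 2 B (sl FB s y) l * pd i (sl FB s) y 2 := by
        funext y
        rw [Fin.sum_univ_three]
        simp only [PiLp.add_apply, PiLp.smul_apply, smul_eq_mul]
        ring
      have sm : ∀ j, Sm fun y => pd j B (sl FB s y) l * pd i (sl FB s) y j := fun j =>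
        ((sB j).comp_apply l).mul (sF j)
      rw [e3, Fin.sum_univ_three, BdM.pds_add ((sm 0).add (sm 1)) (sm 2),
        BdM.pds_add (sm 0) (sm 1)]
    have hyj : ∀ j, pds L (fun y => pd i (sl FB s) y j) x = pds L (pd i (sl FB s)) x j := fun j =>
      BdM.pds_comp ((hFs s).pd i) j L x
    have hj : ∀ l j, |pds L (fun y => pd j B (sl FB s y) l * pd i (sl FB s) y j) x| ≤
        |K| * ‖pds L (pd i (sl FB s)) x‖ + C1 * (C2 * |K| * |C|) := by
      intro l j
      have h1 := hleib (fun y => pd j B (sl FB s y) l) (fun y => pd i (sl FB s) y j) (C2 * |K|)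
        |C| x ((sB j).comp_apply l) (sF j) (by rw [hL]; exact BdM.comp (sB j) (hBF j) l) (by
          intro L' hL'
          rw [BdM.pds_comp ((hFs s).pd i) j L' x, PDC.pds_comm (hFs s)]
          exact ((PiLp.norm_apply_le _ j).trans (hDB (i :: L') (by simp) (by
            simp only [List.length_cons]; omega) x)).trans (le_abs_self C))
      have h2 : |pd j B (sl FB s x) l * pds L (fun y => pd i (sl FB s) y j) x| ≤
          |K| * ‖pds L (pd i (sl FB s)) x‖ := by
        rw [abs_mul, hyj]
        have h5 : |pds L (pd i (sl FB s)) x j| ≤ ‖pds L (pd i (sl FB s)) x‖ :=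
          PiLp.norm_apply_le (pds L (pd i (sl FB s)) x) j
        refine mul_le_mul ?_ h5 (abs_nonneg _) (abs_nonneg _)
        exact ((PiLp.norm_apply_le (pd j B (sl FB s x)) l).trans
          (BdM.val (BdM.bpd hB.smooth hBd j) _)).trans (le_abs_self K)
      have h3 := abs_add_le (pds L (fun y => pd j B (sl FB s y) l * pd i (sl FB s) y j) x -
        pd j B (sl FB s x) l * pds L (fun y => pd i (sl FB s) y j) x)
        (pd j B (sl FB s x) l * pds L (fun y => pd i (sl FB s) y j) x)
      rw [sub_add_cancel] at h3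
      linarith
    refine (BdM.norm_le_sum _).trans ?_
    have h4 : ∀ l, ‖pds L (pd i fun y => B (sl FB s y)) x l‖ ≤
        3 * (|K| * ‖pds L (pd i (sl FB s)) x‖ + C1 * (C2 * |K| * |C|)) := by
      intro l
      rw [e2 l, Fin.sum_univ_three, Real.norm_eq_abs]
      refine (abs_add_three _ _ _).trans ?_
      have a0 := hj l 0
      have a1 := hj l 1
      have a2 := hj l 2
      linarith
    rw [Fin.sum_univ_three]
    have a0 := h4 0
    have a1 := h4 1
    have a2 := h4 2
    linarith

end FlowBdN

open FlowBdN in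
/-- module FLOWBD -/
theorem specFlowBd : SpecFlowBd := by
  intro k
  induction k with
  | zero =>
    intro K T
    exact ⟨0, fun R B FB _ _ _ t _ L h1 h2 x => absurd h1 (by omega)⟩
  | succ k ih =>
    intro K T
    obtain ⟨C, hC⟩ := ih K T
    have h1 : ∀ L : List (Fin 3), ∃ D : ℝ, L.length = k → ∀ (R : ℝ) (B : E → E)
        (FB : ℝ × E → E), In R B → IsFlow B FB → Bd univ (k + 1) B K → ∀ t : ℝ, |t| ≤ T →
        ∀ (i : Fin 3) (x : E), ‖pds L (pd i (sl FB t)) x‖ ≤ D := by
      intro L
      by_cases hL : L.length = k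
      · obtain ⟨D, hD⟩ := step k K T C hC L hL
        exact ⟨D, fun _ => hD⟩
      · exact ⟨0, fun h => absurd h hL⟩
    choose D hD using h1
    obtain ⟨D0, hD0⟩ := ((List.finite_length_eq (Fin 3) k).image D).bddAbove
    refine ⟨max C D0, ?_⟩
    intro R B FB hB hF hBd t ht L hL1 hL2 x
    rcases Nat.lt_or_ge k L.length with h | h
    · cases L with
      | nil => simp at hL1
      | cons i L =>
        have hL : L.length = k := by
          simp only [List.length_cons] at hL2 h
          omega
        have h2 := hD L hL R B FB hB hF hBd t ht i x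
        rw [PDC.pds_comm (PDC.sl_smooth hF.smooth t)] at h2
        exact (h2.trans (hD0 ⟨L, hL, rfl⟩)).trans (le_max_right _ _)
    · exact (hC R B FB hB hF (BdM.mono (Nat.le_succ k) hBd) t ht L hL1 h x).trans
        (le_max_left _ _)

end MPfab
end
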