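import Pool.Agent.Lib.MP_fabde4_an.SpecN
import Pool.Agent.Lib.MP_fabde4_an.M.Lop
import Pool.Agent.Lib.MP_fabde4_an.PT
import Pool.Agent.Lib.MP_fabde4_an.Eng
import Pool.Agent.Lib.MP_fabde4_an.N.RxA

section
/-!
MP_fabde4_an, module RXB (helper78): the relaxed solution with a tame drift.
-/
set_option autoImplicit false
open MeasureTheory Set Filter Topology

namespace MPfab.RxBN

/-! ### linearity -/

theorem pb_add (Φ m m' : E → E) (x : E) :
    pb Φ (fun y => m y + m' y) x = pb Φ m x + pb Φ m' x := by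
  ext i
  simp only [pb, PiLp.add_apply, mul_add, Finset.sum_add_distrib]

theorem pb_sub (Φ m m' : E → E) (x : E) :
    pb Φ (fun y => m y - m' y) x = pb Φ m x - pb Φ m' x := by
  ext i
  simp only [pb, PiLp.sub_apply, mul_sub, Finset.sum_sub_distrib]

theorem pb_zero (Φ : E → E) (x : E) : pb Φ (fun _ => (0 : E)) x = 0 := by
  ext i
  simp [pb]

theorem cr_add (u v w : E) : cr u (v + w) = cr u v + cr u w := by
  ext i
  fin_cases i <;> simp <;> ring

theorem cr_sub (u v w : E) : cr u (v - w) = cr u v - cr u w := by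
  ext i
  fin_cases i <;> simp <;> ring

theorem cr_zero (u : E) : cr u 0 = 0 := by
  ext i
  fin_cases i <;> simp

/-! ### the moving frame -/

theorem dif_flow {R : ℝ} {B : E → E} {FB : ℝ × E → E} (hF : IsFlow B FB)
    (hout : ∀ s x, R ≤ ‖x‖ → FB (s, x) = x) (t : ℝ) : Dif R (sl FB t) (sl FB (-t)) where
  smooth := PDC.sl_smooth hF.smooth t
  smoothi := PDC.sl_smooth hF.smooth (-t)
  left x := by
    show FB (-t, FB (t, x)) = x
    rw [hF.group, neg_add_cancel, hF.zero]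
  right x := by
    show FB (t, FB (-t, x)) = x
    rw [hF.group, add_neg_cancel, hF.zero]
  out x hx := hout t x hx

theorem pb_inv (hPb : SpecPbAlg) {R : ℝ} {Φ Ψ : E → E} (h : Dif R Φ Ψ) (m : E → E) (x : E) :
    pb Ψ (pb Φ m) x = m x := by
  rw [hPb.comp Ψ Φ m h.smoothi h.smooth]
  have : (fun y => Φ (Ψ y)) = fun y => y := funext h.right
  rw [this, hPb.id]

/-- the left side of the relaxed equation -/
noncomputable def Eul (P : (E → E) → E → E) (B : E → E) (u : ℝ × E → E) (t : ℝ) (y : E) : E :=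
  dt u (t, y) + lie B (sl u t) y + cr (curl (sl u t) y) (P (sl u t) y)

/-- the law in the frame of an autonomous flow -/
theorem mlaw_eq (P : (E → E) → E → E) (FB : ℝ × E → E) (κ : ℝ → ℝ) (t : ℝ) (M : E → E) (x : E) :
    mlaw P P FB (fun p => FB (-p.1, p.2)) κ (fun _ => 1) t M x =
      κ t • pv (sl FB t) (sl FB (-t)) (P (pb (sl FB (-t)) M)) x := by
  unfold mlaw
  have h1 : sl (fun p : ℝ × E => FB (-p.1, p.2)) t = sl FB (-t) := rfl
  have h2 : mix P P 1 (pb (sl FB (-t)) M) = P (pb (sl FB (-t)) M) := by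
    funext y
    simp [mix]
  rw [h1, h2]

theorem frame (hPb : SpecPbAlg) (hDt : SpecPbDt) {R : ℝ} (P : (E → E) → E → E) {B : E → E}
    {FB : ℝ × E → E} (hB : In R B) (hF : IsFlow B FB)
    (hout : ∀ s x, R ≤ ‖x‖ → FB (s, x) = x) {u : ℝ × E → E} (hu : Sm u) (t : ℝ) (x : E) {d : E}
    (hd : HasDerivAt (fun s => pb (sl FB s) (sl u s) x) d t) :
    d + cr (curl (pb (sl FB t) (sl u t)) x) (pv (sl FB t) (sl FB (-t)) (P (sl u t)) x) =
      pb (sl FB t) (Eul P B u t) x := by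
  have h1 := hDt FB (fun p => B p.2) u hF.smooth (hB.smooth.comp contDiff_snd) hu
    (fun t x => hF.deriv t x) t x
  have h2 := hd.unique h1
  rw [h2, hPb.cr R (sl FB t) (sl FB (-t)) (sl u t) (P (sl u t)) (dif_flow hF hout t)
    (PDC.sl_smooth hu t) x]
  exact (pb_add (sl FB t) (fun y => dt u (t, y) + lie B (sl u t) y)
    (fun y => cr (curl (sl u t) y) (P (sl u t) y)) x).symm

/-! ### cutoffs -/

theorem cutoff {K : Set E} {R : ℝ} (hK : IsCompact K) (hKR : ∀ x ∈ K, ‖x‖ < R) :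
    ∃ ζ : E → ℝ, In R ζ ∧ ∃ U : Set E, IsOpen U ∧ K ⊆ U ∧ ∀ x ∈ U, ζ x = 1 := by
  have hcl : IsClosed {x : E | R ≤ ‖x‖} := isClosed_le continuous_const continuous_norm
  obtain ⟨χ, h0, h1, -⟩ := exists_contMDiffMap_zero_one_nhds_of_isClosed (modelWithCornersSelf ℝ E)
    (n := (⊤ : ENat)) hcl hK.isClosed
    (Set.disjoint_left.2 fun x (hx : R ≤ ‖x‖) hx2 => absurd (hKR x hx2) (not_lt.2 hx))
  obtain ⟨U, hU, hKU, hU1⟩ := mem_nhdsSet_iff_exists.1 h1
  refine ⟨χ, ⟨χ.contMDiff.contDiff, fun x hx => ?_⟩, U, hU, hKU, fun x hx => hU1 hx⟩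
  exact (h0.filter_mono (nhds_le_nhdsSet (show x ∈ {x : E | R ≤ ‖x‖} from hx))).self_of_nhds

theorem cutoff1 : ∃ χ : ℝ → ℝ, Sm χ ∧ HasCompactSupport χ ∧ ∀ s, |s| ≤ 1 → χ s = 1 := by
  let f : ContDiffBump (0 : ℝ) := ⟨1, 2, one_pos, one_lt_two⟩
  refine ⟨f, f.contDiff, f.hasCompactSupport, fun s hs => f.one_of_mem_closedBall ?_⟩
  rw [mem_closedBall_zero_iff, Real.norm_eq_abs]
  exact hs

/-! ### smoothness of curls with time -/

theorem inT_curl {R : ℝ} (hR : 0 < R) {W : ℝ × E → E} (h : InT R W) :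
    InT R (fun p => curl (sl W p.1) p.2) := by
  refine ⟨?_, fun t x hx => (ItB.in_curl hR (ItB.in_sl h t)).supp x hx⟩
  have h1 : ∀ i j : Fin 3, Sm (fun p : ℝ × E => pd i (sl W p.1) p.2 j) := fun i j =>
    contDiff_euclidean.mp (PDC.pds_sl h.smooth [i]) j
  refine contDiff_euclidean.2 fun j => ?_
  fin_cases j
  · exact (h1 1 2).sub (h1 2 1)
  · exact (h1 2 0).sub (h1 0 2)
  · exact (h1 0 1).sub (h1 1 0)

theorem inT_pd {F : Type*} [NormedAddCommGroup F] [NormedSpace ℝ F] {R : ℝ} (hR : 0 < R)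
    {W : ℝ × E → F} (h : InT R W) (i : Fin 3) : InT R (fun p => pd i (sl W p.1) p.2) :=
  ⟨PDC.pds_sl h.smooth [i], fun t x hx => (ItB.in_pd hR (ItB.in_sl h t) i).supp x hx⟩

theorem inT_smul {F : Type*} [NormedAddCommGroup F] [NormedSpace ℝ F] {R : ℝ}
    {a : ℝ × E → ℝ} {W : ℝ × E → F} (ha : Sm a) (h : InT R W) : InT R (fun p => a p • W p) :=
  ⟨ha.smul h.smooth, fun t x hx => by simp [h.supp t x hx]⟩

theorem inT_cut {F : Type*} [NormedAddCommGroup F] [NormedSpace ℝ F] {R : ℝ}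
    {ζ : E → ℝ} {W : ℝ × E → F} (hζ : In R ζ) (h : Sm W) : InT R (fun p => ζ p.2 • W p) :=
  ⟨(hζ.smooth.comp contDiff_snd).smul h, fun _ x hx => by simp [hζ.supp x hx]⟩

theorem inT_time {F : Type*} [NormedAddCommGroup F] [NormedSpace ℝ F] {R : ℝ}
    {θ : ℝ → ℝ} {W : ℝ × E → F} (hθ : Sm θ) (h : InT R W) : InT R (fun p => W (θ p.1, p.2)) :=
  ⟨h.smooth.comp ((hθ.comp contDiff_fst).prodMk contDiff_snd), fun _ x hx => h.supp _ x hx⟩

/-- chain rule in time -/
theorem dt_time {F : Type*} [NormedAddCommGroup F] [NormedSpace ℝ F] {θ : ℝ → ℝ}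
    {W : ℝ × E → F} (hθ : Sm θ) (h : Sm W) (t : ℝ) (x : E) :
    dt (fun p => W (θ p.1, p.2)) (t, x) = deriv θ t • dt W (θ t, x) := by
  have h1 := (PDC.hasDerivAt_dt h (θ t) x).scomp t (hθ.differentiable t).hasDerivAt
  exact h1.deriv

/-! ### the residual near the boundary -/

theorem bounded_slice {F : Type*} [NormedAddCommGroup F] {R : ℝ} {W : ℝ × E → F}
    (h : Continuous W) (h0 : ∀ t x, R ≤ ‖x‖ → W (t, x) = 0) (a b : ℝ) :
    ∃ M : ℝ, 0 ≤ M ∧ ∀ t ∈ Icc a b, ∀ x, ‖W (t, x)‖ ≤ M := by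
  obtain ⟨M, hM⟩ := ((isCompact_Icc (a := a) (b := b)).prod
    (isCompact_closedBall (0 : E) R)).exists_bound_of_continuousOn h.continuousOn
  refine ⟨max M 0, le_max_right _ _, fun t ht x => ?_⟩
  by_cases hx : ‖x‖ ≤ R
  · exact (hM (t, x) ⟨ht, mem_closedBall_zero_iff.2 hx⟩).trans (le_max_left _ _)
  · rw [h0 t x (not_le.1 hx).le, norm_zero]
    exact le_max_right _ _

theorem pd_scale {F : Type*} [NormedAddCommGroup F] [NormedSpace ℝ F] {ρ : E → ℝ} (hρ : Sm ρ)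
    {b : ℝ → ℝ} (hb : Sm b) {f : E → F} (hf : Sm f) (δ : ℝ) (i : Fin 3) (y : E) :
    pd i (fun y => b (ρ y / δ) • f y) y =
      δ⁻¹ • (deriv b (ρ y / δ) • (pd i ρ y • f y)) + b (ρ y / δ) • pd i f y := by
  have h1 : HasFDerivAt ρ (fderiv ℝ ρ y) y := (hρ.differentiable y).hasFDerivAt
  have h2 : HasFDerivAt (fun y => ρ y / δ) (δ⁻¹ • fderiv ℝ ρ y) y := by
    simpa only [div_eq_mul_inv, mul_comm] using h1.const_mul δ⁻¹
  have h3 : HasFDerivAt (fun y => b (ρ y / δ)) (deriv b (ρ y / δ) • (δ⁻¹ • fderiv ℝ ρ y)) y :=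
    (hb.differentiable (ρ y / δ)).hasDerivAt.comp_hasFDerivAt y h2
  have h4 := h3.smul (hf.differentiable y).hasFDerivAt
  have h5 : fderiv ℝ (fun y => b (ρ y / δ) • f y) y = _ := h4.fderiv
  rw [pd_def, h5]
  simp only [_root_.add_apply, _root_.smul_apply, ContinuousLinearMap.smulRight_apply, pd_def,
    smul_eq_mul, smul_smul]
  rw [add_comm]
  congr 2
  ring

theorem scale {F : Type*} [NormedAddCommGroup F] [NormedSpace ℝ F] {ρ : E → ℝ} (hρ : Sm ρ)
    {R : ℝ} (hR : 0 < R) (t0 t1 : ℝ) (n : ℕ) : ∀ (b : ℝ → ℝ) (W : ℝ × E → F), Sm b →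
    HasCompactSupport b → InT R W → ∃ C : ℝ, 0 ≤ C ∧ ∀ L : List (Fin 3), L.length ≤ n →
      ∀ δ : ℝ, 0 < δ → δ ≤ 1 → ∀ t ∈ Icc t0 t1, ∀ x,
        δ ^ L.length * ‖pds L (fun y => b (ρ y / δ) • W (t, y)) x‖ ≤ C := by
  induction n with
  | zero =>
    intro b W hb hbc hW
    obtain ⟨M, hM⟩ := hb.continuous.bounded_above_of_compact_support hbc
    obtain ⟨N, hN0, hN⟩ := bounded_slice hW.smooth.continuous hW.supp t0 t1
    refine ⟨max M 0 * N, by positivity, fun L hL δ hδ hδ1 t ht x => ?_⟩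
    have hL0 : L = [] := List.length_eq_zero_iff.1 (by omega)
    subst hL0
    simp only [List.length_nil, pow_zero, one_mul, pds, norm_smul]
    exact mul_le_mul ((hM _).trans (le_max_left _ _)) (hN t ht x) (norm_nonneg _)
      (le_max_right _ _)
  | succ n ih =>
    intro b W hb hbc hW
    obtain ⟨C0, hC0, h0⟩ := ih b W hb hbc hW
    have hb' : Sm (deriv b) := by
      have := contDiff_infty_iff_deriv.1 hb
      exact this.2
    choose C1 hC1 h1 using fun i : Fin 3 => ih (deriv b) (fun p => pd i ρ p.2 • W p) hb'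
      hbc.deriv (inT_smul ((hρ.pd i).comp contDiff_snd) hW)
    choose C2 hC2 h2 using fun i : Fin 3 => ih b (fun p => pd i (sl W p.1) p.2) hb hbc
      (inT_pd hR hW i)
    refine ⟨C0 + ∑ i, (C1 i + C2 i), add_nonneg hC0 (Finset.sum_nonneg fun i _ =>
      add_nonneg (hC1 i) (hC2 i)), fun L hL δ hδ hδ1 t ht x => ?_⟩
    rcases L with _ | ⟨i, L⟩
    · exact (h0 [] (by simp) δ hδ hδ1 t ht x).trans (le_add_of_nonneg_right
        (Finset.sum_nonneg fun i _ => add_nonneg (hC1 i) (hC2 i)))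
    · have hL' : L.length ≤ n := by simpa using hL
      have hWt : Sm (sl W t) := PDC.sl_smooth hW.smooth t
      have hbs : Sm (fun y : E => b (ρ y / δ)) := hb.comp (hρ.div_const δ)
      have hbs' : Sm (fun y : E => deriv b (ρ y / δ)) := hb'.comp (hρ.div_const δ)
      have hf : Sm (fun y => b (ρ y / δ) • W (t, y)) := hbs.smul hWt
      have hf1 : Sm (fun y => deriv b (ρ y / δ) • (pd i ρ y • W (t, y))) :=
        hbs'.smul ((hρ.pd i).smul hWt)
      have hf2 : Sm (fun y => b (ρ y / δ) • pd i (sl W t) y) := hbs.smul (hWt.pd i)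
      have e1 : pds (i :: L) (fun y => b (ρ y / δ) • W (t, y)) x =
          δ⁻¹ • pds L (fun y => deriv b (ρ y / δ) • (pd i ρ y • W (t, y))) x +
          pds L (fun y => b (ρ y / δ) • pd i (sl W t) y) x := by
        show pd i (pds L _) x = _
        rw [← PDC.pds_comm hf i L x]
        have e2 : pd i (fun y => b (ρ y / δ) • W (t, y)) = fun y =>
            δ⁻¹ • (deriv b (ρ y / δ) • (pd i ρ y • W (t, y))) + b (ρ y / δ) • pd i (sl W t) y :=
          funext fun y => pd_scale hρ hb hWt δ i y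
        rw [e2, EngM.pds_add (hf1.const_smul δ⁻¹) hf2, EngM.pds_smul hf1]
      rw [e1]
      have b1 := h1 i L hL' δ hδ hδ1 t ht x
      have b2 := h2 i L hL' δ hδ hδ1 t ht x
      have b3 : C1 i + C2 i ≤ ∑ i, (C1 i + C2 i) :=
        Finset.single_le_sum (f := fun i => C1 i + C2 i)
          (fun i _ => add_nonneg (hC1 i) (hC2 i)) (Finset.mem_univ i)
      have hδi : δ ^ (i :: L).length = δ ^ L.length * δ := by simp [pow_succ]
      rw [hδi]
      set a := pds L (fun y => deriv b (ρ y / δ) • (pd i ρ y • W (t, y))) x with ha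
      set c := pds L (fun y => b (ρ y / δ) • pd i (sl W t) y) x with hc
      have n1 : ‖δ⁻¹ • a + c‖ ≤ δ⁻¹ * ‖a‖ + ‖c‖ := by
        refine (norm_add_le _ _).trans ?_
        rw [norm_smul, Real.norm_eq_abs, abs_of_pos (inv_pos.2 hδ)]
      calc δ ^ L.length * δ * ‖δ⁻¹ • a + c‖ ≤ δ ^ L.length * δ * (δ⁻¹ * ‖a‖ + ‖c‖) := by gcongr
        _ = δ ^ L.length * ‖a‖ + δ * (δ ^ L.length * ‖c‖) := by
            field_simp
        _ ≤ δ ^ L.length * ‖a‖ + 1 * (δ ^ L.length * ‖c‖) := by gcongr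
        _ ≤ C1 i + C2 i := by linarith
        _ ≤ C0 + ∑ i, (C1 i + C2 i) := by linarith

/-- the part of the residual near the boundary is small -/
theorem est1 (hChs : SpecChs) {ρ : E → ℝ} (hρ : Sm ρ) {R : ℝ} (hR : 0 < R) (t0 t1 : ℝ)
    {χ : ℝ → ℝ} (hχ : Sm χ) (hχc : HasCompactSupport χ) {W : ℝ × E → E} (hW : InT R W) :
    ∃ C : ℝ, 0 ≤ C ∧ ∀ δ : ℝ, 0 < δ → δ ≤ 1 → ∀ t ∈ Icc t0 t1,
      √(hs univ 6 (fun x => (χ (ρ x / δ) * ρ x ^ 8) • W (t, x))) ≤ C * δ ^ 2 := by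
  have hb : Sm (fun s : ℝ => χ s * s ^ 8) := hχ.mul (contDiff_id.pow 8)
  have hbc : HasCompactSupport (fun s : ℝ => χ s * s ^ 8) := hχc.mul_right
  obtain ⟨C, hC, h⟩ := scale hρ hR t0 t1 6 _ W hb hbc hW
  obtain ⟨C', hC', h'⟩ := hChs R 6
  refine ⟨C' * C, mul_nonneg hC' hC, fun δ hδ hδ1 t ht => ?_⟩
  have hWt : Sm (sl W t) := PDC.sl_smooth hW.smooth t
  have hf : Sm (fun x => (χ (ρ x / δ) * (ρ x / δ) ^ 8) • W (t, x)) :=
    (hb.comp (hρ.div_const δ)).smul hWt
  have e1 : (fun x => (χ (ρ x / δ) * ρ x ^ 8) • W (t, x)) =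
      fun x => δ ^ 8 • ((χ (ρ x / δ) * (ρ x / δ) ^ 8) • W (t, x)) := by
    funext x
    rw [smul_smul]
    congr 1
    field_simp
  rw [e1]
  have hin : In R (fun x => δ ^ 8 • ((χ (ρ x / δ) * (ρ x / δ) ^ 8) • W (t, x))) :=
    ⟨hf.const_smul _, fun x hx => by simp [hW.supp t x hx]⟩
  have hbd : Bd univ 6 (fun x => δ ^ 8 • ((χ (ρ x / δ) * (ρ x / δ) ^ 8) • W (t, x)))
      (C * δ ^ 2) := by
    intro L hL x _
    rw [EngM.pds_smul hf]
    simp only [norm_smul, norm_pow, Real.norm_eq_abs, abs_of_pos hδ]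
    have h1 := h L hL δ hδ hδ1 t ht x
    have h2 : δ ^ 6 ≤ δ ^ L.length := pow_le_pow_of_le_one hδ.le hδ1 hL
    calc δ ^ 8 * ‖pds L (fun x => (χ (ρ x / δ) * (ρ x / δ) ^ 8) • W (t, x)) x‖
        = δ ^ 2 * (δ ^ 6 * ‖pds L (fun x => (χ (ρ x / δ) * (ρ x / δ) ^ 8) • W (t, x)) x‖) := by
          ring
      _ ≤ δ ^ 2 * (δ ^ L.length *
            ‖pds L (fun x => (χ (ρ x / δ) * (ρ x / δ) ^ 8) • W (t, x)) x‖) := by gcongr
      _ ≤ δ ^ 2 * C := by gcongr
      _ = C * δ ^ 2 := mul_comm _ _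
  calc _ ≤ C' * (C * δ ^ 2) := h' E _ _ hin hbd
    _ = _ := by ring

theorem bd_nonneg {F : Type*} [NormedAddCommGroup F] [NormedSpace ℝ F] {k : ℕ} {f : E → F} {c : ℝ}
    (h : Bd univ k f c) : 0 ≤ c :=
  (norm_nonneg _).trans (h [] (by simp) 0 (mem_univ _))

theorem bd_comp {k : ℕ} {v : E → E} {c : ℝ} (hv : Sm v) (h : Bd univ k v c) (j : Fin 3) :
    Bd univ k (fun x => v x j) c := by
  intro L hL x hx
  have e := INC.pds_clm (EuclideanSpace.proj (𝕜 := ℝ) j) hv L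
  have e2 : pds L (fun x => v x j) x = pds L v x j := congrFun e x
  rw [e2]
  exact (PiLp.norm_apply_le (pds L v x) j).trans (h L hL x hx)

theorem bd_neg {k : ℕ} {v : E → ℝ} {c : ℝ} (hv : Sm v) (h : Bd univ k v c) :
    Bd univ k (fun x => -v x) c := by
  intro L hL x hx
  have e : (fun x => -v x) = fun x => (-1 : ℝ) • v x := by
    funext x
    simp
  rw [e, EngM.pds_smul hv]
  simpa using h L hL x hx

/-- cross product with a field with small derivatives -/
theorem cr_bd (hH : SpecHSB) (hM : SpecHmul) (k : ℕ) : ∃ C : ℝ, 0 ≤ C ∧ ∀ (R : ℝ) (u v : E → E)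
    (c : ℝ), In R u → Sm v → Bd univ k v c →
    √(hs univ k (fun x => cr (u x) (v x))) ≤ C * c * √(hs univ k u) := by
  obtain ⟨C, hC, h⟩ := hM k
  refine ⟨8 * C, by positivity, fun R u v c hu hv hb => ?_⟩
  have hc := bd_nonneg hb
  have hcu : HasCompactSupport u := Vlb.cpt hu
  have hcomp := hH.comp univ k u MeasurableSet.univ (Or.inr hcu) hu.smooth
  have hs0 : ∀ f : E → ℝ, 0 ≤ hs univ k f := fun f => hH.nonneg ℝ univ k f
  have hu0 : 0 ≤ hs univ k u := hH.nonneg E univ k u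
  have huj : ∀ j, hs univ k (fun x => u x j) ≤ hs univ k u := by
    intro j
    rw [hcomp]
    exact Finset.single_le_sum (f := fun j => hs univ k (fun x => u x j))
      (fun i _ => hs0 _) (Finset.mem_univ j)
  have huin : ∀ j, In R (fun x => u x j) := fun j =>
    ⟨hu.smooth.comp_apply j, fun x hx => by simp [hu.supp x hx]⟩
  have key : ∀ (a : E → ℝ) (j : Fin 3), Sm a → Bd univ k a c →
      hs univ k (fun x => a x • u x j) ≤ (C * c) ^ 2 * hs univ k u := by
    intro a j ha hba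
    have h1 := h ℝ R a (fun x => u x j) c ha hba (huin j)
    have h2 : √(hs univ k (fun x => a x • u x j)) ≤ C * c * √(hs univ k u) :=
      h1.trans (mul_le_mul_of_nonneg_left (Real.sqrt_le_sqrt (huj j)) (by positivity))
    calc hs univ k (fun x => a x • u x j) = √(hs univ k (fun x => a x • u x j)) ^ 2 :=
          (Real.sq_sqrt (hs0 _)).symm
      _ ≤ (C * c * √(hs univ k u)) ^ 2 := pow_le_pow_left₀ (Real.sqrt_nonneg _) h2 2
      _ = (C * c) ^ 2 * hs univ k u := by rw [mul_pow, Real.sq_sqrt hu0]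
  have two : ∀ p q : Fin 3, hs univ k (fun x => u x p * v x q - u x q * v x p) ≤
      4 * (C * c) ^ 2 * hs univ k u := by
    intro p q
    have s1 : Sm (fun x => v x q) := hv.comp_apply q
    have s2 : Sm (fun x => -v x p) := (hv.comp_apply p).neg
    have k1 := key _ p s1 (bd_comp hv hb q)
    have k2 := key _ q s2 (bd_neg (hv.comp_apply p) (bd_comp hv hb p))
    have i1 : In R (fun x => v x q • u x p) :=
      ⟨s1.smul (huin p).smooth, fun x hx => by simp [hu.supp x hx]⟩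
    have i2 : In R (fun x => (-v x p) • u x q) :=
      ⟨s2.smul (huin q).smooth, fun x hx => by simp [hu.supp x hx]⟩
    have h3 := hH.add_le ℝ univ k _ _ MeasurableSet.univ (Or.inr ⟨Vlb.cpt i1, Vlb.cpt i2⟩)
      i1.smooth i2.smooth
    have e1 : (fun x => u x p * v x q - u x q * v x p) =
        fun x => v x q • u x p + (-v x p) • u x q := by
      funext x
      simp only [smul_eq_mul]
      ring
    rw [e1]
    linarith
  have hwin : In R (fun x => cr (u x) (v x)) := by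
    refine ⟨Sm.cr hu.smooth hv, fun x hx => ?_⟩
    rw [hu.supp x hx]
    ext i
    fin_cases i <;> simp
  have hw := hH.comp univ k _ MeasurableSet.univ (Or.inr (Vlb.cpt hwin)) hwin.smooth
  have t0 := two 1 2
  have t1 := two 2 0
  have t2 := two 0 1
  have h4 : hs univ k (fun x => cr (u x) (v x)) ≤ (8 * C * c) ^ 2 * hs univ k u := by
    rw [hw, Fin.sum_univ_three]
    simp only [cr_apply0, cr_apply1, cr_apply2]
    have : 0 ≤ (C * c) ^ 2 * hs univ k u := by positivity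
    nlinarith
  calc √(hs univ k (fun x => cr (u x) (v x))) ≤ √((8 * C * c) ^ 2 * hs univ k u) :=
        Real.sqrt_le_sqrt h4
    _ = 8 * C * c * √(hs univ k u) := by
        rw [Real.sqrt_mul (by positivity), Real.sqrt_sq (by positivity)]

/-- `nq` is bounded by the full norm -/
theorem nq_le (hH : SpecHSB) (k : ℕ) : ∃ C : ℝ, 0 ≤ C ∧ ∀ (R : ℝ) (u : E → E), 0 < R → In R u →
    √(nq univ k u) ≤ C * √(hs univ (k + 1) u) := by
  refine ⟨4, by norm_num, fun R u hR hu => ?_⟩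
  have hu0 : 0 ≤ hs univ (k + 1) u := hH.nonneg E univ (k + 1) u
  have hs0 : ∀ (f : E → ℝ) (n : ℕ), 0 ≤ hs univ n f := fun f n => hH.nonneg ℝ univ n f
  have hcomp := hH.comp univ (k + 1) u MeasurableSet.univ (Or.inr (Vlb.cpt hu)) hu.smooth
  have hpd : ∀ i j : Fin 3, hs univ k (fun x => pd i u x j) ≤
      hs univ (k + 1) (fun x => u x j) := by
    intro i j
    have e : (fun x => pd i u x j) = pds [i] (fun x => u x j) := by
      funext x
      exact pd_apply (hu.smooth.differentiable x) i j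
    rw [e]
    exact hH.pds_le ℝ univ k [i] _ (hu.smooth.comp_apply j)
  have hin : ∀ i j : Fin 3, In R (fun x => pd i u x j) := fun i j =>
    ⟨(hu.smooth.pd i).comp_apply j, fun x hx => by simp [(ItB.in_pd hR hu i).supp x hx]⟩
  have two : ∀ i j : Fin 3, hs univ k (fun x => pd i u x j - pd j u x i) ≤
      2 * hs univ (k + 1) (fun x => u x j) + 2 * hs univ (k + 1) (fun x => u x i) := by
    intro i j
    have i2 : In R (fun x => (-1 : ℝ) • pd j u x i) :=
      ⟨(hin j i).smooth.const_smul _, fun x hx => by simp [(hin j i).supp x hx]⟩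
    have h3 := hH.add_le ℝ univ k _ _ MeasurableSet.univ
      (Or.inr ⟨Vlb.cpt (hin i j), Vlb.cpt i2⟩) (hin i j).smooth i2.smooth
    have e1 : (fun x => pd i u x j - pd j u x i) =
        fun x => pd i u x j + (-1 : ℝ) • pd j u x i := by
      funext x
      simp only [smul_eq_mul]
      ring
    have h4 := hH.smul ℝ univ k (-1) _ (hin j i).smooth
    rw [e1]
    have h5 := hpd i j
    have h6 := hpd j i
    linarith
  have hcin := ItB.in_curl hR hu
  have hcc := hH.comp univ k _ MeasurableSet.univ (Or.inr (Vlb.cpt hcin)) hcin.smooth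
  have h0 := hH.mono E univ 0 (k + 1) u (by omega)
  have h7 : nq univ k u ≤ 4 ^ 2 * hs univ (k + 1) u := by
    unfold nq
    rw [hcc, Fin.sum_univ_three]
    simp only [curl_apply0, curl_apply1, curl_apply2]
    have t0 := two 1 2
    have t1 := two 2 0
    have t2 := two 0 1
    rw [Fin.sum_univ_three] at hcomp
    have p0 := hs0 (fun x => u x 0) (k + 1)
    have p1 := hs0 (fun x => u x 1) (k + 1)
    have p2 := hs0 (fun x => u x 2) (k + 1)
    linarith
  calc √(nq univ k u) ≤ √(4 ^ 2 * hs univ (k + 1) u) := Real.sqrt_le_sqrt h7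
    _ = 4 * √(hs univ (k + 1) u) := by
        rw [Real.sqrt_mul (by positivity), Real.sqrt_sq (by positivity)]

/-! ### the ideal path, cut off -/

theorem pd_sq_zero {F : Type*} [NormedAddCommGroup F] [NormedSpace ℝ F] {ρ : E → ℝ} (hρ : Sm ρ)
    {g : E → F} (hg : Sm g) {x : E} (hx : ρ x = 0) (i : Fin 3) :
    pd i (fun y => ρ y ^ 2 • g y) x = 0 := by
  have h1 : pd i (fun y => ρ y ^ 2) x = 0 := by
    have h2 := PDC.pd_mul (hρ.differentiable x) (hρ.differentiable x) i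
    have h3 : (fun y => ρ y ^ 2) = fun y => ρ y * ρ y := funext fun y => sq (ρ y)
    rw [h3, h2, hx]
    ring
  rw [PDC.pd_smul ((hρ.pow 2).differentiable (by simp) x) (hg.differentiable x), h1, hx]
  simp

theorem path {ρ : E → ℝ} {R : ℝ} (hρ : Sm ρ) (hR : 0 < R) {V0 B : E → E} {C : ℝ × E → E}
    {q : ℝ × E → ℝ} {r : ℝ × E → E} (hV0 : InX ρ V0) (hV0R : In R V0) (hId : IdJ ρ V0 B 8 C q r)
    {ζ : E → ℝ} (hζ : In R ζ) {U : Set E} (hU : IsOpen U) (hζU : ∀ x ∈ U, ζ x = 1) :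
    ∃ Vh : ℝ × E → E, InT R Vh ∧ (∀ t, InX ρ (sl Vh t)) ∧ (∀ x, Vh (0, x) = V0 x) ∧
      ∀ t, ∀ x ∈ U, dt Vh (t, x) + cr (curl (sl Vh t) x) (Vh (t, x) + B x) =
        gr (sl q t) x + ρ x ^ 8 • r (t, x) := by
  set W : ℝ × E → E := fun p => ρ p.2 ^ 2 • (ζ p.2 • C p) with hW
  have hWin : InT R W :=
    inT_smul (a := fun p : ℝ × E => ρ p.2 ^ 2) ((hρ.comp contDiff_snd).pow 2) (inT_cut hζ hId.smC)
  have hcW := inT_curl hR hWin
  set Vh : ℝ × E → E := fun p => V0 p.2 + curl (sl W p.1) p.2 with hVh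
  have hVin : InT R Vh := ItB.inT_add (Vlb.inT_const hV0R) hcW
  have hWt : ∀ t, Sm (sl W t) := fun t => PDC.sl_smooth hWin.smooth t
  have heq : ∀ t, ∀ x ∈ U, Vh (t, x) = Vc ρ V0 C (t, x) := by
    intro t x hx
    have h1 : ∀ y ∈ U, sl W t y = (fun y => ρ y ^ 2 • C (t, y)) y := by
      intro y hy
      show ρ y ^ 2 • (ζ y • C (t, y)) = ρ y ^ 2 • C (t, y)
      rw [hζU y hy, one_smul]
    have h2 : ∀ i, pd i (sl W t) x = pd i (fun y => ρ y ^ 2 • C (t, y)) x := fun i =>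
      EngM.pds_congr hU h1 [i] x hx
    have h3 : curl (sl W t) x = curl (fun y => ρ y ^ 2 • C (t, y)) x := by
      unfold curl
      simp only [h2]
    show V0 x + curl (sl W t) x = V0 x + curl (fun y => ρ y ^ 2 • C (t, y)) x
    rw [h3]
  refine ⟨Vh, hVin, fun t => ⟨PDC.sl_smooth hVin.smooth t, ?_, ?_⟩, ?_, ?_⟩
  · intro x hx
    have h1 : dv (sl Vh t) x = dv V0 x + dv (curl (sl W t)) x := by
      unfold dv
      rw [← Finset.sum_add_distrib]
      refine Finset.sum_congr rfl fun i _ => ?_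
      have h2 := PDC.pd_add (hV0.smooth.differentiable x) ((hWt t).curl.differentiable x) i
      have h3 : pd i (sl Vh t) x = pd i V0 x + pd i (curl (sl W t)) x := h2
      rw [h3]
      rfl
    rw [h1, hV0.dv0 x hx, PDC.dv_curl (hWt t), add_zero]
  · intro x hx
    have h2 : ∀ i, pd i (sl W t) x = 0 := fun i =>
      pd_sq_zero hρ (g := fun y => ζ y • C (t, y))
        (hζ.smooth.smul (PDC.sl_smooth hId.smC t)) hx i
    have h3 : curl (sl W t) x = 0 := by
      ext i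
      fin_cases i <;> simp [h2]
    have h4 : sl Vh t x = V0 x := by
      show V0 x + curl (sl W t) x = V0 x
      rw [h3, add_zero]
    rw [h4]
    exact hV0.tan x hx
  · intro x
    have h1 : sl W 0 = fun _ => (0 : E) := by
      funext y
      show ρ y ^ 2 • (ζ y • C (0, y)) = 0
      rw [hId.init, smul_zero, smul_zero]
    have h2 : curl (sl W 0) x = 0 := by
      rw [h1]
      ext i
      fin_cases i <;> simp [pd_def]
    show V0 x + curl (sl W 0) x = V0 x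
    rw [h2, add_zero]
  · intro t x hx
    have e1 : dt Vh (t, x) = dt (Vc ρ V0 C) (t, x) := by
      unfold dt
      have : (fun s => Vh (s, x)) = fun s => Vc ρ V0 C (s, x) := funext fun s => heq s x hx
      simp only [this]
    have e2 : ∀ i, pd i (sl Vh t) x = pd i (sl (Vc ρ V0 C) t) x := fun i =>
      EngM.pds_congr hU (fun y hy => heq t y hy) [i] x hx
    have e3 : curl (sl Vh t) x = curl (sl (Vc ρ V0 C) t) x := by
      unfold curl
      simp only [e2]
    rw [e1, e3, heq t x hx]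
    exact hId.eq t x

/-- a field of `InX` is its own projection -/
theorem proj_self {ρ : E → ℝ} {R : ℝ} {P : (E → E) → E → E} {Q : (E → E) → E → ℝ}
    (hL : Leray ρ R P Q) {m : E → E} (hm : InX ρ m) {x : E} (hx : ρ x ≤ 0) : P m x = m x := by
  have h0 : Sm (fun _ : E => (0 : ℝ)) := contDiff_const
  have hg : gr (fun _ : E => (0 : ℝ)) = fun _ => 0 := by
    funext y
    ext i
    simp [pd_def]
  have h1 := hL.uniq m (fun _ => 0) hm.smooth h0 (by
    rw [hg]
    simpa using hm) x hx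
  have h2 := hL.dec m hm.smooth x hx
  rw [← h1, hg] at h2
  exact (sub_eq_zero.1 h2).symm

theorem inT_dt {F : Type*} [NormedAddCommGroup F] [NormedSpace ℝ F] {R : ℝ} {m : ℝ × E → F}
    (h : InT R m) : InT R (dt m) := by
  refine ⟨PDC.dt_smooth h.smooth, fun t x hx => ?_⟩
  have h1 : (fun s => m (s, x)) = fun _ => (0 : F) := funext fun s => h.supp s x hx
  unfold dt
  simp only [h1, deriv_const]

theorem db_mono {k j : ℕ} {K : ℝ} {Φ : E → E} (h : DB k K Φ) (hj : j ≤ k) : DB j K Φ :=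
  fun L h1 h2 x => h L h1 (h2.trans hj) x

theorem bd_add {F : Type*} [NormedAddCommGroup F] [NormedSpace ℝ F] {k : ℕ} {f g : E → F}
    {c c' : ℝ} (hf : Sm f) (hg : Sm g) (h : Bd univ k f c) (h' : Bd univ k g c') :
    Bd univ k (fun x => f x + g x) (c + c') := by
  intro L hL x hx
  rw [EngM.pds_add hf hg]
  exact (norm_add_le _ _).trans (add_le_add (h L hL x hx) (h' L hL x hx))

theorem bd_mono {F : Type*} [NormedAddCommGroup F] [NormedSpace ℝ F] {j k : ℕ} {f : E → F}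
    {c : ℝ} (h : Bd univ k f c) (hj : j ≤ k) : Bd univ j f c :=
  fun L hL x hx => h L (hL.trans hj) x hx

end MPfab.RxBN

namespace MPfab

open RxBN

theorem specRxB (hIdeal : SpecIdeal) (hPT : SpecPT) (hMov : SpecMov) (hLop : SpecLop)
    (hFlowA : SpecFlowA) (hFlowBd : SpecFlowBd) (hPb : SpecPbAlg) (hDt : SpecPbDt)
    (hSm : SpecPbSm) (hPbb : SpecPbb) (hSched : SpecSched) (hVlb : SpecVlb) (hI : SpecIncSm)
    (hA : SpecIncAlg) (hM : SpecHmul) (hChs : SpecChs) (hCpt : SpecCpt) (hH : SpecHSB) :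
    SpecRxB := by
  intro ρ R P Q B0 V0 B Bh T hD hV0 hV0R hT hBs hBh hBB hbd hdiv
  have hR := hD.pos
  have hρ : Sm ρ := hD.dom.smooth
  obtain ⟨C, q, r, hId⟩ := hIdeal ρ V0 B hD.dom hV0.smooth hBs hbd hdiv 8
  -- cutoffs
  have hcpt : IsCompact {x : E | ρ x ≤ 0} := by
    refine (isCompact_closedBall (0 : E) R).of_isClosed_subset
      (isClosed_le hρ.continuous continuous_const) fun x hx => ?_
    rw [mem_closedBall_zero_iff]
    exact (hD.ball x hx).le
  obtain ⟨ζ, hζ, U, hU, hKU, hζU⟩ := cutoff hcpt (fun x hx => hD.ball x hx)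
  obtain ⟨Vh, hVin, hVX, hV0e, hVeq⟩ := path hρ hR hV0 hV0R hId hζ hU hζU
  obtain ⟨χ, hχ, hχc, hχ1⟩ := cutoff1
  -- times
  obtain ⟨ε, hε0, hε4, hε1⟩ : ∃ ε : ℝ, 0 < ε ∧ 4 * ε < T / ((1 : ℕ) : ℝ) ∧ ε < 1 := by
    refine ⟨min (T / 8) (1 / 2), lt_min (by positivity) (by norm_num), ?_, ?_⟩
    · have := min_le_left (T / 8) (1 / 2)
      rw [Nat.cast_one, div_one]
      linarith
    · have := min_le_right (T / 8) (1 / 2)
      linarith
  obtain ⟨-, κ, -, θ, -, -, hκ, -, hθ, -, -, hκ01, -, hθr, -, -, -, hκ1, hκ0, -, -, hθid, hθd,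
    -, -⟩ := hSched T 1 ε hT le_rfl hε0 hε4 hε1
  have hT0 : 0 < T + 2 := by linarith
  -- constants
  have hL : LOp R P := hLop ρ R P Q hD.dom.toDom hD.ler
  obtain ⟨K1, hK1⟩ : ∃ K1, Bd univ 8 Bh K1 := by
    obtain ⟨c, hc⟩ := hCpt.bd ℝ E R (fun p => Bh p.2) (hBh.smooth.comp contDiff_snd)
      (fun w x hx => hBh.supp x hx) {0} isCompact_singleton 8
    exact ⟨c, hc 0 (mem_singleton 0)⟩
  obtain ⟨CF, hCF⟩ := hFlowBd 8 (K1 + 1) (T + 2)
  obtain ⟨C6, hC6, h6⟩ := hPbb R 6 CF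
  obtain ⟨C5, hC5, h5⟩ := hPbb R 5 CF
  obtain ⟨Cf, hCf⟩ := hMov R P P hR hL hL
  obtain ⟨C0, hC0, h0⟩ := hPT R (T + 2) hR hT0
  obtain ⟨NV, hNV0, hNV⟩ : ∃ NV : ℝ, 0 ≤ NV ∧ ∀ s ∈ Icc (-1) (T + 1),
      √(hs univ (6 + 1) (sl Vh s)) ≤ NV := by
    obtain ⟨c, hc⟩ := hCpt.bd ℝ E R Vh hVin.smooth hVin.supp (Icc (-1) (T + 1)) isCompact_Icc 7
    obtain ⟨C', hC', h'⟩ := hChs R 7
    refine ⟨max (C' * c) 0, le_max_right _ _, fun s hsI => ?_⟩
    exact (h' E _ _ (ItB.in_sl hVin s) (hc s hsI)).trans (le_max_left _ _)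
  obtain ⟨Cn6, hCn6, hn6⟩ := nq_le hH 6
  obtain ⟨Cn5, hCn5, hn5⟩ := nq_le hH 5
  obtain ⟨Cc, hCc, hc⟩ := cr_bd hH hM 6
  have hζr : InT R (fun p : ℝ × E => ζ p.2 • r p) := inT_cut hζ hId.smr
  obtain ⟨CG, hCG, hG1⟩ := est1 hChs hρ hR (-1) (T + 1) hχ hχc hζr
  obtain ⟨A1, hA1⟩ : ∃ A1, A1 = C0 * |Cf CF| * (1 + C6 * (Cn6 * NV)) := ⟨_, rfl⟩
  have hA10 : 0 ≤ A1 := by rw [hA1]; positivity
  obtain ⟨Γ, hΓ⟩ : ∃ Γ, Γ = C5 * (Cn5 * (2 * CG + 2 * (Cc * (Cn6 * NV)))) := ⟨_, rfl⟩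
  have hΓ0 : 0 ≤ Γ := by rw [hΓ]; positivity
  obtain ⟨A, hAd⟩ : ∃ A, A = 2 * (T + 2) * A1 := ⟨_, rfl⟩
  obtain ⟨X, hX⟩ : ∃ X, X = 2 * (T + 2) * (C0 * Γ) * Real.exp (2 * A) := ⟨_, rfl⟩
  have hX0 : 0 ≤ X := by rw [hX]; positivity
  obtain ⟨e, he⟩ : ∃ e, e = 1 / (1 + X) := ⟨_, rfl⟩
  have he0 : 0 < e := by rw [he]; positivity
  have he1 : e ≤ 1 := by
    rw [he, div_le_one (by positivity)]
    linarith
  have hXe : X * e ≤ 1 := by
    rw [he, mul_one_div, div_le_one (by positivity)]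
    linarith
  refine ⟨e, he0, fun Bt hBt hTan hη => ?_⟩
  obtain ⟨FB, hF, hout⟩ := hFlowA Bt R hBt
  have hdf : ∀ t, Dif R (sl FB t) (sl FB (-t)) := fun t => dif_flow hF hout t
  have hdf' : ∀ t, Dif R (sl FB (-t)) (sl FB t) := fun t => hPb.dif R _ _ (hdf t)
  have hBd : Bd univ 8 Bt (K1 + 1) := by
    have h1 := bd_add hBh.smooth (hBt.smooth.sub hBh.smooth) hK1 hη
    have e1 : (fun x => Bh x + (Bt x - Bh x)) = Bt := by
      funext x
      abel
    rw [e1] at h1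
    exact fun L hL x hx => (h1 L hL x hx).trans (by linarith)
  have hDB : ∀ t, |t| ≤ T + 2 → DB 8 CF (sl FB t) := fun t ht => hCF R Bt FB hBt hF hBd t ht
  have hDB' : ∀ t, |t| ≤ T + 2 → DB 8 CF (sl FB (-t)) := fun t ht =>
    hDB (-t) (by rwa [abs_neg])
  have hθ2 : ∀ t, |θ t| ≤ T + 2 := by
    intro t
    have := hθr t
    rw [abs_le]
    constructor <;> linarith
  have hκT : ∀ t, T + 2 ≤ |t| → κ t = 0 := by
    intro t ht
    refine hκ0 t ?_
    rcases le_abs.1 ht with h | h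
    · right; linarith
    · left; linarith
  have hΨs : Sm (fun p : ℝ × E => FB (-p.1, p.2)) :=
    hF.smooth.comp (contDiff_fst.neg.prodMk contDiff_snd)
  obtain ⟨κ', hV, hκ'⟩ := hCf (T + 2) κ (fun _ => 1) FB (fun p => FB (-p.1, p.2)) hT0 hκ
    contDiff_const hκT (fun t => ⟨zero_le_one, le_rfl⟩) hF.smooth hΨs (fun t => hdf t)
  -- the reference path
  have hpbin : ∀ W : ℝ × E → E, InT R W → InT R (fun p => pb (sl FB p.1) (sl W p.1) p.2) :=
    fun W hW => ⟨hSm.pb ℝ FB W hF.smooth hW.smooth, fun t x hx =>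
      (hPb.inp R _ _ _ (hdf t) (ItB.in_sl hW t)).supp x hx⟩
  obtain ⟨Mf, hMf⟩ : ∃ Mf : ℝ × E → E, Mf = fun p => pb (sl FB p.1) (sl Vh p.1) p.2 := ⟨_, rfl⟩
  have hMfin : InT R Mf := hMf ▸ hpbin Vh hVin
  obtain ⟨M0, hM0⟩ : ∃ M0 : ℝ × E → E, M0 = fun p => Mf (θ p.1, p.2) := ⟨_, rfl⟩
  have hM0in : InT R M0 := hM0 ▸ inT_time hθ hMfin
  have hM0sl : ∀ t, sl M0 t = pb (sl FB (θ t)) (sl Vh (θ t)) := by
    intro t
    rw [hM0, hMf]
    rfl
  -- the residual
  obtain ⟨G, hG⟩ : ∃ G : ℝ × E → E, G = fun p => (χ (ρ p.2 / e) * ρ p.2 ^ 8) • (ζ p.2 • r p) +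
      cr (curl (sl Vh p.1) p.2) (Bt p.2 - Bh p.2) := ⟨_, rfl⟩
  have hρp : Sm (fun p : ℝ × E => ρ p.2) := hρ.comp contDiff_snd
  have hd8 : Sm (fun p : ℝ × E => χ (ρ p.2 / e) * ρ p.2 ^ 8) :=
    (hχ.comp (hρp.div_const e)).mul (hρp.pow 8)
  have hBtBh : In R (fun x => Bt x - Bh x) :=
    ⟨hBt.smooth.sub hBh.smooth, fun x hx => by rw [hBt.supp x hx, hBh.supp x hx, sub_zero]⟩
  have hG1in : InT R (fun p : ℝ × E => (χ (ρ p.2 / e) * ρ p.2 ^ 8) • (ζ p.2 • r p)) :=
    inT_smul hd8 hζr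
  have hG2in : InT R (fun p : ℝ × E => cr (curl (sl Vh p.1) p.2) (Bt p.2 - Bh p.2)) :=
    ItB.inT_cr hI hA hR hVin (Vlb.inT_const hBtBh)
  have hGin : InT R G := hG ▸ ItB.inT_add hG1in hG2in
  have hGbd : ∀ s ∈ Icc (-1) (T + 1), √(nq univ 5 (sl G s)) ≤
      Cn5 * (2 * CG + 2 * (Cc * (Cn6 * NV))) * e := by
    intro s hsI
    have b1 := hG1 e he0 he1 s hsI
    have b2 := hc R (curl (sl Vh s)) (fun x => Bt x - Bh x) e
      (ItB.in_curl hR (ItB.in_sl hVin s)) hBtBh.smooth (bd_mono hη (by norm_num))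
    have b3 : √(hs univ 6 (curl (sl Vh s))) ≤ Cn6 * NV := by
      have c1 : √(hs univ 6 (curl (sl Vh s))) ≤ √(nq univ 6 (sl Vh s)) :=
        Real.sqrt_le_sqrt (le_add_of_nonneg_right (hH.nonneg E univ 0 _))
      exact c1.trans ((hn6 R _ hR (ItB.in_sl hVin s)).trans
        (mul_le_mul_of_nonneg_left (hNV s hsI) hCn6))
    have b4 : √(hs univ 6 (sl G s)) ≤
        2 * √(hs univ 6 (fun x => (χ (ρ x / e) * ρ x ^ 8) • (ζ x • r (s, x)))) +
        2 * √(hs univ 6 (fun x => cr (curl (sl Vh s) x) (Bt x - Bh x))) := by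
      have c1 := hH.add_le E univ 6
        (fun x => (χ (ρ x / e) * ρ x ^ 8) • (ζ x • r (s, x)))
        (fun x => cr (curl (sl Vh s) x) (Bt x - Bh x)) MeasurableSet.univ
        (Or.inr ⟨Vlb.cpt (ItB.in_sl hG1in s), Vlb.cpt (ItB.in_sl hG2in s)⟩)
        (ItB.in_sl hG1in s).smooth (ItB.in_sl hG2in s).smooth
      have c2 : sl G s = fun x => (χ (ρ x / e) * ρ x ^ 8) • (ζ x • r (s, x)) +
          cr (curl (sl Vh s) x) (Bt x - Bh x) := by
        rw [hG]
        rfl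
      rw [c2]
      exact ItB.sqrt_add_le (hH.nonneg E univ 6 _) (hH.nonneg E univ 6 _) c1
    have b5 : √(hs univ 6 (sl G s)) ≤ (2 * CG + 2 * (Cc * (Cn6 * NV))) * e := by
      have c1 : CG * e ^ 2 ≤ CG * e := by
        refine mul_le_mul_of_nonneg_left ?_ hCG
        nlinarith
      have c2 : Cc * e * √(hs univ 6 (curl (sl Vh s))) ≤ Cc * e * (Cn6 * NV) :=
        mul_le_mul_of_nonneg_left b3 (by positivity)
      calc √(hs univ 6 (sl G s)) ≤ 2 * (CG * e) + 2 * (Cc * e * (Cn6 * NV)) := by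
            linarith
        _ = _ := by ring
    calc √(nq univ 5 (sl G s)) ≤ Cn5 * √(hs univ (5 + 1) (sl G s)) :=
          hn5 R _ hR (ItB.in_sl hGin s)
      _ ≤ Cn5 * ((2 * CG + 2 * (Cc * (Cn6 * NV))) * e) := mul_le_mul_of_nonneg_left b5 hCn5
      _ = _ := by ring
  obtain ⟨g, hg⟩ : ∃ g : ℝ × E → E, g = fun p => κ p.1 • pb (sl FB (θ p.1)) (sl G (θ p.1)) p.2 :=
    ⟨_, rfl⟩
  have hgin : InT R g := by
    rw [hg]
    exact inT_smul (a := fun p : ℝ × E => κ p.1) (hκ.comp contDiff_fst)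
      (inT_time (W := fun p => pb (sl FB p.1) (sl G p.1) p.2) hθ (hpbin G hGin))
  have hgbd : ∀ t, √(nq univ 5 (sl g t)) ≤ Γ * e := by
    intro t
    have e1 : sl g t = fun x => κ t • pb (sl FB (θ t)) (sl G (θ t)) x := by
      rw [hg]
      rfl
    have hin := hPb.inp R _ _ _ (hdf (θ t)) (ItB.in_sl hGin (θ t))
    rw [e1, ItB.nq_smul hH 5 (κ t) hin.smooth, Real.sqrt_mul (sq_nonneg _), Real.sqrt_sq (hκ01 t).1]
    have b1 := (h5 _ _ (hdf (θ t)) (db_mono (hDB _ (hθ2 t)) (by norm_num))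
      (db_mono (hDB' _ (hθ2 t)) (by norm_num))).1 _ (ItB.in_sl hGin (θ t))
    have b2 := hGbd (θ t) (hθr t)
    calc κ t * √(nq univ 5 (pb (sl FB (θ t)) (sl G (θ t))))
        ≤ 1 * (C5 * (Cn5 * (2 * CG + 2 * (Cc * (Cn6 * NV))) * e)) := by
          refine mul_le_mul (hκ01 t).2 (b1.trans (mul_le_mul_of_nonneg_left b2 hC5))
            (Real.sqrt_nonneg _) zero_le_one
      _ = Γ * e := by rw [hΓ]; ring
  -- the law and the forcing
  obtain ⟨P', hP'⟩ : ∃ P', P' = mlaw P P FB (fun p => FB (-p.1, p.2)) κ (fun _ => 1) := ⟨_, rfl⟩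
  rw [← hP'] at hV
  have hP'e : ∀ t M x, P' t M x = κ t • pv (sl FB t) (sl FB (-t)) (P (pb (sl FB (-t)) M)) x := by
    intro t M x
    rw [hP', mlaw_eq]
  have hvel : ∀ M, InT R M → InT R (vel P' M) := hVlb.smooth R (T + 2) P' κ' hR hV
  obtain ⟨Fo, hFo⟩ : ∃ Fo : ℝ × E → E, Fo = fun p => (dt M0 p +
      cr (curl (sl M0 p.1) p.2) (vel P' M0 p)) - g p := ⟨_, rfl⟩
  have hFoin : InT R Fo := by
    rw [hFo]
    exact ItB.inT_sub (ItB.inT_add (inT_dt hM0in) (ItB.inT_cr hI hA hR hM0in (hvel M0 hM0in))) hgin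
  have hzero : ∀ t x, T + 2 ≤ |t| → Fo (t, x) = 0 ∧ g (t, x) = 0 := by
    intro t x ht
    have z1 : g (t, x) = 0 := by
      rw [hg]
      show κ t • _ = _
      rw [hκT t ht, zero_smul]
    have z2 : vel P' M0 (t, x) = 0 := by
      show P' t (sl M0 t) x = 0
      rw [hP'e, hκT t ht, zero_smul]
    have z3 : dt M0 (t, x) = 0 := by
      rw [hM0, dt_time hθ hMfin.smooth, hθd t ht, zero_smul]
    refine ⟨?_, z1⟩
    rw [hFo]
    show dt M0 (t, x) + cr (curl (sl M0 t) x) (vel P' M0 (t, x)) - g (t, x) = 0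
    rw [z1, z2, z3, cr_zero, add_zero, sub_zero]
  have hEq0 : EqA (vel P' M0) (fun p => Fo p + g p) M0 := by
    intro t x
    rw [hFo]
    show _ = dt M0 (t, x) + cr (curl (sl M0 t) x) (vel P' M0 (t, x)) - g (t, x) + g (t, x)
    rw [sub_add_cancel]
  have hα : ∀ t, C0 * κ' 5 t * (1 + √(nq univ 6 (sl M0 t))) ≤ A1 := by
    intro t
    have b1 : κ' 5 t ≤ |Cf CF| := by
      by_cases ht : T + 2 ≤ |t|
      · rw [hV.supp 5 t ht]
        exact abs_nonneg _
      · have ht' : |t| ≤ T + 2 := (not_le.1 ht).le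
        have c1 := hκ' t CF (db_mono (hDB t ht') (by norm_num)) (db_mono (hDB' t ht') (by norm_num))
        have c2 : |κ t| ≤ 1 := by
          rw [abs_of_nonneg (hκ01 t).1]
          exact (hκ01 t).2
        calc κ' 5 t ≤ Cf CF * |κ t| := c1
          _ ≤ |Cf CF| * 1 := mul_le_mul (le_abs_self _) c2 (abs_nonneg _) (abs_nonneg _)
          _ = _ := mul_one _
    have b2 : √(nq univ 6 (sl M0 t)) ≤ C6 * (Cn6 * NV) := by
      rw [hM0sl]
      have c1 := (h6 _ _ (hdf (θ t)) (hDB _ (hθ2 t)) (hDB' _ (hθ2 t))).1 _ (ItB.in_sl hVin (θ t))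
      have c2 := hn6 R _ hR (ItB.in_sl hVin (θ t))
      exact c1.trans (mul_le_mul_of_nonneg_left (c2.trans
        (mul_le_mul_of_nonneg_left (hNV _ (hθr t)) hCn6)) hC6)
    rw [hA1]
    have b3 := Real.sqrt_nonneg (nq univ 6 (sl M0 t))
    gcongr
  have hγ : ∀ t, C0 * √(nq univ 5 (sl g t)) ≤ C0 * (Γ * e) := fun t =>
    mul_le_mul_of_nonneg_left (hgbd t) hC0
  have hint : ∀ c : ℝ, (∫ t in (-(T + 2))..(T + 2), c) = 2 * (T + 2) * c := by
    intro c
    rw [intervalIntegral.integral_const, smul_eq_mul]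
    ring
  obtain ⟨M, hMin, hMi, hMeq, -⟩ := h0 P' κ' hV M0 Fo g hM0in hFoin hgin hzero hEq0
    (fun _ => A1) (fun _ => C0 * (Γ * e)) continuous_const continuous_const hα hγ
    A (2 * (T + 2) * (C0 * (Γ * e))) (by rw [hint, hAd]) (by rw [hint]) (by
      calc 2 * (T + 2) * (C0 * (Γ * e)) * Real.exp (2 * A) = X * e := by rw [hX]; ring
        _ ≤ 1 := hXe)
  -- the solution
  obtain ⟨u, hu⟩ : ∃ u : ℝ × E → E, u = fun p => pb (sl FB (-p.1)) (sl M p.1) p.2 := ⟨_, rfl⟩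
  have huin : InT R u := by
    rw [hu]
    exact ⟨hSm.pb ℝ (fun p => FB (-p.1, p.2)) M hΨs hMin.smooth, fun t x hx =>
      (hPb.inp R _ _ _ (hdf' t) (ItB.in_sl hMin t)).supp x hx⟩
  have husl : ∀ t, sl u t = pb (sl FB (-t)) (sl M t) := by
    intro t
    rw [hu]
    rfl
  have hMu : ∀ t x, pb (sl FB t) (sl u t) x = M (t, x) := by
    intro t x
    rw [husl]
    exact pb_inv hPb (hdf' t) (sl M t) x
  have hkey : ∀ t, 0 ≤ t → t ≤ T → ∀ x, Eul P Bt u t x = Eul P Bt Vh t x - G (t, x) := by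
    intro t ht0 htT
    have hθt : θ t = t := hθid t (by linarith) (by linarith)
    have hκt : κ t = 1 := hκ1 t ht0 htT
    have s1 : ∀ x, Fo (t, x) = pb (sl FB t) (Eul P Bt u t) x := by
      intro x
      have c1 : HasDerivAt (fun s => pb (sl FB s) (sl u s) x) (dt M (t, x)) t := by
        have : (fun s => pb (sl FB s) (sl u s) x) = fun s => M (s, x) := funext fun s => hMu s x
        rw [this]
        exact PDC.hasDerivAt_dt hMin.smooth t x
      have c2 := frame hPb hDt P hBt hF hout huin.smooth t x c1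
      rw [← c2, ← hMeq t x]
      have c3 : vel P' M (t, x) = pv (sl FB t) (sl FB (-t)) (P (sl u t)) x := by
        show P' t (sl M t) x = _
        rw [hP'e, hκt, one_smul, husl]
      have c4 : pb (sl FB t) (sl u t) = sl M t := funext fun x => hMu t x
      rw [c3, c4]
    have s2 : ∀ x, Fo (t, x) = pb (sl FB t) (Eul P Bt Vh t) x - pb (sl FB t) (sl G t) x := by
      intro x
      have c0 : sl M0 t = pb (sl FB t) (sl Vh t) := by rw [hM0sl, hθt]
      have c1 : HasDerivAt (fun s => pb (sl FB s) (sl Vh s) x) (dt M0 (t, x)) t := by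
        refine (PDC.hasDerivAt_dt hM0in.smooth t x).congr_of_eventuallyEq ?_
        have hnb : ∀ᶠ s in 𝓝 t, -ε < s ∧ s < T + ε :=
          (lt_mem_nhds (by linarith)).and (gt_mem_nhds (by linarith))
        filter_upwards [hnb] with s hs1
        have c5 : sl M0 s = pb (sl FB s) (sl Vh s) := by
          rw [hM0sl, hθid s hs1.1.le hs1.2.le]
        exact (congrFun c5 x).symm
      have c2 := frame hPb hDt P hBt hF hout hVin.smooth t x c1
      have c3 : vel P' M0 (t, x) = pv (sl FB t) (sl FB (-t)) (P (sl Vh t)) x := by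
        show P' t (sl M0 t) x = _
        have c4 : pb (sl FB (-t)) (sl M0 t) = sl Vh t := by
          rw [c0]
          exact funext fun y => pb_inv hPb (hdf t) (sl Vh t) y
        rw [hP'e, hκt, one_smul, c4]
      have c4 : g (t, x) = pb (sl FB t) (sl G t) x := by
        rw [hg]
        show κ t • pb (sl FB (θ t)) (sl G (θ t)) x = _
        rw [hκt, one_smul, hθt]
      rw [← c2, hFo]
      show dt M0 (t, x) + cr (curl (sl M0 t) x) (vel P' M0 (t, x)) - g (t, x) = _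
      rw [c3, c4, c0]
    have s3 : pb (sl FB t) (Eul P Bt u t) = pb (sl FB t) (fun y => Eul P Bt Vh t y - sl G t y) := by
      funext x
      rw [← s1, s2, pb_sub]
    intro x
    have s4 := pb_inv hPb (hdf t) (Eul P Bt u t) x
    rw [s3, pb_inv hPb (hdf t)] at s4
    exact s4.symm
  have hinit : ∀ x, u (0, x) = V0 x := by
    intro x
    have hθ0 : θ 0 = 0 := hθid 0 (by linarith) (by linarith)
    have c1 : u (0, x) = pb (sl FB (-0)) (sl M 0) x := congrFun (husl 0) x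
    rw [c1, hMi, hM0sl, hθ0, pb_inv hPb (hdf 0)]
    exact hV0e x
  -- the outputs
  have hinr : Sm (fun p : ℝ × E => (inner ℝ (Bt p.2) (Vh p) : ℝ)) :=
    (hBt.smooth.comp contDiff_snd).inner ℝ hVin.smooth
  have h1χ : Sm (fun p : ℝ × E => (1 - χ (ρ p.2 / e)) * ρ p.2 ^ 8) :=
    (contDiff_const.sub (hχ.comp (hρp.div_const e))).mul (hρp.pow 8)
  refine ⟨u, fun p => ζ p.2 * q p + inner ℝ (Bt p.2) (Vh p),
    fun p => ((1 - χ (ρ p.2 / e)) * ρ p.2 ^ 8) • (ζ p.2 • r p), e, huin, ?_, inT_smul h1χ hζr, he0,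
    fun x _ => hinit x, ?_, ?_⟩
  · refine ⟨((hζ.smooth.comp contDiff_snd).mul hId.smq).add hinr, fun t x hx => ?_⟩
    simp [hζ.supp x hx, hVin.supp t x hx]
  · intro t x hx
    have c1 : |ρ x / e| ≤ 1 := by
      rw [abs_div, abs_of_pos he0, div_le_one he0]
      exact hx
    show ((1 - χ (ρ x / e)) * ρ x ^ 8) • (ζ x • r (t, x)) = 0
    rw [hχ1 _ c1, sub_self, zero_mul, zero_smul]
  · intro t x ht0 htT hx
    have hxU : x ∈ U := hKU hx
    have c1 : Eul P Bt u t x = Eul P Bt Vh t x - G (t, x) := hkey t ht0 htT x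
    have c2 : Eul P Bt Vh t x = dt Vh (t, x) + (cr (curl (sl Vh t) x) (Bt x) +
        gr (fun y => inner ℝ (Bt y) (sl Vh t y)) x) + cr (curl (sl Vh t) x) (Vh (t, x)) := by
      unfold Eul
      rw [proj_self hD.ler (hVX t) hx, ItB.lie_eq hBt.smooth (ItB.in_sl hVin t).smooth]
      rfl
    have c3 := hVeq t x hxU
    rw [cr_add] at c3
    have c4 : G (t, x) = (χ (ρ x / e) * ρ x ^ 8) • r (t, x) +
        (cr (curl (sl Vh t) x) (Bt x) - cr (curl (sl Vh t) x) (B x)) := by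
      rw [hG]
      show (χ (ρ x / e) * ρ x ^ 8) • (ζ x • r (t, x)) + cr (curl (sl Vh t) x) (Bt x - Bh x) = _
      rw [hζU x hxU, one_smul, hBB x hx, cr_sub]
    have c5 : gr (sl (fun p : ℝ × E => ζ p.2 * q p + inner ℝ (Bt p.2) (Vh p)) t) x =
        gr (sl q t) x + gr (fun y => inner ℝ (Bt y) (sl Vh t y)) x := by
      ext i
      have d1 : pd i (fun y => ζ y * q (t, y)) x = pd i (sl q t) x :=
        EngM.pds_congr hU (fun y hy => by rw [hζU y hy, one_mul]) [i] x hxU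
      have d2 : Sm (fun y => ζ y * q (t, y)) := hζ.smooth.mul (PDC.sl_smooth hId.smq t)
      have d3 : Sm (fun y => (inner ℝ (Bt y) (sl Vh t y) : ℝ)) :=
        hBt.smooth.inner ℝ (ItB.in_sl hVin t).smooth
      have d4 := PDC.pd_add (d2.differentiable x) (d3.differentiable x) i
      rw [d1] at d4
      exact d4
    have c6 : dt u (t, x) + lie Bt (sl u t) x + cr (curl (sl u t) x) (P (sl u t) x) =
        Eul P Bt u t x := rfl
    have c7 : ((1 - χ (ρ x / e)) * ρ x ^ 8) • (ζ x • r (t, x)) =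
        ((1 - χ (ρ x / e)) * ρ x ^ 8) • r (t, x) := by rw [hζU x hxU, one_smul]
    rw [c6, c5, c1, c2, c4]
    show _ = _ + ((1 - χ (ρ x / e)) * ρ x ^ 8) • (ζ x • r (t, x))
    rw [c7]
    have c8 : dt Vh (t, x) = gr (sl q t) x + ρ x ^ 8 • r (t, x) -
        (cr (curl (sl Vh t) x) (Vh (t, x)) + cr (curl (sl Vh t) x) (B x)) :=
      eq_sub_of_add_eq c3
    rw [c8]
    module

end MPfab
end

section
/-! MP_fabde4_an, module RELAX (helper60): the relaxed solution with a drift of control fields. -/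
set_option autoImplicit false
open MeasureTheory Set Filter Topology

namespace MPfab

namespace RelaxN

open CloseN BrkCN RxAN RxBN

lemma ctl_in {ρ : E → ℝ} {R : ℝ} {P : (E → E) → E → E} {Q : (E → E) → E → ℝ} {B0 : Set E}
    (h : Dat ρ R P Q B0) {X : E → E} (hX : Ctl Q B0 X) : In R X := by
  obtain ⟨Ψ, hΨ, rfl⟩ := hX
  have h1 := h.ler.inQ Ψ hΨ.smooth
  refine ⟨h1.smooth.gr, fun x hx => ?_⟩
  ext i
  exact (ItB.in_pd h.pos h1 i).supp x hx

/-- joint smoothness of the Lie derivative -/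
lemma inT_lie {R : ℝ} (hR : 0 < R) {B : E → E} {u : ℝ × E → E} (hB : In R B) (hu : InT R u) :
    InT R (fun p : ℝ × E => lie B (sl u p.1) p.2) := by
  refine ⟨?_, fun t x hx => ?_⟩
  · refine contDiff_euclidean.2 fun i => ?_
    show Sm (fun p : ℝ × E => ∑ j, (B p.2 j * pd j (sl u p.1) p.2 i + sl u p.1 p.2 j * pd i B p.2 j))
    refine ContDiff.sum fun j _ => ?_
    refine ContDiff.add (ContDiff.mul ((hB.smooth.comp_apply j).comp contDiff_snd)
      (contDiff_euclidean.mp (PDC.pds_sl hu.smooth [j]) i)) (ContDiff.mul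
      (contDiff_euclidean.mp hu.smooth j) (((hB.smooth.pd i).comp_apply j).comp contDiff_snd))
  · ext i
    rw [lie_apply]
    have h1 : ∀ j, B x j = 0 := fun j => by rw [hB.supp x hx]; rfl
    have h2 : ∀ j, sl u t x j = 0 := fun j => by
      show u (t, x) j = 0
      rw [hu.supp t x hx]; rfl
    simp [h1, h2]

/-- joint smoothness of the cross product -/
lemma inT_cr {R : ℝ} {a b : ℝ × E → E} (ha : InT R a) (hb : Sm b) :
    InT R (fun p : ℝ × E => cr (a p) (b p)) := by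
  refine ⟨?_, fun t x hx => ?_⟩
  · have h1 := contDiff_euclidean.mp ha.smooth
    have h2 := contDiff_euclidean.mp hb
    refine contDiff_euclidean.2 fun i => ?_
    fin_cases i
    · exact ((h1 1).mul (h2 2)).sub ((h1 2).mul (h2 1))
    · exact ((h1 2).mul (h2 0)).sub ((h1 0).mul (h2 2))
    · exact ((h1 0).mul (h2 1)).sub ((h1 1).mul (h2 0))
  · show cr (a (t, x)) (b (t, x)) = 0
    rw [ha.supp t x hx]
    ext i
    fin_cases i <;> simp

lemma inT_gr {R : ℝ} (hR : 0 < R) {q : ℝ × E → ℝ} (hq : InT R q) :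
    InT R (fun p : ℝ × E => gr (sl q p.1) p.2) := by
  refine ⟨?_, fun t x hx => ?_⟩
  · refine contDiff_euclidean.2 fun i => ?_
    exact PDC.pds_sl hq.smooth [i]
  · ext i
    exact (ItB.in_pd hR (ItB.in_sl hq t) i).supp x hx

lemma inT_add {F : Type*} [NormedAddCommGroup F] [NormedSpace ℝ F] {R : ℝ} {f g : ℝ × E → F}
    (hf : InT R f) (hg : InT R g) : InT R (fun p => f p + g p) :=
  ⟨hf.smooth.add hg.smooth, fun t x hx => by simp [hf.supp t x hx, hg.supp t x hx]⟩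

lemma inT_sub {F : Type*} [NormedAddCommGroup F] [NormedSpace ℝ F] {R : ℝ} {f g : ℝ × E → F}
    (hf : InT R f) (hg : InT R g) : InT R (fun p => f p - g p) :=
  ⟨hf.smooth.sub hg.smooth, fun t x hx => by simp [hf.supp t x hx, hg.supp t x hx]⟩

lemma lie_sub {B B' w : E → E} (hB : Sm B) (hB' : Sm B') (x : E) :
    lie B w x - lie B' w x = lie (fun y => B y - B' y) w x := by
  ext i
  rw [PiLp.sub_apply, lie_apply, lie_apply, lie_apply, ← Finset.sum_sub_distrib]
  refine Finset.sum_congr rfl fun j _ => ?_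
  have h1 : pd i (fun y => B y - B' y) x = pd i B x - pd i B' x := by
    rw [pd_def, fderiv_fun_sub (hB.differentiable x) (hB'.differentiable x)]
    rfl
  rw [h1, PiLp.sub_apply, PiLp.sub_apply]
  ring

/-- the projection of a time dependent field -/
lemma inT_P (hIO : SpecIncOp) (hIS : SpecIncSm) (hLop : SpecLop) {ρ : E → ℝ} {R : ℝ}
    {P : (E → E) → E → E} {Q : (E → E) → E → ℝ} {B0 : Set E} (h : Dat ρ R P Q B0)
    {u : ℝ × E → E} (hu : InT R u) : InT R (fun p : ℝ × E => P (sl u p.1) p.2) := by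
  refine hIS.of_all E R _ fun j => ?_
  exact hIO E E R P h.pos (hLop ρ R P Q h.dom.toDom h.ler).cop j u (hIS.inc E R j u h.pos hu)

/-- cutoff near the boundary -/
lemma cut {c : ℝ} (hc : 0 < c) : ∃ χ : ℝ → ℝ, Sm χ ∧ (∀ s, s ≤ -c → χ s = 1) ∧
    ∀ s, -(c / 2) ≤ s → χ s = 0 := by
  refine ⟨fun s => Real.smoothTransition ((-(c / 2) - s) / (c / 2)), ?_, fun s hs => ?_,
    fun s hs => ?_⟩
  · exact Real.smoothTransition.contDiff.comp ((contDiff_const.sub contDiff_id).div_const _)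
  · refine Real.smoothTransition.one_of_one_le ?_
    rw [le_div_iff₀ (by positivity)]
    linarith
  · refine Real.smoothTransition.zero_of_nonpos ?_
    refine div_nonpos_of_nonpos_of_nonneg (by linarith) (by positivity)

end RelaxN

open RelaxN RxAN RxBN in
/-- RELAX -/
theorem specRelax (hA : SpecRxA) (hB : SpecRxB) (hIO : SpecIncOp) (hIS : SpecIncSm)
    (hLop : SpecLop) : SpecRelax := by
  intro ρ R P Q B0 u0 T hD hX0 hR0 hT
  have hR := hD.pos
  obtain ⟨B, Bh, hBs, hBh, hBB, hbd, hdiv, hap⟩ := hA ρ R P Q B0 u0 hD hX0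
  obtain ⟨η, hη, hrel⟩ := hB ρ R P Q B0 u0 B Bh T hD hX0 hR0 hT hBs hBh hBB hbd hdiv
  obtain ⟨n, X, Y, H, Bt, K1, hX, hY, hH, hBt, hTan, hBd, hK1, hK1D, hK1e⟩ := hap η hη
  obtain ⟨u, q, Z, c, hu, hq, hZ, hc, hinit, hZc, heq⟩ := hrel Bt hBt hTan hBd
  have hdr : In R (drift X Y H) := in_drift (fun i => ctl_in hD (hX i)) (fun i => ctl_in hD (hY i))
    (ctl_in hD hH)
  set Bd' := drift X Y H with hBd'
  set ba : E → E := fun x => Bt x - Bd' x with hba
  have hbaIn : In R ba := ⟨hBt.smooth.sub hdr.smooth, fun x hx => by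
    simp [hba, hBt.supp x hx, hdr.supp x hx]⟩
  have hba0 : ∀ x, ρ x ≤ 0 → x ∉ K1 → ba x = 0 := fun x hx hxK => by
    simp only [hba]
    rw [hK1e x hx hxK, sub_self]
  -- distance of K1 from the boundary
  obtain ⟨c1, hc1, hK1c⟩ : ∃ c1 : ℝ, 0 < c1 ∧ ∀ x ∈ K1, ρ x ≤ -c1 := by
    rcases K1.eq_empty_or_nonempty with he | hne
    · exact ⟨1, one_pos, by simp [he]⟩
    obtain ⟨x0, hx0, hmax⟩ := hK1.exists_isMaxOn hne hD.dom.smooth.continuous.continuousOn
    have h1 : ρ x0 < 0 := hK1D hx0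
    exact ⟨-ρ x0, by linarith, fun x hx => by
      have := hmax hx
      simp only [mem_setOf_eq] at this
      linarith⟩
  set c' : ℝ := min c c1 / 2 with hc'
  have hc'0 : 0 < c' := by
    have := lt_min hc hc1
    simp only [hc']
    linarith
  have hc'c : c' < c := by
    have := min_le_left c c1
    simp only [hc']
    linarith
  have hc'c1 : c' < c1 := by
    have := min_le_right c c1
    simp only [hc']
    linarith
  obtain ⟨χ, hχ, hχ1, hχ0⟩ := cut hc'0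
  set G : ℝ × E → E := fun p => Z p - cr (curl (sl u p.1) p.2) (ba p.2) with hG
  have hGT : InT R G := inT_sub hZ (inT_cr (inT_curl hR hu) (hbaIn.smooth.comp contDiff_snd))
  have hG0 : ∀ t x, ρ x ≤ 0 → -c' < ρ x → G (t, x) = 0 := by
    intro t x hx hxc
    have h1 : Z (t, x) = 0 := hZc t x (abs_le.2 ⟨by linarith, by linarith⟩)
    have h2 : ba x = 0 := hba0 x hx fun hxK => by
      have := hK1c x hxK
      linarith
    simp only [hG]
    rw [h1, h2, cr_zero, sub_zero]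
  set Z2 : ℝ × E → E := fun p => χ (ρ p.2) • G p with hZ2
  have hχρ : Sm (fun p : ℝ × E => χ (ρ p.2)) := hχ.comp (hD.dom.smooth.comp contDiff_snd)
  have hZ2T : InT R Z2 := inT_smul hχρ hGT
  set q' : ℝ × E → ℝ := fun p => q p - inner ℝ (ba p.2) (u p) with hq'
  have hqi : InT R (fun p : ℝ × E => inner ℝ (ba p.2) (u p)) := by
    refine ⟨(hbaIn.smooth.comp contDiff_snd).inner ℝ hu.smooth, fun t x hx => ?_⟩
    show inner ℝ (ba x) (u (t, x)) = 0
    rw [hu.supp t x hx, inner_zero_right]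
  have hq'T : InT R q' := inT_sub hq hqi
  set L : ℝ × E → E := fun p => dt u p + lie Bd' (sl u p.1) p.2 +
    cr (curl (sl u p.1) p.2) (P (sl u p.1) p.2) with hL
  have hLT : InT R L := inT_add (inT_add (inT_dt hu) (inT_lie hR hdr hu))
    (inT_cr (inT_curl hR hu) (inT_P hIO hIS hLop hD hu).smooth)
  refine ⟨n, X, Y, H, u, q', Z2, fun p => L p - gr (sl q' p.1) p.2 - Z2 p, {x | ρ x ≤ -(c' / 2)},
    hX, hY, hH, hu, hq'T, hZ2T, inT_sub (inT_sub hLT (inT_gr hR hq'T)) hZ2T, hinit, ?_, ?_, ?_, ?_,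
    ?_⟩
  · refine Metric.isCompact_of_isClosed_isBounded
      (isClosed_le hD.dom.smooth.continuous continuous_const) (hD.dom.bdd.subset fun x hx => ?_)
    have h1 : ρ x ≤ -(c' / 2) := hx
    show ρ x < 0
    linarith
  · intro x hx
    have h1 : ρ x ≤ -(c' / 2) := hx
    show ρ x < 0
    linarith
  · intro t x hx
    have h1 : ¬ ρ x ≤ -(c' / 2) := hx
    show χ (ρ x) • G (t, x) = 0
    rw [hχ0 (ρ x) (by linarith [not_le.1 h1]), zero_smul]
  · intro t x h0 h1 hx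
    show L (t, x) - gr (sl q' t) x - Z2 (t, x) = 0
    have e1 := heq t x h0 h1 hx
    have e2 : lie Bt (sl u t) x - lie Bd' (sl u t) x = lie ba (sl u t) x :=
      lie_sub hBt.smooth hdr.smooth x
    have hus : Sm (sl u t) := PDC.sl_smooth hu.smooth t
    have e3 := ItB.lie_eq hbaIn.smooth hus x
    have e4 : gr (sl q' t) x = gr (sl q t) x - gr (fun y => inner ℝ (ba y) (sl u t y)) x := by
      have d1 : DifferentiableAt ℝ (sl q t) x := (PDC.sl_smooth hq.smooth t).differentiable x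
      have d2 : DifferentiableAt ℝ (fun y => inner ℝ (ba y) (sl u t y)) x :=
        (ContDiff.inner ℝ hbaIn.smooth hus).differentiable (by simp) x
      ext i
      have : pd i (sl q' t) x = pd i (sl q t) x - pd i (fun y => inner ℝ (ba y) (sl u t y)) x := by
        have : sl q' t = fun y => sl q t y - inner ℝ (ba y) (sl u t y) := rfl
        rw [this, pd_def, fderiv_fun_sub d1 d2]
        rfl
      rw [gr_apply, this, PiLp.sub_apply, gr_apply, gr_apply]
    have e5 : L (t, x) - gr (sl q' t) x = G (t, x) := by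
      have e6 : L (t, x) = (dt u (t, x) + lie Bt (sl u t) x + cr (curl (sl u t) x)
          (P (sl u t) x)) - lie ba (sl u t) x := by
        rw [← e2]
        simp only [hL]
        abel
      rw [e6, e1, e3, e4]
      simp only [hG]
      abel
    rw [e5]
    simp only [hZ2]
    by_cases hxc : ρ x ≤ -c'
    · rw [hχ1 (ρ x) hxc, one_smul, sub_self]
    · rw [hG0 t x hx (not_le.1 hxc), smul_zero, sub_zero]
  · intro t x h0 h1
    show L (t, x) = gr (sl q' t) x + Z2 (t, x) + (L (t, x) - gr (sl q' t) x - Z2 (t, x))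
    abel

end MPfab
end
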