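import Pool.Agent.Lib.MP_fabde4_an.SpecN

/-!
MP_fabde4_an, part N, module SCHED (helper39): the time functions.
-/

set_option autoImplicit false
open MeasureTheory Set Filter Topology

namespace MPfab

namespace SchedN

/-- the smooth step -/
noncomputable abbrev S : ℝ → ℝ := Real.smoothTransition

theorem S_sm : Sm S := Real.smoothTransition.contDiff

theorem S_lin (a b : ℝ) : Sm fun t : ℝ => S ((t - a) / b) :=
  S_sm.comp ((contDiff_id.sub contDiff_const).div_const b)

theorem S_lin' (a b : ℝ) : Sm fun t : ℝ => S ((a - t) / b) :=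
  S_sm.comp ((contDiff_const.sub contDiff_id).div_const b)

theorem S0 {a b : ℝ} (hb : 0 < b) (ha : a ≤ 0) : S (a / b) = 0 :=
  Real.smoothTransition.zero_of_nonpos (div_nonpos_of_nonpos_of_nonneg ha hb.le)

theorem S1 {a b : ℝ} (hb : 0 < b) (ha : b ≤ a) : S (a / b) = 1 :=
  Real.smoothTransition.one_of_one_le ((one_le_div hb).mpr ha)

theorem Snn (a : ℝ) : 0 ≤ S a := Real.smoothTransition.nonneg a
theorem Sle (a : ℝ) : S a ≤ 1 := Real.smoothTransition.le_one a

/-- the hat -/
noncomputable def hat (ε c t : ℝ) : ℝ := max 0 (min 1 (2 - |t - c| / ε))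

theorem hat_cont (ε c : ℝ) : Continuous (hat ε c) := by
  unfold hat
  fun_prop

theorem hat_nn (ε c t : ℝ) : 0 ≤ hat ε c t := le_max_left _ _

theorem hat_le (ε c t : ℝ) : hat ε c t ≤ 1 := max_le zero_le_one (min_le_left _ _)

theorem hat_one {ε c t : ℝ} (hε : 0 < ε) (h : |t - c| ≤ ε) : hat ε c t = 1 := by
  unfold hat
  have : |t - c| / ε ≤ 1 := (div_le_one hε).mpr h
  rw [min_eq_left (by linarith), max_eq_right zero_le_one]

theorem hat_zero {ε c t : ℝ} (hε : 0 < ε) (h : 2 * ε < |t - c|) : hat ε c t = 0 := by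
  unfold hat
  have : 2 ≤ |t - c| / ε := (le_div_iff₀ hε).mpr h.le
  rw [min_eq_right (by linarith), max_eq_left (by linarith)]

theorem hat_int {ε : ℝ} (hε : 0 < ε) (c a b : ℝ) (hab : a ≤ b) :
    ∫ t in a..b, hat ε c t ≤ 4 * ε := by
  rw [intervalIntegral.integral_of_le hab]
  have hm : MeasurableSet (Icc (c - 2 * ε) (c + 2 * ε)) := measurableSet_Icc
  calc ∫ t in Ioc a b, hat ε c t
      ≤ ∫ t in Ioc a b, (Icc (c - 2 * ε) (c + 2 * ε)).indicator (fun _ => (1 : ℝ)) t := by
        refine integral_mono ((hat_cont ε c).integrableOn_Ioc) ?_ fun t => ?_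
        · exact (integrable_const (1 : ℝ)).indicator hm
        · by_cases ht : t ∈ Icc (c - 2 * ε) (c + 2 * ε)
          · rw [indicator_of_mem ht]
            exact hat_le _ _ _
          · rw [indicator_of_notMem ht, hat_zero hε]
            rw [mem_Icc, not_and_or, not_le, not_le] at ht
            rw [lt_abs]
            rcases ht with ht | ht
            · right; linarith
            · left; linarith
    _ = (volume.restrict (Ioc a b)).real (Icc (c - 2 * ε) (c + 2 * ε)) := by
        rw [integral_indicator hm, setIntegral_const, smul_eq_mul, mul_one]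
    _ ≤ volume.real (Icc (c - 2 * ε) (c + 2 * ε)) := by
        refine ENNReal.toReal_mono ?_ (Measure.restrict_apply_le _ _)
        rw [Real.volume_Icc]
        exact ENNReal.ofReal_ne_top
    _ = 4 * ε := by
        rw [Real.volume_real_Icc_of_le (by linarith)]
        ring

/-- the clipped time -/
theorem clip (T ε : ℝ) (hT : 0 < T) (hε : 0 < ε) (hε1 : ε < 1) : ∃ θ : ℝ → ℝ, Sm θ ∧
    (∀ t, -1 ≤ θ t ∧ θ t ≤ T + 1) ∧ (∀ t, -ε ≤ t → t ≤ T + ε → θ t = t) ∧
    ∀ t, T + 2 ≤ |t| → deriv θ t = 0 := by
  have hp : 0 < 1 - ε := by linarith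
  let b : ℝ → ℝ := fun s => S ((s - (-1)) / (1 - ε)) * S ((T + 1 - s) / (1 - ε))
  have hb : Sm b := (S_lin (-1) (1 - ε)).mul (S_lin' (T + 1) (1 - ε))
  have hb0 : ∀ s, 0 ≤ b s := fun s => mul_nonneg (Snn _) (Snn _)
  have hb1 : ∀ s, b s ≤ 1 := fun s => mul_le_one₀ (Sle _) (Snn _) (Sle _)
  have hbl : ∀ s, s ≤ -1 → b s = 0 := fun s hs => by
    simp only [b]
    rw [S0 hp (by linarith), zero_mul]
  have hbr : ∀ s, T + 1 ≤ s → b s = 0 := fun s hs => by
    simp only [b]
    rw [S0 (a := T + 1 - s) hp (by linarith), mul_zero]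
  have hbm : ∀ s, -ε ≤ s → s ≤ T + ε → b s = 1 := fun s h1 h2 => by
    simp only [b]
    rw [S1 hp (by linarith), S1 hp (by linarith), mul_one]
  let θ : ℝ → ℝ := fun t => ∫ s in (0 : ℝ)..t, b s
  have hd : ∀ t, HasDerivAt θ (b t) t := fun t =>
    (hb.continuous.integral_hasStrictDerivAt 0 t).hasDerivAt
  have hder : deriv θ = b := funext fun t => (hd t).deriv
  have h0 : θ 0 = 0 := intervalIntegral.integral_same
  have hmono : Monotone θ := monotone_of_deriv_nonneg (fun t => (hd t).differentiableAt)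
    fun t => by rw [hder]; exact hb0 t
  have hmono2 : Monotone fun t => t - θ t := by
    refine monotone_of_deriv_nonneg (fun t => differentiableAt_id.sub (hd t).differentiableAt)
      fun t => ?_
    have : HasDerivAt (fun t => t - θ t) (1 - b t) t := (hasDerivAt_id t).sub (hd t)
    rw [this.deriv]
    linarith [hb1 t]
  have hcr : ∀ t, T + 1 ≤ t → θ t = θ (T + 1) := by
    intro t ht
    have h1 : θ (T + 1) + ∫ s in (T + 1)..t, b s = θ t :=
      intervalIntegral.integral_add_adjacent_intervals
        (hb.continuous.intervalIntegrable _ _) (hb.continuous.intervalIntegrable _ _)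
    have h2 : ∫ s in (T + 1)..t, b s = 0 := by
      rw [intervalIntegral.integral_congr (g := fun _ => (0 : ℝ))]
      · simp
      · intro s hs
        rw [uIcc_of_le ht] at hs
        exact hbr s hs.1
    rw [← h1, h2, add_zero]
  have hcl : ∀ t, t ≤ -1 → θ t = θ (-1) := by
    intro t ht
    have h1 : θ (-1) + ∫ s in (-1)..t, b s = θ t :=
      intervalIntegral.integral_add_adjacent_intervals
        (hb.continuous.intervalIntegrable _ _) (hb.continuous.intervalIntegrable _ _)
    have h2 : ∫ s in (-1)..t, b s = 0 := by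
      rw [intervalIntegral.integral_congr (g := fun _ => (0 : ℝ))]
      · simp
      · intro s hs
        rw [uIcc_of_ge ht] at hs
        exact hbl s hs.2
    rw [← h1, h2, add_zero]
  refine ⟨θ, ?_, fun t => ⟨?_, ?_⟩, fun t h1 h2 => ?_, fun t ht => ?_⟩
  · have : ContDiff ℝ ((⊤ : ENat) : WithTop ENat) θ :=
      contDiff_infty_iff_deriv.mpr ⟨fun t => (hd t).differentiableAt, by rw [hder]; exact hb⟩
    exact this
  · rcases le_total t (-1) with h | h
    · rw [hcl t h]
      have := hmono2 (show (-1 : ℝ) ≤ 0 by norm_num)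
      simp only [h0] at this
      linarith
    · have h1 := hmono h
      have := hmono2 (show (-1 : ℝ) ≤ 0 by norm_num)
      simp only [h0] at this
      linarith
  · rcases le_total t (T + 1) with h | h
    · have h1 := hmono h
      have := hmono2 (show (0 : ℝ) ≤ T + 1 by linarith)
      simp only [h0] at this
      linarith
    · rw [hcr t h]
      have := hmono2 (show (0 : ℝ) ≤ T + 1 by linarith)
      simp only [h0] at this
      linarith
  · have h3 : ∫ s in (0 : ℝ)..t, b s = ∫ s in (0 : ℝ)..t, (1 : ℝ) := by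
      refine intervalIntegral.integral_congr fun s hs => ?_
      have : uIcc 0 t ⊆ Icc (-ε) (T + ε) :=
        uIcc_subset_Icc ⟨by linarith, by linarith⟩ ⟨h1, h2⟩
      exact hbm s (this hs).1 (this hs).2
    simp only [θ]
    rw [h3]
    simp
  · rw [hder]
    rcases le_abs.mp ht with h | h
    · exact hbr t (by linarith)
    · exact hbl t (by linarith)

end SchedN

open SchedN in
/-- SCHED -/
theorem specSched : SpecSched := by
  intro T n ε hT hn hε h4 hε1
  obtain ⟨θ, hθ, hθr, hθm, hθd⟩ := clip T ε hT hε hε1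
  have hn0 : (0 : ℝ) < n := by exact_mod_cast hn
  have hq : 0 < T / n := by positivity
  let st : ℝ → ℝ := fun t => ∑ k ∈ Finset.range n, S ((t - (T / n * (k + 1) - ε)) / ε)
  let κ : ℝ → ℝ := fun t => S ((t - (-ε)) / ε) * S ((T + ε - t) / ε)
  let β : ℝ → ℝ := fun t => S ((t - 0) / ε)
  let h : ℝ → ℝ := fun t => min 1 (∑ k ∈ Finset.range (n + 1), hat ε (T / n * k) t)
  have hsum : Continuous fun t => ∑ k ∈ Finset.range (n + 1), hat ε (T / n * k) t :=
    continuous_finsetSum _ fun k _ => hat_cont _ _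
  have hh : Continuous h := continuous_const.min hsum
  have hκ0 : ∀ t, (t ≤ -ε ∨ T + ε ≤ t) → κ t = 0 := by
    rintro t (ht | ht)
    · simp only [κ]
      rw [S0 hε (by linarith), zero_mul]
    · simp only [κ]
      rw [S0 (a := T + ε - t) hε (by linarith), mul_zero]
  have hκ1 : ∀ t, 0 ≤ t → t ≤ T → κ t = 1 := by
    intro t h1 h2
    simp only [κ]
    rw [S1 hε (by linarith), S1 hε (by linarith), mul_one]
  refine ⟨st, κ, β, θ, h, ContDiff.sum fun k _ => S_lin _ _, (S_lin _ _).mul (S_lin' _ _),
    S_lin _ _, hθ, hh, fun t => ⟨Finset.sum_nonneg fun k _ => Snn _, ?_⟩,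
    fun t => ⟨mul_nonneg (Snn _) (Snn _), mul_le_one₀ (Sle _) (Snn _) (Sle _)⟩,
    fun t => ⟨Snn _, Sle _⟩, hθr, fun t => ⟨le_min zero_le_one
      (Finset.sum_nonneg fun k _ => hat_nn _ _ _), min_le_left _ _⟩, fun t ht => ?_, fun t ht => ?_,
    hκ1, hκ0, fun t ht => ?_, fun t ht => ?_, hθm, hθd, ?_, fun t => ?_⟩
  · calc st t ≤ ∑ k ∈ Finset.range n, (1 : ℝ) := Finset.sum_le_sum fun k _ => Sle _
      _ = n := by simp
  · refine Finset.sum_eq_zero fun k _ => S0 hε ?_
    have : (0 : ℝ) ≤ k := Nat.cast_nonneg k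
    have : T / n * 1 ≤ T / n * (k + 1) := by gcongr; linarith
    linarith
  · have h1 : ∀ k ∈ Finset.range n, S ((t - (T / n * (k + 1) - ε)) / ε) = 1 := by
      intro k hk
      refine S1 hε ?_
      rw [Finset.mem_range] at hk
      have h2 : ((k : ℝ) + 1) ≤ n := by exact_mod_cast hk
      have h3 : T / n * (k + 1) ≤ T / n * n := by gcongr
      rw [div_mul_cancel₀ _ hn0.ne'] at h3
      linarith
    simp only [st]
    rw [Finset.sum_congr rfl h1]
    simp
  · exact S0 hε (by linarith)
  · exact S1 hε (by linarith)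
  · calc ∫ t in (-(T + 2))..(T + 2), h t
        ≤ ∫ t in (-(T + 2))..(T + 2), ∑ k ∈ Finset.range (n + 1), hat ε (T / n * k) t := by
          refine intervalIntegral.integral_mono (by linarith) (hh.intervalIntegrable _ _)
            (hsum.intervalIntegrable _ _) fun t => min_le_right _ _
      _ = ∑ k ∈ Finset.range (n + 1), ∫ t in (-(T + 2))..(T + 2), hat ε (T / n * k) t :=
          intervalIntegral.integral_finsetSum fun k _ => (hat_cont _ _).intervalIntegrable _ _
      _ ≤ ∑ k ∈ Finset.range (n + 1), 4 * ε :=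
          Finset.sum_le_sum fun k _ => hat_int hε _ _ _ (by linarith)
      _ = 4 * (n + 1) * ε := by
          rw [Finset.sum_const, Finset.card_range, nsmul_eq_mul]
          push_cast
          ring
      _ ≤ 6 * (n + 1) * ε := by gcongr; norm_num
  · by_cases h1 : t ≤ -ε ∨ T + ε ≤ t
    · exact Or.inl (hκ0 t h1)
    right
    rw [not_or, not_le, not_le] at h1
    by_cases h2 : ∃ k ∈ Finset.range (n + 1), |t - T / n * k| ≤ ε
    · obtain ⟨k, hk, hk'⟩ := h2
      left
      refine min_eq_left ?_
      calc (1 : ℝ) = hat ε (T / n * k) t := (hat_one hε hk').symm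
        _ ≤ ∑ k ∈ Finset.range (n + 1), hat ε (T / n * k) t :=
          Finset.single_le_sum (f := fun k : ℕ => hat ε (T / n * k) t)
            (fun k _ => hat_nn _ _ _) hk
    right
    push Not at h2
    have e0 := h2 0 (by simp)
    rw [Nat.cast_zero, mul_zero, sub_zero, lt_abs] at e0
    have e1 : ε < t := by
      rcases e0 with e | e
      · exact e
      · linarith
    have e2 := h2 n (by simp)
    rw [div_mul_cancel₀ _ hn0.ne', lt_abs] at e2
    have e3 : t < T - ε := by
      rcases e2 with e | e <;> linarith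
    set k : ℕ := ⌊t / (T / n)⌋₊ with hk
    have e4 : (k : ℝ) ≤ t / (T / n) := Nat.floor_le (div_nonneg (by linarith) hq.le)
    have e5 : t / (T / n) < k + 1 := Nat.lt_floor_add_one _
    rw [le_div_iff₀ hq] at e4
    rw [div_lt_iff₀ hq] at e5
    have hkn : k < n := by
      by_contra hcon
      have : (n : ℝ) ≤ k := by exact_mod_cast not_lt.mp hcon
      have h3 : (n : ℝ) * (T / n) ≤ k * (T / n) := by gcongr
      rw [mul_div_cancel₀ _ hn0.ne'] at h3
      linarith
    have e6 := h2 (k + 1) (by simpa using hkn)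
    rw [lt_abs] at e6
    push_cast at e6
    have e7 : t < T / n * (k + 1) - ε := by
      rcases e6 with e | e <;> linarith
    refine ⟨e1.le, by linarith, hκ1 t (by linarith) (by linarith), k, hkn, by linarith,
      by linarith, ?_⟩
    have e8 : ∀ j ∈ Finset.range n, S ((t - (T / n * (j + 1) - ε)) / ε) =
        if j < k then (1 : ℝ) else 0 := by
      intro j hj
      by_cases hjk : j < k
      · rw [if_pos hjk]
        refine S1 hε ?_
        have h3 : (j : ℝ) + 1 ≤ k := by exact_mod_cast hjk
        have h5 : T / n * (j + 1) ≤ T / n * k := by gcongr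
        linarith
      · rw [if_neg hjk]
        refine S0 hε ?_
        have h3 : (k : ℝ) + 1 ≤ j + 1 := by exact_mod_cast Nat.succ_le_succ (not_lt.mp hjk)
        have h5 : T / n * (k + 1) ≤ T / n * (j + 1) := by gcongr
        linarith
    simp only [st]
    rw [Finset.sum_congr rfl e8, ← Finset.sum_filter]
    have e9 : (Finset.range n).filter (fun j => j < k) = Finset.range k := by
      ext j
      simp only [Finset.mem_filter, Finset.mem_range]
      omega
    rw [e9]
    simp

end MPfab
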